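import Pool.Agent.Lib_helper51.Ecl.SDefs

/-! # From boxes to nodes -/

set_option autoImplicit false

namespace Pool.Agent.Ecl

open K

/-- All points with parameters in the rectangle (units `1/2048`) are fine, for the given mode. -/
def Pts (n : K.Node) (mode : ℕ) (u0 u1 v0 v1 : ℤ) : Prop :=
  ∀ u v : ℝ, (u0 : ℝ) ≤ u → u ≤ u1 → (v0 : ℝ) ≤ v → v ≤ v1 → ∃ x : St,
    OnSec n.src (n.kap / w60) (nX n (u / 2048) (v / 2048)) (nY n (u / 2048) (v / 2048)) x ∧
      EndOK n mode x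

theorem exists_local {c h x : ℝ} (hh : 0 ≤ h) (h1 : c - h ≤ x) (h2 : x ≤ c + h) :
    ∃ y : ℝ, |y| ≤ 1 ∧ c + y * h = x := by
  rcases hh.eq_or_lt with h0 | h0
  · refine ⟨0, by simp, ?_⟩
    subst h0
    linarith
  · refine ⟨(x - c) / h, ?_, ?_⟩
    · rw [abs_div, abs_of_pos h0, div_le_one h0, abs_le]
      constructor <;> linarith
    · rw [div_mul_cancel₀ _ h0.ne']
      ring

theorem pts_of_box {n : K.Node} {b : Box} (h : BoxOK n b) {mode : ℕ} {u0 u1 v0 v1 : ℤ}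
    (hb : b.mode = mode ∧ 0 ≤ b.uh ∧ 0 ≤ b.vh ∧ u0 = b.uc - b.uh ∧ u1 = b.uc + b.uh ∧
      v0 = b.vc - b.vh ∧ v1 = b.vc + b.vh) :
    Pts n mode u0 u1 v0 v1 := by
  obtain ⟨hm, hu, hv, h1, h2, h3, h4⟩ := hb
  intro u v hu0 hu1 hv0 hv1
  have hu' : (0 : ℝ) ≤ b.uh := by exact_mod_cast hu
  have hv' : (0 : ℝ) ≤ b.vh := by exact_mod_cast hv
  subst h1 h2 h3 h4
  push_cast at hu0 hu1 hv0 hv1
  obtain ⟨a, ha, ha'⟩ := exists_local hu' hu0 hu1
  obtain ⟨c, hc, hc'⟩ := exists_local hv' hv0 hv1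
  obtain ⟨x, hx, hx'⟩ := h a c ha hc
  refine ⟨x, ?_, hm ▸ hx'⟩
  rw [bu, bv, ha', hc'] at hx
  exact hx

theorem Pts.splitU {n : K.Node} {mode : ℕ} {u0 m u1 v0 v1 : ℤ} (h1 : Pts n mode u0 m v0 v1)
    (h2 : Pts n mode m u1 v0 v1) : Pts n mode u0 u1 v0 v1 := by
  intro u v a b c d
  rcases le_total u (m : ℝ) with h | h
  · exact h1 u v a h c d
  · exact h2 u v h b c d

theorem Pts.splitV {n : K.Node} {mode : ℕ} {u0 u1 v0 m v1 : ℤ} (h1 : Pts n mode u0 u1 v0 m)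
    (h2 : Pts n mode u0 u1 m v1) : Pts n mode u0 u1 v0 v1 := by
  intro u v a b c d
  rcases le_total v (m : ℝ) with h | h
  · exact h1 u v a b c h
  · exact h2 u v a b h d

theorem SegM.trans {n : K.Node} {D D' D'' : StaD} (h1 : SegM n D D') (h2 : SegM n D' D'') :
    SegM n D D'' := by
  intro u v hu hv z τ hz hτ hg hs
  obtain ⟨τ', hτ', hg', hs'⟩ := h1 u v hu hv z τ hz hτ hg hs
  exact h2 u v hu hv z τ' hz hτ' hg' hs'

theorem boxOK0 {n : K.Node} {b : Box} {D : StaD} (h1 : SegA n b D) (h3 : SegZ n b D) :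
    BoxOK n b := by
  intro u v hu hv
  obtain ⟨z, τ, hz, hτ, h0, hg, hs⟩ := h1 u v hu hv
  exact ⟨z 0, h0, h3 u v hu hv z τ hz hτ h0 hg hs⟩

theorem boxOK1 {n : K.Node} {b : Box} {D D' : StaD} (h1 : SegA n b D) (h2 : SegM n D D')
    (h3 : SegZ n b D') : BoxOK n b := by
  intro u v hu hv
  obtain ⟨z, τ, hz, hτ, h0, hg, hs⟩ := h1 u v hu hv
  obtain ⟨τ', hτ', hg', hs'⟩ := h2 u v hu hv z τ hz hτ hg hs
  exact ⟨z 0, h0, h3 u v hu hv z τ' hz hτ' h0 hg' hs'⟩

theorem nodeOK_of {n : K.Node} (hd : 0 < n.Ua * n.Vb - n.Ub * n.Va)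
    (hs : ∀ t ∈ n.succ, 0 < t.Ua * t.Vb - t.Ub * t.Va)
    (h0 : Pts n 0 (-2048) 2048 (-2048) 2048) (h1 : Pts n 1 (-2048) (-2048) (-2048) 2048)
    (h2 : Pts n 2 2048 2048 (-2048) 2048) : NodeOK n := by
  refine ⟨hd, hs, ?_⟩
  intro u v hu hv
  rw [abs_le] at hu hv
  have key : ∀ mode : ℕ, (∃ x : St, OnSec n.src (n.kap / w60) (nX n u v) (nY n u v) x ∧
      EndOK n mode x) → (u = -1 → mode = 1) → (u = 1 → mode = 2) → PointOK n u v := by
    rintro mode ⟨x, hx, he, he'⟩ hm1 hm2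
    refine ⟨x, hx, ?_, ?_⟩
    · intro ht
      obtain ⟨y, hy, hc⟩ := he ht
      refine ⟨y, hy, ?_⟩
      intro t htm
      obtain ⟨U, V, hX, hY, hUV, hl, hr⟩ := hc t htm
      exact ⟨U, V, hX, hY, hUV, fun h => hl (hm1 h), fun h => hr (by rw [hm2 h])⟩
    · intro ht
      obtain ⟨σ, hσ, hl, hr⟩ := he' ht
      exact ⟨σ, hσ, fun h => hl (hm1 h), fun h => hr (by rw [hm2 h])⟩
  have e1 : (2048 * u) / 2048 = u := by ring
  have e2 : (2048 * v) / 2048 = v := by ring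
  by_cases hl : u = -1
  · have := h1 (2048 * u) (2048 * v) (by push_cast; linarith) (by push_cast; linarith)
      (by push_cast; linarith) (by push_cast; linarith)
    rw [e1, e2] at this
    exact key 1 this (fun _ => rfl) (fun h => absurd (hl.symm.trans h) (by norm_num))
  by_cases hr : u = 1
  · have := h2 (2048 * u) (2048 * v) (by push_cast; linarith) (by push_cast; linarith)
      (by push_cast; linarith) (by push_cast; linarith)
    rw [e1, e2] at this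
    exact key 2 this (fun h => absurd h hl) (fun _ => rfl)
  · have := h0 (2048 * u) (2048 * v) (by push_cast; linarith) (by push_cast; linarith)
      (by push_cast; linarith) (by push_cast; linarith)
    rw [e1, e2] at this
    exact key 0 this (fun h => absurd h hl) (fun h => absurd h hr)

end Pool.Agent.Ecl
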