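import Pool.Agent.Lib_helper51.EclS.CTXC

/-! Wanted names of block CTXC -/

namespace Pool.Agent.Ecl

alias msk_land := msk_land_pr
alias dpoly_rep := dpoly_rep_pr
alias dpoly_coeff0 := dpoly_coeff0_pr

end Pool.Agent.Ecl
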