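import Pool.Agent.Lib_helper51.EclS.VALA

/-! Wanted names of block VALA -/

namespace Pool.Agent.Ecl

alias val_add := val_add_pr
alias val_sub := val_sub_pr
alias val_C_mul := val_C_mul_pr
alias val_C := val_C_pr
alias val_mul := val_mul_pr

end Pool.Agent.Ecl
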