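import Pool.Agent.Lib_helper51.Ecl.SVDefs
import Pool.Agent.Lib_helper51.EclS.CTXCA
import Pool.Agent.Lib_helper51.EclS.DIGA
import Pool.Agent.Lib_helper51.EclS.VALAA

set_option autoImplicit false
set_option exponentiation.threshold 300000

namespace Pool.Agent.Ecl

open Real Polynomial K Set

/-! ### closed facts about the mask and the offset -/

/-- digits 2 to 16 of the offset -/
def AFF_A : ℕ := tri (2 ^ 68) 160 17 8 / 2 ^ 320 % 2 ^ 2400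
/-- digits from 18 on of the offset -/
def AFF_B : ℕ := tri (2 ^ 68) 160 17 8 / 2 ^ 2880
/-- digits 2 to 16 of the mask -/
def AFF_A' : ℕ := tri (2 ^ 69 - 1) 160 17 8 / 2 ^ 320 % 2 ^ 2400
/-- digits from 18 on of the mask -/
def AFF_B' : ℕ := tri (2 ^ 69 - 1) 160 17 8 / 2 ^ 2880

theorem AFF_O : tri (2 ^ 68) 160 17 8 =
    2 ^ 68 + 2 ^ 160 * (2 ^ 68 + 2 ^ 160 * (AFF_A + 2 ^ 2400 * (2 ^ 68 + 2 ^ 160 * AFF_B))) := by
  decide +kernel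

theorem AFF_M : tri (2 ^ 69 - 1) 160 17 8 = (2 ^ 69 - 1) + 2 ^ 160 * ((2 ^ 69 - 1) + 2 ^ 160 *
    (AFF_A' + 2 ^ 2400 * ((2 ^ 69 - 1) + 2 ^ 160 * AFF_B'))) := by
  decide +kernel

theorem AFF_AA : Nat.land AFF_A AFF_A' = AFF_A := by decide +kernel
theorem AFF_BB : Nat.land AFF_B AFF_B' = AFF_B := by decide +kernel
theorem AFF_ltA : AFF_A < 2 ^ 2400 := Nat.mod_lt _ (Nat.two_pow_pos _)
theorem AFF_ltA' : AFF_A' < 2 ^ 2400 := Nat.mod_lt _ (Nat.two_pow_pos _)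
theorem AFF_MO : tri (2 ^ 69 - 1) 160 17 8 ≤ Nat.mul 2 (tri (2 ^ 68) 160 17 8) := by
  decide +kernel

theorem AFF_land (k a b c d : ℕ) (ha : a < 2 ^ k) (hc : c < 2 ^ k) :
    Nat.land (a + 2 ^ k * b) (c + 2 ^ k * d) = Nat.land a c + 2 ^ k * Nat.land b d := by
  have h1 : (a + 2 ^ k * b) &&& (c + 2 ^ k * d) =
      ((a + 2 ^ k * b) &&& (c + 2 ^ k * d)) % 2 ^ k +
        2 ^ k * (((a + 2 ^ k * b) &&& (c + 2 ^ k * d)) / 2 ^ k) := (Nat.mod_add_div _ _).symm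
  have e1 : (a + 2 ^ k * b) % 2 ^ k = a := by
    rw [Nat.add_mul_mod_self_left, Nat.mod_eq_of_lt ha]
  have e2 : (c + 2 ^ k * d) % 2 ^ k = c := by
    rw [Nat.add_mul_mod_self_left, Nat.mod_eq_of_lt hc]
  have e3 : (a + 2 ^ k * b) / 2 ^ k = b := by
    rw [Nat.add_mul_div_left _ _ (Nat.two_pow_pos k), Nat.div_eq_of_lt ha, zero_add]
  have e4 : (c + 2 ^ k * d) / 2 ^ k = d := by
    rw [Nat.add_mul_div_left _ _ (Nat.two_pow_pos k), Nat.div_eq_of_lt hc, zero_add]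
  rw [Nat.and_mod_two_pow, Nat.and_div_two_pow, e1, e2, e3, e4] at h1
  exact h1

theorem AFF_digit {a : ℕ} (ha : a < 2 ^ 69) : Nat.land a (2 ^ 69 - 1) = a := by
  show a &&& (2 ^ 69 - 1) = a
  rw [Nat.and_two_pow_sub_one_eq_mod, Nat.mod_eq_of_lt ha]

theorem AFF_msk {a b c : ℕ} (ha : a < 2 ^ 69) (hb : b < 2 ^ 69) (hc : c < 2 ^ 69) :
    Msk (a + 2 ^ 160 * (b + 2 ^ 160 * (AFF_A + 2 ^ 2400 * (c + 2 ^ 160 * AFF_B)))) := by
  show Nat.land _ (tri (2 ^ 69 - 1) 160 17 8) = _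
  have hlt : (2 : ℕ) ^ 69 ≤ 2 ^ 160 := by norm_num
  have hm : (2 : ℕ) ^ 69 - 1 < 2 ^ 160 := by norm_num
  rw [AFF_M, AFF_land 160 _ _ _ _ (ha.trans_le hlt) hm, AFF_land 160 _ _ _ _ (hb.trans_le hlt) hm,
    AFF_land 2400 _ _ _ _ AFF_ltA AFF_ltA', AFF_land 160 _ _ _ _ (hc.trans_le hlt) hm,
    AFF_digit ha, AFF_digit hb, AFF_digit hc, AFF_AA, AFF_BB]

theorem AFF_small {x : ℤ} (h : small x = true) : |x| ≤ 2 ^ 67 := by
  have h1 : Int.natAbs x ≤ 2 ^ 67 := Nat.le_of_ble_eq_true h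
  rw [Int.abs_eq_natAbs]
  exact_mod_cast h1

theorem AFF_eq (x0 x1 x2 : ℤ) : affY ctx0 x0 x1 x2 = Int.toNat
    (((tri (2 ^ 68) 160 17 8 : ℕ) : ℤ) + (x0 + x1 * 2 ^ 2720 + x2 * 2 ^ 160)) := by
  unfold affY
  simp only [fInt_eq, imul_eq, iadd_eq]
  congr 1

theorem affY_spec_pr {x0 x1 x2 : ℤ} (h0 : small x0 = true) (h1 : small x1 = true)
    (h2 : small x2 = true) : Msk (affY ctx0 x0 x1 x2) ∧
      ∀ u v : ℝ, pv (affY ctx0 x0 x1 x2) u v = (x0 + u * x1 + v * x2) / w60 := by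
  have b0 := abs_le.1 (AFF_small h0)
  have b1 := abs_le.1 (AFF_small h1)
  have b2 := abs_le.1 (AFF_small h2)
  obtain ⟨a, ha⟩ : ∃ a : ℕ, (a : ℤ) = 2 ^ 68 + x0 := ⟨(2 ^ 68 + x0).toNat,
    Int.toNat_of_nonneg (by norm_num at b0 ⊢; linarith)⟩
  obtain ⟨c, hc⟩ : ∃ c : ℕ, (c : ℤ) = 2 ^ 68 + x1 := ⟨(2 ^ 68 + x1).toNat,
    Int.toNat_of_nonneg (by norm_num at b1 ⊢; linarith)⟩
  obtain ⟨b, hb⟩ : ∃ b : ℕ, (b : ℤ) = 2 ^ 68 + x2 := ⟨(2 ^ 68 + x2).toNat,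
    Int.toNat_of_nonneg (by norm_num at b2 ⊢; linarith)⟩
  have ha' : a < 2 ^ 69 := by zify; rw [ha]; norm_num at b0 ⊢; linarith
  have hb' : b < 2 ^ 69 := by zify; rw [hb]; norm_num at b2 ⊢; linarith
  have hc' : c < 2 ^ 69 := by zify; rw [hc]; norm_num at b1 ⊢; linarith
  have hy : affY ctx0 x0 x1 x2 =
      a + 2 ^ 160 * (b + 2 ^ 160 * (AFF_A + 2 ^ 2400 * (c + 2 ^ 160 * AFF_B))) := by
    rw [AFF_eq, AFF_O]
    have e : (((2 ^ 68 + 2 ^ 160 * (2 ^ 68 + 2 ^ 160 *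
        (AFF_A + 2 ^ 2400 * (2 ^ 68 + 2 ^ 160 * AFF_B))) : ℕ) : ℤ) +
        (x0 + x1 * 2 ^ 2720 + x2 * 2 ^ 160)) =
        ((a + 2 ^ 160 * (b + 2 ^ 160 * (AFF_A + 2 ^ 2400 * (c + 2 ^ 160 * AFF_B))) : ℕ) : ℤ) := by
      push_cast
      rw [ha, hb, hc]
      ring
    rw [e, Int.toNat_natCast]
  have hmsk : Msk (affY ctx0 x0 x1 x2) := by
    rw [hy]
    exact AFF_msk ha' hb' hc'
  refine ⟨hmsk, fun u v => ?_⟩
  have hrep := dpoly_rep hmsk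
  have hN : ((affY ctx0 x0 x1 x2 : ℕ) : ℤ) - (ctx0.O : ℤ) =
      x0 + x1 * 2 ^ 2720 + x2 * 2 ^ 160 := by
    have e1 : ((affY ctx0 x0 x1 x2 : ℕ) : ℤ) =
        ((tri (2 ^ 68) 160 17 8 : ℕ) : ℤ) + (x0 + x1 * 2 ^ 2720 + x2 * 2 ^ 160) := by
      rw [hy, AFF_O]
      push_cast
      rw [ha, hb, hc]
      ring
    have e3 : ctx0.O = tri (2 ^ 68) 160 17 8 := rfl
    rw [e1, e3]
    ring
  have hpoly : dpoly (affY ctx0 x0 x1 x2) = C x0 + (C x1 * X ^ 17 + C x2 * X ^ 1) := by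
    apply poly_unique
    · rw [hrep.ev, hN]
      simp only [eval_add, eval_mul, eval_C, eval_pow, eval_X]
      rw [← pow_mul, pow_one]
      ring
    · intro n
      exact lt_of_le_of_lt (hrep.bd n) (by norm_num)
    · intro n
      have c0 : |(C x0 : ℤ[X]).coeff n| ≤ 2 ^ 67 := by
        rw [coeff_C]
        split_ifs
        · exact AFF_small h0
        · simp
      have c1 : |(C x1 * X ^ 17 : ℤ[X]).coeff n| ≤ 2 ^ 67 := by
        rw [coeff_C_mul_X_pow]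
        split_ifs
        · exact AFF_small h1
        · simp
      have c2 : |(C x2 * X ^ 1 : ℤ[X]).coeff n| ≤ 2 ^ 67 := by
        rw [coeff_C_mul_X_pow]
        split_ifs
        · exact AFF_small h2
        · simp
      rw [coeff_add, coeff_add]
      have t1 := abs_add_le ((C x0 : ℤ[X]).coeff n)
        ((C x1 * X ^ 17 : ℤ[X]).coeff n + (C x2 * X ^ 1 : ℤ[X]).coeff n)
      have t2 := abs_add_le ((C x1 * X ^ 17 : ℤ[X]).coeff n) ((C x2 * X ^ 1 : ℤ[X]).coeff n)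
      have t3 : (2 : ℤ) ^ 67 + (2 ^ 67 + 2 ^ 67) < 2 ^ 158 := by norm_num
      linarith
  have hX : ∀ n : ℕ, val (X ^ n : ℤ[X]) u v 0 = mon u v 0 n := by
    intro n
    unfold val
    rw [← monomial_one_right_eq_X_pow, sum_monomial_index]
    · simp
    · simp
  unfold pv
  rw [hpoly, val_add, val_add, val_C, val_C_mul, val_C_mul, hX, hX]
  unfold mon
  norm_num
  ring

theorem AFF_val_neg (f : ℤ[X]) (u v t : ℝ) : val (-f) u v t = -val f u v t := by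
  have h := val_C_mul (-1) f u v t
  rw [show (C (-1) : ℤ[X]) * f = -f by simp] at h
  rw [h]
  push_cast
  ring

theorem neg_spec_pr {y : ℕ} (h : Msk y) (h' : Msk (Nat.sub (Nat.mul 2 ctx0.O) y)) :
    ∀ u v : ℝ, pv (Nat.sub (Nat.mul 2 ctx0.O) y) u v = -pv y u v := by
  intro u v
  have r1 := dpoly_rep h
  have r2 := dpoly_rep h'
  have hle : y ≤ Nat.mul 2 ctx0.O := by
    have e1 : y ≤ ctx0.M := by
      have h2 : Nat.land y ctx0.M = y := h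
      rw [← h2]
      exact Nat.and_le_right
    exact e1.trans AFF_MO
  have hcast : ((Nat.sub (Nat.mul 2 ctx0.O) y : ℕ) : ℤ) = 2 * (ctx0.O : ℤ) - y := by
    have : ((Nat.mul 2 ctx0.O - y : ℕ) : ℤ) = ((Nat.mul 2 ctx0.O : ℕ) : ℤ) - (y : ℤ) :=
      Int.ofNat_sub hle
    have e2 : ((Nat.mul 2 ctx0.O : ℕ) : ℤ) = 2 * (ctx0.O : ℤ) := Nat.cast_mul 2 ctx0.O
    rw [← e2]
    exact this
  have hp : dpoly (Nat.sub (Nat.mul 2 ctx0.O) y) = -dpoly y := by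
    apply poly_unique
    · rw [r2.ev, eval_neg, r1.ev, hcast]
      ring
    · intro n
      exact lt_of_le_of_lt (r2.bd n) (by norm_num)
    · intro n
      rw [coeff_neg, abs_neg]
      exact lt_of_le_of_lt (r1.bd n) (by norm_num)
  unfold pv
  rw [hp, AFF_val_neg, neg_div]

end Pool.Agent.Ecl
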