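import Pool.Agent.Lib_helper51.EclS.ENE

/-! Wanted names of block ENE -/

namespace Pool.Agent.Ecl

alias energy_spec := energy_spec_pr

end Pool.Agent.Ecl
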