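import Pool.Agent.Lib_helper51.EclS.FLDC

/-! Wanted names of block FLDC -/

namespace Pool.Agent.Ecl

alias fld_tay := fld_tay_pr

end Pool.Agent.Ecl
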