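import Pool.Agent.Lib_helper51.EclS.FN4

/-! Wanted names of block FN4 -/

namespace Pool.Agent.Ecl

alias finish4 := finish4_pr

end Pool.Agent.Ecl
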