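import Pool.Agent.Lib_helper51.EclS.LNK

/-! Wanted names of block LNK -/

namespace Pool.Agent.Ecl

alias load_spec := load_spec_pr
alias link_sound := link_sound_pr

end Pool.Agent.Ecl
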