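import Pool.Agent.Lib_helper51.EclS.LSTA

/-! Wanted names of block LSTA -/

namespace Pool.Agent.Ecl

alias endY_spec := endY_spec_pr
alias lv_zero := lv_zero_pr
alias lpoly_coeff0 := lpoly_coeff0_pr

end Pool.Agent.Ecl
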