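import Pool.Agent.Lib_helper51.EclS.LSTC

/-! Wanted names of block LSTC -/

namespace Pool.Agent.Ecl

alias dTM_spec := dTM_spec_pr
alias lv_deriv := lv_deriv_pr

end Pool.Agent.Ecl
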