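import Pool.Agent.Lib_helper51.EclS.UVT

/-! Wanted names of block UVT -/

namespace Pool.Agent.Ecl

alias uvTM_spec := uvTM_spec_pr
alias val_dpoly := val_dpoly_pr
alias TMP.mono' := TMP.mono'_pr

end Pool.Agent.Ecl
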