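import Pool.Agent.Lib_helper51.EclS.VALB

/-! Wanted names of block VALB -/

namespace Pool.Agent.Ecl

alias abs_val_le := abs_val_le_pr
alias abs_val_sub_le := abs_val_sub_le_pr
alias lo_le_val := lo_le_val_pr
alias lnorm_nonneg := lnorm_nonneg_pr
alias lnorm_add_le := lnorm_add_le_pr
alias lnorm_sub_le := lnorm_sub_le_pr
alias lnorm_mul_le := lnorm_mul_le_pr
alias lnorm_C_mul := lnorm_C_mul_pr
alias coeff_le_lnorm := coeff_le_lnorm_pr

end Pool.Agent.Ecl
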