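import Pool.Agent.Lib_helper51.EclS.VALC

/-! Wanted names of block VALC -/

namespace Pool.Agent.Ecl

alias coeff_mul_le := coeff_mul_le_pr
alias vld_mono := vld_mono_pr
alias Rep.add' := Rep.add'_pr
alias Rep.sub' := Rep.sub'_pr
alias Rep.mono' := Rep.mono'_pr

end Pool.Agent.Ecl
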