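import Pool.Agent.Lib_helper51.EclS.DIGA
import Pool.Agent.Lib_helper51.EclS.CTXAA
import Pool.Agent.Lib_helper51.EclS.CTXBA
import Pool.Agent.Lib_helper51.EclS.CTXCA
import Pool.Agent.Lib_helper51.EclS.VALAA
import Pool.Agent.Lib_helper51.EclS.VALBA
import Pool.Agent.Lib_helper51.EclS.VALCA
import Pool.Agent.Lib_helper51.EclS.L1SA
import Pool.Agent.Lib_helper51.EclS.MULA
import Pool.Agent.Lib_helper51.EclS.UVTA
import Pool.Agent.Lib_helper51.EclS.LSTAA
import Pool.Agent.Lib_helper51.EclS.LSTBA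
import Pool.Agent.Lib_helper51.EclS.LSTCA
import Pool.Agent.Lib_helper51.EclS.STXA
import Pool.Agent.Lib_helper51.EclS.RESAA
import Pool.Agent.Lib_helper51.EclS.RESBA
import Pool.Agent.Lib_helper51.EclS.RESCA
import Pool.Agent.Lib_helper51.EclS.NUMAA
import Pool.Agent.Lib_helper51.EclS.NUMBA
import Pool.Agent.Lib_helper51.EclS.NUMCA
import Pool.Agent.Lib_helper51.EclS.NUMDA
import Pool.Agent.Lib_helper51.EclS.RELA
import Pool.Agent.Lib_helper51.EclS.FLDAA
import Pool.Agent.Lib_helper51.EclS.FLDBA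
import Pool.Agent.Lib_helper51.EclS.FLDCA
import Pool.Agent.Lib_helper51.EclS.FLDDA
import Pool.Agent.Lib_helper51.EclS.CMPA
import Pool.Agent.Lib_helper51.EclS.RAWA
import Pool.Agent.Lib_helper51.EclS.OUTA
import Pool.Agent.Lib_helper51.EclS.STPA
import Pool.Agent.Lib_helper51.EclS.ENEA
import Pool.Agent.Lib_helper51.EclS.REEA
import Pool.Agent.Lib_helper51.EclS.AFFA
import Pool.Agent.Lib_helper51.EclS.INIA
import Pool.Agent.Lib_helper51.EclS.ODEA
import Pool.Agent.Lib_helper51.EclS.INSA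
import Pool.Agent.Lib_helper51.EclS.INFA
import Pool.Agent.Lib_helper51.EclS.RUNA
import Pool.Agent.Lib_helper51.EclS.LNKA
import Pool.Agent.Lib_helper51.EclS.FN0A
import Pool.Agent.Lib_helper51.EclS.FN1A
import Pool.Agent.Lib_helper51.EclS.FN2A
import Pool.Agent.Lib_helper51.EclS.FN3A
import Pool.Agent.Lib_helper51.EclS.FN4A
import Pool.Agent.Lib_helper51.EclS.COVA
import Pool.Agent.Lib_helper51.EclS.SGAA
import Pool.Agent.Lib_helper51.EclS.SGMA
import Pool.Agent.Lib_helper51.EclS.SGZA
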