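import Pool.Agent.Lib_helper51.Ecl.SVDefs
import Pool.Agent.Lib_helper51.EclS.FLDDA
import Pool.Agent.Lib_helper51.EclS.RELA

/-! # Block CMP: the real step lemma -/

set_option autoImplicit false

namespace Pool.Agent.Ecl

open Set Filter Topology Real

theorem CMP_cl {x : ℝ} (h : |x| ≤ 2 ^ 20) : cl x = x := by
  unfold cl
  obtain ⟨h1, h2⟩ := abs_le.1 h
  rw [min_eq_right h2, max_eq_right h1]

theorem CMP_abs_le_cosh (x : ℝ) : |x| ≤ cosh x := by
  have h3 : |x| ^ 2 / 2 + |x| + 1 ≤ exp |x| := by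
    have := Real.quadratic_le_exp_of_nonneg (abs_nonneg x)
    linarith
  have h4 : -|x| + 1 ≤ exp (-|x|) := add_one_le_exp _
  rw [← cosh_abs, cosh_eq]
  nlinarith [sq_nonneg (|x| - 1), abs_nonneg x, sq_nonneg (|x| - 2)]

/-- the inequality at a boundary point -/
theorem CMP_pt {ξ η p q ξ' η' p' q' c s k g dp dq h eh et Cb Pb Qb lam m1 m2 B W mu rho' e : ℝ}
    (hh : 0 < h) (hlam : 0 < lam)
    (heh : 0 ≤ eh) (het : 0 ≤ et) (her : eh + et ≤ 1 / 1024) (h1 : |c + s - exp ξ'| ≤ eh)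
    (h2 : |c - s - exp (-ξ')| ≤ eh) (h3 : (k - cos η') ^ 2 + (g - sin η') ^ 2 ≤ et ^ 2)
    (hC : (|c| + eh) * (17 / 16) ≤ Cb) (hP : |p'| + 1 ≤ Pb) (hQ : |q'| + 1 ≤ Qb)
    (C1 : Cb ≤ 2 ^ 18) (P1 : Pb ≤ 2 ^ 18) (Q1 : Qb ≤ 2 ^ 18)
    (ha : |lam ^ 2 + S11h c s q'| ≤ m1) (hb : |lam ^ 2 + S22h k g p'| ≤ m1)
    (hc : |q' * (k * g)| ≤ m2) (hd : |p' * (c * s)| ≤ m2) (hW : 0 < W) (hWB : W ≤ B)
    (hB1 : B ≤ 1) (hB : 32 * B ≤ lam)
    (hE : lam ^ 2 * ((ξ - ξ') ^ 2 + (η - η') ^ 2) + (p - p') ^ 2 + (q - q') ^ 2 = W ^ 2)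
    (hdef : |dp - h * Fph c s k q'| + |dq - h * Fqh c k g p'| +
      h * (eh + et) * ((Cb + 1) * (Pb + Qb) + Cb ^ 3 + 2 * Cb + 3) ≤ rho')
    (hmu : h * (m1 + m2) / (2 * lam) + h * (Cb ^ 2 * (Pb + Qb + 2) + Cb ^ 4) * B / lam ^ 2 +
      h * (eh + et) * (2 * Cb ^ 3 + 4 * Cb + 1 + (Pb + Qb) * (2 * Cb + 1)) / lam ≤ mu)
    (he : rho' < e) :
    2 * (lam ^ 2 * ((ξ - ξ') * (cl p * h - h * p') + (η - η') * (cl q * h - h * q')) +
      (p - p') * (Fp (cl ξ) η (cl q) * h - dp) + (q - q') * (Fq (cl ξ) η (cl p) * h - dq)) <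
    2 * W * (e + mu * W) := by
  have hfa := fld_all hlam heh het her h1 h2 h3 hC hP hQ ha hb hc hd hW.le hWB hB hE
  set A : ℝ := (m1 + m2) / (2 * lam) + (Cb ^ 2 * (Pb + Qb + 2) + Cb ^ 4) * B / lam ^ 2 +
        (eh + et) * (2 * Cb ^ 3 + 4 * Cb + 1 + (Pb + Qb) * (2 * Cb + 1)) / lam with hA
  have hAmu : h * A ≤ mu := by
    refine le_trans (le_of_eq ?_) hmu
    rw [hA]
    ring
  set C0 : ℝ := (eh + et) * ((Cb + 1) * (Pb + Qb) + Cb ^ 3 + 2 * Cb + 3) with hC0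
  have hsq : ∀ y : ℝ, y ^ 2 ≤ W ^ 2 → |y| ≤ W := fun y hy => abs_le_of_sq_le_sq hy hW.le
  have i1 : 0 ≤ lam ^ 2 * (ξ - ξ') ^ 2 := by positivity
  have i2 : 0 ≤ lam ^ 2 * (η - η') ^ 2 := by positivity
  have i3 := sq_nonneg (p - p')
  have i4 := sq_nonneg (q - q')
  have hP' : |p - p'| ≤ W := hsq _ (by linarith)
  have hQ' : |q - q'| ≤ W := hsq _ (by linarith)
  have hX : lam * |ξ - ξ'| ≤ W := by
    have j1 : |lam * (ξ - ξ')| ≤ W := by
      apply hsq
      rw [mul_pow]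
      linarith
    rwa [abs_mul, abs_of_pos hlam] at j1
  have hX' : |ξ - ξ'| ≤ 1 / 32 := by
    have j1 : lam * |ξ - ξ'| ≤ lam * (1 / 32) := by linarith
    exact le_of_mul_le_mul_left j1 hlam
  have hcosh : cosh ξ' ≤ |c| + eh := by
    rw [cosh_eq]
    have j1 := (abs_le.1 h1).1
    have j2 := (abs_le.1 h2).1
    have j3 := le_abs_self c
    linarith
  have hxi : |ξ| ≤ 2 ^ 20 := by
    have j1 := CMP_abs_le_cosh ξ'
    have j4 : |ξ| ≤ |ξ - ξ'| + |ξ'| := by
      have := abs_add_le (ξ - ξ') ξ'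
      simpa using this
    have j5 := abs_nonneg c
    linarith
  have hp20 : |p| ≤ 2 ^ 20 := by
    have j4 : |p| ≤ |p - p'| + |p'| := by
      have := abs_add_le (p - p') p'
      simpa using this
    linarith
  have hq20 : |q| ≤ 2 ^ 20 := by
    have j4 : |q| ≤ |q - q'| + |q'| := by
      have := abs_add_le (q - q') q'
      simpa using this
    linarith
  rw [CMP_cl hxi, CMP_cl hp20, CMP_cl hq20]
  set d1 := dp - h * Fph c s k q' with hd1
  set d2 := dq - h * Fqh c k g p' with hd2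
  have e1 : lam ^ 2 * ((ξ - ξ') * (p * h - h * p') + (η - η') * (q * h - h * q')) +
      (p - p') * (Fp ξ η q * h - dp) + (q - q') * (Fq ξ η p * h - dq) =
      h * ((p - p') * (Fp ξ η q - Fph c s k q') + (q - q') * (Fq ξ η p - Fqh c k g p') +
        lam ^ 2 * ((ξ - ξ') * (p - p') + (η - η') * (q - q'))) - (p - p') * d1 -
        (q - q') * d2 := by
    rw [hd1, hd2]
    ring
  rw [e1]
  have e2 := mul_le_mul_of_nonneg_left hfa hh.le
  have e3 : -((p - p') * d1) ≤ W * |d1| := by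
    have j1 : -((p - p') * d1) ≤ |(p - p') * d1| := neg_le_abs _
    rw [abs_mul] at j1
    exact j1.trans (mul_le_mul_of_nonneg_right hP' (abs_nonneg _))
  have e4 : -((q - q') * d2) ≤ W * |d2| := by
    have j1 : -((q - q') * d2) ≤ |(q - q') * d2| := neg_le_abs _
    rw [abs_mul] at j1
    exact j1.trans (mul_le_mul_of_nonneg_right hQ' (abs_nonneg _))
  have e5 : W ^ 2 * (h * A) ≤ W ^ 2 * mu := mul_le_mul_of_nonneg_left hAmu (sq_nonneg W)
  have e6 : W * (|d1| + |d2| + h * C0) ≤ W * rho' := by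
    refine mul_le_mul_of_nonneg_left ?_ hW.le
    refine le_trans (le_of_eq ?_) hdef
    rw [hC0]
    ring
  have e8 : W * rho' < W * e := mul_lt_mul_of_pos_left he hW
  have e9 : h * (W ^ 2 * A + W * C0) = W ^ 2 * (h * A) + W * (h * C0) := by ring
  rw [e9] at e2
  have e10 : W * (|d1| + |d2| + h * C0) = W * |d1| + W * |d2| + W * (h * C0) := by ring
  rw [e10] at e6
  have e11 : 2 * W * (e + mu * W) = 2 * (W * e + W ^ 2 * mu) := by ring
  rw [e11]
  linarith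

theorem real_step_pr {h lam eh0 et0 E0 eh et E1 Cb Pb Qb : ℝ}
    {c s k g p q c' s' k' g' p' q' : ℝ → ℝ}
    (R : RealStep h lam eh0 et0 E0 eh et E1 Cb Pb Qb c s k g p q c' s' k' g' p' q')
    {z : ℝ → St} (hz : ClSol z) {a : ℝ}
    (h0 : Near (c 0) (s 0) (k 0) (g 0) (p 0) (q 0) eh0 et0 E0 lam (z a)) :
    ∀ t ∈ Icc (0 : ℝ) 1, Near (c t) (s t) (k t) (g t) (p t) (q t) eh et E1 lam (z (a + h * t)) := by
  obtain ⟨ξ0, η0, h01, h02, h03, h04⟩ := h0
  obtain ⟨x, rh, hrh, hx0, hx1, hxp, hr, heh⟩ := R.hx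
  obtain ⟨rt, hrt, hr', het⟩ := R.ht
  have hpc : Continuous p := continuous_iff_continuousAt.2 fun t => (R.dp t).continuousAt
  have hqc : Continuous q := continuous_iff_continuousAt.2 fun t => (R.dq t).continuousAt
  obtain ⟨ξ, η, hξ0, hη0, dξ, dη, hrel⟩ := rel_flow R.dc R.ds R.dk R.dg hpc hqc hrh hrt hx0 hx1
    R.neh R.net hxp hr hr' heh het h01 h02 h03
  obtain ⟨rho, rho', m1, m2, mu, B, hrho', hrho, hdef, hm1, hm1', hm2, hm2', hmu, hE1, hEB, hB1,
    hBl⟩ := R.hE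
  have hz0 : (0 : ℝ) ∈ Icc (0 : ℝ) 1 := ⟨le_rfl, zero_le_one⟩
  have hh := R.h0
  have hlam := R.lam0
  have hnE := R.nE
  have heh0 : 0 ≤ eh := by
    have h1 : 0 ≤ (eh0 + rh) * (1 + x + x ^ 2) := by
      have := R.neh
      positivity
    linarith
  have het0 : 0 ≤ et := by linarith [R.net]
  have hCb0 : 0 ≤ Cb := by
    have h1 := R.bC 0 hz0
    have h2 := abs_nonneg (c 0)
    linarith
  have hPb0 : 0 ≤ Pb := by
    have h1 := R.bP 0 hz0
    have h2 := abs_nonneg (p 0)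
    linarith
  have hQb0 : 0 ≤ Qb := by
    have h1 := R.bQ 0 hz0
    have h2 := abs_nonneg (q 0)
    linarith
  have hm10 : 0 ≤ m1 := (abs_nonneg _).trans (hm1 0 hz0)
  have hm20 : 0 ≤ m2 := (abs_nonneg _).trans (hm2 0 hz0)
  have hrho0 : 0 < rho := by linarith
  have hE1p : 0 < E1 := lt_of_lt_of_le (by positivity) hE1
  have hBp : 0 < B := by linarith
  have hmu0 : 0 ≤ mu := le_trans (by positivity) hmu
  -- the boundary
  set β : ℝ → ℝ := fun t => (E0 + (rho - rho') / 2 + (rho + rho') / 2 * t) * exp (mu * t) with hβ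
  have dβ : ∀ t, HasDerivAt β ((rho + rho') / 2 * exp (mu * t) + mu * β t) t := by
    intro t
    have h1 : HasDerivAt (fun t : ℝ => E0 + (rho - rho') / 2 + (rho + rho') / 2 * t)
        ((rho + rho') / 2) t := by
      simpa using ((hasDerivAt_id t).const_mul ((rho + rho') / 2)).const_add
        (E0 + (rho - rho') / 2)
    have h2 : HasDerivAt (fun t : ℝ => exp (mu * t)) (exp (mu * t) * mu) t := by
      simpa using ((hasDerivAt_id t).const_mul mu).exp
    have h3 := h1.mul h2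
    refine h3.congr_deriv ?_
    simp only [hβ]
    ring
  have hβpos : ∀ t ∈ Icc (0 : ℝ) 1, 0 < β t := by
    intro t ht
    have h1 : 0 ≤ (rho + rho') / 2 * t := mul_nonneg (by linarith) ht.1
    exact mul_pos (by linarith) (exp_pos _)
  have hβE : ∀ t ∈ Icc (0 : ℝ) 1, β t ≤ E1 := by
    intro t ht
    refine le_trans ?_ hE1
    have h1 : (rho + rho') / 2 * t ≤ (rho + rho') / 2 * 1 :=
      mul_le_mul_of_nonneg_left ht.2 (by linarith)
    have h2 : mu * t ≤ mu := by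
      have := mul_le_mul_of_nonneg_left ht.2 hmu0
      linarith
    exact mul_le_mul (by linarith) (exp_le_exp.2 h2) (exp_pos _).le (by linarith)
  -- the distance
  have hin : ∀ t : ℝ, HasDerivAt (fun t : ℝ => a + h * t) h t := by
    intro t
    simpa using ((hasDerivAt_id t).const_mul h).const_add a
  have dX : ∀ t, HasDerivAt (fun t => (z (a + h * t)).xi - ξ t)
      (cl (z (a + h * t)).p * h - h * p t) t := fun t =>
    (HasDerivAt.comp (h₂ := fun s => (z s).xi) t (hz (a + h * t)).1 (hin t)).sub (dξ t)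
  have dY : ∀ t, HasDerivAt (fun t => (z (a + h * t)).eta - η t)
      (cl (z (a + h * t)).q * h - h * q t) t := fun t =>
    (HasDerivAt.comp (h₂ := fun s => (z s).eta) t (hz (a + h * t)).2.1 (hin t)).sub (dη t)
  have dP : ∀ t, HasDerivAt (fun t => (z (a + h * t)).p - p t)
      (Fp (cl (z (a + h * t)).xi) (z (a + h * t)).eta (cl (z (a + h * t)).q) * h - p' t) t :=
    fun t => (HasDerivAt.comp (h₂ := fun s => (z s).p) t (hz (a + h * t)).2.2.1
      (hin t)).sub (R.dp t)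
  have dQ : ∀ t, HasDerivAt (fun t => (z (a + h * t)).q - q t)
      (Fq (cl (z (a + h * t)).xi) (z (a + h * t)).eta (cl (z (a + h * t)).p) * h - q' t) t :=
    fun t => (HasDerivAt.comp (h₂ := fun s => (z s).q) t (hz (a + h * t)).2.2.2
      (hin t)).sub (R.dq t)
  set D : ℝ → ℝ := fun t => lam ^ 2 * (((z (a + h * t)).xi - ξ t) ^ 2 +
    ((z (a + h * t)).eta - η t) ^ 2) + ((z (a + h * t)).p - p t) ^ 2 +
    ((z (a + h * t)).q - q t) ^ 2 with hD
  set D' : ℝ → ℝ := fun t => 2 * (lam ^ 2 * (((z (a + h * t)).xi - ξ t) *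
      (cl (z (a + h * t)).p * h - h * p t) + ((z (a + h * t)).eta - η t) *
      (cl (z (a + h * t)).q * h - h * q t)) + ((z (a + h * t)).p - p t) *
      (Fp (cl (z (a + h * t)).xi) (z (a + h * t)).eta (cl (z (a + h * t)).q) * h - p' t) +
      ((z (a + h * t)).q - q t) *
      (Fq (cl (z (a + h * t)).xi) (z (a + h * t)).eta (cl (z (a + h * t)).p) * h - q' t)) with hD'
  have dD : ∀ t, HasDerivAt D (D' t) t := by
    intro t
    have h1 := ((((dX t).pow 2).add ((dY t).pow 2)).const_mul (lam ^ 2)).add ((dP t).pow 2) |>.add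
      ((dQ t).pow 2)
    refine h1.congr_deriv ?_
    simp only [hD']
    push_cast
    ring
  have key : ∀ ⦃t⦄, t ∈ Icc (0 : ℝ) 1 → D t ≤ β t ^ 2 := by
    refine image_le_of_deriv_right_lt_deriv_boundary' (f := D) (f' := D') (B := fun t => β t ^ 2)
      (B' := fun t => 2 * β t * ((rho + rho') / 2 * exp (mu * t) + mu * β t))
      (fun t _ => (dD t).continuousAt.continuousWithinAt)
      (fun t _ => (dD t).hasDerivWithinAt) ?_
      (fun t _ => ((dβ t).pow 2).continuousAt.continuousWithinAt)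
      (fun t _ => ?_) ?_
    · simp only [hD, hβ, mul_zero, add_zero, exp_zero, mul_one, hξ0, hη0]
      refine h04.trans ?_
      exact pow_le_pow_left₀ hnE (by linarith) 2
    · have h1 := (dβ t).pow 2
      refine (h1.congr_deriv ?_).hasDerivWithinAt
      push_cast
      ring
    · intro t ht heq
      have ht' : t ∈ Icc (0 : ℝ) 1 := ⟨ht.1, ht.2.le⟩
      obtain ⟨hr1, hr2, hr3⟩ := hrel t ht'
      refine CMP_pt hh hlam heh0 het0 R.er hr1 hr2 hr3 (R.bC t ht') (R.bP t ht') (R.bQ t ht')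
        R.C1 R.P1 R.Q1 (hm1 t ht') (hm1' t ht') (hm2 t ht') (hm2' t ht') (hβpos t ht')
        ((hβE t ht').trans hEB) hB1 hBl heq (hdef t ht') hmu ?_
      have e7 : 1 ≤ exp (mu * t) := one_le_exp (mul_nonneg hmu0 ht.1)
      have h1 : (rho + rho') / 2 * 1 ≤ (rho + rho') / 2 * exp (mu * t) :=
        mul_le_mul_of_nonneg_left e7 (by linarith)
      linarith
  intro t ht
  obtain ⟨hr1, hr2, hr3⟩ := hrel t ht
  refine ⟨ξ t, η t, hr1, hr2, hr3, ?_⟩
  exact (key ht).trans (pow_le_pow_left₀ (hβpos t ht).le (hβE t ht) 2)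

end Pool.Agent.Ecl
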