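import Pool.Agent.Lib_helper51.Ecl.SVDefs
import Pool.Agent.Lib_helper51.EclS.CTXBA
import Pool.Agent.Lib_helper51.EclS.L1SA
import Pool.Agent.Lib_helper51.EclS.VALAA
import Pool.Agent.Lib_helper51.EclS.VALBA

/-! MP_efcf7c_an, block COV: the covering check. -/

set_option autoImplicit false

namespace Pool.Agent.Ecl

open Real Polynomial K Set

theorem cov_small2 {x : ℤ} (h : small2 x = true) : |x| ≤ 2 ^ 50 := by
  unfold small2 at h
  have h1 : x.natAbs ≤ Nat.pow 2 50 := Nat.le_of_ble_eq_true h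
  rw [Int.abs_eq_natAbs]
  have h2 : (x.natAbs : ℤ) ≤ ((Nat.pow 2 50 : ℕ) : ℤ) := by exact_mod_cast h1
  have h3 : ((Nat.pow 2 50 : ℕ) : ℤ) = 2 ^ 50 := by norm_num
  rw [h3] at h2
  exact h2

/-- the packed affine combination -/
noncomputable def covPoly (f g : ℤ[X]) (a b ta tb : ℤ) : ℤ[X] :=
  C a * (f - C ta) - C b * (g - C tb)

theorem cov_eval (f g : ℤ[X]) (a b ta tb : ℤ) : (covPoly f g a b ta tb).eval (2 ^ 160) =
    a * (f.eval (2 ^ 160) - ta) - b * (g.eval (2 ^ 160) - tb) := by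
  unfold covPoly
  simp only [eval_sub, eval_mul, eval_C]

theorem cov_coeff0 (f g : ℤ[X]) (a b ta tb : ℤ) : (covPoly f g a b ta tb).coeff 0 =
    a * (f.coeff 0 - ta) - b * (g.coeff 0 - tb) := by
  unfold covPoly
  simp only [coeff_sub, coeff_C_mul, coeff_C_zero]

theorem cov_coeff_lt {f g : ℤ[X]} {a b ta tb : ℤ} (hf : ∀ n, |f.coeff n| ≤ 2 ^ 69)
    (hg : ∀ n, |g.coeff n| ≤ 2 ^ 69) (ha : |a| ≤ 2 ^ 50) (hb : |b| ≤ 2 ^ 50)
    (hta : |ta| ≤ 2 ^ 74) (htb : |tb| ≤ 2 ^ 74) (n : ℕ) :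
    |(covPoly f g a b ta tb).coeff n| < 2 ^ 158 := by
  have key : ∀ (p : ℤ[X]) (x tx : ℤ), (∀ n, |p.coeff n| ≤ 2 ^ 69) → |x| ≤ 2 ^ 50 →
      |tx| ≤ 2 ^ 74 → |(C x * (p - C tx)).coeff n| ≤ 2 ^ 50 * (2 ^ 69 + 2 ^ 74) := by
    intro p x tx hp hx htx
    rw [coeff_C_mul, coeff_sub, abs_mul]
    have h1 : |(C tx : ℤ[X]).coeff n| ≤ 2 ^ 74 := by
      rw [coeff_C]
      split_ifs
      · exact htx
      · simp
    have h2 : |p.coeff n - (C tx : ℤ[X]).coeff n| ≤ 2 ^ 69 + 2 ^ 74 :=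
      (abs_sub _ _).trans (add_le_add (hp n) h1)
    exact mul_le_mul hx h2 (abs_nonneg _) (by norm_num)
  unfold covPoly
  rw [coeff_sub]
  have h3 := (abs_sub ((C a * (f - C ta)).coeff n) ((C b * (g - C tb)).coeff n)).trans
    (add_le_add (key f a ta hf ha hta) (key g b tb hg hb htb))
  refine lt_of_le_of_lt h3 ?_
  norm_num

theorem cov_val (f g : ℤ[X]) (a b ta tb : ℤ) (u v : ℝ) : val (covPoly f g a b ta tb) u v 0 =
    a * (val f u v 0 - ta) - b * (val g u v 0 - tb) := by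
  unfold covPoly
  rw [val_sub, val_C_mul, val_C_mul, val_sub, val_sub, val_C, val_C]

/-- the interval of a combination -/
theorem cov_interval {f g : ℤ[X]} {a b ta tb : ℤ} {F : Fnl} (hX : Rep 0 (2 ^ 69) F.X f)
    (hY : Rep 0 (2 ^ 69) F.Y g) (hx : f.coeff 0 = F.x0) (hy : g.coeff 0 = F.y0)
    (ha : |a| ≤ 2 ^ 50) (hb : |b| ≤ 2 ^ 50) (hta : |ta| ≤ 2 ^ 74) (htb : |tb| ≤ 2 ^ 74)
    {r e : ℕ} (hr : ∀ p : ℤ[X], p.eval (2 ^ 160) = a * (F.X - ta) - b * (F.Y - tb) →
      (∀ n, |p.coeff n| < 2 ^ 158) → lnorm p ≤ r)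
    (he : e = a.natAbs * F.eX + b.natAbs * F.eY) {u v : ℝ} (hu : |u| ≤ 1) (hv : |v| ≤ 1)
    {X Y : ℝ} (h1 : |w60 * X - val f u v 0| ≤ (F.eX : ℝ))
    (h2 : |w60 * Y - val g u v 0| ≤ (F.eY : ℝ)) :
    ((lo (a * (F.x0 - ta) - b * (F.y0 - tb)) r - e : ℤ) : ℝ) ≤
      a * (w60 * X - ta) - b * (w60 * Y - tb) ∧
    (a * (w60 * X - ta) - b * (w60 * Y - tb) : ℝ) ≤
      ((hi (a * (F.x0 - ta) - b * (F.y0 - tb)) r + e : ℤ) : ℝ) := by
  have hl := hr (covPoly f g a b ta tb) (by rw [cov_eval, hX.ev, hY.ev])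
    (cov_coeff_lt hX.bd hY.bd ha hb hta htb)
  obtain ⟨h3, h4⟩ := lo_le_val _ hl hu hv le_rfl zero_le_one
  rw [cov_coeff0, hx, hy, cov_val] at h3 h4
  have h5 : |(a : ℝ) * (w60 * X - ta) - b * (w60 * Y - tb) -
      (a * (val f u v 0 - ta) - b * (val g u v 0 - tb))| ≤ (e : ℝ) := by
    have e1 : (a : ℝ) * (w60 * X - ta) - b * (w60 * Y - tb) -
      (a * (val f u v 0 - ta) - b * (val g u v 0 - tb)) =
      a * (w60 * X - val f u v 0) - b * (w60 * Y - val g u v 0) := by ring
    rw [e1]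
    refine (abs_sub _ _).trans ?_
    rw [abs_mul, abs_mul]
    have e2 : (e : ℝ) = |(a : ℝ)| * F.eX + |(b : ℝ)| * F.eY := by
      rw [he]
      push_cast
      rw [Nat.cast_natAbs, Nat.cast_natAbs]
      push_cast
      ring
    rw [e2]
    gcongr
  have h6 := abs_le.1 h5
  push_cast
  constructor
  · linarith [h6.1]
  · linarith [h6.2]

/-- **COV** -/
theorem cover_spec_pr {mode : ℕ} {F : Fnl} {t : K.Tgt} (h : cover ctx0 mode F t = true)
    {fX fY : ℤ[X]} (hX : Rep 0 (2 ^ 69) F.X fX) (hY : Rep 0 (2 ^ 69) F.Y fY)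
    (hx : fX.coeff 0 = F.x0) (hy : fY.coeff 0 = F.y0) :
    0 < t.Ua * t.Vb - t.Ub * t.Va ∧ ∀ u v : ℝ, |u| ≤ 1 → |v| ≤ 1 → ∀ X Y : ℝ,
      |w60 * X - val fX u v 0| ≤ (F.eX : ℝ) → |w60 * Y - val fY u v 0| ≤ (F.eY : ℝ) →
      CovM mode t X Y := by
  unfold cover at h
  simp only [fNat_eq, fInt_eq, isub_eq, imul_eq] at h
  obtain ⟨nU, h, hnU⟩ := l1_spec ctx0_ok h
  simp only [Bool.and_eq_true, decide_eq_true_eq] at h
  obtain ⟨⟨sa, sb, sUa, sUb, sVa, sVb, hdet⟩, h⟩ := h
  have sa := cov_small2 sa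
  have sb := cov_small2 sb
  have sUa := cov_small2 sUa
  have sUb := cov_small2 sUb
  have sVa := cov_small2 sVa
  have sVb := cov_small2 sVb
  refine ⟨hdet, ?_⟩
  intro u v hu hv X Y h1 h2
  have hta : |t.a * 16777216| ≤ 2 ^ 74 := by
    rw [abs_mul]
    have : |t.a| * |(16777216 : ℤ)| ≤ 2 ^ 50 * 16777216 := by
      apply mul_le_mul sa (by norm_num) (abs_nonneg _) (by norm_num)
    refine this.trans (by norm_num)
  have htb : |t.b * 16777216| ≤ 2 ^ 74 := by
    rw [abs_mul]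
    have : |t.b| * |(16777216 : ℤ)| ≤ 2 ^ 50 * 16777216 := by
      apply mul_le_mul sb (by norm_num) (abs_nonneg _) (by norm_num)
    refine this.trans (by norm_num)
  obtain ⟨iU1, iU2⟩ := cov_interval hX hY hx hy sVb sVa hta htb hnU rfl hu hv h1 h2
  set D : ℝ := ((t.Ua * t.Vb - t.Ub * t.Va : ℤ) : ℝ) * 16777216 with hD
  have hdetR : (0 : ℝ) < ((t.Ua * t.Vb - t.Ub * t.Va : ℤ) : ℝ) := by exact_mod_cast hdet
  have hD0 : 0 < D := by positivity
  set x : ℝ := w60 * X - ((t.a * 16777216 : ℤ) : ℝ) with hxx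
  set y : ℝ := w60 * Y - ((t.b * 16777216 : ℤ) : ℝ) with hyy
  set U : ℝ := (t.Vb * x - t.Va * y) / D with hU
  set V : ℝ := (t.Ua * y - t.Ub * x) / D with hV
  have hUD : U * D = t.Vb * x - t.Va * y := by rw [hU]; field_simp
  have hVD : V * D = t.Ua * y - t.Ub * x := by rw [hV]; field_simp
  have hw : w60 = 16777216 * w36 := by unfold w60 w36; norm_num
  have hw36 : 0 < w36 := by unfold w36; norm_num
  have hdx : x = 16777216 * (U * t.Ua + V * t.Va) := by
    have h3 : x * D = 16777216 * (U * t.Ua + V * t.Va) * D := by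
      have : 16777216 * (U * t.Ua + V * t.Va) * D =
          16777216 * (t.Ua * (U * D) + t.Va * (V * D)) := by ring
      rw [this, hUD, hVD, hD]
      push_cast
      ring
    exact mul_right_cancel₀ hD0.ne' h3
  have hdy : y = 16777216 * (U * t.Ub + V * t.Vb) := by
    have h3 : y * D = 16777216 * (U * t.Ub + V * t.Vb) * D := by
      have : 16777216 * (U * t.Ub + V * t.Vb) * D =
          16777216 * (t.Ub * (U * D) + t.Vb * (V * D)) := by ring
      rw [this, hUD, hVD, hD]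
      push_cast
      ring
    exact mul_right_cancel₀ hD0.ne' h3
  have eX : X = (t.a + U * t.Ua + V * t.Va) / w36 := by
    rw [eq_div_iff hw36.ne']
    have h3 : w60 * X = 16777216 * (t.a + U * t.Ua + V * t.Va) := by
      have : w60 * X = x + ((t.a * 16777216 : ℤ) : ℝ) := by rw [hxx]; ring
      rw [this, hdx]
      push_cast
      ring
    rw [hw] at h3
    linarith
  have eY : Y = (t.b + U * t.Ub + V * t.Vb) / w36 := by
    rw [eq_div_iff hw36.ne']
    have h3 : w60 * Y = 16777216 * (t.b + U * t.Ub + V * t.Vb) := by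
      have : w60 * Y = y + ((t.b * 16777216 : ℤ) : ℝ) := by rw [hyy]; ring
      rw [this, hdy]
      push_cast
      ring
    rw [hw] at h3
    linarith
  rw [← hUD] at iU1 iU2
  have gU : (t.Ua * t.Vb - t.Ub * t.Va) * 16777216 <
      lo (t.Vb * (F.x0 - t.a * 16777216) - t.Va * (F.y0 - t.b * 16777216)) nU -
        ((t.Vb.natAbs * F.eX + t.Va.natAbs * F.eY : ℕ) : ℤ) → 1 < U := by
    intro h3
    have h4 : D < U * D := by
      refine lt_of_lt_of_le ?_ iU1
      rw [hD]
      exact_mod_cast h3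
    nlinarith
  have lU : hi (t.Vb * (F.x0 - t.a * 16777216) - t.Va * (F.y0 - t.b * 16777216)) nU +
        ((t.Vb.natAbs * F.eX + t.Va.natAbs * F.eY : ℕ) : ℤ) <
      -((t.Ua * t.Vb - t.Ub * t.Va) * 16777216) → U < -1 := by
    intro h3
    have h4 : U * D < -D := by
      refine lt_of_le_of_lt iU2 ?_
      rw [hD]
      exact_mod_cast h3
    nlinarith
  refine ⟨U, V, eX, eY, ?_, ?_, ?_⟩
  · match mode, h with
    | 0, h =>
      simp only [Bool.or_eq_true, decide_eq_true_eq] at h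
      rcases h with h | h | h
      · exact Or.inl (gU h)
      · exact Or.inr (Or.inl (lU h))
      · obtain ⟨nV, h, hnV⟩ := l1_spec ctx0_ok h
        simp only [Bool.and_eq_true, decide_eq_true_eq] at h
        obtain ⟨h3, h4⟩ := h
        have hr : ∀ p : ℤ[X], p.eval (2 ^ 160) = (-t.Ub) * (F.X - t.a * 16777216) -
            (-t.Ua) * (F.Y - t.b * 16777216) → (∀ n, |p.coeff n| < 2 ^ 158) → lnorm p ≤ nV := by
          intro p hp
          exact hnV p (by rw [hp]; ring)
        obtain ⟨iV1, iV2⟩ := cov_interval (e := t.Ua.natAbs * F.eY + t.Ub.natAbs * F.eX)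
          hX hY hx hy (by rw [abs_neg]; exact sUb)
          (by rw [abs_neg]; exact sUa) hta htb hr (by
            rw [Int.natAbs_neg, Int.natAbs_neg]; ring) hu hv h1 h2
        have e1 : ((-t.Ub : ℤ) : ℝ) * (w60 * X - ((t.a * 16777216 : ℤ) : ℝ)) -
            ((-t.Ua : ℤ) : ℝ) * (w60 * Y - ((t.b * 16777216 : ℤ) : ℝ)) = V * D := by
          rw [hVD, hxx, hyy]
          push_cast
          ring
        have e2 : (-t.Ub) * (F.x0 - t.a * 16777216) - (-t.Ua) * (F.y0 - t.b * 16777216) =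
          t.Ua * (F.y0 - t.b * 16777216) - t.Ub * (F.x0 - t.a * 16777216) := by ring
        rw [e1, e2] at iV1 iV2
        right; right
        rw [abs_lt]
        constructor
        · have h5 : -D < V * D := by
            refine lt_of_lt_of_le ?_ iV1
            rw [hD]
            exact_mod_cast h4
          nlinarith
        · have h5 : V * D < D := by
            refine lt_of_le_of_lt iV2 ?_
            rw [hD]
            exact_mod_cast h3
          nlinarith
    | 1, h =>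
      cases hf : t.flip with
      | true =>
        rw [hf] at h
        simp only [cond_true, decide_eq_true_eq] at h
        exact Or.inl (gU h)
      | false =>
        rw [hf] at h
        simp only [cond_false, decide_eq_true_eq] at h
        exact Or.inr (Or.inl (lU h))
    | m + 2, h =>
      cases hf : t.flip with
      | true =>
        rw [hf] at h
        simp only [cond_true, decide_eq_true_eq] at h
        exact Or.inr (Or.inl (lU h))
      | false =>
        rw [hf] at h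
        simp only [cond_false, decide_eq_true_eq] at h
        exact Or.inl (gU h)
  · rintro rfl
    cases hf : t.flip with
    | true =>
      simp only [hf, cond_true, decide_eq_true_eq] at h
      simpa using gU h
    | false =>
      simp only [hf, cond_false, decide_eq_true_eq] at h
      simpa using lU h
  · intro hm
    obtain ⟨m, rfl⟩ : ∃ m, mode = m + 2 := ⟨mode - 2, by omega⟩
    cases hf : t.flip with
    | true =>
      simp only [hf, cond_true, decide_eq_true_eq] at h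
      simpa using lU h
    | false =>
      simp only [hf, cond_false, decide_eq_true_eq] at h
      simpa using gU h

end Pool.Agent.Ecl
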