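import Pool.Agent.Lib_helper51.Ecl.SVDefs

/-!
# Block DIG of the soundness of the kernel checker: uniqueness of packed polynomials, masks
-/

set_option autoImplicit false
set_option exponentiation.threshold 300000

namespace Pool.Agent.Ecl

open Real Polynomial K Set

theorem DIG_zero (n : ℕ) : ∀ h : ℤ[X], h.eval (2 ^ 160) = 0 → (∀ n, |h.coeff n| < 2 ^ 159) →
    h.coeff n = 0 := by
  have key : ∀ h : ℤ[X], h.eval (2 ^ 160) = 0 → (∀ n, |h.coeff n| < 2 ^ 159) →
      h.coeff 0 = 0 ∧ h.divX.eval (2 ^ 160) = 0 := by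
    intro h h0 hb
    have e : h.eval (2 ^ 160) = h.divX.eval (2 ^ 160) * 2 ^ 160 + h.coeff 0 := by
      conv_lhs => rw [← divX_mul_X_add h]
      simp
    have hb0 := abs_lt.mp (hb 0)
    rw [h0] at e
    generalize h.divX.eval (2 ^ 160) = y at *
    generalize h.coeff 0 = x at *
    constructor
    · omega
    · omega
  induction n with
  | zero => intro h h0 hb; exact (key h h0 hb).1
  | succ n ih =>
    intro h h0 hb
    have := ih h.divX (key h h0 hb).2 (fun k => by rw [coeff_divX]; exact hb _)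
    rwa [coeff_divX] at this

/-- **DIG** -/
theorem poly_unique_pr {f g : ℤ[X]} (h : f.eval (2 ^ 160) = g.eval (2 ^ 160))
    (hf : ∀ n, |f.coeff n| < 2 ^ 158) (hg : ∀ n, |g.coeff n| < 2 ^ 158) : f = g := by
  have h0 : (f - g).eval (2 ^ 160) = 0 := by rw [eval_sub, h, sub_self]
  have hb : ∀ n, |(f - g).coeff n| < 2 ^ 159 := by
    intro n
    rw [coeff_sub]
    calc |f.coeff n - g.coeff n| ≤ |f.coeff n| + |g.coeff n| := abs_sub _ _
      _ < 2 ^ 158 + 2 ^ 158 := add_lt_add (hf n) (hg n)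
      _ = 2 ^ 159 := by norm_num
  have h1 : f - g = 0 := by
    ext n
    rw [DIG_zero n (f - g) h0 hb, coeff_zero]
  exact sub_eq_zero.mp h1

theorem DIG_rep (x s m : ℕ) (hs : 1 ≤ s) :
    rep x s m = x * ∑ k ∈ Finset.range m, (2 ^ s) ^ k := by
  unfold rep
  have h2 : 2 ≤ 2 ^ s := by
    calc 2 = 2 ^ 1 := by norm_num
      _ ≤ 2 ^ s := Nat.pow_le_pow_right (by norm_num) hs
  rw [Nat.geomSum_eq h2, ← pow_mul]

theorem DIG_rep_zero (x s : ℕ) : rep x s 0 = 0 := by
  unfold rep; simp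

theorem DIG_rep_succ (x s m : ℕ) (hs : 1 ≤ s) :
    rep x s (m + 1) = x + 2 ^ s * rep x s m := by
  rw [DIG_rep x s _ hs, DIG_rep x s _ hs, Finset.sum_range_succ', pow_zero, mul_add, mul_one,
    add_comm]
  congr 1
  simp only [Finset.mul_sum]
  apply Finset.sum_congr rfl
  intro k _
  rw [pow_succ]; ring

theorem DIG_land (z x M : ℕ) (s : ℕ) (hx : x < 2 ^ s) :
    z &&& (x + 2 ^ s * M) = (z % 2 ^ s &&& x) + 2 ^ s * ((z / 2 ^ s) &&& M) := by
  have h2 : 0 < 2 ^ s := Nat.pos_of_ne_zero (by positivity)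
  rw [← Nat.mod_add_div (z &&& (x + 2 ^ s * M)) (2 ^ s), Nat.and_mod_two_pow, Nat.and_div_two_pow,
    Nat.add_mul_mod_self_left, Nat.mod_eq_of_lt hx, Nat.add_mul_div_left _ _ h2,
    Nat.div_eq_of_lt hx, zero_add]

/-- **DIG** -/
theorem rep_mask_pr (b m z : ℕ) (hb : b ≤ 160) : ∃ f : ℤ[X],
    f.eval (2 ^ 160) = ((Nat.land z (rep (2 ^ b - 1) 160 m) : ℕ) : ℤ) ∧
    (∀ n, 0 ≤ f.coeff n ∧ f.coeff n < 2 ^ b) ∧ (∀ n, m ≤ n → f.coeff n = 0) := by
  have hpos : (0 : ℤ) < 2 ^ b := by positivity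
  induction m generalizing z with
  | zero =>
    refine ⟨0, ?_, ?_, ?_⟩
    · rw [DIG_rep_zero]
      simp [Nat.land]
    · intro n; simp
    · intro n _; simp
  | succ m ih =>
    obtain ⟨f, h1, h2, h3⟩ := ih (z / 2 ^ 160)
    have hlt : 2 ^ b - 1 < 2 ^ 160 := by
      have h4 : (2 : ℕ) ^ b ≤ 2 ^ 160 := Nat.pow_le_pow_right (by norm_num) hb
      have h5 : 0 < (2 : ℕ) ^ b := by positivity
      omega
    have e : Nat.land z (rep (2 ^ b - 1) 160 (m + 1)) =
        z % 2 ^ b + 2 ^ 160 * Nat.land (z / 2 ^ 160) (rep (2 ^ b - 1) 160 m) := by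
      rw [DIG_rep_succ _ _ _ (by norm_num)]
      change z &&& _ = _
      rw [DIG_land z _ _ 160 hlt, Nat.and_two_pow_sub_one_eq_mod,
        Nat.mod_mod_of_dvd _ (pow_dvd_pow 2 hb)]
      rfl
    refine ⟨C ((z % 2 ^ b : ℕ) : ℤ) + X * f, ?_, ?_, ?_⟩
    · rw [e, eval_add, eval_C, eval_mul, eval_X, h1]
      push_cast
      rfl
    · intro n
      cases n with
      | zero =>
        have h6 : z % 2 ^ b < 2 ^ b := Nat.mod_lt _ (by positivity)
        simp only [coeff_add, coeff_C_zero, mul_coeff_zero, coeff_X_zero, zero_mul, add_zero]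
        exact ⟨by positivity, by exact_mod_cast h6⟩
      | succ n =>
        rw [coeff_add, coeff_C_succ, zero_add, coeff_X_mul]
        exact h2 n
    · intro n hn
      cases n with
      | zero => omega
      | succ n =>
        rw [coeff_add, coeff_C_succ, zero_add, coeff_X_mul]
        exact h3 n (by omega)

end Pool.Agent.Ecl
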