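import Pool.Agent.Lib_helper51.Ecl.SVDefs
import Pool.Agent.Lib_helper51.EclS.DIG

/-!
# Block CTXA: masked integers are packed polynomials
-/

set_option autoImplicit false
set_option exponentiation.threshold 300000

namespace Pool.Agent.Ecl

open Real Polynomial K Set

/-- masking with `M` and subtracting the offset `O` gives a packed polynomial with support in
`S` and coefficients bounded by `2^68` -/
def CTXA_OK (S : ℕ → Prop) (M O : ℕ) : Prop :=
  ∀ z : ℕ, ∃ f : ℤ[X], f.eval (2 ^ 160) = ((Nat.land z M : ℕ) : ℤ) - (O : ℤ) ∧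
    (∀ n, f.coeff n ≠ 0 → S n) ∧ ∀ n, |f.coeff n| ≤ 2 ^ 68

theorem CTXA_mono {S S' : ℕ → Prop} {M O : ℕ} (h : CTXA_OK S M O) (hS : ∀ n, S n → S' n) :
    CTXA_OK S' M O := by
  intro z
  obtain ⟨f, h1, h2, h3⟩ := h z
  exact ⟨f, h1, fun n hn => hS n (h2 n hn), h3⟩

theorem CTXA_comb {S₁ S₂ : ℕ → Prop} {M₁ M₂ O₁ O₂ w : ℕ} (hM : M₁ < 2 ^ (160 * w))
    (h₁ : CTXA_OK S₁ M₁ O₁) (hS : ∀ n, S₁ n → n < w) (h₂ : CTXA_OK S₂ M₂ O₂) :
    CTXA_OK (fun n => S₁ n ∨ (w ≤ n ∧ S₂ (n - w))) (M₁ + 2 ^ (160 * w) * M₂)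
      (O₁ + 2 ^ (160 * w) * O₂) := by
  intro z
  obtain ⟨f₁, a₁, b₁, c₁⟩ := h₁ (z % 2 ^ (160 * w))
  obtain ⟨f₂, a₂, b₂, c₂⟩ := h₂ (z / 2 ^ (160 * w))
  refine ⟨f₁ + X ^ w * f₂, ?_, ?_, ?_⟩
  · have e : Nat.land z (M₁ + 2 ^ (160 * w) * M₂) =
        Nat.land (z % 2 ^ (160 * w)) M₁ + 2 ^ (160 * w) * Nat.land (z / 2 ^ (160 * w)) M₂ :=
      DIG_land z M₁ M₂ _ hM
    rw [eval_add, eval_mul, eval_pow, eval_X, a₁, a₂, e, ← pow_mul]
    push_cast
    ring
  · intro n hn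
    rw [coeff_add, coeff_X_pow_mul'] at hn
    by_cases h : w ≤ n
    · have h0 : f₁.coeff n = 0 := by
        by_contra h1
        exact absurd (hS n (b₁ n h1)) (by omega)
      rw [if_pos h, h0, zero_add] at hn
      exact Or.inr ⟨h, b₂ _ hn⟩
    · rw [if_neg h, add_zero] at hn
      exact Or.inl (b₁ _ hn)
  · intro n
    rw [coeff_add, coeff_X_pow_mul']
    by_cases h : w ≤ n
    · have h0 : f₁.coeff n = 0 := by
        by_contra h1
        exact absurd (hS n (b₁ n h1)) (by omega)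
      rw [if_pos h, h0, zero_add]
      exact c₂ _
    · rw [if_neg h, add_zero]
      exact c₁ _

theorem CTXA_empty : CTXA_OK (fun _ => False) 0 0 := by
  intro z
  refine ⟨0, ?_, ?_, ?_⟩
  · simp [Nat.land]
  · intro n hn; simp at hn
  · intro n; simp

theorem CTXA_one : CTXA_OK (fun n => n = 0) (2 ^ 69 - 1) (2 ^ 68) := by
  intro z
  refine ⟨C (((z % 2 ^ 69 : ℕ) : ℤ) - 2 ^ 68), ?_, ?_, ?_⟩
  · have e : Nat.land z (2 ^ 69 - 1) = z % 2 ^ 69 := Nat.and_two_pow_sub_one_eq_mod z 69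
    rw [eval_C, e]
    norm_num
  · intro n hn
    by_contra h
    exact hn (coeff_C_of_ne_zero h)
  · intro n
    have h6 : z % 2 ^ 69 < 2 ^ 69 := Nat.mod_lt _ (by positivity)
    by_cases h : n = 0
    · subst h
      rw [coeff_C_zero, abs_le]
      constructor <;> omega
    · rw [coeff_C_of_ne_zero h]
      simp

theorem CTXA_nil : CTXA_OK (fun _ => False) 0 0 := CTXA_empty

/-- packed mask with the value `x` at the positions given by a list -/
def CTXA_pk (x : ℕ) : List Bool → ℕ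
  | [] => 0
  | b :: l => (if b then x else 0) + 2 ^ (160 * 1) * CTXA_pk x l

theorem CTXA_list (l : List Bool) :
    CTXA_OK (fun n => l[n]? = some true) (CTXA_pk (2 ^ 69 - 1) l) (CTXA_pk (2 ^ 68) l) := by
  induction l with
  | nil => exact CTXA_mono CTXA_empty (fun n h => h.elim)
  | cons b l ih =>
    cases b with
    | false =>
      refine CTXA_mono (CTXA_comb (w := 1) (by norm_num) CTXA_empty (fun n h => h.elim) ih) ?_
      rintro n (h | ⟨h1, h2⟩)
      · exact h.elim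
      · obtain ⟨m, rfl⟩ : ∃ m, n = m + 1 := ⟨n - 1, by omega⟩
        simpa using h2
    | true =>
      refine CTXA_mono (CTXA_comb (w := 1) (by norm_num) CTXA_one (fun n h => by omega) ih) ?_
      rintro n (h | ⟨h1, h2⟩)
      · subst h; rfl
      · obtain ⟨m, rfl⟩ : ∃ m, n = m + 1 := ⟨n - 1, by omega⟩
        simpa using h2

/-- admissible positions of one block -/
def CTXA_L : List Bool := (List.range 289).map fun n => decide (n / 17 + n % 17 ≤ 8)

theorem CTXA_triM : tri (2 ^ 69 - 1) 160 17 8 = CTXA_pk (2 ^ 69 - 1) CTXA_L := by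
  decide +kernel

theorem CTXA_triO : tri (2 ^ 68) 160 17 8 = CTXA_pk (2 ^ 68) CTXA_L := by
  decide +kernel

theorem CTXA_triM_lt : tri (2 ^ 69 - 1) 160 17 8 < 2 ^ (160 * 289) := by
  decide +kernel

theorem CTXA_block : CTXA_OK (fun n => n < 289 ∧ n / 17 % 17 + n % 17 ≤ 8)
    (tri (2 ^ 69 - 1) 160 17 8) (tri (2 ^ 68) 160 17 8) := by
  rw [CTXA_triM, CTXA_triO]
  refine CTXA_mono (CTXA_list CTXA_L) ?_
  intro n hn
  unfold CTXA_L at hn
  rw [List.getElem?_map] at hn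
  by_cases h : n < 289
  · rw [List.getElem?_range h] at hn
    simp only [Option.map_some, Option.some.injEq, decide_eq_true_eq] at hn
    refine ⟨h, ?_⟩
    omega
  · have : (List.range 289)[n]? = none := by
      rw [List.getElem?_eq_none_iff, List.length_range]
      omega
    rw [this] at hn
    simp at hn

theorem CTXA_rep (m : ℕ) : CTXA_OK (fun n => n / 289 < m ∧ n / 17 % 17 + n % 17 ≤ 8)
    (rep (tri (2 ^ 69 - 1) 160 17 8) (160 * 289) m) (rep (tri (2 ^ 68) 160 17 8) (160 * 289) m) := by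
  induction m with
  | zero =>
    rw [DIG_rep_zero, DIG_rep_zero]
    exact CTXA_mono CTXA_empty (fun n h => h.elim)
  | succ m ih =>
    rw [DIG_rep_succ _ _ _ (by norm_num), DIG_rep_succ _ _ _ (by norm_num)]
    refine CTXA_mono (CTXA_comb (w := 289) CTXA_triM_lt CTXA_block (fun n h => h.1) ih) ?_
    rintro n (⟨h1, h2⟩ | ⟨h1, h2, h3⟩)
    · exact ⟨by omega, h2⟩
    · constructor
      · omega
      · omega

/-- **CTXA** -/
theorem ctx_mask_pr (T : ℕ) (hT : T = 0 ∨ T = 16) (z : ℕ) :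
    ∃ f : ℤ[X], Rep T (2 ^ 68)
      ((Nat.land z (rep (tri (2 ^ 69 - 1) 160 17 8) (160 * 289) (T + 1)) : ℕ) -
        ((rep (tri (2 ^ 68) 160 17 8) (160 * 289) (T + 1) : ℕ) : ℤ)) f := by
  obtain ⟨f, h1, h2, h3⟩ := CTXA_rep (T + 1) z
  refine ⟨f, h1, ?_, h3⟩
  intro n hn
  obtain ⟨h4, h5⟩ := h2 n hn
  exact ⟨by omega, h5⟩

end Pool.Agent.Ecl
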