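import Pool.Agent.Lib_helper51.Ecl.SVDefs
import Pool.Agent.Lib_helper51.EclS.CTXA

/-!
# Block CTXB: the two contexts are correct
-/

set_option autoImplicit false
set_option exponentiation.threshold 2000000

namespace Pool.Agent.Ecl

open Real Polynomial K Set

theorem CTXB_eval_one (f : ℤ[X]) (m : ℕ) (hm : m ≤ 2 ^ 14 - 1) (z : ℕ)
    (he : f.eval (2 ^ 160) = (z : ℤ)) (h0 : ∀ n, 0 ≤ f.coeff n ∧ f.coeff n < 2 ^ 146)
    (h1 : ∀ n, m ≤ n → f.coeff n = 0) : f.eval 1 = ((z % (2 ^ 160 - 1) : ℕ) : ℤ) := by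
  have hd : f.natDegree < m ∨ f = 0 := by
    by_cases hf : f = 0
    · exact Or.inr hf
    · left
      by_contra h
      have h2 := h1 f.natDegree (by omega)
      exact hf (leadingCoeff_eq_zero.mp h2)
  have hs : f.eval 1 = ∑ i ∈ Finset.range m, f.coeff i := by
    rcases hd with hd | hd
    · rw [eval_eq_sum_range' hd]
      simp
    · subst hd; simp
  have hlo : 0 ≤ f.eval 1 := by
    rw [hs]; exact Finset.sum_nonneg (fun i _ => (h0 i).1)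
  have hhi : f.eval 1 ≤ (2 ^ 14 - 1) * 2 ^ 146 := by
    rw [hs]
    calc ∑ i ∈ Finset.range m, f.coeff i ≤ ∑ _i ∈ Finset.range m, (2 : ℤ) ^ 146 :=
          Finset.sum_le_sum (fun i _ => (h0 i).2.le)
      _ = (m : ℤ) * 2 ^ 146 := by rw [Finset.sum_const, Finset.card_range, nsmul_eq_mul]
      _ ≤ (2 ^ 14 - 1) * 2 ^ 146 := by
          apply mul_le_mul_of_nonneg_right _ (by positivity)
          have : (m : ℤ) ≤ ((2 ^ 14 - 1 : ℕ) : ℤ) := by exact_mod_cast hm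
          calc (m : ℤ) ≤ ((2 ^ 14 - 1 : ℕ) : ℤ) := this
            _ = 2 ^ 14 - 1 := by norm_num
  have hdv : ((2 : ℤ) ^ 160 - 1) ∣ (z : ℤ) - f.eval 1 := by
    rw [← he]; exact sub_dvd_eval_sub _ _ f
  have hmod : (z : ℤ) % (2 ^ 160 - 1) = f.eval 1 := by
    rw [Int.emod_eq_emod_iff_emod_sub_eq_zero.mpr (Int.emod_eq_zero_of_dvd hdv)]
    apply Int.emod_eq_of_lt hlo
    refine lt_of_le_of_lt hhi ?_
    norm_num
  rw [← hmod]
  norm_num

theorem CTXB_lo (m : ℕ) (hm : m ≤ 2 ^ 14 - 1) (z : ℕ)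
    (hz : Nat.land z (rep (2 ^ 146 - 1) 160 m) = z) : ∃ f : ℤ[X], f.eval (2 ^ 160) = (z : ℤ) ∧
    (∀ n, 0 ≤ f.coeff n ∧ f.coeff n < 2 ^ 146) ∧ f.eval 1 = ((z % (2 ^ 160 - 1) : ℕ) : ℤ) := by
  obtain ⟨f, h1, h2, h3⟩ := rep_mask_pr 146 m z (by norm_num)
  rw [hz] at h1
  exact ⟨f, h1, h2, CTXB_eval_one f m hm z h1 h2 h3⟩

theorem CTXB_sg (m : ℕ) (hm : 1 ≤ m) :
    Nat.land (rep (2 ^ 159) 160 m) (rep (2 ^ 146 - 1) 160 m) ≠ rep (2 ^ 159) 160 m := by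
  obtain ⟨k, rfl⟩ : ∃ k, m = k + 1 := ⟨m - 1, by omega⟩
  intro h
  have e : (rep (2 ^ 159) 160 (k + 1) &&& rep (2 ^ 146 - 1) 160 (k + 1)) % 2 ^ 160 =
      rep (2 ^ 159) 160 (k + 1) % 2 ^ 160 := congrArg (· % 2 ^ 160) h
  rw [Nat.and_mod_two_pow, DIG_rep_succ _ _ _ (by norm_num), DIG_rep_succ _ _ _ (by norm_num),
    Nat.add_mul_mod_self_left, Nat.add_mul_mod_self_left] at e
  revert e
  decide

/-- **CTXB** -/
theorem ctx16_ok_pr : CtxOK 16 ctx16 where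
  o := rfl
  m := rfl
  sg := CTXB_sg (33 * 289) (by norm_num)
  sh := CTXB_sg (17 * 289) (by norm_num)
  mB := fun z => ctx_mask_pr 16 (Or.inr rfl) z
  lo := fun z hz => CTXB_lo (33 * 289) (by norm_num) z hz
  lh := fun z hz => CTXB_lo (17 * 289) (by norm_num) z hz

theorem CTXB_rep_one (x s : ℕ) (hs : 1 ≤ s) : rep x s 1 = x := by
  rw [DIG_rep_succ x s 0 hs, DIG_rep_zero, mul_zero, add_zero]

/-- **CTXB** -/
theorem ctx0_ok_pr : CtxOK 0 ctx0 where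
  o := rfl
  m := rfl
  sg := CTXB_sg 289 (by norm_num)
  sh := CTXB_sg 289 (by norm_num)
  mB := fun z => by
    have h := ctx_mask_pr 0 (Or.inl rfl) z
    rw [zero_add, CTXB_rep_one _ _ (by norm_num), CTXB_rep_one _ _ (by norm_num)] at h
    exact h
  lo := fun z hz => CTXB_lo 289 (by norm_num) z hz
  lh := fun z hz => CTXB_lo 289 (by norm_num) z hz

end Pool.Agent.Ecl
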