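import Pool.Agent.Lib_helper51.Ecl.SVDefs

/-!
# Block CTXC: digit forms
-/

set_option autoImplicit false
set_option exponentiation.threshold 300000

namespace Pool.Agent.Ecl

open Real Polynomial K Set

/-- **CTXC** -/
theorem msk_land_pr (z : ℕ) : Msk (Nat.land z ctx0.M) := by
  change (z &&& ctx0.M) &&& ctx0.M = z &&& ctx0.M
  rw [Nat.and_assoc, Nat.and_self]

theorem CTXC_coeff (y n : ℕ) :
    (dpoly y).coeff n = if n ∈ vset then ((dig y n : ℤ) - 2 ^ 68) else 0 := by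
  unfold dpoly
  rw [finsetSum_coeff]
  simp only [coeff_C_mul_X_pow]
  rw [Finset.sum_ite_eq]

/-- **CTXC** -/
theorem dpoly_coeff0_pr (y : ℕ) : (dpoly y).coeff 0 = cd y := by
  rw [CTXC_coeff, if_pos (by decide)]
  unfold dig cd
  rw [mul_zero, pow_zero, Nat.div_one]
  rfl

theorem CTXC_sum (y m : ℕ) :
    y % (2 ^ 160) ^ m = ∑ n ∈ Finset.range m, dig y n * (2 ^ 160) ^ n := by
  induction m with
  | zero => simp [Nat.mod_one]
  | succ m ih =>
    rw [Nat.mod_pow_succ, Finset.sum_range_succ, ih]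
    congr 1
    unfold dig
    rw [← pow_mul, mul_comm]

theorem CTXC_digM : ∀ n < 289, dig (tri (2 ^ 69 - 1) 160 17 8) n =
    if (n / 17) % 17 + n % 17 ≤ 8 then 2 ^ 69 - 1 else 0 := by
  decide +kernel

theorem CTXC_digO : ∀ n < 289, dig (tri (2 ^ 68) 160 17 8) n =
    if (n / 17) % 17 + n % 17 ≤ 8 then 2 ^ 68 else 0 := by
  decide +kernel

theorem CTXC_M_lt : tri (2 ^ 69 - 1) 160 17 8 < (2 ^ 160) ^ 289 := by
  decide +kernel

theorem CTXC_O_lt : tri (2 ^ 68) 160 17 8 < (2 ^ 160) ^ 289 := by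
  decide +kernel

theorem CTXC_dig {y : ℕ} (h : Msk y) (n : ℕ) (hn : n < 289) :
    dig y n = dig y n &&& (if (n / 17) % 17 + n % 17 ≤ 8 then 2 ^ 69 - 1 else 0) := by
  rw [← CTXC_digM n hn]
  have e : dig y n = dig (y &&& tri (2 ^ 69 - 1) 160 17 8) n := congrArg (fun z => dig z n) h.symm
  conv_lhs => rw [e]
  unfold dig
  rw [Nat.and_div_two_pow, Nat.and_mod_two_pow]

theorem CTXC_zero {y : ℕ} (h : Msk y) (n : ℕ) (hn : n < 289)
    (hv : ¬ (n / 17) % 17 + n % 17 ≤ 8) : dig y n = 0 := by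
  have e := CTXC_dig h n hn
  rw [if_neg hv, Nat.and_zero] at e
  exact e

theorem CTXC_le {y : ℕ} (h : Msk y) (n : ℕ) (hn : n < 289) : dig y n ≤ 2 ^ 69 - 1 := by
  have e := CTXC_dig h n hn
  rw [e]
  refine le_trans Nat.and_le_right ?_
  split_ifs
  · exact le_refl _
  · exact Nat.zero_le _

theorem CTXC_lt {y : ℕ} (h : Msk y) : y < (2 ^ 160) ^ 289 := by
  have e : y &&& tri (2 ^ 69 - 1) 160 17 8 = y := h
  have h1 : y &&& tri (2 ^ 69 - 1) 160 17 8 ≤ tri (2 ^ 69 - 1) 160 17 8 := Nat.and_le_right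
  rw [e] at h1
  exact lt_of_le_of_lt h1 CTXC_M_lt

theorem CTXC_sum_vset {y : ℕ} (h : Msk y) : y = ∑ n ∈ vset, dig y n * (2 ^ 160) ^ n := by
  conv_lhs => rw [← Nat.mod_eq_of_lt (CTXC_lt h), CTXC_sum]
  unfold vset
  rw [Finset.sum_filter]
  apply Finset.sum_congr rfl
  intro n hn
  split_ifs with h1
  · rfl
  · rw [CTXC_zero h n (Finset.mem_range.mp hn) h1, zero_mul]

theorem CTXC_O : tri (2 ^ 68) 160 17 8 = ∑ n ∈ vset, 2 ^ 68 * (2 ^ 160) ^ n := by
  conv_lhs => rw [← Nat.mod_eq_of_lt CTXC_O_lt, CTXC_sum]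
  unfold vset
  rw [Finset.sum_filter]
  apply Finset.sum_congr rfl
  intro n hn
  rw [CTXC_digO n (Finset.mem_range.mp hn)]
  split_ifs with h1
  · rfl
  · rw [zero_mul]

/-- **CTXC** -/
theorem dpoly_rep_pr {y : ℕ} (h : Msk y) :
    Rep 0 (2 ^ 68) ((y : ℤ) - (ctx0.O : ℤ)) (dpoly y) := by
  refine ⟨?_, ?_, ?_⟩
  · have e1 : (y : ℤ) = ((∑ n ∈ vset, dig y n * (2 ^ 160) ^ n : ℕ) : ℤ) :=
      congrArg Nat.cast (CTXC_sum_vset h)
    have e2 : (ctx0.O : ℤ) = ((∑ n ∈ vset, 2 ^ 68 * (2 ^ 160) ^ n : ℕ) : ℤ) :=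
      congrArg Nat.cast CTXC_O
    rw [e1, e2]
    unfold dpoly
    rw [eval_finsetSum]
    simp only [eval_mul, eval_C, eval_pow, eval_X, Nat.cast_sum, Nat.cast_mul, Nat.cast_pow]
    rw [← Finset.sum_sub_distrib]
    apply Finset.sum_congr rfl
    intro n _
    rw [sub_mul]
    rfl
  · intro n hn
    rw [CTXC_coeff] at hn
    have hv : n ∈ vset := by
      by_contra hv
      rw [if_neg hv] at hn
      exact hn rfl
    unfold vset at hv
    rw [Finset.mem_filter, Finset.mem_range] at hv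
    exact ⟨by omega, hv.2⟩
  · intro n
    rw [CTXC_coeff]
    split_ifs with hv
    · unfold vset at hv
      rw [Finset.mem_filter, Finset.mem_range] at hv
      have h1 := CTXC_le h n hv.1
      rw [abs_le]
      constructor <;> omega
    · simp

end Pool.Agent.Ecl
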