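import Pool.Agent.Lib_helper51.Ecl.SVDefs
import Pool.Agent.Lib_helper51.EclS.CTXBA
import Pool.Agent.Lib_helper51.EclS.CTXCA
import Pool.Agent.Lib_helper51.EclS.L1SA
import Pool.Agent.Lib_helper51.EclS.MULA
import Pool.Agent.Lib_helper51.EclS.UVTA
import Pool.Agent.Lib_helper51.EclS.VALAA
import Pool.Agent.Lib_helper51.EclS.VALBA

set_option autoImplicit false

namespace Pool.Agent.Ecl

open Real Polynomial K Set

/-- the error of the energy -/
theorem ENE_core {w C S K G P Q sh sn eh et R0 Cb : ℝ} (hw : 0 < w) (heh : 0 ≤ eh)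
    (het : 0 ≤ et) (hetw : 5 * et ≤ w)
    (hm : w * |80 * (P * P + Q * Q) - 5 * ((S * S) * (C * C) + (G * G) * (K * K)) - 80 * C +
      56 * (C * C - K * K)| ≤ R0)
    (hC : |sh| ≤ C) (hS : |S - sh| ≤ eh / w) (hG : |G - sn| ≤ et / w) (hsn : |sn| ≤ 1)
    (hK : |K| ≤ 1) (hCb : w * C + eh ≤ w * Cb) :
    w * |80 * (P ^ 2 + Q ^ 2) - (5 * (sh ^ 2 * C ^ 2 + sn ^ 2 * K ^ 2) + 80 * C -
      56 * (C ^ 2 - K ^ 2))| ≤ R0 + 10 * (Cb * Cb * Cb) * eh + 11 * et := by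
  have hC0 : 0 ≤ C := (abs_nonneg _).trans hC
  have e1 : 80 * (P ^ 2 + Q ^ 2) - (5 * (sh ^ 2 * C ^ 2 + sn ^ 2 * K ^ 2) + 80 * C -
      56 * (C ^ 2 - K ^ 2)) = (80 * (P * P + Q * Q) - 5 * ((S * S) * (C * C) +
      (G * G) * (K * K)) - 80 * C + 56 * (C * C - K * K)) +
      (5 * C ^ 2 * ((S - sh) * (S + sh)) + 5 * K ^ 2 * ((G - sn) * (G + sn))) := by ring
  have hS' : w * |S - sh| ≤ eh := by
    rw [le_div_iff₀ hw] at hS
    linarith
  have hG' : w * |G - sn| ≤ et := by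
    rw [le_div_iff₀ hw] at hG
    linarith
  have hCb' : C + eh / w ≤ Cb := by
    have : w * (C + eh / w) ≤ w * Cb := by
      rw [mul_add, mul_div_cancel₀ _ hw.ne']
      exact hCb
    exact le_of_mul_le_mul_left this hw
  have hehw : 0 ≤ eh / w := by positivity
  have hCCb : C ≤ Cb := by linarith
  have hCb0 : 0 ≤ Cb := hC0.trans hCCb
  have h1 : |S + sh| ≤ 2 * Cb := by
    have : S + sh = (S - sh) + 2 * sh := by ring
    rw [this]
    refine (abs_add_le _ _).trans ?_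
    rw [abs_mul, abs_two]
    linarith
  have h2 : |G + sn| ≤ 11 / 5 := by
    have : G + sn = (G - sn) + 2 * sn := by ring
    rw [this]
    refine (abs_add_le _ _).trans ?_
    rw [abs_mul, abs_two]
    have : et / w ≤ 1 / 5 := by
      rw [div_le_iff₀ hw]
      linarith
    linarith
  have h3 : w * |5 * C ^ 2 * ((S - sh) * (S + sh))| ≤ 10 * (Cb * Cb * Cb) * eh := by
    rw [abs_mul, abs_of_nonneg (show 0 ≤ 5 * C ^ 2 by positivity), abs_mul]
    have h4 : C ^ 2 ≤ Cb ^ 2 := pow_le_pow_left₀ hC0 hCCb 2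
    have h5 : (w * |S - sh|) * |S + sh| ≤ eh * (2 * Cb) :=
      mul_le_mul hS' h1 (abs_nonneg _) heh
    have h6 : C ^ 2 * ((w * |S - sh|) * |S + sh|) ≤ Cb ^ 2 * (eh * (2 * Cb)) :=
      mul_le_mul h4 h5 (by positivity) (by positivity)
    nlinarith
  have h7 : w * |5 * K ^ 2 * ((G - sn) * (G + sn))| ≤ 11 * et := by
    rw [abs_mul, abs_of_nonneg (show 0 ≤ 5 * K ^ 2 by positivity), abs_mul]
    have h4 : K ^ 2 ≤ 1 := by
      rw [← sq_abs]
      exact pow_le_one₀ (abs_nonneg _) hK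
    have h5 : (w * |G - sn|) * |G + sn| ≤ et * (11 / 5) :=
      mul_le_mul hG' h2 (abs_nonneg _) het
    have h6 : K ^ 2 * ((w * |G - sn|) * |G + sn|) ≤ 1 * (et * (11 / 5)) :=
      mul_le_mul h4 h5 (by positivity) (by positivity)
    nlinarith
  rw [e1]
  have h8 := abs_add_le (80 * (P * P + Q * Q) - 5 * ((S * S) * (C * C) +
      (G * G) * (K * K)) - 80 * C + 56 * (C * C - K * K))
      (5 * C ^ 2 * ((S - sh) * (S + sh)) + 5 * K ^ 2 * ((G - sn) * (G + sn)))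
  have h9 := abs_add_le (5 * C ^ 2 * ((S - sh) * (S + sh))) (5 * K ^ 2 * ((G - sn) * (G + sn)))
  have h10 := mul_le_mul_of_nonneg_left h8 hw.le
  have h11 := mul_le_mul_of_nonneg_left h9 hw.le
  linarith

theorem ENE_abs {w X Y : ℝ} (hw : 0 < w) (h : w * X = Y) : w * |X| = |Y| := by
  rw [← h, abs_mul, abs_of_pos hw]

theorem ENE_n60 : (n60 : ℝ) = w60 := by
  unfold n60 w60
  rw [Nat.pow_eq]
  norm_num

/-- **ENE** -/
theorem energy_spec_pr {c s kk g p q eh et nY : ℕ} {k : Sta → Bool}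
    (h : energy ctx0 false c s kk g p q eh et nY k = true) (hn : Msk nY) :
    ∃ E : ℕ, k ⟨c, s, kk, g, p, q, E, eh, et, 16⟩ = true ∧
      StaMsk ⟨c, s, kk, g, p, q, E, eh, et, 16⟩ ∧ ∀ u v : ℝ, |u| ≤ 1 → |v| ≤ 1 → ∀ ξ η : ℝ,
      pv c u v = cosh ξ → |pv s u v - sinh ξ| ≤ eh / w60 → pv kk u v = cos η →
      |pv g u v - sin η| ≤ et / w60 → 0 < pv nY u v ∧
      |pv p u v ^ 2 + pv q u v ^ 2 - U2 ξ η| ≤ pv nY u v ^ 2 / 2 ∧
      |pv p u v ^ 2 + pv q u v ^ 2 - U2 ξ η| ≤ E / w60 * pv nY u v := by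
  unfold energy at h
  rw [Bool.cond_eq_ite] at h
  split_ifs at h with hc
  rw [Bool.and_eq_true, Bool.and_eq_true, Bool.and_eq_true, Bool.and_eq_true,
    Bool.and_eq_true] at hc
  obtain ⟨m1, m2, m3, m4, m5, m6⟩ := hc
  have m1 : Msk c := Nat.eq_of_beq_eq_true m1
  have m2 : Msk s := Nat.eq_of_beq_eq_true m2
  have m3 : Msk kk := Nat.eq_of_beq_eq_true m3
  have m4 : Msk g := Nat.eq_of_beq_eq_true m4
  have m5 : Msk p := Nat.eq_of_beq_eq_true m5
  have m6 : Msk q := Nat.eq_of_beq_eq_true m6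
  have hC := ctx0_ok
  have h016 : 0 ≤ 16 := Nat.zero_le _
  obtain ⟨tc, h, ec, rc, Tc⟩ := uvTM_spec hC m1 h
  obtain ⟨ts, h, es, rs, Ts⟩ := uvTM_spec hC m2 h
  obtain ⟨tk, h, ek, rk, Tk⟩ := uvTM_spec hC m3 h
  obtain ⟨tg, h, eg, rg, Tg⟩ := uvTM_spec hC m4 h
  obtain ⟨tp, h, ep, rp, Tp⟩ := uvTM_spec hC m5 h
  obtain ⟨tq, h, eq, rq, Tq⟩ := uvTM_spec hC m6 h
  obtain ⟨tn, h, en, rn, Tn⟩ := uvTM_spec hC hn h
  obtain ⟨CC, fCC, h, rCC, TCC⟩ := mulTM_spec hC h016 h Tc Tc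
  obtain ⟨SS, fSS, h, rSS, TSS⟩ := mulTM_spec hC h016 h Ts Ts
  obtain ⟨KK, fKK, h, rKK, TKK⟩ := mulTM_spec hC h016 h Tk Tk
  obtain ⟨GG, fGG, h, rGG, TGG⟩ := mulTM_spec hC h016 h Tg Tg
  obtain ⟨PP, fPP, h, rPP, TPP⟩ := mulTM_spec hC h016 h Tp Tp
  obtain ⟨QQ, fQQ, h, rQQ, TQQ⟩ := mulTM_spec hC h016 h Tq Tq
  obtain ⟨SC, fSC, h, rSC, TSC⟩ := mulTM_spec hC h016 h TSS TCC
  obtain ⟨GK, fGK, h, rGK, TGK⟩ := mulTM_spec hC h016 h TGG TKK
  simp only [iadd_eq, isub_eq, imul_eq] at h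
  obtain ⟨r, h, hr⟩ := l1_spec hC h
  simp only [fNat_eq, fInt_eq] at h
  rw [Bool.cond_eq_ite] at h
  split_ifs at h with hc
  rw [Bool.and_eq_true, Bool.and_eq_true] at hc
  obtain ⟨c1, c2, c3⟩ := hc
  have c1 := of_decide_eq_true c1
  have c2 := of_decide_eq_true c2
  have c3 := Nat.le_of_ble_eq_true c3
  generalize hCb : (tc.nr + eh) * 17 / Nat.pow 2 64 + 1 = Cb at h c2
  generalize hR : r + 80 * (PP.e + QQ.e) + 5 * (SC.e + GK.e) + 56 * (CC.e + KK.e) +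
    10 * (Cb * Cb * Cb) * eh + 11 * et + 1 = R at h c2
  generalize hnl : lo (cd nY) tn.nr = nl at h c1 c2
  refine ⟨_, h, ⟨m1, m2, m3, m4, m5, m6, by norm_num⟩, ?_⟩
  intro u v hu hv ξ η h1 h2 h3 h4
  have hfR : lnorm (C 80 * (fPP + fQQ) - C 5 * (fSC + fGK) - C 80 * dpoly c +
      C 56 * (fCC - fKK)) ≤ r := by
    refine hr _ ?_ fun n => ?_
    · rw [eval_add, eval_sub, eval_sub, eval_mul, eval_mul, eval_mul, eval_mul, eval_C, eval_C,
        eval_C, eval_sub, eval_add, eval_add, rPP.ev, rQQ.ev, rSC.ev, rGK.ev, rc.ev, rCC.ev,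
        rKK.ev]
    · have b1 := abs_le.1 (rPP.bd n)
      have b2 := abs_le.1 (rQQ.bd n)
      have b3 := abs_le.1 (rSC.bd n)
      have b4 := abs_le.1 (rGK.bd n)
      have b5 := abs_le.1 (rc.bd n)
      have b6 := abs_le.1 (rCC.bd n)
      have b7 := abs_le.1 (rKK.bd n)
      rw [coeff_add, coeff_sub, coeff_sub, coeff_C_mul, coeff_C_mul, coeff_C_mul, coeff_C_mul,
        coeff_add, coeff_add, coeff_sub, abs_lt]
      constructor <;> linarith
  have hv0 := abs_val_le (C 80 * (fPP + fQQ) - C 5 * (fSC + fGK) - C 80 * dpoly c +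
      C 56 * (fCC - fKK)) hu hv le_rfl zero_le_one
  have hfR' : ((lnorm (C 80 * (fPP + fQQ) - C 5 * (fSC + fGK) - C 80 * dpoly c +
      C 56 * (fCC - fKK)) : ℤ) : ℝ) ≤ (r : ℝ) := by exact_mod_cast hfR
  have hv1 := hv0.trans hfR'
  rw [val_add, val_sub, val_sub, val_C_mul, val_C_mul, val_C_mul, val_C_mul, val_add, val_add,
    val_sub, val_dpoly] at hv1
  have t1 : |val fPP u v 0 - w60 * (pv p u v * pv p u v)| ≤ (PP.e : ℝ) :=
    TPP.er u v 0 hu hv le_rfl zero_le_one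
  have t2 : |val fQQ u v 0 - w60 * (pv q u v * pv q u v)| ≤ (QQ.e : ℝ) :=
    TQQ.er u v 0 hu hv le_rfl zero_le_one
  have t3 : |val fSC u v 0 - w60 * ((pv s u v * pv s u v) * (pv c u v * pv c u v))| ≤
    (SC.e : ℝ) := TSC.er u v 0 hu hv le_rfl zero_le_one
  have t4 : |val fGK u v 0 - w60 * ((pv g u v * pv g u v) * (pv kk u v * pv kk u v))| ≤
    (GK.e : ℝ) := TGK.er u v 0 hu hv le_rfl zero_le_one
  have t5 : |val fCC u v 0 - w60 * (pv c u v * pv c u v)| ≤ (CC.e : ℝ) :=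
    TCC.er u v 0 hu hv le_rfl zero_le_one
  have t6 : |val fKK u v 0 - w60 * (pv kk u v * pv kk u v)| ≤ (KK.e : ℝ) :=
    TKK.er u v 0 hu hv le_rfl zero_le_one
  have t7 := abs_val_le (dpoly c) hu hv le_rfl zero_le_one
  have t8 : ((lnorm (dpoly c) : ℤ) : ℝ) ≤ (tc.nr : ℝ) := by exact_mod_cast Tc.nr
  have t9 := (lo_le_val (dpoly nY) Tn.nr hu hv le_rfl zero_le_one).1
  rw [val_dpoly] at t7
  rw [val_dpoly, dpoly_coeff0, hnl] at t9
  have hw : (0 : ℝ) < w60 := by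
    unfold w60
    positivity
  have hwv : (w60 : ℝ) = 1152921504606846976 := by
    unfold w60
    norm_num
  have hm : w60 * |80 * (pv p u v * pv p u v + pv q u v * pv q u v) -
      5 * ((pv s u v * pv s u v) * (pv c u v * pv c u v) +
      (pv g u v * pv g u v) * (pv kk u v * pv kk u v)) - 80 * pv c u v +
      56 * (pv c u v * pv c u v - pv kk u v * pv kk u v)| ≤
      r + 80 * (PP.e + QQ.e) + 5 * (SC.e + GK.e) + 56 * (CC.e + KK.e) := by
    have e1 : w60 * |80 * (pv p u v * pv p u v + pv q u v * pv q u v) -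
      5 * ((pv s u v * pv s u v) * (pv c u v * pv c u v) +
      (pv g u v * pv g u v) * (pv kk u v * pv kk u v)) - 80 * pv c u v +
      56 * (pv c u v * pv c u v - pv kk u v * pv kk u v)| =
      |80 * (w60 * (pv p u v * pv p u v) + w60 * (pv q u v * pv q u v)) -
      5 * (w60 * ((pv s u v * pv s u v) * (pv c u v * pv c u v)) +
      w60 * ((pv g u v * pv g u v) * (pv kk u v * pv kk u v))) - 80 * (w60 * pv c u v) +
      56 * (w60 * (pv c u v * pv c u v) - w60 * (pv kk u v * pv kk u v))| := by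
      refine ENE_abs hw ?_
      ring
    rw [e1]
    rw [abs_le] at t1 t2 t3 t4 t5 t6 hv1 ⊢
    push_cast at hv1
    generalize w60 * (pv p u v * pv p u v) = y1 at *
    generalize w60 * (pv q u v * pv q u v) = y2 at *
    generalize w60 * (pv s u v * pv s u v * (pv c u v * pv c u v)) = y3 at *
    generalize w60 * (pv g u v * pv g u v * (pv kk u v * pv kk u v)) = y4 at *
    generalize w60 * (pv c u v * pv c u v) = y5 at *
    generalize w60 * (pv kk u v * pv kk u v) = y6 at *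
    generalize w60 * pv c u v = y7 at *
    constructor <;> linarith
  have hCbr : w60 * pv c u v + (eh : ℝ) ≤ w60 * (Cb : ℝ) := by
    have a1 : (tc.nr + eh) * 17 < Nat.pow 2 64 * Cb := by
      rw [← hCb, mul_add, mul_one]
      exact Nat.lt_mul_div_succ _ (by norm_num)
    have a2 : (((tc.nr + eh) * 17 : ℕ) : ℝ) < ((Nat.pow 2 64 * Cb : ℕ) : ℝ) := by
      exact_mod_cast a1
    have a3 : ((Nat.pow 2 64 * Cb : ℕ) : ℝ) = 16 * (w60 * (Cb : ℝ)) := by
      rw [hwv, Nat.pow_eq]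
      push_cast
      ring
    rw [a3] at a2
    push_cast at a2
    have a4 := (abs_le.1 t7).2
    have a5 : (0 : ℝ) ≤ eh := Nat.cast_nonneg _
    have a6 : (0 : ℝ) ≤ tc.nr := Nat.cast_nonneg _
    linarith
  have hcosh : |sinh ξ| ≤ cosh ξ := by
    rw [abs_le]
    have a1 := Real.sinh_lt_cosh (-ξ)
    rw [Real.sinh_neg, Real.cosh_neg] at a1
    exact ⟨by linarith, (Real.sinh_lt_cosh ξ).le⟩
  have hetw : 5 * (et : ℝ) ≤ w60 := by
    have a1 : ((eh + et : ℕ) : ℝ) ≤ ((Nat.pow 2 40 : ℕ) : ℝ) := by exact_mod_cast c3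
    rw [Nat.pow_eq] at a1
    push_cast at a1
    have a5 : (0 : ℝ) ≤ eh := Nat.cast_nonneg _
    rw [hwv]
    linarith
  have hcore := ENE_core hw (Nat.cast_nonneg eh) (Nat.cast_nonneg et) hetw hm
    (h1 ▸ hcosh) h2 h4 (Real.abs_sin_le_one η) (h3 ▸ Real.abs_cos_le_one η) hCbr
  have hU : 80 * (pv p u v ^ 2 + pv q u v ^ 2) - (5 * (sinh ξ ^ 2 * pv c u v ^ 2 +
      sin η ^ 2 * pv kk u v ^ 2) + 80 * pv c u v - 56 * (pv c u v ^ 2 - pv kk u v ^ 2)) =
      80 * (pv p u v ^ 2 + pv q u v ^ 2 - U2 ξ η) := by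
    rw [h1, h3]
    unfold U2 CJ
    ring
  rw [hU, abs_mul, abs_of_pos (show (0 : ℝ) < 80 by norm_num)] at hcore
  have hRr : (r : ℝ) + 80 * (PP.e + QQ.e) + 5 * (SC.e + GK.e) + 56 * (CC.e + KK.e) +
      10 * (Cb * Cb * Cb) * eh + 11 * et + 1 = (R : ℝ) := by
    rw [← hR]
    push_cast
    ring
  generalize hD : |pv p u v ^ 2 + pv q u v ^ 2 - U2 ξ η| = D at *
  have hD0 : 0 ≤ D := hD ▸ abs_nonneg _
  have hDR : w60 * (80 * D) ≤ R := by linarith
  have hnl0 : (0 : ℝ) < (nl : ℝ) := by exact_mod_cast c1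
  have hN : 0 < pv nY u v := by
    by_contra hcon
    have := mul_nonpos_of_nonneg_of_nonpos hw.le (not_lt.1 hcon)
    linarith
  have hc2 : 2 * w60 * (R : ℝ) ≤ 80 * ((nl : ℝ) * nl) := by
    have a1 : ((2 * i60 * (R : ℤ) : ℤ) : ℝ) ≤ ((80 * (nl * nl) : ℤ) : ℝ) := by exact_mod_cast c2
    have a2 : ((i60 : ℤ) : ℝ) = w60 := by
      have a3 : i60 = ((n60 : ℕ) : ℤ) := rfl
      rw [a3, Int.cast_natCast, ENE_n60]
    push_cast at a1
    rw [a2] at a1
    exact a1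
  refine ⟨hN, ?_, ?_⟩
  · have a1 : (nl : ℝ) * nl ≤ (w60 * pv nY u v) * (w60 * pv nY u v) :=
      mul_le_mul t9 t9 hnl0.le (hnl0.le.trans t9)
    have a2 : 2 * w60 * (w60 * (80 * D)) ≤ 2 * w60 * R :=
      mul_le_mul_of_nonneg_left hDR (mul_pos two_pos hw).le
    have a3 : (w60 * w60) * (160 * D) ≤ (w60 * w60) * (80 * pv nY u v ^ 2) := by
      calc (w60 * w60) * (160 * D) = 2 * w60 * (w60 * (80 * D)) := by ring
        _ ≤ 2 * w60 * R := a2
        _ ≤ 80 * ((nl : ℝ) * nl) := hc2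
        _ ≤ 80 * ((w60 * pv nY u v) * (w60 * pv nY u v)) := by linarith
        _ = (w60 * w60) * (80 * pv nY u v ^ 2) := by ring
    have a4 := le_of_mul_le_mul_left a3 (mul_pos hw hw)
    linarith
  · have hnlN : ((nl.toNat : ℕ) : ℝ) = (nl : ℝ) := by
      have : ((nl.toNat : ℕ) : ℤ) = nl := Int.toNat_of_nonneg c1.le
      exact_mod_cast this
    have hpos : 0 < 80 * nl.toNat := by
      have : 0 < nl.toNat := by
        rw [Int.lt_toNat]
        exact_mod_cast c1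
      omega
    have a1 : R * n60 < 80 * nl.toNat * (R * n60 / (80 * nl.toNat) + 2) := by
      have := Nat.lt_mul_div_succ (R * n60) hpos
      refine this.trans_le (Nat.mul_le_mul_left _ ?_)
      omega
    generalize hE : R * n60 / (80 * nl.toNat) + 2 = E at *
    have a2 : (R : ℝ) * w60 ≤ 80 * nl * E := by
      have : ((R * n60 : ℕ) : ℝ) < ((80 * nl.toNat * E : ℕ) : ℝ) := by exact_mod_cast a1
      push_cast at this
      rw [ENE_n60, hnlN] at this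
      exact this.le
    rw [div_mul_eq_mul_div, le_div_iff₀ hw]
    have hE0 : (0 : ℝ) ≤ E := Nat.cast_nonneg _
    have a3 : (nl : ℝ) * E ≤ (w60 * pv nY u v) * E := mul_le_mul_of_nonneg_right t9 hE0
    have a4 : w60 * (80 * D) * w60 ≤ R * w60 := mul_le_mul_of_nonneg_right hDR hw.le
    have a5 : (80 * w60) * (D * w60) ≤ (80 * w60) * ((E : ℝ) * pv nY u v) := by
      calc (80 * w60) * (D * w60) = w60 * (80 * D) * w60 := by ring
        _ ≤ R * w60 := a4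
        _ ≤ 80 * nl * E := a2
        _ = 80 * ((nl : ℝ) * E) := by ring
        _ ≤ 80 * ((w60 * pv nY u v) * E) := by linarith
        _ = (80 * w60) * ((E : ℝ) * pv nY u v) := by ring
    exact le_of_mul_le_mul_left a5 (mul_pos (by norm_num) hw)

end Pool.Agent.Ecl
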