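import Pool.Agent.Lib_helper51.Ecl.SVDefs

set_option autoImplicit false

namespace Pool.Agent.Ecl

open Real Polynomial K Set

theorem FLDA_mul {x y x' y' a b d e : ℝ} (hx : |x| ≤ a) (hy : |y'| ≤ b) (hd : |x - x'| ≤ d)
    (he : |y - y'| ≤ e) : |x * y - x' * y'| ≤ a * e + d * b := by
  have h : x * y - x' * y' = x * (y - y') + (x - x') * y' := by ring
  rw [h]
  refine (abs_add_le _ _).trans ?_
  rw [abs_mul, abs_mul]
  have ha : 0 ≤ a := (abs_nonneg _).trans hx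
  have hd0 : 0 ≤ d := (abs_nonneg _).trans hd
  exact add_le_add (mul_le_mul hx he (abs_nonneg _) ha) (mul_le_mul hd hy (abs_nonneg _) hd0)

theorem FLDA_pre {ξ c s eh : ℝ} (h1 : |c + s - exp ξ| ≤ eh) (h2 : |c - s - exp (-ξ)| ≤ eh) :
    |c - cosh ξ| ≤ eh ∧ |s - sinh ξ| ≤ eh ∧ |cosh ξ| ≤ |c| + eh ∧ |sinh ξ| ≤ |c| + eh ∧
      |s| ≤ |c| + eh ∧ 1 ≤ |c| + eh := by
  have e1 : exp ξ = cosh ξ + sinh ξ := (Real.cosh_add_sinh ξ).symm
  have e2 : exp (-ξ) = cosh ξ - sinh ξ := (Real.cosh_sub_sinh ξ).symm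
  rw [e1] at h1
  rw [e2] at h2
  have hC1 : 1 ≤ cosh ξ := Real.one_le_cosh ξ
  have hS : |sinh ξ| ≤ cosh ξ := by
    rw [abs_le]
    constructor
    · have := Real.exp_pos ξ
      rw [e1] at this; linarith
    · have := Real.exp_pos (-ξ)
      rw [e2] at this; linarith
  have h1' := abs_le.1 h1
  have h2' := abs_le.1 h2
  have hcC : |c - cosh ξ| ≤ eh := by
    rw [abs_le]; constructor <;> linarith [h1'.1, h1'.2, h2'.1, h2'.2]
  have hsS : |s - sinh ξ| ≤ eh := by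
    rw [abs_le]; constructor <;> linarith [h1'.1, h1'.2, h2'.1, h2'.2]
  have hsum : |c - cosh ξ| + |s - sinh ξ| ≤ eh := by
    rcases abs_cases (c - cosh ξ) with h | h <;> rcases abs_cases (s - sinh ξ) with h' | h' <;>
      linarith [h1'.1, h1'.2, h2'.1, h2'.2]
  have hcc : |cosh ξ| ≤ |c| + |c - cosh ξ| := by
    have := abs_sub_abs_le_abs_sub (cosh ξ) c
    rw [abs_sub_comm] at this
    linarith
  have hs0 : 0 ≤ |s - sinh ξ| := abs_nonneg _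
  have hss : |s| ≤ |sinh ξ| + |s - sinh ξ| := by
    have := abs_sub_abs_le_abs_sub s (sinh ξ)
    linarith
  have hCa : |cosh ξ| = cosh ξ := abs_of_pos (by linarith)
  refine ⟨hcC, hsS, by linarith, by linarith, by linarith, by linarith⟩

theorem FLDA_prek {η k g et : ℝ} (het : 0 ≤ et)
    (h3 : (k - cos η) ^ 2 + (g - sin η) ^ 2 ≤ et ^ 2) :
    |k - cos η| ≤ et ∧ |g - sin η| ≤ et ∧ |cos η| ≤ 1 ∧ |sin η| ≤ 1 ∧
      |k| ≤ 1 + et ∧ |g| ≤ 1 + et := by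
  have hk : |k - cos η| ≤ et := by
    refine abs_le_of_sq_le_sq ?_ het
    nlinarith [sq_nonneg (g - sin η)]
  have hg : |g - sin η| ≤ et := by
    refine abs_le_of_sq_le_sq ?_ het
    nlinarith [sq_nonneg (k - cos η)]
  have hK := Real.abs_cos_le_one η
  have hG := Real.abs_sin_le_one η
  have h1 := abs_sub_abs_le_abs_sub k (cos η)
  have h2 := abs_sub_abs_le_abs_sub g (sin η)
  exact ⟨hk, hg, hK, hG, by linarith, by linarith⟩

theorem FLDA_pow {x X b d : ℝ} (hx : |x| ≤ b) (hX : |X| ≤ b) (hd : |x - X| ≤ d) :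
    |x ^ 2 - X ^ 2| ≤ 2 * b * d ∧ |x ^ 3 - X ^ 3| ≤ 3 * b ^ 2 * d ∧
      |x ^ 4 - X ^ 4| ≤ 4 * b ^ 3 * d ∧ |X ^ 3| ≤ b ^ 3 := by
  have hb : 0 ≤ b := (abs_nonneg _).trans hx
  have h2 : |x ^ 2 - X ^ 2| ≤ b * d + d * b := by
    have := FLDA_mul hx hX hd hd
    have e : x ^ 2 - X ^ 2 = x * x - X * X := by ring
    rw [e]; exact this
  have hx2 : |x ^ 2| ≤ b ^ 2 := by
    rw [abs_pow]; exact pow_le_pow_left₀ (abs_nonneg _) hx 2
  have hx3 : |x ^ 3| ≤ b ^ 3 := by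
    rw [abs_pow]; exact pow_le_pow_left₀ (abs_nonneg _) hx 3
  have hX3 : |X ^ 3| ≤ b ^ 3 := by
    rw [abs_pow]; exact pow_le_pow_left₀ (abs_nonneg _) hX 3
  have h3 : |x ^ 3 - X ^ 3| ≤ b ^ 2 * d + (b * d + d * b) * b := by
    have := FLDA_mul hx2 hX h2 hd
    have e : x ^ 3 - X ^ 3 = x ^ 2 * x - X ^ 2 * X := by ring
    rw [e]; exact this
  have h4 : |x ^ 4 - X ^ 4| ≤ b ^ 3 * d + (b ^ 2 * d + (b * d + d * b) * b) * b := by
    have := FLDA_mul hx3 hX h3 hd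
    have e : x ^ 4 - X ^ 4 = x ^ 3 * x - X ^ 3 * X := by ring
    rw [e]; exact this
  exact ⟨by linarith, by linarith, by linarith, hX3⟩

theorem fld_rel_pr {ξ η p q c s k g eh et Cb Pb Qb : ℝ} (heh : 0 ≤ eh) (het : 0 ≤ et)
    (her : eh + et ≤ 1 / 1024) (h1 : |c + s - exp ξ| ≤ eh) (h2 : |c - s - exp (-ξ)| ≤ eh)
    (h3 : (k - cos η) ^ 2 + (g - sin η) ^ 2 ≤ et ^ 2) (hC : (|c| + eh) * (17 / 16) ≤ Cb)
    (hP : |p| + 1 ≤ Pb) (hQ : |q| + 1 ≤ Qb) :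
    |Fp ξ η q - Fph c s k q| + |Fq ξ η p - Fqh c k g p| ≤
      (eh + et) * ((Cb + 1) * (Pb + Qb) + Cb ^ 3 + 2 * Cb + 3) := by
  obtain ⟨hc, hs, hCb, hSb, hsb, hone⟩ := FLDA_pre h1 h2
  obtain ⟨hk, hg, hK, hG, hkb, hgb⟩ := FLDA_prek het h3
  have hp0 := abs_nonneg p
  have hq0 := abs_nonneg q
  have hcb : |c| ≤ |c| + eh := by linarith
  set b := |c| + eh with hb
  set C := cosh ξ with hCd
  set S := sinh ξ with hSd
  set K' := cos η with hKd
  set G := sin η with hGd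
  have hK1 : |K'| ≤ 1 + et := by linarith
  obtain ⟨hc2, hc3, -, hC3⟩ := FLDA_pow hcb hCb hc
  obtain ⟨hk2, hk3, -, hK3⟩ := FLDA_pow hkb hK1 hk
  have hsc3 : |s * c ^ 3 - S * C ^ 3| ≤ b * (3 * b ^ 2 * eh) + eh * b ^ 3 :=
    FLDA_mul hsb hC3 hs hc3
  have hsc : |s * c - S * C| ≤ b * eh + eh * b := FLDA_mul hsb hCb hs hc
  have hgk3 : |g * k ^ 3 - G * K' ^ 3| ≤ (1 + et) * (3 * (1 + et) ^ 2 * et) + et * (1 + et) ^ 3 :=
    FLDA_mul hgb hK3 hg hk3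
  have hgk : |g * k - G * K'| ≤ (1 + et) * et + et * 1 := FLDA_mul hgb hK hg hk
  have e1 : Fp ξ η q - Fph c s k q = -((c ^ 2 - C ^ 2) * (q / 2)) + (k ^ 2 - K' ^ 2) * (q / 2) +
      (-((s * c ^ 3 - S * C ^ 3) * (1 / 8)) + (s * c - S * C) * (61 / 80)
        - (s - S) * (1 / 2)) := by
    simp only [Fp, Fph, JJ, CJ, ← hCd, ← hSd, ← hKd]
    ring
  have e2 : Fq ξ η p - Fqh c k g p = (c ^ 2 - C ^ 2) * (p / 2) - (k ^ 2 - K' ^ 2) * (p / 2) +
      (-((g * k ^ 3 - G * K' ^ 3) * (1 / 8)) + (g * k - G * K') * (61 / 80)) := by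
    simp only [Fq, Fqh, JJ, CJ, ← hCd, ← hGd, ← hKd]
    ring
  have b1 : |(c ^ 2 - C ^ 2) * (q / 2)| ≤ b * eh * |q| := by
    rw [abs_mul, abs_div, abs_two]
    have := mul_le_mul_of_nonneg_right hc2 (by positivity : (0 : ℝ) ≤ |q| / 2)
    linarith
  have b2 : |(k ^ 2 - K' ^ 2) * (q / 2)| ≤ (1 + et) * et * |q| := by
    rw [abs_mul, abs_div, abs_two]
    have := mul_le_mul_of_nonneg_right hk2 (by positivity : (0 : ℝ) ≤ |q| / 2)
    linarith
  have b3 : |(c ^ 2 - C ^ 2) * (p / 2)| ≤ b * eh * |p| := by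
    rw [abs_mul, abs_div, abs_two]
    have := mul_le_mul_of_nonneg_right hc2 (by positivity : (0 : ℝ) ≤ |p| / 2)
    linarith
  have b4 : |(k ^ 2 - K' ^ 2) * (p / 2)| ≤ (1 + et) * et * |p| := by
    rw [abs_mul, abs_div, abs_two]
    have := mul_le_mul_of_nonneg_right hk2 (by positivity : (0 : ℝ) ≤ |p| / 2)
    linarith
  have B1 : |Fp ξ η q - Fph c s k q| ≤ b * eh * |q| + (1 + et) * et * |q| +
      ((b * (3 * b ^ 2 * eh) + eh * b ^ 3) / 8 + (b * eh + eh * b) * (61 / 80) + eh / 2) := by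
    rw [e1]
    have a1 := abs_le.1 b1
    have a2 := abs_le.1 b2
    have a3 := abs_le.1 hsc3
    have a4 := abs_le.1 hsc
    have a5 := abs_le.1 hs
    rw [abs_le]
    constructor <;> linarith [a1.1, a1.2, a2.1, a2.2, a3.1, a3.2, a4.1, a4.2, a5.1, a5.2]
  have B2 : |Fq ξ η p - Fqh c k g p| ≤ b * eh * |p| + (1 + et) * et * |p| +
      (((1 + et) * (3 * (1 + et) ^ 2 * et) + et * (1 + et) ^ 3) / 8 +
        ((1 + et) * et + et * 1) * (61 / 80)) := by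
    rw [e2]
    have a1 := abs_le.1 b3
    have a2 := abs_le.1 b4
    have a3 := abs_le.1 hgk3
    have a4 := abs_le.1 hgk
    rw [abs_le]
    constructor <;> linarith [a1.1, a1.2, a2.1, a2.2, a3.1, a3.2, a4.1, a4.2]
  have het1 : et ≤ 1 / 1024 := by linarith
  have h0b : 0 ≤ b := by linarith
  have hbC : b ≤ Cb := by linarith
  have hC0 : 0 ≤ Cb := by linarith
  have hb3 : b ^ 3 ≤ Cb ^ 3 := pow_le_pow_left₀ h0b hbC 3
  have hcube : (1 + et) ^ 3 ≤ 1.01 := by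
    have := pow_le_pow_left₀ (by linarith : (0 : ℝ) ≤ 1 + et) (by linarith : 1 + et ≤ 1 + 1 / 1024) 3
    norm_num at this ⊢
    linarith
  have E1 : b * eh * |q| + b * eh * |p| + ((b * (3 * b ^ 2 * eh) + eh * b ^ 3) / 8 +
      (b * eh + eh * b) * (61 / 80) + eh / 2) ≤
      eh * ((Cb + 1) * (Pb + Qb) + Cb ^ 3 + 2 * Cb + 3) := by
    have : b * eh * |q| + b * eh * |p| + ((b * (3 * b ^ 2 * eh) + eh * b ^ 3) / 8 +
      (b * eh + eh * b) * (61 / 80) + eh / 2) =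
      eh * (b * (|p| + |q|) + b ^ 3 / 2 + b * (61 / 40) + 1 / 2) := by ring
    rw [this]
    apply mul_le_mul_of_nonneg_left _ heh
    have h1 : b * (|p| + |q|) ≤ (Cb + 1) * (Pb + Qb) :=
      mul_le_mul (by linarith) (by linarith) (by positivity) (by linarith)
    have h2 : 0 ≤ b ^ 3 := by positivity
    linarith
  have E2 : (1 + et) * et * |q| + (1 + et) * et * |p| +
      (((1 + et) * (3 * (1 + et) ^ 2 * et) + et * (1 + et) ^ 3) / 8 +
        ((1 + et) * et + et * 1) * (61 / 80)) ≤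
      et * ((Cb + 1) * (Pb + Qb) + Cb ^ 3 + 2 * Cb + 3) := by
    have : (1 + et) * et * |q| + (1 + et) * et * |p| +
      (((1 + et) * (3 * (1 + et) ^ 2 * et) + et * (1 + et) ^ 3) / 8 +
        ((1 + et) * et + et * 1) * (61 / 80)) =
      et * ((1 + et) * (|p| + |q|) + (1 + et) ^ 3 / 2 + (2 + et) * (61 / 80)) := by ring
    rw [this]
    apply mul_le_mul_of_nonneg_left _ het
    have h1 : (1 + et) * (|p| + |q|) ≤ (Cb + 1) * (Pb + Qb) :=
      mul_le_mul (by linarith) (by linarith) (by positivity) (by linarith)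
    have h2 : 0 ≤ Cb ^ 3 := by positivity
    linarith
  linarith

end Pool.Agent.Ecl

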