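import Pool.Agent.Lib_helper51.Ecl.SVDefs

set_option autoImplicit false

namespace Pool.Agent.Ecl

open Real Polynomial K Set

theorem FLDB_mul {x y x' y' a b d e : ℝ} (hx : |x| ≤ a) (hy : |y'| ≤ b) (hd : |x - x'| ≤ d)
    (he : |y - y'| ≤ e) : |x * y - x' * y'| ≤ a * e + d * b := by
  have h : x * y - x' * y' = x * (y - y') + (x - x') * y' := by ring
  rw [h]
  refine (abs_add_le _ _).trans ?_
  rw [abs_mul, abs_mul]
  have ha : 0 ≤ a := (abs_nonneg _).trans hx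
  have hd0 : 0 ≤ d := (abs_nonneg _).trans hd
  exact add_le_add (mul_le_mul hx he (abs_nonneg _) ha) (mul_le_mul hd hy (abs_nonneg _) hd0)

theorem FLDB_pre {ξ c s eh : ℝ} (h1 : |c + s - exp ξ| ≤ eh) (h2 : |c - s - exp (-ξ)| ≤ eh) :
    |c - cosh ξ| ≤ eh ∧ |s - sinh ξ| ≤ eh ∧ |cosh ξ| ≤ |c| + eh ∧ |sinh ξ| ≤ |c| + eh ∧
      |s| ≤ |c| + eh ∧ 1 ≤ |c| + eh := by
  have e1 : exp ξ = cosh ξ + sinh ξ := (Real.cosh_add_sinh ξ).symm
  have e2 : exp (-ξ) = cosh ξ - sinh ξ := (Real.cosh_sub_sinh ξ).symm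
  rw [e1] at h1
  rw [e2] at h2
  have hC1 : 1 ≤ cosh ξ := Real.one_le_cosh ξ
  have hS : |sinh ξ| ≤ cosh ξ := by
    rw [abs_le]
    constructor
    · have := Real.exp_pos ξ
      rw [e1] at this; linarith
    · have := Real.exp_pos (-ξ)
      rw [e2] at this; linarith
  have h1' := abs_le.1 h1
  have h2' := abs_le.1 h2
  have hcC : |c - cosh ξ| ≤ eh := by
    rw [abs_le]; constructor <;> linarith [h1'.1, h1'.2, h2'.1, h2'.2]
  have hsS : |s - sinh ξ| ≤ eh := by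
    rw [abs_le]; constructor <;> linarith [h1'.1, h1'.2, h2'.1, h2'.2]
  have hsum : |c - cosh ξ| + |s - sinh ξ| ≤ eh := by
    rcases abs_cases (c - cosh ξ) with h | h <;> rcases abs_cases (s - sinh ξ) with h' | h' <;>
      linarith [h1'.1, h1'.2, h2'.1, h2'.2]
  have hcc : |cosh ξ| ≤ |c| + |c - cosh ξ| := by
    have := abs_sub_abs_le_abs_sub (cosh ξ) c
    rw [abs_sub_comm] at this
    linarith
  have hs0 : 0 ≤ |s - sinh ξ| := abs_nonneg _
  have hss : |s| ≤ |sinh ξ| + |s - sinh ξ| := by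
    have := abs_sub_abs_le_abs_sub s (sinh ξ)
    linarith
  have hCa : |cosh ξ| = cosh ξ := abs_of_pos (by linarith)
  refine ⟨hcC, hsS, by linarith, by linarith, by linarith, by linarith⟩

theorem FLDB_prek {η k g et : ℝ} (het : 0 ≤ et)
    (h3 : (k - cos η) ^ 2 + (g - sin η) ^ 2 ≤ et ^ 2) :
    |k - cos η| ≤ et ∧ |g - sin η| ≤ et ∧ |cos η| ≤ 1 ∧ |sin η| ≤ 1 ∧
      |k| ≤ 1 + et ∧ |g| ≤ 1 + et := by
  have hk : |k - cos η| ≤ et := by
    refine abs_le_of_sq_le_sq ?_ het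
    nlinarith [sq_nonneg (g - sin η)]
  have hg : |g - sin η| ≤ et := by
    refine abs_le_of_sq_le_sq ?_ het
    nlinarith [sq_nonneg (k - cos η)]
  have hK := Real.abs_cos_le_one η
  have hG := Real.abs_sin_le_one η
  have h1 := abs_sub_abs_le_abs_sub k (cos η)
  have h2 := abs_sub_abs_le_abs_sub g (sin η)
  exact ⟨hk, hg, hK, hG, by linarith, by linarith⟩

theorem FLDB_pow {x X b d : ℝ} (hx : |x| ≤ b) (hX : |X| ≤ b) (hd : |x - X| ≤ d) :
    |x ^ 2 - X ^ 2| ≤ 2 * b * d ∧ |x ^ 3 - X ^ 3| ≤ 3 * b ^ 2 * d ∧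
      |x ^ 4 - X ^ 4| ≤ 4 * b ^ 3 * d ∧ |X ^ 3| ≤ b ^ 3 := by
  have hb : 0 ≤ b := (abs_nonneg _).trans hx
  have h2 : |x ^ 2 - X ^ 2| ≤ b * d + d * b := by
    have := FLDB_mul hx hX hd hd
    have e : x ^ 2 - X ^ 2 = x * x - X * X := by ring
    rw [e]; exact this
  have hx2 : |x ^ 2| ≤ b ^ 2 := by
    rw [abs_pow]; exact pow_le_pow_left₀ (abs_nonneg _) hx 2
  have hx3 : |x ^ 3| ≤ b ^ 3 := by
    rw [abs_pow]; exact pow_le_pow_left₀ (abs_nonneg _) hx 3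
  have hX3 : |X ^ 3| ≤ b ^ 3 := by
    rw [abs_pow]; exact pow_le_pow_left₀ (abs_nonneg _) hX 3
  have h3 : |x ^ 3 - X ^ 3| ≤ b ^ 2 * d + (b * d + d * b) * b := by
    have := FLDB_mul hx2 hX h2 hd
    have e : x ^ 3 - X ^ 3 = x ^ 2 * x - X ^ 2 * X := by ring
    rw [e]; exact this
  have h4 : |x ^ 4 - X ^ 4| ≤ b ^ 3 * d + (b ^ 2 * d + (b * d + d * b) * b) * b := by
    have := FLDB_mul hx3 hX h3 hd
    have e : x ^ 4 - X ^ 4 = x ^ 3 * x - X ^ 3 * X := by ring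
    rw [e]; exact this
  exact ⟨by linarith, by linarith, by linarith, hX3⟩

theorem fld_lin_pr {ξ η p q c s k g eh et Cb Pb Qb lam m1 m2 : ℝ} (heh : 0 ≤ eh) (het : 0 ≤ et)
    (her : eh + et ≤ 1 / 1024) (h1 : |c + s - exp ξ| ≤ eh) (h2 : |c - s - exp (-ξ)| ≤ eh)
    (h3 : (k - cos η) ^ 2 + (g - sin η) ^ 2 ≤ et ^ 2) (hC : (|c| + eh) * (17 / 16) ≤ Cb)
    (hP : |p| + 1 ≤ Pb) (hQ : |q| + 1 ≤ Qb) (ha : |lam ^ 2 + S11h c s q| ≤ m1)
    (hb : |lam ^ 2 + S22h k g p| ≤ m1) (hc : |q * (k * g)| ≤ m2) (hd : |p * (c * s)| ≤ m2) :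
    max |lam ^ 2 + S11h (cosh ξ) (sinh ξ) q| |lam ^ 2 + S22h (cos η) (sin η) p| +
      max |q * (cos η * sin η)| |p * (cosh ξ * sinh ξ)| ≤
      m1 + m2 + 2 * (eh + et) * (2 * Cb ^ 3 + 4 * Cb + 1 + (Pb + Qb) * (2 * Cb + 1)) := by
  obtain ⟨hcd, hs, hCb, hSb, hsb, hone⟩ := FLDB_pre h1 h2
  obtain ⟨hk, hg, hK, hG, hkb, hgb⟩ := FLDB_prek het h3
  have hp0 := abs_nonneg p
  have hq0 := abs_nonneg q
  have hcb : |c| ≤ |c| + eh := by linarith
  set b := |c| + eh with hbd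
  set C := cosh ξ with hCd
  set S := sinh ξ with hSd
  set K' := cos η with hKd
  set G := sin η with hGd
  have hK1 : |K'| ≤ 1 + et := by linarith
  obtain ⟨hc2, -, hc4, -⟩ := FLDB_pow hcb hCb hcd
  obtain ⟨hk2, -, hk4, -⟩ := FLDB_pow hkb hK1 hk
  have hcs : |c * s - C * S| ≤ b * eh + eh * b := FLDB_mul hcb hSb hcd hs
  have hkg : |k * g - K' * G| ≤ (1 + et) * et + et * 1 := FLDB_mul hkb hG hk hg
  have het1 : et ≤ 1 / 1024 := by linarith
  have h0b : 0 ≤ b := by linarith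
  have hbC : b ≤ Cb := by linarith
  have hC0 : 0 ≤ Cb := by linarith
  have hb3 : b ^ 3 ≤ Cb ^ 3 := pow_le_pow_left₀ h0b hbC 3
  have hC3 : 0 ≤ Cb ^ 3 := by positivity
  have hcube : (1 + et) ^ 3 ≤ 1.01 := by
    have := pow_le_pow_left₀ (by linarith : (0 : ℝ) ≤ 1 + et) (by linarith : 1 + et ≤ 1 + 1 / 1024) 3
    norm_num at this ⊢
    linarith
  have hPQ : 0 ≤ Pb + Qb := by linarith
  have hqcs : |q * (c * s - C * S)| ≤ |q| * (b * eh + eh * b) := by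
    rw [abs_mul]; exact mul_le_mul_of_nonneg_left hcs hq0
  have hpcs : |p * (c * s - C * S)| ≤ |p| * (b * eh + eh * b) := by
    rw [abs_mul]; exact mul_le_mul_of_nonneg_left hcs hp0
  have hqkg : |q * (k * g - K' * G)| ≤ |q| * ((1 + et) * et + et * 1) := by
    rw [abs_mul]; exact mul_le_mul_of_nonneg_left hkg hq0
  have hpkg : |p * (k * g - K' * G)| ≤ |p| * ((1 + et) * et + et * 1) := by
    rw [abs_mul]; exact mul_le_mul_of_nonneg_left hkg hp0
  -- the four bounds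
  have D1 : |lam ^ 2 + S11h C S q| ≤ m1 + eh * (2 * b ^ 3 + 3.8 * b + 1 / 2 + 2 * |q| * b) := by
    have e : lam ^ 2 + S11h C S q = (lam ^ 2 + S11h c s q) - ((c ^ 4 - C ^ 4) * (1 / 2) -
        (c ^ 2 - C ^ 2) * (19 / 10) + (c - C) * (1 / 2) + q * (c * s - C * S)) := by
      simp only [S11h]; ring
    rw [e]
    have a0 := abs_le.1 ha
    have a1 := abs_le.1 hc4
    have a2 := abs_le.1 hc2
    have a3 := abs_le.1 hcd
    have a4 := abs_le.1 hqcs
    rw [abs_le]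
    constructor <;> linarith [a0.1, a0.2, a1.1, a1.2, a2.1, a2.2, a3.1, a3.2, a4.1, a4.2]
  have D2 : |lam ^ 2 + S22h K' G p| ≤ m1 + et * (2 * (1 + et) ^ 3 + 3.8 * (1 + et) +
      |p| * (2 + et)) := by
    have e : lam ^ 2 + S22h K' G p = (lam ^ 2 + S22h k g p) - ((k ^ 4 - K' ^ 4) * (1 / 2) -
        (k ^ 2 - K' ^ 2) * (19 / 10) - p * (k * g - K' * G)) := by
      simp only [S22h]; ring
    rw [e]
    have a0 := abs_le.1 hb
    have a1 := abs_le.1 hk4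
    have a2 := abs_le.1 hk2
    have a4 := abs_le.1 hpkg
    rw [abs_le]
    constructor <;> linarith [a0.1, a0.2, a1.1, a1.2, a2.1, a2.2, a4.1, a4.2]
  have D3 : |q * (K' * G)| ≤ m2 + et * (|q| * (2 + et)) := by
    have e : q * (K' * G) = q * (k * g) - q * (k * g - K' * G) := by ring
    rw [e]
    have a0 := abs_le.1 hc
    have a4 := abs_le.1 hqkg
    rw [abs_le]
    constructor <;> linarith [a0.1, a0.2, a4.1, a4.2]
  have D4 : |p * (C * S)| ≤ m2 + eh * (2 * |p| * b) := by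
    have e : p * (C * S) = p * (c * s) - p * (c * s - C * S) := by ring
    rw [e]
    have a0 := abs_le.1 hd
    have a4 := abs_le.1 hpcs
    rw [abs_le]
    constructor <;> linarith [a0.1, a0.2, a4.1, a4.2]
  set Kr := 2 * Cb ^ 3 + 4 * Cb + 1 + (Pb + Qb) * (2 * Cb + 1) with hKr
  have hmp : 2 * |p| * b ≤ (Pb + Qb) * (2 * Cb) := by
    have := mul_le_mul (by linarith : |p| ≤ Pb + Qb) hbC h0b hPQ
    linarith
  have hmq : 2 * |q| * b ≤ (Pb + Qb) * (2 * Cb) := by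
    have := mul_le_mul (by linarith : |q| ≤ Pb + Qb) hbC h0b hPQ
    linarith
  have hpe : |p| * (2 + et) ≤ (Pb + Qb) * (2 * Cb) := by
    have := mul_le_mul (by linarith : |p| ≤ Pb + Qb) (by linarith : 2 + et ≤ 2 * Cb)
      (by linarith) hPQ
    linarith
  have hqe : |q| * (2 + et) ≤ (Pb + Qb) * (2 * Cb) := by
    have := mul_le_mul (by linarith : |q| ≤ Pb + Qb) (by linarith : 2 + et ≤ 2 * Cb)
      (by linarith) hPQ
    linarith
  have K1 : 2 * b ^ 3 + 3.8 * b + 1 / 2 + 2 * |q| * b ≤ Kr := by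
    rw [hKr]
    linarith
  have K2 : 2 * (1 + et) ^ 3 + 3.8 * (1 + et) + |p| * (2 + et) ≤ Kr := by
    rw [hKr]
    norm_num at hcube ⊢
    linarith
  have K3 : |q| * (2 + et) ≤ Kr := by
    rw [hKr]; linarith
  have K4 : 2 * |p| * b ≤ Kr := by
    rw [hKr]; linarith
  have hKr0 : 0 ≤ Kr := by
    have : 0 ≤ 2 * |p| * b := by positivity
    linarith
  have hehK := mul_nonneg heh hKr0
  have hetK := mul_nonneg het hKr0
  have F1 : max |lam ^ 2 + S11h C S q| |lam ^ 2 + S22h K' G p| ≤ m1 + (eh + et) * Kr := by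
    apply max_le
    · have := mul_le_mul_of_nonneg_left K1 heh
      linarith
    · have := mul_le_mul_of_nonneg_left K2 het
      linarith
  have F2 : max |q * (K' * G)| |p * (C * S)| ≤ m2 + (eh + et) * Kr := by
    apply max_le
    · have := mul_le_mul_of_nonneg_left K3 het
      linarith
    · have := mul_le_mul_of_nonneg_left K4 heh
      linarith
  linarith

end Pool.Agent.Ecl

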