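import Pool.Agent.Lib_helper51.Ecl.SVDefs

set_option autoImplicit false

namespace Pool.Agent.Ecl

open Real Polynomial K Set

theorem FLDC_up {f f1 f2 : ℝ → ℝ} {a b M : ℝ} (hab : a ≤ b)
    (h1 : ∀ x, HasDerivAt f (f1 x) x) (h2 : ∀ x, HasDerivAt f1 (f2 x) x)
    (hM : ∀ x, a ≤ x → x ≤ b → f2 x ≤ M) :
    f b ≤ f a + f1 a * (b - a) + M / 2 * (b - a) ^ 2 := by
  have e1 : AntitoneOn (fun x => f1 x - M * x) (Icc a b) := by
    have hd : ∀ x, HasDerivAt (fun x => f1 x - M * x) (f2 x - M * 1) x := fun x =>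
      (h2 x).sub ((hasDerivAt_id' x).const_mul M)
    refine antitoneOn_of_deriv_nonpos (convex_Icc a b)
      (fun x _ => (hd x).continuousAt.continuousWithinAt)
      (fun x _ => (hd x).differentiableAt.differentiableWithinAt) ?_
    intro x hx
    rw [interior_Icc] at hx
    rw [(hd x).deriv]
    have := hM x hx.1.le hx.2.le
    linarith
  have e2 : AntitoneOn (fun x => f x - f1 a * x - M / 2 * (x - a) ^ 2) (Icc a b) := by
    have hd : ∀ x, HasDerivAt (fun x => f x - f1 a * x - M / 2 * (x - a) ^ 2)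
        (f1 x - f1 a * 1 - M / 2 * (2 * (x - a))) x := fun x => by
      have h3 : HasDerivAt (fun x : ℝ => (x - a) ^ 2) (2 * (x - a)) x := by
        have := ((hasDerivAt_id' x).sub_const a).pow 2
        refine this.congr_deriv ?_
        simp
      exact ((h1 x).sub ((hasDerivAt_id' x).const_mul (f1 a))).sub (h3.const_mul (M / 2))
    refine antitoneOn_of_deriv_nonpos (convex_Icc a b)
      (fun x _ => (hd x).continuousAt.continuousWithinAt)
      (fun x _ => (hd x).differentiableAt.differentiableWithinAt) ?_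
    intro x hx
    rw [interior_Icc] at hx
    rw [(hd x).deriv]
    have := e1 (left_mem_Icc.2 hab) ⟨hx.1.le, hx.2.le⟩ hx.1.le
    linarith
  have := e2 (left_mem_Icc.2 hab) (right_mem_Icc.2 hab) hab
  simp only [sub_self] at this
  nlinarith

theorem FLDC_up' {f f1 f2 : ℝ → ℝ} {a b M : ℝ}
    (h1 : ∀ x, HasDerivAt f (f1 x) x) (h2 : ∀ x, HasDerivAt f1 (f2 x) x)
    (hM : ∀ x, |x - a| ≤ |b - a| → f2 x ≤ M) :
    f b ≤ f a + f1 a * (b - a) + M / 2 * (b - a) ^ 2 := by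
  rcases le_total a b with hab | hab
  · refine FLDC_up hab h1 h2 (fun x hx hx' => hM x ?_)
    rw [abs_of_nonneg (by linarith), abs_of_nonneg (by linarith)]
    linarith
  · have hg1 : ∀ x, HasDerivAt (fun x => f (-x)) (-(f1 (-x))) x := fun x => by
      have := (h1 (-x)).comp x (hasDerivAt_neg' x)
      refine this.congr_deriv ?_
      simp
    have hg2 : ∀ x, HasDerivAt (fun x => -(f1 (-x))) (f2 (-x)) x := fun x => by
      have := ((h2 (-x)).comp x (hasDerivAt_neg' x)).neg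
      refine this.congr_deriv ?_
      simp
    have := FLDC_up (a := -a) (b := -b) (M := M) (by linarith) hg1 hg2 (fun x hx hx' => by
      refine hM _ ?_
      rw [abs_of_nonpos (by linarith), abs_of_nonpos (by linarith)]
      linarith)
    simp only [neg_neg] at this
    nlinarith

theorem FLDC_abs {f f1 f2 : ℝ → ℝ} {a b M : ℝ}
    (h1 : ∀ x, HasDerivAt f (f1 x) x) (h2 : ∀ x, HasDerivAt f1 (f2 x) x)
    (hM : ∀ x, |x - a| ≤ |b - a| → |f2 x| ≤ M) :
    |f b - f a - f1 a * (b - a)| ≤ M / 2 * (b - a) ^ 2 := by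
  have u1 := FLDC_up' (f := f) (a := a) (b := b) (M := M) h1 h2
    (fun x hx => (abs_le.1 (hM x hx)).2)
  have u2 := FLDC_up' (f := fun x => -(f x)) (f1 := fun x => -(f1 x)) (f2 := fun x => -(f2 x))
    (a := a) (b := b) (M := M) (fun x => (h1 x).neg) (fun x => (h2 x).neg)
    (fun x hx => by
      have := (abs_le.1 (hM x hx)).1
      linarith)
  rw [abs_le]
  constructor <;> linarith

theorem FLDC_cosh {x a : ℝ} (h : |x - a| ≤ 1 / 32) : cosh x ≤ cosh a * (17 / 16) := by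
  have e0 : exp (1 / 32 : ℝ) ≤ 17 / 16 := by
    have h1 := add_one_le_exp (-(1 / 32) : ℝ)
    have h2 : exp (1 / 32 : ℝ) * exp (-(1 / 32)) = 1 := by
      rw [← exp_add]; simp
    have h3 := exp_pos (1 / 32 : ℝ)
    nlinarith
  have e1 : cosh x = cosh a * cosh (x - a) + sinh a * sinh (x - a) := by
    rw [← cosh_add]; congr 1; ring
  have h2 : |sinh a| ≤ cosh a := by
    rw [abs_le]
    constructor
    · rw [cosh_eq, sinh_eq]
      have := exp_pos a
      linarith
    · exact (sinh_lt_cosh a).le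
  have h3 : cosh (x - a) + |sinh (x - a)| ≤ 17 / 16 := by
    have h4 : cosh (x - a) + |sinh (x - a)| = exp |x - a| := by
      rw [← cosh_abs (x - a)]
      rcases le_total 0 (x - a) with h5 | h5
      · rw [abs_of_nonneg (sinh_nonneg_iff.2 h5), abs_of_nonneg h5, cosh_add_sinh]
      · rw [abs_of_nonpos (sinh_nonpos_iff.2 h5), abs_of_nonpos h5, ← sinh_neg, cosh_add_sinh]
    rw [h4]
    exact (exp_le_exp.2 h).trans e0
  have h5 : 0 < cosh a := cosh_pos a
  have h6 : sinh a * sinh (x - a) ≤ cosh a * |sinh (x - a)| := by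
    calc sinh a * sinh (x - a) ≤ |sinh a * sinh (x - a)| := le_abs_self _
      _ = |sinh a| * |sinh (x - a)| := abs_mul _ _
      _ ≤ _ := mul_le_mul_of_nonneg_right h2 (abs_nonneg _)
  rw [e1]
  nlinarith

theorem FLDC_alg (C S c s K G k g p q p' q' x x' y y' lam CJ : ℝ) (hJ : CJ = 14 / 5) :
    (p - p') * ((2 * ((C ^ 2 - K ^ 2) / 4) * q + (S * C * (2 * C ^ 2 - 1) / 16 + S / 2 -
      CJ / 4 * (S * C))) - (2 * ((c ^ 2 - k ^ 2) / 4) * q' + (s * c * (2 * c ^ 2 - 1) / 16 + s / 2 -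
      CJ / 4 * (s * c)))) +
    (q - q') * ((-(2 * ((C ^ 2 - K ^ 2) / 4) * p) + (G * K * (2 * K ^ 2 - 1) / 16 -
      CJ / 4 * (G * K))) - (-(2 * ((c ^ 2 - k ^ 2) / 4) * p') + (g * k * (2 * k ^ 2 - 1) / 16 -
      CJ / 4 * (g * k)))) +
    lam ^ 2 * ((x - x') * (p - p') + (y - y') * (q - q')) -
    ((lam ^ 2 + ((40 * c ^ 4 - 152 * c ^ 2 + 40 * c + 61) / 80 + q' * (c * s))) *
        ((x - x') * (p - p')) +
      (lam ^ 2 + ((40 * k ^ 4 - 152 * k ^ 2 + 61) / 80 - p' * (k * g))) *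
        ((y - y') * (q - q')) +
      q' * (k * g) * ((y - y') * (p - p')) - p' * (c * s) * ((x - x') * (q - q'))) =
    ((C ^ 2 - c ^ 2 - 2 * c * s * (x - x')) / 2 -
      (K ^ 2 - k ^ 2 + 2 * k * g * (y - y')) / 2) * (q' * (p - p') - p' * (q - q')) +
    (p - p') * ((S * C * (2 * C ^ 2 - 1) / 16 + S / 2 - CJ / 4 * (S * C)) -
      (s * c * (2 * c ^ 2 - 1) / 16 + s / 2 - CJ / 4 * (s * c)) -
      (40 * c ^ 4 - 152 * c ^ 2 + 40 * c + 61) / 80 * (x - x')) +
    (q - q') * ((G * K * (2 * K ^ 2 - 1) / 16 - CJ / 4 * (G * K)) -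
      (g * k * (2 * k ^ 2 - 1) / 16 - CJ / 4 * (g * k)) -
      (40 * k ^ 4 - 152 * k ^ 2 + 61) / 80 * (y - y')) := by
  ring

theorem FLDC_fin {R1 R2 R3 R4 X2 Y2 V P Q p' q' Cb Pb Qb : ℝ} (hC1 : 1 ≤ Cb) (hV0 : 0 ≤ V)
    (hX2 : 0 ≤ X2) (hY2 : 0 ≤ Y2)
    (hP : |p'| + 1 ≤ Pb) (hQ : |q'| + 1 ≤ Qb) (hPV : |P| ≤ V) (hQV : |Q| ≤ V)
    (T1 : |R1| ≤ 2 * Cb ^ 2 * X2) (T2 : |R2| ≤ Y2) (T3 : |R3| ≤ (Cb ^ 4 + Cb ^ 2 / 4) * X2)
    (T4 : |R4| ≤ Y2) :
    |(R1 / 2 - R2 / 2) * (q' * P - p' * Q) + P * R3 + Q * R4| ≤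
      V * ((Cb ^ 2 * (Pb + Qb + 2) + Cb ^ 4) * (X2 + Y2)) := by
  have hCb2 : 1 ≤ Cb ^ 2 := by nlinarith
  have hCb4 : 0 ≤ Cb ^ 4 := by positivity
  have b1 : |R1 / 2 - R2 / 2| ≤ Cb ^ 2 * (X2 + Y2) := by
    have a1 := abs_le.1 T1
    have a2 := abs_le.1 T2
    have a3 : Y2 ≤ Cb ^ 2 * Y2 := by nlinarith
    rw [abs_le]
    constructor <;> linarith
  have b2 : |q' * P - p' * Q| ≤ (Pb + Qb - 2) * V := by
    calc |q' * P - p' * Q| ≤ |q' * P| + |p' * Q| := abs_sub _ _
      _ = |q'| * |P| + |p'| * |Q| := by rw [abs_mul, abs_mul]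
      _ ≤ |q'| * V + |p'| * V := by
        have := mul_le_mul_of_nonneg_left hPV (abs_nonneg q')
        have := mul_le_mul_of_nonneg_left hQV (abs_nonneg p')
        linarith
      _ ≤ _ := by
        have h1 : (|q'| + |p'|) * V ≤ (Pb + Qb - 2) * V :=
          mul_le_mul_of_nonneg_right (by linarith) hV0
        linarith
  have b3 : |(R1 / 2 - R2 / 2) * (q' * P - p' * Q)| ≤
      Cb ^ 2 * (X2 + Y2) * ((Pb + Qb - 2) * V) := by
    rw [abs_mul]
    exact mul_le_mul b1 b2 (abs_nonneg _) (by positivity)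
  have b4 : |P * R3| ≤ V * ((Cb ^ 4 + Cb ^ 2 / 4) * X2) := by
    rw [abs_mul]
    exact mul_le_mul hPV T3 (abs_nonneg _) hV0
  have b5 : |Q * R4| ≤ V * Y2 := by
    rw [abs_mul]
    exact mul_le_mul hQV T4 (abs_nonneg _) hV0
  have b6 : |(R1 / 2 - R2 / 2) * (q' * P - p' * Q) + P * R3 + Q * R4| ≤
      Cb ^ 2 * (X2 + Y2) * ((Pb + Qb - 2) * V) + V * ((Cb ^ 4 + Cb ^ 2 / 4) * X2) + V * Y2 :=
    (abs_add_three _ _ _).trans (by linarith)
  refine b6.trans ?_
  have e : V * ((Cb ^ 2 * (Pb + Qb + 2) + Cb ^ 4) * (X2 + Y2)) -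
      (Cb ^ 2 * (X2 + Y2) * ((Pb + Qb - 2) * V) + V * ((Cb ^ 4 + Cb ^ 2 / 4) * X2) + V * Y2) =
      V * ((4 * Cb ^ 2 - Cb ^ 2 / 4) * X2 + (Cb ^ 4 + (4 * Cb ^ 2 - 1)) * Y2) := by ring
  have e2 : 0 ≤ V * ((4 * Cb ^ 2 - Cb ^ 2 / 4) * X2 + (Cb ^ 4 + (4 * Cb ^ 2 - 1)) * Y2) := by
    refine mul_nonneg hV0 (add_nonneg (mul_nonneg ?_ hX2) (mul_nonneg ?_ hY2))
    · linarith
    · linarith
  linarith

/-- **FLDC** -/
theorem fld_tay_pr {ξ η p q ξ' η' p' q' Cb Pb Qb lam : ℝ} (hC0 : cosh ξ' * (17 / 16) ≤ Cb)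
    (hP : |p'| + 1 ≤ Pb) (hQ : |q'| + 1 ≤ Qb) (hx : |ξ - ξ'| ≤ 1 / 32) :
    |(p - p') * (Fp ξ η q - Fp ξ' η' q') + (q - q') * (Fq ξ η p - Fq ξ' η' p') +
      lam ^ 2 * ((ξ - ξ') * (p - p') + (η - η') * (q - q')) -
      ((lam ^ 2 + S11h (cosh ξ') (sinh ξ') q') * ((ξ - ξ') * (p - p')) +
        (lam ^ 2 + S22h (cos η') (sin η') p') * ((η - η') * (q - q')) +
        q' * (cos η' * sin η') * ((η - η') * (p - p')) -
        p' * (cosh ξ' * sinh ξ') * ((ξ - ξ') * (q - q')))| ≤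
      sqrt ((p - p') ^ 2 + (q - q') ^ 2) * ((Cb ^ 2 * (Pb + Qb + 2) + Cb ^ 4) *
        ((ξ - ξ') ^ 2 + (η - η') ^ 2)) := by
  have hC1 : 1 ≤ Cb := by
    have := one_le_cosh ξ'
    linarith
  have hcs : ∀ x : ℝ, sinh x ^ 2 = cosh x ^ 2 - 1 := fun x => by
    have := cosh_sq x
    linarith
  have hsc : ∀ x : ℝ, sin x ^ 2 = 1 - cos x ^ 2 := fun x => by
    have := sin_sq_add_cos_sq x
    linarith
  have hcb : ∀ x, |x - ξ'| ≤ |ξ - ξ'| → cosh x ≤ Cb := fun x hx' =>
    (FLDC_cosh (hx'.trans hx)).trans hC0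
  have habs : ∀ x : ℝ, |sinh x| ≤ cosh x := fun x => by
    rw [abs_le]
    constructor
    · rw [cosh_eq, sinh_eq]
      have := exp_pos x
      linarith
    · exact (sinh_lt_cosh x).le
  -- Taylor for cosh ^ 2
  have T1 : |cosh ξ ^ 2 - cosh ξ' ^ 2 - 2 * cosh ξ' * sinh ξ' * (ξ - ξ')| ≤
      2 * Cb ^ 2 * (ξ - ξ') ^ 2 := by
    have := FLDC_abs (f := fun x => cosh x ^ 2) (f1 := fun x => 2 * cosh x * sinh x)
      (f2 := fun x => 2 * sinh x * sinh x + 2 * cosh x * cosh x) (a := ξ') (b := ξ)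
      (M := 4 * Cb ^ 2)
      (fun x => by
        have := (hasDerivAt_cosh x).pow 2
        refine this.congr_deriv ?_
        norm_num)
      (fun x => by
        have := ((hasDerivAt_cosh x).const_mul 2).mul (hasDerivAt_sinh x)
        refine this.congr_deriv ?_
        ring)
      (fun x hx' => by
        have h1 := hcb x hx'
        have h2 := one_le_cosh x
        have h3 := hcs x
        rw [abs_of_nonneg (by nlinarith [sq_nonneg (sinh x), sq_nonneg (cosh x)])]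
        nlinarith)
    calc _ ≤ _ := this
      _ = _ := by ring
  have T2 : |cos η ^ 2 - cos η' ^ 2 + 2 * cos η' * sin η' * (η - η')| ≤ (η - η') ^ 2 := by
    have := FLDC_abs (f := fun x => cos x ^ 2) (f1 := fun x => -(2 * cos x * sin x))
      (f2 := fun x => -(2 * (-sin x) * sin x + 2 * cos x * cos x)) (a := η') (b := η)
      (M := 2)
      (fun x => by
        have := (hasDerivAt_cos x).pow 2
        refine this.congr_deriv ?_
        norm_num)
      (fun x => by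
        have := (((hasDerivAt_cos x).const_mul 2).mul (hasDerivAt_sin x)).neg
        refine this.congr_deriv ?_
        ring)
      (fun x _ => by
        have h3 := hsc x
        have h4 := cos_sq_le_one x
        have h5 := sq_nonneg (cos x)
        rw [abs_le]
        constructor <;> nlinarith)
    have e : cos η ^ 2 - cos η' ^ 2 + 2 * cos η' * sin η' * (η - η') =
      cos η ^ 2 - cos η' ^ 2 - -(2 * cos η' * sin η') * (η - η') := by ring
    rw [e]
    calc _ ≤ _ := this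
      _ = _ := by ring
  have T3 : |(sinh ξ * cosh ξ * (2 * cosh ξ ^ 2 - 1) / 16 + sinh ξ / 2 -
      CJ / 4 * (sinh ξ * cosh ξ)) - (sinh ξ' * cosh ξ' * (2 * cosh ξ' ^ 2 - 1) / 16 +
      sinh ξ' / 2 - CJ / 4 * (sinh ξ' * cosh ξ')) -
      (40 * cosh ξ' ^ 4 - 152 * cosh ξ' ^ 2 + 40 * cosh ξ' + 61) / 80 * (ξ - ξ')| ≤
      (Cb ^ 4 + Cb ^ 2 / 4) * (ξ - ξ') ^ 2 := by
    have := FLDC_abs (f := fun x => sinh x * cosh x * (2 * cosh x ^ 2 - 1) / 16 + sinh x / 2 -
        CJ / 4 * (sinh x * cosh x))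
      (f1 := fun x => (40 * cosh x ^ 4 - 152 * cosh x ^ 2 + 40 * cosh x + 61) / 80)
      (f2 := fun x => (40 * (4 * cosh x ^ 3 * sinh x) - 152 * (2 * cosh x * sinh x) +
        40 * sinh x) / 80) (a := ξ') (b := ξ)
      (M := 2 * Cb ^ 4 + Cb ^ 2 / 2)
      (fun x => by
        have hc := hasDerivAt_cosh x
        have hs := hasDerivAt_sinh x
        have h1 := (((hs.mul hc).mul (((hc.pow 2).const_mul 2).sub_const 1)).div_const 16).add
          (hs.div_const 2)
        have h2 := h1.sub ((hs.mul hc).const_mul (CJ / 4))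
        refine h2.congr_deriv ?_
        have h3 := hcs x
        simp only [Pi.mul_apply, Pi.pow_apply, CJ]
        norm_num
        linear_combination (-(7/10 : ℝ) + (2 * cosh x ^ 2 - 1) / 16 + cosh x ^ 2 / 4) * h3)
      (fun x => by
        have hc := hasDerivAt_cosh x
        have h1 := (((((hc.pow 4).const_mul 40).sub ((hc.pow 2).const_mul 152)).add
          (hc.const_mul 40)).add_const 61).div_const 80
        refine h1.congr_deriv ?_
        norm_num)
      (fun x hx' => by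
        have h1 := hcb x hx'
        have h2 := one_le_cosh x
        have h4 := habs x
        have e : (40 * (4 * cosh x ^ 3 * sinh x) - 152 * (2 * cosh x * sinh x) +
          40 * sinh x) / 80 = sinh x * (cosh x * (160 * cosh x ^ 2 - 304) / 80 + 1 / 2) := by
          ring
        rw [e, abs_mul]
        have h5 : |cosh x * (160 * cosh x ^ 2 - 304) / 80 + 1 / 2| ≤ 2 * cosh x ^ 3 + 1 / 2 := by
          rw [abs_le]
          constructor
          · nlinarith [mul_nonneg (by linarith : (0:ℝ) ≤ cosh x) (by nlinarith : (0:ℝ) ≤ cosh x ^ 2 - 1)]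
          · nlinarith [mul_nonneg (by linarith : (0:ℝ) ≤ cosh x) (by nlinarith : (0:ℝ) ≤ cosh x ^ 2 - 1)]
        have h6 : |sinh x| * |cosh x * (160 * cosh x ^ 2 - 304) / 80 + 1 / 2| ≤
            cosh x * (2 * cosh x ^ 3 + 1 / 2) :=
          mul_le_mul h4 h5 (abs_nonneg _) (by linarith)
        have h7 : cosh x ^ 4 ≤ Cb ^ 4 := pow_le_pow_left₀ (by linarith) h1 4
        have h8 : cosh x ≤ Cb ^ 2 := by nlinarith
        nlinarith)
    calc _ ≤ _ := this
      _ = _ := by ring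
  have T4 : |(sin η * cos η * (2 * cos η ^ 2 - 1) / 16 - CJ / 4 * (sin η * cos η)) -
      (sin η' * cos η' * (2 * cos η' ^ 2 - 1) / 16 - CJ / 4 * (sin η' * cos η')) -
      (40 * cos η' ^ 4 - 152 * cos η' ^ 2 + 61) / 80 * (η - η')| ≤
      (η - η') ^ 2 := by
    have := FLDC_abs (f := fun x => sin x * cos x * (2 * cos x ^ 2 - 1) / 16 -
        CJ / 4 * (sin x * cos x))
      (f1 := fun x => (40 * cos x ^ 4 - 152 * cos x ^ 2 + 61) / 80)
      (f2 := fun x => (40 * (4 * cos x ^ 3 * (-sin x)) - 152 * (2 * cos x * (-sin x))) / 80)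
      (a := η') (b := η) (M := 2)
      (fun x => by
        have hc := hasDerivAt_cos x
        have hs := hasDerivAt_sin x
        have h1 := (((hs.mul hc).mul (((hc.pow 2).const_mul 2).sub_const 1)).div_const 16)
        have h2 := h1.sub ((hs.mul hc).const_mul (CJ / 4))
        refine h2.congr_deriv ?_
        have h3 := hsc x
        simp only [Pi.mul_apply, Pi.pow_apply, CJ]
        norm_num
        linear_combination ((7/10 : ℝ) - (2 * cos x ^ 2 - 1) / 16 - cos x ^ 2 / 4) * h3)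
      (fun x => by
        have hc := hasDerivAt_cos x
        have h1 := ((((hc.pow 4).const_mul 40).sub ((hc.pow 2).const_mul 152)).add_const
          61).div_const 80
        refine h1.congr_deriv ?_
        norm_num)
      (fun x _ => by
        have h3 := hsc x
        have h4 := cos_sq_le_one x
        have h5 := sq_nonneg (cos x)
        have e : (40 * (4 * cos x ^ 3 * (-sin x)) - 152 * (2 * cos x * (-sin x))) / 80 =
          (cos x * sin x) * ((304 - 160 * cos x ^ 2) / 80) := by ring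
        rw [e, abs_mul]
        have h6 : |cos x * sin x| ≤ 1 / 2 := by
          rw [abs_le]
          constructor <;> nlinarith [sq_nonneg (cos x + sin x), sq_nonneg (cos x - sin x)]
        have h7 : |(304 - 160 * cos x ^ 2) / 80| ≤ 4 := by
          rw [abs_le]
          constructor <;> linarith
        calc _ ≤ (1 / 2 : ℝ) * 4 := mul_le_mul h6 h7 (abs_nonneg _) (by norm_num)
          _ = 2 := by norm_num)
    calc _ ≤ _ := this
      _ = _ := by ring
  have hPV : |p - p'| ≤ sqrt ((p - p') ^ 2 + (q - q') ^ 2) :=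
    abs_le_sqrt (by linarith [sq_nonneg (q - q')])
  have hQV : |q - q'| ≤ sqrt ((p - p') ^ 2 + (q - q') ^ 2) :=
    abs_le_sqrt (by linarith [sq_nonneg (p - p')])
  unfold Fp Fq S11h S22h JJ
  rw [FLDC_alg _ _ _ _ _ _ _ _ _ _ _ _ _ _ _ _ _ CJ rfl]
  exact FLDC_fin hC1 (sqrt_nonneg _) (sq_nonneg _) (sq_nonneg _) hP hQ hPV hQV T1 T2 T3 T4

end Pool.Agent.Ecl
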