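import Pool.Agent.Lib_helper51.Ecl.SVDefs
import Pool.Agent.Lib_helper51.EclS.FLDAA
import Pool.Agent.Lib_helper51.EclS.FLDBA
import Pool.Agent.Lib_helper51.EclS.FLDCA

/-!
# Block FLDD of the soundness proof of the kernel checker (MP_efcf7c_an)
-/

set_option autoImplicit false

namespace Pool.Agent.Ecl

open Real Polynomial K Set

theorem FLDD_lin {X Y P Q a b c d lam W M1 M2 : ℝ} (hlam : 0 < lam)
    (hE : lam ^ 2 * (X ^ 2 + Y ^ 2) + P ^ 2 + Q ^ 2 = W ^ 2) (ha : |a| ≤ M1) (hb : |b| ≤ M1)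
    (hc : |c| ≤ M2) (hd : |d| ≤ M2) :
    a * (X * P) + b * (Y * Q) + c * (Y * P) - d * (X * Q) ≤ W ^ 2 * (M1 + M2) / (2 * lam) := by
  have hM1 : 0 ≤ M1 := le_trans (abs_nonneg _) ha
  have hM2 : 0 ≤ M2 := le_trans (abs_nonneg _) hc
  have e1 : a * (X * P) ≤ M1 * (|X| * |P|) := by
    calc a * (X * P) ≤ |a * (X * P)| := le_abs_self _
      _ = |a| * (|X| * |P|) := by rw [abs_mul, abs_mul]
      _ ≤ M1 * (|X| * |P|) := mul_le_mul_of_nonneg_right ha (by positivity)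
  have e2 : b * (Y * Q) ≤ M1 * (|Y| * |Q|) := by
    calc b * (Y * Q) ≤ |b * (Y * Q)| := le_abs_self _
      _ = |b| * (|Y| * |Q|) := by rw [abs_mul, abs_mul]
      _ ≤ M1 * (|Y| * |Q|) := mul_le_mul_of_nonneg_right hb (by positivity)
  have e3 : c * (Y * P) ≤ M2 * (|Y| * |P|) := by
    calc c * (Y * P) ≤ |c * (Y * P)| := le_abs_self _
      _ = |c| * (|Y| * |P|) := by rw [abs_mul, abs_mul]
      _ ≤ M2 * (|Y| * |P|) := mul_le_mul_of_nonneg_right hc (by positivity)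
  have e4 : -(d * (X * Q)) ≤ M2 * (|X| * |Q|) := by
    calc -(d * (X * Q)) ≤ |d * (X * Q)| := neg_le_abs _
      _ = |d| * (|X| * |Q|) := by rw [abs_mul, abs_mul]
      _ ≤ M2 * (|X| * |Q|) := mul_le_mul_of_nonneg_right hd (by positivity)
  have f1 : |X| * |P| + |Y| * |Q| ≤ W ^ 2 / (2 * lam) := by
    rw [le_div_iff₀ (by positivity)]
    have g1 := sq_nonneg (lam * |X| - |P|)
    have g2 := sq_nonneg (lam * |Y| - |Q|)
    have k1 := sq_abs X
    have k2 := sq_abs Y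
    have k3 := sq_abs P
    have k4 := sq_abs Q
    nlinarith
  have f2 : |Y| * |P| + |X| * |Q| ≤ W ^ 2 / (2 * lam) := by
    rw [le_div_iff₀ (by positivity)]
    have g1 := sq_nonneg (lam * |Y| - |P|)
    have g2 := sq_nonneg (lam * |X| - |Q|)
    have k1 := sq_abs X
    have k2 := sq_abs Y
    have k3 := sq_abs P
    have k4 := sq_abs Q
    nlinarith
  have f3 := mul_le_mul_of_nonneg_left f1 hM1
  have f4 := mul_le_mul_of_nonneg_left f2 hM2
  have f5 : W ^ 2 * (M1 + M2) / (2 * lam) = M1 * (W ^ 2 / (2 * lam)) + M2 * (W ^ 2 / (2 * lam)) := by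
    ring
  rw [f5]
  nlinarith

theorem fld_all_pr {ξ η p q ξ' η' p' q' c s k g eh et Cb Pb Qb lam m1 m2 B W : ℝ} (hlam : 0 < lam)
    (heh : 0 ≤ eh) (het : 0 ≤ et) (her : eh + et ≤ 1 / 1024) (h1 : |c + s - exp ξ'| ≤ eh)
    (h2 : |c - s - exp (-ξ')| ≤ eh) (h3 : (k - cos η') ^ 2 + (g - sin η') ^ 2 ≤ et ^ 2)
    (hC : (|c| + eh) * (17 / 16) ≤ Cb) (hP : |p'| + 1 ≤ Pb) (hQ : |q'| + 1 ≤ Qb)
    (ha : |lam ^ 2 + S11h c s q'| ≤ m1) (hb : |lam ^ 2 + S22h k g p'| ≤ m1)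
    (hc : |q' * (k * g)| ≤ m2) (hd : |p' * (c * s)| ≤ m2) (hW : 0 ≤ W) (hWB : W ≤ B)
    (hB : 32 * B ≤ lam)
    (hE : lam ^ 2 * ((ξ - ξ') ^ 2 + (η - η') ^ 2) + (p - p') ^ 2 + (q - q') ^ 2 = W ^ 2) :
    (p - p') * (Fp ξ η q - Fph c s k q') + (q - q') * (Fq ξ η p - Fqh c k g p') +
      lam ^ 2 * ((ξ - ξ') * (p - p') + (η - η') * (q - q')) ≤
    W ^ 2 * ((m1 + m2) / (2 * lam) + (Cb ^ 2 * (Pb + Qb + 2) + Cb ^ 4) * B / lam ^ 2 +
        (eh + et) * (2 * Cb ^ 3 + 4 * Cb + 1 + (Pb + Qb) * (2 * Cb + 1)) / lam) +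
      W * ((eh + et) * ((Cb + 1) * (Pb + Qb) + Cb ^ 3 + 2 * Cb + 3)) := by
  have hCb0 : 0 ≤ Cb := le_trans (by positivity) hC
  have hPb0 : 0 ≤ Pb := le_trans (by positivity) hP
  have hQb0 : 0 ≤ Qb := le_trans (by positivity) hQ
  -- `cosh ξ' ≤ |c| + eh`
  have hcosh : cosh ξ' ≤ |c| + eh := by
    have e1 : cosh ξ' = (exp ξ' + exp (-ξ')) / 2 := Real.cosh_eq ξ'
    have e2 := (abs_le.mp h1).1
    have e3 := (abs_le.mp h2).1
    have e4 := le_abs_self c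
    linarith
  have hC0 : cosh ξ' * (17 / 16) ≤ Cb :=
    le_trans (mul_le_mul_of_nonneg_right hcosh (by norm_num)) hC
  have hXW : lam * |ξ - ξ'| ≤ W := by
    apply abs_le_of_sq_le_sq' _ hW |>.2
    have := sq_nonneg (η - η')
    have := sq_nonneg (p - p')
    have := sq_nonneg (q - q')
    have := sq_abs (ξ - ξ')
    have hl2 : 0 ≤ lam ^ 2 * (η - η') ^ 2 := by positivity
    nlinarith
  have hx : |ξ - ξ'| ≤ 1 / 32 := by
    have : lam * |ξ - ξ'| ≤ lam * (1 / 32) := by linarith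
    exact le_of_mul_le_mul_left this hlam
  have hA := fld_rel (ξ := ξ') (η := η') (p := p') (q := q') heh het her h1 h2 h3 hC hP hQ
  have hBB := fld_lin (ξ := ξ') (η := η') heh het her h1 h2 h3 hC hP hQ ha hb hc hd
  have hCC := fld_tay (ξ := ξ) (η := η) (p := p) (q := q) (ξ' := ξ') (η' := η') (p' := p')
    (q' := q') (lam := lam) hC0 hP hQ hx
  set Er : ℝ := (eh + et) * ((Cb + 1) * (Pb + Qb) + Cb ^ 3 + 2 * Cb + 3) with hEr
  set Kr : ℝ := 2 * Cb ^ 3 + 4 * Cb + 1 + (Pb + Qb) * (2 * Cb + 1) with hKr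
  set K2 : ℝ := Cb ^ 2 * (Pb + Qb + 2) + Cb ^ 4 with hK2
  have hK20 : 0 ≤ K2 := by positivity
  set M1 : ℝ := max |lam ^ 2 + S11h (cosh ξ') (sinh ξ') q'| |lam ^ 2 + S22h (cos η') (sin η') p'|
    with hM1
  set M2 : ℝ := max |q' * (cos η' * sin η')| |p' * (cosh ξ' * sinh ξ')| with hM2
  -- linear part
  have hL := FLDD_lin (X := ξ - ξ') (Y := η - η') (P := p - p') (Q := q - q')
    (a := lam ^ 2 + S11h (cosh ξ') (sinh ξ') q') (b := lam ^ 2 + S22h (cos η') (sin η') p')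
    (c := q' * (cos η' * sin η')) (d := p' * (cosh ξ' * sinh ξ')) (M1 := M1) (M2 := M2)
    hlam hE (le_max_left _ _) (le_max_right _ _) (le_max_left _ _) (le_max_right _ _)
  have hL2 : W ^ 2 * (M1 + M2) / (2 * lam) ≤ W ^ 2 * ((m1 + m2) / (2 * lam) + (eh + et) * Kr / lam) := by
    have e1 : W ^ 2 * ((m1 + m2) / (2 * lam) + (eh + et) * Kr / lam) =
        W ^ 2 * (m1 + m2 + 2 * (eh + et) * Kr) / (2 * lam) := by
      field_simp
    rw [e1]
    exact div_le_div_of_nonneg_right (mul_le_mul_of_nonneg_left hBB (sq_nonneg W)) (by positivity)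
  -- second order part
  have hPQ : sqrt ((p - p') ^ 2 + (q - q') ^ 2) ≤ W := by
    apply Real.sqrt_le_iff.mpr
    refine ⟨hW, ?_⟩
    have : 0 ≤ lam ^ 2 * ((ξ - ξ') ^ 2 + (η - η') ^ 2) := by positivity
    linarith
  have hXY : (ξ - ξ') ^ 2 + (η - η') ^ 2 ≤ W ^ 2 / lam ^ 2 := by
    rw [le_div_iff₀ (by positivity)]
    have := sq_nonneg (p - p')
    have := sq_nonneg (q - q')
    nlinarith
  have hS : sqrt ((p - p') ^ 2 + (q - q') ^ 2) * (K2 * ((ξ - ξ') ^ 2 + (η - η') ^ 2)) ≤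
      W ^ 2 * (K2 * B / lam ^ 2) := by
    calc sqrt ((p - p') ^ 2 + (q - q') ^ 2) * (K2 * ((ξ - ξ') ^ 2 + (η - η') ^ 2))
        ≤ W * (K2 * (W ^ 2 / lam ^ 2)) := by
          apply mul_le_mul hPQ _ (by positivity) hW
          exact mul_le_mul_of_nonneg_left hXY hK20
      _ ≤ B * (K2 * (W ^ 2 / lam ^ 2)) := mul_le_mul_of_nonneg_right hWB (by positivity)
      _ = W ^ 2 * (K2 * B / lam ^ 2) := by ring
  -- defect part
  have hp : |p - p'| ≤ W := by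
    apply abs_le_of_sq_le_sq _ hW
    have : 0 ≤ lam ^ 2 * ((ξ - ξ') ^ 2 + (η - η') ^ 2) := by positivity
    have := sq_nonneg (q - q')
    linarith
  have hq : |q - q'| ≤ W := by
    apply abs_le_of_sq_le_sq _ hW
    have : 0 ≤ lam ^ 2 * ((ξ - ξ') ^ 2 + (η - η') ^ 2) := by positivity
    have := sq_nonneg (p - p')
    linarith
  have hD : (p - p') * (Fp ξ' η' q' - Fph c s k q') + (q - q') * (Fq ξ' η' p' - Fqh c k g p') ≤
      W * Er := by
    have e1 : (p - p') * (Fp ξ' η' q' - Fph c s k q') ≤ W * |Fp ξ' η' q' - Fph c s k q'| := by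
      calc (p - p') * (Fp ξ' η' q' - Fph c s k q')
          ≤ |(p - p') * (Fp ξ' η' q' - Fph c s k q')| := le_abs_self _
        _ = |p - p'| * |Fp ξ' η' q' - Fph c s k q'| := abs_mul _ _
        _ ≤ W * |Fp ξ' η' q' - Fph c s k q'| :=
          mul_le_mul_of_nonneg_right hp (abs_nonneg _)
    have e2 : (q - q') * (Fq ξ' η' p' - Fqh c k g p') ≤ W * |Fq ξ' η' p' - Fqh c k g p'| := by
      calc (q - q') * (Fq ξ' η' p' - Fqh c k g p')
          ≤ |(q - q') * (Fq ξ' η' p' - Fqh c k g p')| := le_abs_self _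
        _ = |q - q'| * |Fq ξ' η' p' - Fqh c k g p'| := abs_mul _ _
        _ ≤ W * |Fq ξ' η' p' - Fqh c k g p'| :=
          mul_le_mul_of_nonneg_right hq (abs_nonneg _)
    have e3 := mul_le_mul_of_nonneg_left hA hW
    linarith
  have hT := (abs_le.mp hCC).2
  have hfin : (p - p') * (Fp ξ η q - Fph c s k q') + (q - q') * (Fq ξ η p - Fqh c k g p') +
      lam ^ 2 * ((ξ - ξ') * (p - p') + (η - η') * (q - q')) =
      ((p - p') * (Fp ξ η q - Fp ξ' η' q') + (q - q') * (Fq ξ η p - Fq ξ' η' p') +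
      lam ^ 2 * ((ξ - ξ') * (p - p') + (η - η') * (q - q'))) +
      ((p - p') * (Fp ξ' η' q' - Fph c s k q') + (q - q') * (Fq ξ' η' p' - Fqh c k g p')) := by
    ring
  have hR : W ^ 2 * ((m1 + m2) / (2 * lam) + K2 * B / lam ^ 2 + (eh + et) * Kr / lam) =
      W ^ 2 * ((m1 + m2) / (2 * lam) + (eh + et) * Kr / lam) + W ^ 2 * (K2 * B / lam ^ 2) := by
    ring
  rw [hfin, hR]
  linarith

end Pool.Agent.Ecl
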