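import Pool.Agent.Lib_helper51.Ecl.SVDefs
import Pool.Agent.Lib_helper51.EclS.CTXBA
import Pool.Agent.Lib_helper51.EclS.CTXCA
import Pool.Agent.Lib_helper51.EclS.UVTA
import Pool.Agent.Lib_helper51.EclS.VALAA
import Pool.Agent.Lib_helper51.EclS.VALBA

set_option autoImplicit false

namespace Pool.Agent.Ecl

open Real Polynomial K Set

theorem FN0_rep_neg {T : ℕ} {b b' N : ℤ} {f : ℤ[X]} (hf : Rep T b N f) (hb : b ≤ b') :
    Rep T b' (-N) (-f) := by
  refine ⟨?_, ?_, ?_⟩
  · rw [Polynomial.eval_neg, hf.ev]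
  · intro n hn
    refine hf.sup n ?_
    rw [Polynomial.coeff_neg] at hn
    intro h
    rw [h] at hn
    simp at hn
  · intro n
    rw [Polynomial.coeff_neg, abs_neg]
    exact (hf.bd n).trans hb

theorem FN0_val_neg (f : ℤ[X]) (u v t : ℝ) : val (-f) u v t = -val f u v t := by
  have h := val_C_mul (-1) f u v t
  have h2 : C (-1 : ℤ) * f = -f := by
    rw [Polynomial.C_neg, Polynomial.C_1, neg_one_mul]
  rw [h2] at h
  rw [h]
  push_cast
  ring

theorem FN0_w60 : (0 : ℝ) < w60 := by unfold w60; positivity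

theorem FN0_pos {w x : ℝ} (hw : 0 < w) (h : 0 < w * x) : 0 < x :=
  (mul_pos_iff_of_pos_left hw).1 h

theorem FN0_neg {w x : ℝ} (hw : 0 < w) (h : w * x < 0) : x < 0 := by
  by_contra hc
  push Not at hc
  exact absurd (mul_nonneg hw.le hc) (not_le.2 h)

theorem FN0_n60 : (n60 : ℝ) = w60 := by
  unfold n60 w60
  norm_num [Nat.pow_eq]

theorem FN0_cl {x : ℝ} (h : |x| ≤ 2 ^ 20) : cl x = x := by
  have h1 := abs_le.1 h
  unfold cl
  rw [min_eq_right h1.2, max_eq_right h1.1]

/-- division: `x / m` is at most the natural number `D * N / M + 1` -/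
theorem FN0_div {a b : ℕ} (hb : 0 < b) : (a : ℝ) / b ≤ ((a / b + 1 : ℕ) : ℝ) := by
  have hb' : (0 : ℝ) < b := by exact_mod_cast hb
  rw [div_le_iff₀ hb']
  have : a < (a / b + 1) * b := by
    have := Nat.lt_div_mul_add (a := a) hb
    calc a < a / b * b + b := this
      _ = (a / b + 1) * b := by ring
  exact_mod_cast this.le

/-- **FN0** -/
theorem finish0_pr {kap : ℤ} {S0 : Sta} {o : Out} {S : Sta} {k : Fnl → Bool} (h0 : StaMsk S0)
    (h1 : StaMsk S) (ho : 0 < o.hlo) (hl : inLast 0 o = true)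
    (h : finish ctx0 false 0 kap S0 o S k = true) :
    ∃ F : Fnl, k F = true ∧ FinSem 0 kap S0 o S F := by
  have hC := ctx0_ok
  unfold finish at h
  obtain ⟨tc, h, -⟩ := uvTM_spec hC h1.c h
  obtain ⟨ts, h, -, hsR, hsT⟩ := uvTM_spec hC h1.s h
  obtain ⟨tk, h, -, hkR, hkT⟩ := uvTM_spec hC h1.k h
  obtain ⟨tg, h, -⟩ := uvTM_spec hC h1.g h
  obtain ⟨tp, h, -⟩ := uvTM_spec hC h1.p h
  obtain ⟨tq, h, -, hqR, hqT⟩ := uvTM_spec hC h1.q h
  obtain ⟨tk0, h, -⟩ := uvTM_spec hC h0.k h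
  simp only [fNat_eq, fInt_eq] at h
  rw [Bool.cond_eq_ite] at h
  split_ifs at h with hc
  simp only [Bool.and_eq_true, decide_eq_true_eq] at hc
  obtain ⟨hc1, hc2⟩ := hc
  refine ⟨_, h, -(dpoly S.k), -(dpoly S.q), FN0_rep_neg hkR (by norm_num),
    FN0_rep_neg hqR (by norm_num), ?_, ?_, ?_⟩
  · rw [Polynomial.coeff_neg, dpoly_coeff0]
  · rw [Polynomial.coeff_neg, dpoly_coeff0]
  intro u v hu hv z a h' hz ha hh hlo hhi hg hS hst
  have hw := FN0_w60
  have hin : pNeg o = true ∧ snPos o = true := by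
    unfold inLast at hl
    simpa using hl
  have hpn : (o.phi : ℝ) + (o.E : ℝ) < 0 := by
    have := hin.1
    unfold pNeg at this
    rw [decide_eq_true_eq] at this
    exact_mod_cast this
  have hsn : (Out.dT o : ℝ) < (o.glo : ℝ) := by
    have := hin.2
    unfold snPos at this
    rw [decide_eq_true_eq] at this
    exact_mod_cast this
  have out : ∀ t, a ≤ t → t ≤ a + h' → OutOK o S u v h' (t - a) (z t) := fun t h1 h2 => by
    have := hst.out (t - a) (by linarith) (by linarith)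
    rwa [add_sub_cancel] at this
  have spos : ∀ t, a ≤ t → t ≤ a + h' → 0 < sin (z t).eta := fun t h1 h2 => by
    have := (out t h1 h2).glo
    exact FN0_pos hw (by linarith)
  have hxi : ∀ t, HasDerivAt (fun s => (z s).xi) (cl (z t).p) t := fun t => (hz t).1
  have heta : ∀ t, HasDerivAt (fun s => (z s).eta) (cl (z t).q) t := fun t => (hz t).2.1
  have hxc : Continuous (fun s => (z s).xi) :=
    continuous_iff_continuousAt.2 fun t => (hxi t).continuousAt
  have hec : Continuous (fun s => (z s).eta) :=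
    continuous_iff_continuousAt.2 fun t => (heta t).continuousAt
  have hina := hg.ins a ha le_rfl
  obtain ⟨hia1, hia2, hia3⟩ := hina
  have eta0 : ∀ t, a ≤ t → t ≤ a + h' → 0 < (z t).eta := fun t h1 h2 => by
    by_contra hcon
    push Not at hcon
    obtain ⟨s, hs, hs0⟩ := intermediate_value_Icc' h1 hec.continuousOn
      (show (0 : ℝ) ∈ Icc ((z t).eta) ((z a).eta) from ⟨hcon, hia2.le⟩)
    have := spos s hs.1 (hs.2.trans h2)
    simp only at hs0
    rw [hs0, sin_zero] at this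
    exact lt_irrefl _ this
  have etapi : ∀ t, a ≤ t → t ≤ a + h' → (z t).eta < π := fun t h1 h2 => by
    by_contra hcon
    push Not at hcon
    obtain ⟨s, hs, hs0⟩ := intermediate_value_Icc h1 hec.continuousOn
      (show π ∈ Icc ((z a).eta) ((z t).eta) from ⟨hia3.le, hcon⟩)
    have := spos s hs.1 (hs.2.trans h2)
    simp only at hs0
    rw [hs0, sin_pi] at this
    exact lt_irrefl _ this
  have anti : AntitoneOn (fun t => w60 * (z t).xi - ((o.phi : ℝ) + (o.E : ℝ)) * t)
      (Icc a (a + h')) := by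
    have hd : ∀ t, HasDerivAt (fun t => w60 * (z t).xi - ((o.phi : ℝ) + (o.E : ℝ)) * t)
        (w60 * cl (z t).p - ((o.phi : ℝ) + (o.E : ℝ))) t := fun t => by
      have := ((hxi t).const_mul w60).sub ((hasDerivAt_id t).const_mul ((o.phi : ℝ) + (o.E : ℝ)))
      exact this.congr_deriv (by ring)
    refine antitoneOn_of_deriv_nonpos (convex_Icc _ _)
      (fun t _ => (hd t).continuousAt.continuousWithinAt)
      (fun t _ => (hd t).differentiableAt.differentiableWithinAt) ?_
    intro t ht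
    rw [interior_Icc] at ht
    rw [(hd t).deriv]
    have ho' := out t ht.1.le ht.2.le
    rw [FN0_cl ho'.bd.2.1]
    linarith [ho'.phi]
  have dec : ∀ s t, a ≤ s → s ≤ t → t ≤ a + h' →
      w60 * ((z t).xi - (z s).xi) ≤ ((o.phi : ℝ) + (o.E : ℝ)) * (t - s) := fun s t h1 h2 h3 => by
    have := anti ⟨h1, h2.trans h3⟩ ⟨h1.trans h2, h3⟩ h2
    simp only at this
    linarith
  -- the end of the step
  have hvs : w60 * pv S.s u v ≤ (hi (cd S.s) ts.nr : ℝ) ∧
      (lo (cd S.s) ts.nr : ℝ) ≤ w60 * pv S.s u v := by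
    have := lo_le_val (dpoly S.s) hsT.nr hu hv (le_refl (0 : ℝ)) zero_le_one
    rw [val_dpoly, dpoly_coeff0] at this
    exact ⟨this.2, this.1⟩
  have hse := abs_le.1 hst.se
  have hc1' : (hi (cd S.s) ts.nr : ℝ) + (Out.dH o : ℝ) < 0 := by exact_mod_cast hc1
  have hend : sinh (z (a + h')).xi < 0 := FN0_neg hw (by linarith [hvs.1, hse.2])
  have hend' : (z (a + h')).xi < 0 := Real.sinh_neg_iff.1 hend
  have hsx : sinh (z (a + h')).xi ≤ (z (a + h')).xi := Real.sinh_le_self_iff.2 hend'.le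
  obtain ⟨T, hT, hT0⟩ := intermediate_value_Icc' (show a ≤ a + h' by linarith) hxc.continuousOn
      (show (0 : ℝ) ∈ Icc ((z (a + h')).xi) ((z a).xi) from ⟨hend'.le, hia1.le⟩)
  simp only at hT0
  have hoT := out T hT.1 hT.2
  have hpT : (z T).p < 0 := by
    have := hoT.phi
    exact FN0_neg hw (by linarith)
  have haT : a < T := lt_of_le_of_ne hT.1 (fun e => by rw [← e] at hT0; linarith)
  -- the time from the arrival to the end
  have hD : -((o.phi : ℝ) + (o.E : ℝ)) * (a + h' - T) ≤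
      -(lo (cd S.s) ts.nr : ℝ) + (Out.dH o : ℝ) := by
    have h2 := dec T (a + h') hT.1 hT.2 le_rfl
    rw [hT0] at h2
    have h3 : w60 * sinh (z (a + h')).xi ≤ w60 * (z (a + h')).xi :=
      mul_le_mul_of_nonneg_left hsx hw.le
    linarith [hvs.2, hse.1]
  generalize hdt : (-(lo (cd S.s) ts.nr) + (Out.dH o : ℤ)).toNat * n60 /
    (-(o.phi + (o.E : ℤ))).toNat + 1 = dt
  have hdt' : w60 * (a + h' - T) ≤ (dt : ℝ) := by
    have hm : (((-(o.phi + (o.E : ℤ))).toNat : ℕ) : ℝ) = -((o.phi : ℝ) + (o.E : ℝ)) := by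
      have : (((-(o.phi + (o.E : ℤ))).toNat : ℕ) : ℤ) = -(o.phi + (o.E : ℤ)) :=
        Int.toNat_of_nonneg hc2.le
      exact_mod_cast this
    have hm0 : 0 < (-(o.phi + (o.E : ℤ))).toNat := by
      have : 0 < -(o.phi + (o.E : ℤ)) := hc2
      omega
    have hDn : -(lo (cd S.s) ts.nr : ℝ) + (Out.dH o : ℝ) ≤
        (((-(lo (cd S.s) ts.nr) + (Out.dH o : ℤ)).toNat : ℕ) : ℝ) := by
      have := Int.self_le_toNat (-(lo (cd S.s) ts.nr) + (Out.dH o : ℤ))
      exact_mod_cast this
    have h4 := FN0_div (a := (-(lo (cd S.s) ts.nr) + (Out.dH o : ℤ)).toNat * n60) hm0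
    rw [hdt] at h4
    refine le_trans ?_ h4
    have hm1 : (0 : ℝ) < (((-(o.phi + (o.E : ℤ))).toNat : ℕ) : ℝ) := by exact_mod_cast hm0
    rw [le_div_iff₀ hm1]
    rw [hm]
    push_cast
    rw [FN0_n60]
    calc w60 * (a + h' - T) * -((o.phi : ℝ) + (o.E : ℝ)) =
        (-((o.phi : ℝ) + (o.E : ℝ)) * (a + h' - T)) * w60 := by ring
      _ ≤ _ := mul_le_mul_of_nonneg_right (hD.trans hDn) hw.le
  have hhl : ((o.hlo.toNat : ℕ) : ℝ) = (o.hlo : ℝ) := by
    have : ((o.hlo.toNat : ℕ) : ℤ) = o.hlo := Int.toNat_of_nonneg ho.le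
    exact_mod_cast this
  have hhl0 : 0 < o.hlo.toNat := by omega
  have hlo0 : (0 : ℝ) < (o.hlo : ℝ) := by exact_mod_cast ho
  have frac : (1 - (T - a) / h') ≤ (dt : ℝ) / (o.hlo : ℝ) := by
    have e : (1 - (T - a) / h') = (w60 * (a + h' - T)) / (w60 * h') := by
      field_simp
      ring
    rw [e]
    have h5 : 0 ≤ w60 * (a + h' - T) := mul_nonneg hw.le (by linarith [hT.2])
    exact div_le_div₀ (h5.trans hdt') hdt' hlo0 hlo
  have key : ∀ d : ℕ, (1 - (T - a) / h') * (d : ℝ) ≤ ((dt * d / o.hlo.toNat + 1 : ℕ) : ℝ) :=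
    fun d => by
    refine le_trans ?_ (FN0_div (a := dt * d) hhl0)
    rw [hhl]
    push_cast
    calc (1 - (T - a) / h') * (d : ℝ) ≤ (dt : ℝ) / (o.hlo : ℝ) * d :=
          mul_le_mul_of_nonneg_right frac (Nat.cast_nonneg d)
      _ = _ := by ring
  refine ⟨z T, ⟨T, by linarith, ?_, ?_, ?_, rfl, ?_⟩, ?_⟩
  · intro t ht htT
    rcases le_or_gt t a with hta | hta
    · exact hg.ins t ht hta
    · refine ⟨?_, eta0 t hta.le (htT.le.trans hT.2), etapi t hta.le (htT.le.trans hT.2)⟩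
      have := dec t T hta.le htT.le hT.2
      rw [hT0] at this
      have h8 : ((o.phi : ℝ) + (o.E : ℝ)) * (T - t) < 0 :=
        mul_neg_of_neg_of_pos hpn (by linarith)
      exact FN0_pos hw (by linarith)
  · intro t _ _ h3
    exact absurd h3 (by norm_num)
  · intro t ht htT
    rcases le_or_gt t a with hta | hta
    · exact hg.bd t ht hta
    · exact (out t hta.le (htT.trans hT.2)).bd
  · exact ⟨hT0, hpT, eta0 T hT.1 hT.2, etapi T hT.1 hT.2⟩
  · constructor
    · have h6 := hoT.ke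
      have h7 := key o.dk
      rw [FN0_val_neg, val_dpoly]
      have e : w60 * outX 0 (z T) - -(w60 * pv S.k u v) =
          -(w60 * cos (z T).eta - w60 * pv S.k u v) := by
        unfold outX
        rw [if_pos rfl]
        ring
      rw [e, abs_neg]
      refine h6.trans ?_
      push_cast at h7 ⊢
      linarith
    · have h6 := hoT.qe
      have h7 := key o.dq
      rw [FN0_val_neg, val_dpoly]
      have e : w60 * outY 0 (z T) - -(w60 * pv S.q u v) =
          -(w60 * (z T).q - w60 * pv S.q u v) := by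
        unfold outY
        rw [if_pos rfl]
        ring
      rw [e, abs_neg]
      refine h6.trans ?_
      push_cast at h7 ⊢
      linarith

end Pool.Agent.Ecl
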