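import Pool.Agent.Lib_helper51.Ecl.SVDefs
import Pool.Agent.Lib_helper51.EclS.CTXBA
import Pool.Agent.Lib_helper51.EclS.CTXCA
import Pool.Agent.Lib_helper51.EclS.UVTA
import Pool.Agent.Lib_helper51.EclS.VALBA
import Pool.Agent.Lib_helper51.EclS.VALCA

/-!
# Block FN1: the final step towards the section `η = 0`
-/

set_option autoImplicit false

namespace Pool.Agent.Ecl

open Real Polynomial K Set

theorem FN1_mvt {φ r : ℝ → ℝ} {a b μ M : ℝ}
    (hd : ∀ t ∈ Icc a b, HasDerivAt φ (-(r t)) t)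
    (hr : ∀ t ∈ Icc a b, μ ≤ r t) (hM : ∀ t ∈ Icc a b, r t ≤ M) {s t : ℝ} (hs : a ≤ s)
    (hst : s ≤ t) (ht : t ≤ b) : μ * (t - s) ≤ φ s - φ t ∧ φ s - φ t ≤ M * (t - s) := by
  rcases hst.eq_or_lt with rfl | hlt
  · simp
  · obtain ⟨c, hc, hc'⟩ := exists_hasDerivAt_eq_slope φ (fun t => -(r t)) hlt
      (fun x hx => (hd x ⟨by linarith [hx.1], by linarith [hx.2]⟩).continuousAt.continuousWithinAt)
      (fun x hx => hd x ⟨by linarith [hx.1], by linarith [hx.2]⟩)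
    have hpos : 0 < t - s := by linarith
    have hcI : c ∈ Icc a b := ⟨by linarith [hc.1], by linarith [hc.2]⟩
    have e : φ s - φ t = r c * (t - s) := by
      have := hc'
      rw [eq_div_iff hpos.ne'] at this
      linarith
    rw [e]
    exact ⟨mul_le_mul_of_nonneg_right (hr c hcI) hpos.le,
      mul_le_mul_of_nonneg_right (hM c hcI) hpos.le⟩

theorem FN1_sin {x : ℝ} (h0 : 0 ≤ x) (h1 : x ≤ 3 / 2) : x ≤ 2 * sin x := by
  have hpi : (3 : ℝ) < π := pi_gt_three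
  rcases le_or_gt x (π / 2) with h | h
  · have := mul_le_sin h0 h
    have h2 : (1 / 2 : ℝ) ≤ 2 / π := by
      rw [div_le_div_iff₀ (by norm_num) pi_pos]
      linarith [pi_le_four]
    nlinarith
  · linarith

theorem FN1_arr {φ r : ℝ → ℝ} {a h μ M : ℝ} (hh : 0 < h)
    (hd : ∀ t ∈ Icc a (a + h), HasDerivAt φ (-(r t)) t)
    (hr : ∀ t ∈ Icc a (a + h), μ ≤ r t) (hM : ∀ t ∈ Icc a (a + h), r t ≤ M)
    (hMh : M * h ≤ 3 / 2) (hμ : 0 < μ) (h0 : 0 < φ a) (h1 : φ a < π)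
    (hs : sin (φ (a + h)) < 0) :
    ∃ τ, 0 < τ ∧ τ ≤ h ∧ φ (a + τ) = 0 ∧
      (∀ s, 0 ≤ s → s < τ → 0 < φ (a + s) ∧ φ (a + s) < π) ∧
      μ * (h - τ) ≤ -(2 * sin (φ (a + h))) := by
  have hend : φ a - φ (a + h) ≤ M * h := by
    have := (FN1_mvt hd hr hM (le_refl a) (by linarith : a ≤ a + h) le_rfl).2
    simpa using this
  have hdec : μ * h ≤ φ a - φ (a + h) := by
    have := (FN1_mvt hd hr hM (le_refl a) (by linarith : a ≤ a + h) le_rfl).1
    simpa using this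
  have hneg : φ (a + h) < 0 := by
    by_contra hc
    push Not at hc
    have h2 : φ (a + h) < π := by nlinarith
    have := sin_nonneg_of_nonneg_of_le_pi hc h2.le
    linarith
  have hcont : ContinuousOn φ (Icc a (a + h)) := fun x hx => (hd x hx).continuousAt.continuousWithinAt
  obtain ⟨T, hT, hT0⟩ : ∃ T ∈ Icc a (a + h), φ T = 0 := by
    have := intermediate_value_Icc' (by linarith : a ≤ a + h) hcont
    exact this ⟨hneg.le, h0.le⟩
  have haT : a < T := by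
    rcases hT.1.eq_or_lt with e | e
    · rw [← e] at hT0; linarith
    · exact e
  refine ⟨T - a, by linarith, by linarith [hT.2], by rw [← hT0]; congr 1; ring, ?_, ?_⟩
  · intro s hs0 hs1
    have e1 := (FN1_mvt hd hr hM (by linarith : a ≤ a + s) (by linarith : a + s ≤ T) hT.2).1
    have e2 := (FN1_mvt hd hr hM (le_refl a) (by linarith : a ≤ a + s)
      (by linarith [hT.2] : a + s ≤ a + h)).1
    have p1 : 0 < μ * (T - (a + s)) := mul_pos hμ (by linarith)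
    have p2 : 0 ≤ μ * (a + s - a) := mul_nonneg hμ.le (by linarith)
    constructor <;> linarith
  · have e1 := (FN1_mvt hd hr hM hT.1 (hT.2) le_rfl).1
    have h3 : -φ (a + h) ≤ 2 * sin (-φ (a + h)) := by
      apply FN1_sin (by linarith)
      linarith
    rw [sin_neg] at h3
    have : μ * (h - (T - a)) = μ * (a + h - T) := by ring
    linarith

theorem FN1_clq {x : ℝ} (h : |x| ≤ 2 ^ 20) : cl x = x := by
  unfold cl
  rw [abs_le] at h
  rw [min_eq_right h.2, max_eq_right h.1]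

theorem FN1_w60 : w60 = (n60 : ℝ) := by
  unfold w60 n60
  norm_num

theorem FN1_w60pos : (0 : ℝ) < w60 := by unfold w60; positivity

theorem FN1_sinhpos {x : ℝ} (h : 0 < sinh x) : 0 < x := by
  by_contra hc
  push Not at hc
  have := Real.sinh_nonpos_iff.mpr hc
  linarith

/-- real bound for a quotient of natural numbers -/
theorem FN1_div {a b : ℕ} (hb : 0 < b) : (a / b : ℝ) ≤ ((a / b + 1 : ℕ) : ℝ) := by
  have hb' : (0 : ℝ) < b := by exact_mod_cast hb
  rw [div_le_iff₀ hb']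
  have := Nat.lt_div_mul_add (a := a) hb
  have h2 : a ≤ (a / b + 1) * b := by nlinarith
  exact_mod_cast h2

/-- common part: the error after the arrival -/
theorem FN1_err {dt dc hl dH : ℕ} {h τ : ℝ} {V W : ℝ} (hh : 0 < h) (hτ : τ ≤ h)
    (hl0 : 0 < hl) (hhl : (hl : ℝ) ≤ w60 * h) (hdt : w60 * (h - τ) ≤ dt)
    (hE : |V - W| ≤ (dH : ℝ) + (1 - τ / h) * (dc : ℝ)) :
    |V - W| ≤ ((dH + dt * dc / hl + 1 : ℕ) : ℝ) := by
  have hw := FN1_w60pos
  have hl0' : (0 : ℝ) < hl := by exact_mod_cast hl0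
  have e1 : 1 - τ / h = (w60 * (h - τ)) / (w60 * h) := by
    field_simp
  have e2 : (w60 * (h - τ)) / (w60 * h) ≤ dt / hl := by
    rw [div_le_div_iff₀ (mul_pos hw hh) hl0']
    have : 0 ≤ w60 * (h - τ) := mul_nonneg hw.le (by linarith)
    have hdt0 : (0 : ℝ) ≤ dt := by positivity
    calc w60 * (h - τ) * hl ≤ w60 * (h - τ) * (w60 * h) := mul_le_mul_of_nonneg_left hhl this
      _ ≤ dt * (w60 * h) := mul_le_mul_of_nonneg_right hdt (mul_pos hw hh).le
  have e3 : (1 - τ / h) * (dc : ℝ) ≤ dt / hl * dc := by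
    rw [e1]
    exact mul_le_mul_of_nonneg_right e2 (by positivity)
  have e4 : ((dt * dc : ℕ) / hl : ℝ) ≤ ((dt * dc / hl + 1 : ℕ) : ℝ) := FN1_div hl0
  have e5 : (dt : ℝ) / hl * dc = ((dt * dc : ℕ) / hl : ℝ) := by push_cast; ring
  have e6 : ((dH + dt * dc / hl + 1 : ℕ) : ℝ) = (dH : ℝ) + ((dt * dc / hl + 1 : ℕ) : ℝ) := by
    rw [Nat.add_assoc]; push_cast; ring
  rw [e6]
  linarith

/-- the bound of the time between the arrival and the end of the step -/
theorem FN1_time {m gl : ℤ} {dT N : ℕ} {h τ s : ℝ} (hN : w60 = (N : ℝ)) (hm : 0 < m)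
    (hs : (gl : ℝ) - dT ≤ w60 * s) (ht : (m : ℝ) / w60 * (h - τ) ≤ -(2 * s)) :
    w60 * (h - τ) ≤ ((2 * Int.toNat (-gl + dT) * N / Int.toNat m + 1 : ℕ) : ℝ) := by
  have hw := FN1_w60pos
  have hm' : (0 : ℝ) < m := by exact_mod_cast hm
  have hmN : ((Int.toNat m : ℕ) : ℝ) = (m : ℝ) := by
    exact_mod_cast congrArg (Int.cast (R := ℝ)) (Int.toNat_of_nonneg hm.le)
  have h1 : ((-gl + dT : ℤ) : ℝ) ≤ ((Int.toNat (-gl + dT) : ℕ) : ℝ) := by
    exact_mod_cast Int.self_le_toNat _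
  refine le_trans ?_ (FN1_div (a := 2 * Int.toNat (-gl + dT) * N) (b := Int.toNat m) (by omega))
  rw [hmN, le_div_iff₀ hm', Nat.cast_mul, Nat.cast_mul, ← hN]
  push_cast at h1
  have h2 : (m : ℝ) * (h - τ) ≤ -(2 * s) * w60 := by
    have := mul_le_mul_of_nonneg_right ht hw.le
    have e : (m : ℝ) / w60 * (h - τ) * w60 = m * (h - τ) := by field_simp
    rwa [e] at this
  have h3 : (m : ℝ) * (h - τ) ≤ 2 * ((Int.toNat (-gl + dT) : ℕ) : ℝ) := by nlinarith
  have h4 := mul_le_mul_of_nonneg_right h3 hw.le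
  have e2 : ((2 : ℕ) : ℝ) = 2 := by norm_num
  rw [e2]
  nlinarith

theorem FN1_neg {w s y d b : ℝ} (hw : 0 < w) (h1 : w * s - w * y ≤ d) (h2 : w * y ≤ b)
    (h3 : b + d < 0) : s < 0 := by
  by_contra hc
  push Not at hc
  have := mul_nonneg hw.le hc
  linarith

theorem FN1_abs {w q A : ℝ} (hw : 0 < w) (h : w * |q| ≤ A) : -q ≤ A / w ∧ q ≤ A / w := by
  have h1 : |q| ≤ A / w := by rw [le_div_iff₀ hw]; linarith
  exact ⟨by linarith [neg_le_abs q], by linarith [le_abs_self q]⟩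

theorem FN1_mov {w h B A : ℝ} (hw : 0 < w) (hA : 0 ≤ A) (hh : w * h ≤ B)
    (h3 : B * A ≤ 3 / 2 * (w * w)) : A / w * h ≤ 3 / 2 := by
  rw [div_mul_eq_mul_div, div_le_iff₀ hw]
  have h5 : A * h * w ≤ 3 / 2 * w * w := by
    have h6 : A * (w * h) ≤ A * B := mul_le_mul_of_nonneg_left hh hA
    nlinarith
  exact le_of_mul_le_mul_right h5 hw

theorem FN1_qmov {a b : ℕ} (h : Nat.ble (a * b) (3 * Nat.pow 2 119) = true) :
    (a : ℝ) * (b : ℝ) ≤ 3 / 2 * (w60 * w60) := by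
  have h3 : ((a * b : ℕ) : ℝ) ≤ ((3 * Nat.pow 2 119 : ℕ) : ℝ) := by
    exact_mod_cast Nat.le_of_ble_eq_true h
  have h4 : ((3 * Nat.pow 2 119 : ℕ) : ℝ) = 3 / 2 * (w60 * w60) := by
    unfold w60; norm_num
  rw [h4, Nat.cast_mul] at h3
  exact h3

/-- **FN1** -/
theorem finish1_pr {kap : ℤ} {S0 : Sta} {o : Out} {S : Sta} {k : Fnl → Bool} (h0 : StaMsk S0)
    (h1 : StaMsk S) (ho : 0 < o.hlo) (hl : inLast 1 o = true)
    (h : finish ctx0 false 1 kap S0 o S k = true) :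
    ∃ F : Fnl, k F = true ∧ FinSem 1 kap S0 o S F := by
  unfold K.finish at h
  obtain ⟨tc, h, tc0, tcR, tcT⟩ := uvTM_spec ctx0_ok h1.c h
  obtain ⟨ts, h, ts0, tsR, tsT⟩ := uvTM_spec ctx0_ok h1.s h
  obtain ⟨tk, h, tk0, tkR, tkT⟩ := uvTM_spec ctx0_ok h1.k h
  obtain ⟨tg, h, tg0, tgR, tgT⟩ := uvTM_spec ctx0_ok h1.g h
  obtain ⟨tp, h, tp0, tpR, tpT⟩ := uvTM_spec ctx0_ok h1.p h
  obtain ⟨tq, h, tq0, tqR, tqT⟩ := uvTM_spec ctx0_ok h1.q h
  obtain ⟨tk', h, tk0', tkR', tkT'⟩ := uvTM_spec ctx0_ok h0.k h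
  simp only [fNat_eq, fInt_eq] at h
  rw [Bool.cond_eq_ite, ite_eq_iff] at h
  obtain ⟨hc, h⟩ : (_ ∧ _) := by
    rcases h with h | h
    · exact h
    · exact absurd h.2 (by simp)
  rw [Bool.and_eq_true, decide_eq_true_eq, decide_eq_true_eq] at hc
  obtain ⟨hg, hm⟩ := hc
  unfold K.inLast at hl
  simp only [K.xiPos, K.qNeg, K.qMov, Bool.and_eq_true, decide_eq_true_eq] at hl
  obtain ⟨hxi, hqn, hqm⟩ := hl
  have hw := FN1_w60pos
  have hF := h
  refine ⟨_, hF, dpoly S.c, dpoly S.p, ?_, ?_, ?_, ?_, ?_⟩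
  · exact tcR.mono' le_rfl (by norm_num)
  · exact tpR.mono' le_rfl (by norm_num)
  · exact dpoly_coeff0 _
  · exact dpoly_coeff0 _
  intro u v hu hv z a h' hz ha hh hlo hhn hgood hS0 hstep
  have hBd : ∀ t ∈ Icc a (a + h'), Bd (z t) := by
    intro t ht
    have := (hstep.out (t - a) (by linarith [ht.1]) (by linarith [ht.2])).bd
    rwa [show a + (t - a) = t by ring] at this
  have hOut : ∀ t ∈ Icc a (a + h'), OutOK o S u v h' (t - a) (z t) := by
    intro t ht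
    have := (hstep.out (t - a) (by linarith [ht.1]) (by linarith [ht.2]))
    rwa [show a + (t - a) = t by ring] at this
  have hder : ∀ t ∈ Icc a (a + h'), HasDerivAt (fun s => (z s).eta) (-(-(z t).q)) t := by
    intro t ht
    have := (hz t).2.1
    rw [FN1_clq (hBd t ht).2.2] at this
    rwa [neg_neg]
  have hgb := lo_le_val (dpoly S.g) tgT.nr hu hv (le_refl (0 : ℝ)) zero_le_one
  rw [dpoly_coeff0, val_dpoly] at hgb
  have hge := abs_le.mp hstep.ge
  have hsin : sin (z (a + h')).eta < 0 := by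
    exact FN1_neg hw hge.2 hgb.2 (by exact_mod_cast hg)
  have hin := hgood.ins a ha le_rfl
  obtain ⟨τ, hτ0, hτh, hτe, hτi, hτt⟩ := FN1_arr (φ := fun s => (z s).eta) (r := fun s => -(z s).q)
    (a := a) (h := h') (μ := ((-(o.qhi + o.E) : ℤ) : ℝ) / w60) (M := ((o.qn : ℝ) + o.E) / w60) hh hder
    (fun t ht => by
      have := (hOut t ht).qhi
      rw [div_le_iff₀ hw]
      push_cast
      linarith)
    (fun t ht => by
      exact (FN1_abs hw (hOut t ht).qab).1)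
    (by
      have h3 := FN1_qmov hqm
      rw [Nat.cast_add] at h3
      exact FN1_mov hw (by positivity) hhn h3)
    (div_pos (by exact_mod_cast hm) hw) hin.2.1 hin.2.2 hsin
  have hT := hOut (a + τ) ⟨by linarith, by linarith⟩
  rw [show a + τ - a = τ by ring] at hT
  have hxpos : ∀ t ∈ Icc a (a + h'), 0 < (z t).xi := by
    intro t ht
    apply FN1_sinhpos
    have h3 := (hOut t ht).slo
    have h4 : (Out.dH o : ℝ) < (o.slo : ℝ) := by exact_mod_cast hxi
    have h5 : 0 < w60 * sinh (z t).xi := by linarith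
    exact (mul_pos_iff_of_pos_left hw).mp h5
  have hhl : ((Int.toNat o.hlo : ℕ) : ℝ) = (o.hlo : ℝ) := by
    exact_mod_cast congrArg (Int.cast (R := ℝ)) (Int.toNat_of_nonneg ho.le)
  have hdt : w60 * (h' - τ) ≤ ((2 * Int.toNat (-lo (cd S.g) tg.nr + (Out.dT o : ℕ)) * n60 /
      Int.toNat (-(o.qhi + o.E)) + 1 : ℕ) : ℝ) := by
    apply FN1_time (s := sin (z (a + h')).eta) FN1_w60 hm _ hτt
    linarith [hge.1, hgb.1]
  refine ⟨z (a + τ), ⟨a + τ, by linarith, ?_, ?_, ?_, rfl, ?_⟩, ?_, ?_⟩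
  · intro t ht1 ht2
    rcases le_or_gt t a with hta | hta
    · exact hgood.ins t ht1 hta
    · have h3 := hτi (t - a) (by linarith) (by linarith)
      rw [show a + (t - a) = t by ring] at h3
      exact ⟨hxpos t ⟨hta.le, by linarith⟩, h3.1, h3.2⟩
  · intro t ht1 ht2 h3
    exact absurd h3 (by norm_num)
  · intro t ht1 ht2
    rcases le_or_gt t a with hta | hta
    · exact hgood.bd t ht1 hta
    · exact hBd t ⟨hta.le, by linarith⟩
  · refine ⟨hτe, ?_, hxpos _ ⟨by linarith, by linarith⟩⟩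
    have h3 := hT.qhi
    have h4 : (o.qhi : ℝ) + (o.E : ℝ) < 0 := by
      have : (o.qhi + (o.E : ℤ)) < 0 := by linarith
      exact_mod_cast this
    by_contra hc
    push Not at hc
    have := mul_nonneg hw.le hc
    linarith
  · show |w60 * outX 1 (z (a + τ)) - val (dpoly S.c) u v 0| ≤ _
    rw [val_dpoly, outX, if_neg (by norm_num)]
    exact FN1_err hh hτh (by omega) (by rw [hhl]; exact hlo) hdt hT.ce
  · show |w60 * outY 1 (z (a + τ)) - val (dpoly S.p) u v 0| ≤ _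
    rw [val_dpoly, outY, if_neg (by norm_num)]
    exact FN1_err hh hτh (by omega) (by rw [hhl]; exact hlo) hdt hT.pe

end Pool.Agent.Ecl
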