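import Pool.Agent.Lib_helper51.Ecl.SVDefs
import Pool.Agent.Lib_helper51.EclS.CTXBA
import Pool.Agent.Lib_helper51.EclS.CTXCA
import Pool.Agent.Lib_helper51.EclS.UVTA
import Pool.Agent.Lib_helper51.EclS.VALBA
import Pool.Agent.Lib_helper51.EclS.VALCA

/-! MP_efcf7c_an, block FN3: arrival on the mid section. -/

set_option autoImplicit false

namespace Pool.Agent.Ecl

open Real Polynomial K Set

theorem fn3_w60_pos : 0 < w60 := by unfold w60; norm_num

theorem fn3_n120 : (n120 : ℝ) = w60 ^ 2 := by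
  unfold n120 w60
  norm_num

attribute [local irreducible] w60

theorem fn3_cl {x : ℝ} (h : |x| ≤ 2 ^ 20) : cl x = x := by
  unfold cl
  obtain ⟨h1, h2⟩ := abs_le.1 h
  rw [min_eq_right h2, max_eq_right]
  linarith

/-- division of naturals, rounded up -/
theorem fn3_div {a b : ℕ} (hb : 0 < b) : (a : ℝ) / b ≤ ((a / b : ℕ) : ℝ) + 1 := by
  rw [div_le_iff₀ (by exact_mod_cast hb)]
  have h1 : a < (a / b + 1) * b := by
    have := Nat.lt_div_mul_add (a := a) hb
    nlinarith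
  have h2 : (a : ℝ) < ((a / b + 1 : ℕ) : ℝ) * b := by exact_mod_cast h1
  push_cast at h2
  exact h2.le

/-- `w60 cos η` at the beginning -/
theorem fn3_start {S : Sta} (hS : StaMsk S) {u v : ℝ} {x : St} (h : StaOK S u v x) :
    w60 * cos x.eta ≤ w60 * pv S.k u v + (Sta.dT S : ℝ) := by
  obtain ⟨ξ, η, _, _, h3, h4⟩ := h
  have hw := fn3_w60_pos
  have hlam : (1 : ℝ) ≤ S.lam := by exact_mod_cast hS.lam
  have hE0 : (0 : ℝ) ≤ S.E / w60 := by positivity
  have het0 : (0 : ℝ) ≤ S.et / w60 := by positivity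
  have hk : |pv S.k u v - cos η| ≤ S.et / w60 := by
    apply abs_le_of_sq_le_sq _ het0
    nlinarith [sq_nonneg (pv S.g u v - sin η)]
  have hη : |x.eta - η| ≤ S.E / w60 / (S.lam / 16) := by
    rw [le_div_iff₀ (by positivity)]
    have h5 : (|x.eta - η| * (S.lam / 16)) ^ 2 ≤ (S.E / w60) ^ 2 := by
      rw [mul_pow, sq_abs]
      nlinarith [sq_nonneg (x.xi - ξ), sq_nonneg (x.p - pv S.p u v), sq_nonneg (x.q - pv S.q u v),
        sq_nonneg ((S.lam : ℝ) / 16), mul_nonneg (sq_nonneg ((S.lam : ℝ) / 16))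
          (sq_nonneg (x.xi - ξ))]
    exact le_of_sq_le_sq h5 hE0
  have hcos : |cos x.eta - cos η| ≤ |x.eta - η| := Real.abs_cos_sub_cos_le _ _
  have h6 : cos x.eta ≤ pv S.k u v + S.et / w60 + S.E / w60 / (S.lam / 16) := by
    have a1 := (abs_le.1 hk).1
    have a2 := (abs_le.1 (hcos.trans hη)).2
    linarith
  have h7 : (S.E * 16 : ℝ) / S.lam ≤ ((S.E * 16 / S.lam : ℕ) : ℝ) + 1 := by
    have := fn3_div (a := S.E * 16) (b := S.lam) hS.lam
    push_cast at this
    exact this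
  have h8 : w60 * cos x.eta ≤ w60 * (pv S.k u v + S.et / w60 + S.E / w60 / (S.lam / 16)) :=
    mul_le_mul_of_nonneg_left h6 hw.le
  have h9 : w60 * (pv S.k u v + S.et / w60 + S.E / w60 / (S.lam / 16)) =
      w60 * pv S.k u v + S.et + S.E * 16 / S.lam := by
    have : (S.lam : ℝ) ≠ 0 := by positivity
    field_simp
  rw [h9] at h8
  unfold Sta.dT
  push_cast
  linarith

/-- the interval `(0, π)` is not left while `sin` is positive -/
theorem fn3_strip {f : ℝ → ℝ} {a b : ℝ} (hf : Continuous f) (ha0 : 0 < f a) (ha1 : f a < π)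
    (hs : ∀ t, a ≤ t → t ≤ b → 0 < sin (f t)) {t : ℝ} (h1 : a ≤ t) (h2 : t ≤ b) :
    0 < f t ∧ f t < π := by
  constructor
  · by_contra hcon
    push Not at hcon
    have h3 : (0 : ℝ) ∈ f '' Icc a t := by
      have := intermediate_value_Icc' h1 hf.continuousOn
      exact this ⟨hcon, ha0.le⟩
    obtain ⟨x, hx, hx0⟩ := h3
    have := hs x hx.1 (hx.2.trans h2)
    rw [hx0, sin_zero] at this
    exact lt_irrefl _ this
  · by_contra hcon
    push Not at hcon
    have h3 : π ∈ f '' Icc a t := by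
      have := intermediate_value_Icc h1 hf.continuousOn
      exact this ⟨ha1.le, hcon⟩
    obtain ⟨x, hx, hx0⟩ := h3
    have := hs x hx.1 (hx.2.trans h2)
    rw [hx0, sin_pi] at this
    exact lt_irrefl _ this

/-- the error of a coordinate at the time of arrival -/
theorem fn3_err {h τ dt dc hl : ℝ} {n : ℕ} (hh : 0 < h) (hl0 : 0 < hl) (hlo : hl ≤ w60 * h)
    (hdc : 0 ≤ dc) (hdt : w60 * (h - τ) ≤ dt) (hdt0 : 0 ≤ dt)
    (hn : dt * dc / hl ≤ (n : ℝ) + 1) : (1 - τ / h) * dc ≤ (n : ℝ) + 1 := by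
  have hw := fn3_w60_pos
  have e1 : 1 - τ / h = (w60 * (h - τ)) / (w60 * h) := by
    field_simp
  have h2 : 1 - τ / h ≤ dt / hl := by
    rw [e1]
    calc w60 * (h - τ) / (w60 * h) ≤ dt / (w60 * h) := by gcongr
      _ ≤ dt / hl := by gcongr
  calc (1 - τ / h) * dc ≤ dt / hl * dc := mul_le_mul_of_nonneg_right h2 hdc
    _ = dt * dc / hl := by ring
    _ ≤ _ := hn

/-- **FN3** -/
theorem finish3_pr {kap : ℤ} {S0 : Sta} {o : Out} {S : Sta} {k : Fnl → Bool} (h0 : StaMsk S0)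
    (h1 : StaMsk S) (ho : 0 < o.hlo) (hl : inLast 3 o = true)
    (h : finish ctx0 false 3 kap S0 o S k = true) :
    ∃ F : Fnl, k F = true ∧ FinSem 3 kap S0 o S F := by
  unfold finish at h
  obtain ⟨tc, h, _, hcR, _⟩ := uvTM_spec ctx0_ok h1.c h
  obtain ⟨ts, h, _, _, _⟩ := uvTM_spec ctx0_ok h1.s h
  obtain ⟨tk, h, _, _, hkT⟩ := uvTM_spec ctx0_ok h1.k h
  obtain ⟨tg, h, _, _, _⟩ := uvTM_spec ctx0_ok h1.g h
  obtain ⟨tp, h, _, hpR, _⟩ := uvTM_spec ctx0_ok h1.p h
  obtain ⟨tq, h, _, _, _⟩ := uvTM_spec ctx0_ok h1.q h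
  obtain ⟨tk0, h, _, _, hk0T⟩ := uvTM_spec ctx0_ok h0.k h
  simp only [fNat_eq, fInt_eq] at h
  rw [Bool.cond_eq_true_distrib] at h
  split_ifs at h with hc
  simp only [Bool.and_eq_true, decide_eq_true_eq] at hc
  obtain ⟨c1, c2, c3, c4⟩ := hc
  refine ⟨_, h, dpoly S.c, dpoly S.p, hcR.mono' le_rfl (by norm_num),
    hpR.mono' le_rfl (by norm_num), dpoly_coeff0 _, dpoly_coeff0 _, ?_⟩
  intro u v hu hv z a hh hz ha hh0 hhl hhn hg hS0 hst
  have hw := fn3_w60_pos
  -- the signs during the step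
  simp only [inLast, xiPos, snPos, qNeg, Bool.and_eq_true, decide_eq_true_eq] at hl
  obtain ⟨l1, l2, l3⟩ := hl
  have hbd : ∀ t, a ≤ t → t ≤ a + hh → Bd (z t) := by
    intro t ht1 ht2
    have := (hst.out (t - a) (by linarith) (by linarith)).bd
    rwa [add_sub_cancel] at this
  have hxi : ∀ t, a ≤ t → t ≤ a + hh → 0 < (z t).xi := by
    intro t ht1 ht2
    have h5 := (hst.out (t - a) (by linarith) (by linarith)).slo
    rw [add_sub_cancel] at h5
    have h6 : ((Out.dH o : ℤ) : ℝ) < (o.slo : ℝ) := by exact_mod_cast l1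
    push_cast at h6
    have h7 : 0 < w60 * sinh (z t).xi := by linarith
    have h8 : 0 < sinh (z t).xi := pos_of_mul_pos_right h7 hw.le
    exact Real.sinh_pos_iff.1 h8
  have hsn : ∀ t, a ≤ t → t ≤ a + hh →
      ((o.glo - (Out.dT o : ℤ) : ℤ) : ℝ) ≤ w60 * sin (z t).eta := by
    intro t ht1 ht2
    have h5 := (hst.out (t - a) (by linarith) (by linarith)).glo
    rw [add_sub_cancel] at h5
    push_cast
    exact h5
  have hgm : (0 : ℝ) < ((o.glo - (Out.dT o : ℤ) : ℤ) : ℝ) := by exact_mod_cast c4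
  have hm : (0 : ℝ) < ((-(o.qhi + (o.E : ℤ)) : ℤ) : ℝ) := by exact_mod_cast c3
  have hq : ∀ t, a ≤ t → t ≤ a + hh → ((-(o.qhi + (o.E : ℤ)) : ℤ) : ℝ) ≤ -(w60 * (z t).q) := by
    intro t ht1 ht2
    have h5 := (hst.out (t - a) (by linarith) (by linarith)).qhi
    rw [add_sub_cancel] at h5
    push_cast
    linarith
  have hsn0 : ∀ t, a ≤ t → t ≤ a + hh → 0 < sin (z t).eta := by
    intro t ht1 ht2
    exact pos_of_mul_pos_right (hgm.trans_le (hsn t ht1 ht2)) hw.le
  have hq0 : ∀ t, a ≤ t → t ≤ a + hh → (z t).q < 0 := by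
    intro t ht1 ht2
    have h5 := hm.trans_le (hq t ht1 ht2)
    by_contra hcon
    have h6 := mul_nonneg hw.le (not_lt.1 hcon)
    linarith
  have hηc : Continuous fun t => (z t).eta :=
    continuous_iff_continuousAt.2 fun t => (hz t).2.1.continuousAt
  have hstrip : ∀ t, a ≤ t → t ≤ a + hh → 0 < (z t).eta ∧ (z t).eta < π := by
    intro t ht1 ht2
    have h5 := hg.ins a ha le_rfl
    exact fn3_strip (f := fun t => (z t).eta) hηc h5.2.1 h5.2.2 hsn0 ht1 ht2
  -- the function `cos η`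
  set c : ℝ := ((o.glo - (Out.dT o : ℤ) : ℤ) : ℝ) * ((-(o.qhi + (o.E : ℤ)) : ℤ) : ℝ) / w60 ^ 2
    with hcdef
  have hc0 : 0 < c := by positivity
  have hfd : ∀ t, HasDerivAt (fun t => cos (z t).eta) (-sin (z t).eta * cl (z t).q) t :=
    fun t => (hz t).2.1.cos
  have hder : ∀ t, a ≤ t → t ≤ a + hh → c ≤ deriv (fun t => cos (z t).eta) t := by
    intro t ht1 ht2
    rw [(hfd t).deriv, fn3_cl (hbd t ht1 ht2).2.2, hcdef, div_le_iff₀ (by positivity)]
    have h5 := mul_le_mul (hsn t ht1 ht2) (hq t ht1 ht2) hm.le (by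
      have := hsn0 t ht1 ht2
      positivity)
    calc _ ≤ w60 * sin (z t).eta * -(w60 * (z t).q) := h5
      _ = _ := by ring
  have hmvt : ∀ x y, a ≤ x → x ≤ y → y ≤ a + hh →
      c * (y - x) ≤ cos (z y).eta - cos (z x).eta := by
    intro x y hx hxy hy
    refine (convex_Icc a (a + hh)).mul_sub_le_image_sub_of_le_deriv
      (f := fun t => cos (z t).eta) (fun t _ => (hfd t).continuousAt.continuousWithinAt)
      (fun t _ => (hfd t).differentiableAt.differentiableWithinAt) ?_ x ⟨hx, hxy.trans hy⟩ y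
      ⟨hx.trans hxy, hy⟩ hxy
    intro t ht
    rw [interior_Icc] at ht
    exact hder t ht.1.le ht.2.le
  -- the values at the ends
  have hfa : w60 * cos (z a).eta < kap := by
    have h5 := fn3_start h0 hS0
    have h6 := (lo_le_val (dpoly S0.k) hk0T.nr hu hv le_rfl zero_le_one).2
    rw [val_dpoly, dpoly_coeff0] at h6
    have h7 : ((hi (cd S0.k) tk0.nr + (Sta.dT S0 : ℤ) : ℤ) : ℝ) < kap := by exact_mod_cast c1
    push_cast at h7
    linarith
  have hke := (hst.out hh hh0.le le_rfl).ke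
  rw [div_self hh0.ne', sub_self, zero_mul, add_zero] at hke
  have hkv := lo_le_val (dpoly S.k) hkT.nr hu hv le_rfl zero_le_one
  rw [val_dpoly, dpoly_coeff0] at hkv
  have hfb : (kap : ℝ) < w60 * cos (z (a + hh)).eta := by
    have h7 : (kap : ℝ) < ((lo (cd S.k) tk.nr - (Out.dT o : ℤ) : ℤ) : ℝ) := by exact_mod_cast c2
    push_cast at h7
    have h8 := (abs_le.1 hke).1
    linarith [hkv.1]
  have hfb' : w60 * cos (z (a + hh)).eta ≤ ((hi (cd S.k) tk.nr + (Out.dT o : ℤ) : ℤ) : ℝ) := by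
    push_cast
    have h8 := (abs_le.1 hke).2
    linarith [hkv.2]
  -- the crossing
  obtain ⟨T, hT, hTk⟩ : ∃ T ∈ Icc a (a + hh), cos (z T).eta = kap / w60 := by
    have := intermediate_value_Icc (show a ≤ a + hh by linarith)
      (f := fun t => cos (z t).eta) (fun t _ => (hfd t).continuousAt.continuousWithinAt)
    have h5 : (kap : ℝ) / w60 ∈ Icc (cos (z a).eta) (cos (z (a + hh)).eta) := by
      constructor
      · rw [le_div_iff₀ hw]
        linarith
      · rw [div_le_iff₀ hw]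
        linarith
    obtain ⟨T, hT, hT2⟩ := this h5
    exact ⟨T, hT, hT2⟩
  have haT : a < T := by
    rcases hT.1.eq_or_lt with h5 | h5
    · exfalso
      rw [← h5, eq_div_iff hw.ne'] at hTk
      linarith
    · exact h5
  refine ⟨z T, ⟨T, ha.trans haT, ?_, ?_, ?_, rfl, hTk, hq0 T hT.1 hT.2, hxi T hT.1 hT.2,
    (hstrip T hT.1 hT.2).1, (hstrip T hT.1 hT.2).2⟩, ?_⟩
  · intro t ht1 ht2
    rcases le_or_gt t a with h5 | h5
    · exact hg.ins t ht1 h5
    · have h6 : t ≤ a + hh := ht2.le.trans hT.2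
      exact ⟨hxi t h5.le h6, hstrip t h5.le h6⟩
  · intro t ht1 ht2
    rcases le_or_gt t a with h5 | h5
    · exact hg.nos t ht1 h5
    · rintro - ⟨h6, -⟩
      have h7 := hmvt t T h5.le ht2.le hT.2
      rw [h6, hTk, sub_self] at h7
      have : 0 < c * (T - t) := mul_pos hc0 (by linarith)
      linarith
  · intro t ht1 ht2
    rcases le_or_gt t a with h5 | h5
    · exact hg.bd t ht1 h5
    · exact hbd t h5.le (ht2.trans hT.2)
  -- the errors
  have hτ := hst.out (T - a) (by linarith [hT.1]) (by linarith [hT.2])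
  rw [add_sub_cancel] at hτ
  set dt : ℕ := (hi (cd S.k) tk.nr + (Out.dT o : ℤ) - kap).toNat * n120 /
    ((-(o.qhi + (o.E : ℤ))).toNat * (o.glo - (Out.dT o : ℤ)).toNat) + 1 with hdt
  have hdtb : w60 * (hh - (T - a)) ≤ dt := by
    have h5 := hmvt T (a + hh) hT.1 hT.2 le_rfl
    have h6 : c * (a + hh - T) * w60 ≤ ((hi (cd S.k) tk.nr + (Out.dT o : ℤ) - kap : ℤ) : ℝ) := by
      have h7 : (cos (z (a + hh)).eta - cos (z T).eta) * w60 ≤
          ((hi (cd S.k) tk.nr + (Out.dT o : ℤ) - kap : ℤ) : ℝ) := by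
        have e1 : (cos (z (a + hh)).eta - cos (z T).eta) * w60 =
            w60 * cos (z (a + hh)).eta - kap := by
          rw [hTk]
          field_simp
        rw [e1]
        push_cast at hfb' ⊢
        linarith
      exact (mul_le_mul_of_nonneg_right h5 hw.le).trans h7
    have h8 : ((hi (cd S.k) tk.nr + (Out.dT o : ℤ) - kap : ℤ) : ℝ) ≤
        (((hi (cd S.k) tk.nr + (Out.dT o : ℤ) - kap).toNat : ℕ) : ℝ) := by
      exact_mod_cast Int.self_le_toNat _
    have e2 : (((-(o.qhi + (o.E : ℤ))).toNat : ℕ) : ℝ) = ((-(o.qhi + (o.E : ℤ)) : ℤ) : ℝ) := by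
      have : (((-(o.qhi + (o.E : ℤ))).toNat : ℕ) : ℤ) = -(o.qhi + (o.E : ℤ)) :=
        Int.toNat_of_nonneg c3.le
      exact_mod_cast this
    have e3 : (((o.glo - (Out.dT o : ℤ)).toNat : ℕ) : ℝ) =
        ((o.glo - (Out.dT o : ℤ) : ℤ) : ℝ) := by
      have : (((o.glo - (Out.dT o : ℤ)).toNat : ℕ) : ℤ) = o.glo - (Out.dT o : ℤ) :=
        Int.toNat_of_nonneg c4.le
      exact_mod_cast this
    have hpos : 0 < (-(o.qhi + (o.E : ℤ))).toNat * (o.glo - (Out.dT o : ℤ)).toNat := by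
      apply Nat.mul_pos
      · exact Int.lt_toNat.2 (by simpa using c3)
      · exact Int.lt_toNat.2 (by simpa using c4)
    have h9 := fn3_div (a := (hi (cd S.k) tk.nr + (Out.dT o : ℤ) - kap).toNat * n120) hpos
    have e4 : (n120 : ℝ) = w60 ^ 2 := fn3_n120
    rw [Nat.cast_mul, Nat.cast_mul, e2, e3, e4] at h9
    rw [hdt]
    push_cast
    refine le_trans ?_ h9
    rw [le_div_iff₀ (mul_pos hm hgm)]
    calc w60 * (hh - (T - a)) * (((-(o.qhi + (o.E : ℤ)) : ℤ) : ℝ) *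
          ((o.glo - (Out.dT o : ℤ) : ℤ) : ℝ)) = (c * (a + hh - T) * w60) * w60 ^ 2 := by
            rw [hcdef]
            field_simp
            ring
      _ ≤ (((hi (cd S.k) tk.nr + (Out.dT o : ℤ) - kap).toNat : ℕ) : ℝ) * w60 ^ 2 := by
            apply mul_le_mul_of_nonneg_right (h6.trans h8) (by positivity)
  have hlo0 : 0 < o.hlo.toNat := Int.lt_toNat.2 (by simpa using ho)
  have hlo1 : ((o.hlo.toNat : ℕ) : ℝ) = (o.hlo : ℝ) := by
    have : ((o.hlo.toNat : ℕ) : ℤ) = o.hlo := Int.toNat_of_nonneg ho.le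
    exact_mod_cast this
  have herr : ∀ d : ℕ, (1 - (T - a) / hh) * (d : ℝ) ≤ ((dt * d / o.hlo.toNat : ℕ) : ℝ) + 1 := by
    intro d
    refine fn3_err (dt := (dt : ℝ)) (hl := (o.hlo : ℝ)) hh0 (by exact_mod_cast ho) hhl
      (Nat.cast_nonneg _) hdtb (Nat.cast_nonneg _) ?_
    have := fn3_div (a := dt * d) hlo0
    rw [hlo1] at this
    push_cast at this ⊢
    exact this
  constructor
  · show |w60 * outX 3 (z T) - val (dpoly S.c) u v 0| ≤ _
    rw [val_dpoly]
    unfold outX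
    rw [if_neg (by norm_num)]
    refine hτ.ce.trans ?_
    have := herr o.dc
    push_cast at this ⊢
    linarith
  · show |w60 * outY 3 (z T) - val (dpoly S.p) u v 0| ≤ _
    rw [val_dpoly]
    unfold outY
    rw [if_neg (by norm_num)]
    refine hτ.pe.trans ?_
    have := herr o.dp
    push_cast at this ⊢
    linarith

end Pool.Agent.Ecl
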