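import Pool.Agent.Lib_helper51.Ecl.SVDefs
import Pool.Agent.Lib_helper51.EclS.CTXBA
import Pool.Agent.Lib_helper51.EclS.CTXCA
import Pool.Agent.Lib_helper51.EclS.UVTA
import Pool.Agent.Lib_helper51.EclS.VALBA

/-!
# FN4: the final step into the collision
-/

set_option autoImplicit false

namespace Pool.Agent.Ecl

open Real Polynomial K Set

/-! ### elementary inequalities -/

lemma FN4_sinh (x : ℝ) : |sinh x - x| ≤ |sinh x| ^ 3 / 6 := by
  have hmono : Monotone fun y : ℝ => sinh y ^ 3 / 6 - sinh y + y := by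
    apply monotone_of_deriv_nonneg
    · fun_prop
    · intro y
      have hd : HasDerivAt (fun y : ℝ => sinh y ^ 3 / 6 - sinh y + y)
          ((3 * sinh y ^ 2 * cosh y) / 6 - cosh y + 1) y := by
        have h1 := ((hasDerivAt_sinh y).pow 3).div_const 6
        have h2 := (h1.sub (hasDerivAt_sinh y)).add (hasDerivAt_id y)
        refine h2.congr_deriv ?_
        norm_num
      rw [hd.deriv]
      have h3 : sinh y ^ 2 = cosh y ^ 2 - 1 := by
        have := cosh_sq y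
        linarith
      have h4 := one_le_cosh y
      rw [h3]
      nlinarith [mul_nonneg (sq_nonneg (cosh y - 1)) (by linarith : (0 : ℝ) ≤ cosh y + 2)]
  rcases le_total 0 x with hx | hx
  · have h1 := hmono hx
    simp only [sinh_zero] at h1
    have h2 : x ≤ sinh x := self_le_sinh_iff.2 hx
    have h3 : 0 ≤ sinh x := sinh_nonneg_iff.2 hx
    rw [abs_of_nonneg (by linarith), abs_of_nonneg h3]
    linarith
  · have h1 := hmono hx
    simp only [sinh_zero] at h1
    have h2 : sinh x ≤ x := sinh_le_self_iff.2 hx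
    have h3 : sinh x ≤ 0 := sinh_nonpos_iff.2 hx
    rw [abs_of_nonpos (by linarith), abs_of_nonpos h3]
    have h4 : (-sinh x) ^ 3 = -(sinh x ^ 3) := by ring
    rw [h4]
    linarith

lemma FN4_sin3 {x : ℝ} (hx : |x| ≤ 1 / 2) : |x - sin x| ≤ |sin x| ^ 3 / 3 := by
  have hmono : MonotoneOn (fun y : ℝ => sin y ^ 3 / 3 - y + sin y) (Icc (-(1 / 2)) (1 / 2)) := by
    apply monotoneOn_of_deriv_nonneg (convex_Icc _ _)
    · fun_prop
    · fun_prop
    · intro y hy
      rw [interior_Icc] at hy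
      have hd : HasDerivAt (fun y : ℝ => sin y ^ 3 / 3 - y + sin y)
          ((3 * sin y ^ 2 * cos y) / 3 - 1 + cos y) y := by
        have h1 := ((hasDerivAt_sin y).pow 3).div_const 3
        have h2 := (h1.sub (hasDerivAt_id y)).add (hasDerivAt_sin y)
        refine h2.congr_deriv ?_
        norm_num
      rw [hd.deriv]
      have h3 : sin y ^ 2 = 1 - cos y ^ 2 := by
        have := sin_sq_add_cos_sq y
        linarith
      have h4 : 1 - y ^ 2 / 2 ≤ cos y := one_sub_sq_div_two_le_cos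
      have h5 : cos y ≤ 1 := cos_le_one y
      have h6 : y ^ 2 ≤ 1 / 4 := by
        have h7 : |y| ≤ 1 / 2 := abs_le.2 ⟨hy.1.le, hy.2.le⟩
        have h8 := mul_le_mul h7 h7 (abs_nonneg y) (by norm_num)
        rw [← sq, sq_abs] at h8
        linarith
      have h7 : 7 / 8 ≤ cos y := by linarith
      rw [h3]
      have h8 : 0 ≤ (1 - cos y) * (cos y ^ 2 + cos y - 1) := by
        apply mul_nonneg (by linarith)
        nlinarith
      nlinarith
  obtain ⟨hx1, hx2⟩ := abs_le.1 hx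
  have h0 : (0 : ℝ) ∈ Icc (-(1 / 2) : ℝ) (1 / 2) := ⟨by norm_num, by norm_num⟩
  rcases le_total 0 x with h | h
  · have h1 := hmono h0 ⟨hx1, hx2⟩ h
    simp only [sin_zero] at h1
    have h2 : sin x ≤ x := sin_le h
    have h3 : 0 ≤ sin x := sin_nonneg_of_nonneg_of_le_pi h (by linarith [pi_gt_three])
    rw [abs_of_nonneg (by linarith), abs_of_nonneg h3]
    linarith
  · have h1 := hmono ⟨hx1, hx2⟩ h0 h
    simp only [sin_zero] at h1
    have h2 : x ≤ sin x := by
      have := sin_le (by linarith : 0 ≤ -x)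
      rw [sin_neg] at this
      linarith
    have h3 : sin x ≤ 0 := sin_nonpos_of_nonpos_of_neg_pi_le h (by linarith [pi_gt_three])
    rw [abs_of_nonpos (by linarith), abs_of_nonpos h3]
    have h4 : (-sin x) ^ 3 = -(sin x ^ 3) := by ring
    rw [h4]
    linarith

lemma FN4_xi {x : ℝ} (h : |sinh x| ≤ 1 / 2) : |x| < 1 / 2 := by
  by_contra hc
  rw [not_lt] at hc
  rw [abs_sinh] at h
  have h1 : sinh (1 / 2) ≤ sinh |x| := sinh_le_sinh.2 hc
  have h2 : (1 / 2 : ℝ) < sinh (1 / 2) := self_lt_sinh_iff.2 (by norm_num)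
  linarith

lemma FN4_phi {x : ℝ} (hx : |x| < π / 2) (h : |sin x| ≤ 7 / 16) : |x| < 1 / 2 := by
  by_contra hc
  rw [not_lt] at hc
  rw [abs_sin_eq_sin_abs_of_abs_le_pi (by linarith [pi_pos])] at h
  have h1 : sin (1 / 2) ≤ sin |x| :=
    sin_le_sin_of_le_of_le_pi_div_two (by linarith [pi_pos]) hx.le hc
  have h2 : (1 / 2 : ℝ) - (1 / 2) ^ 3 / 6 < sin (1 / 2) := sin_gt_sub_cube (by norm_num)
  norm_num at h2 h
  linarith

lemma FN4_cl {x : ℝ} (h : |x| ≤ 2 ^ 20) : cl x = x := by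
  obtain ⟨h1, h2⟩ := abs_le.1 h
  unfold cl
  rw [min_eq_right h2, max_eq_right h1]

/-! ### the real statement -/

lemma FN4_real {z : ℝ → St} {a h : ℝ} (hz : ClSol z) (ha : 0 < a) (hh : 0 < h)
    (hz0 : (z 0).eta - (z 0).xi < π) (hins : ∀ t, 0 < t → t ≤ a → Inside (z t))
    (hbd : ∀ t, 0 ≤ t → t ≤ a → Bd (z t)) {μ1 μ2 P : ℝ} (hμ1 : 0 < μ1) (hμ2 : 0 < μ2)
    (hbd' : ∀ τ, 0 ≤ τ → τ ≤ h → Bd (z (a + τ)))
    (hp : ∀ τ, 0 ≤ τ → τ ≤ h → (z (a + τ)).p ≤ -μ1)
    (hq : ∀ τ, 0 ≤ τ → τ ≤ h → μ2 ≤ (z (a + τ)).q)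
    (hP : ∀ τ, 0 ≤ τ → τ ≤ h → |(z (a + τ)).p| ≤ P)
    (hs : ∀ τ, 0 ≤ τ → τ ≤ h → |sinh (z (a + τ)).xi| ≤ 1 / 2)
    (hg : ∀ τ, 0 ≤ τ → τ ≤ h → |sin (z (a + τ)).eta| ≤ 7 / 16)
    (hk : ∀ τ, 0 ≤ τ → τ ≤ h → cos (z (a + τ)).eta < 0)
    {Sl Sh Gl Gh A B Cu : ℝ} (e1 : Sl ≤ sinh (z (a + h)).xi) (e2 : sinh (z (a + h)).xi ≤ Sh)
    (e3 : Gl ≤ sin (z (a + h)).eta) (e4 : sin (z (a + h)).eta ≤ Gh)
    (eA : |sinh (z (a + h)).xi| ≤ A) (eB : |sin (z (a + h)).eta| ≤ B)
    (hCu : (A ^ 3 + 2 * B ^ 3) / 6 ≤ Cu) (hcond : Sh + Gh + Cu < 0) :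
    ∃ σ : ℝ, LastArc (z 0) σ ∧ (0 < Sl → 0 < σ) ∧
      ∀ dt : ℝ, (-Sl - Gl + Cu) / (μ1 + μ2) ≤ dt → 9 * Sh + 10 * (dt * P) < 0 → σ < 0 := by
  have hpi := pi_pos
  -- continuity
  have cxi : Continuous fun t => (z t).xi :=
    continuous_iff_continuousAt.2 fun t => (hz t).1.continuousAt
  have ceta : Continuous fun t => (z t).eta :=
    continuous_iff_continuousAt.2 fun t => (hz t).2.1.continuousAt
  -- bounded
  have hbdall : ∀ t, 0 ≤ t → t ≤ a + h → Bd (z t) := by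
    intro t h0 h1
    rcases le_total t a with h2 | h2
    · exact hbd t h0 h2
    · have := hbd' (t - a) (by linarith) (by linarith)
      rwa [add_sub_cancel] at this
  have hpt : ∀ t, a ≤ t → t ≤ a + h → (z t).p ≤ -μ1 := by
    intro t h0 h1
    have := hp (t - a) (by linarith) (by linarith)
    rwa [add_sub_cancel] at this
  have hqt : ∀ t, a ≤ t → t ≤ a + h → μ2 ≤ (z t).q := by
    intro t h0 h1
    have := hq (t - a) (by linarith) (by linarith)
    rwa [add_sub_cancel] at this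
  have hPt : ∀ t, a ≤ t → t ≤ a + h → |(z t).p| ≤ P := by
    intro t h0 h1
    have := hP (t - a) (by linarith) (by linarith)
    rwa [add_sub_cancel] at this
  have hst : ∀ t, a ≤ t → t ≤ a + h → |sinh (z t).xi| ≤ 1 / 2 := by
    intro t h0 h1
    have := hs (t - a) (by linarith) (by linarith)
    rwa [add_sub_cancel] at this
  have hgt : ∀ t, a ≤ t → t ≤ a + h → |sin (z t).eta| ≤ 7 / 16 := by
    intro t h0 h1
    have := hg (t - a) (by linarith) (by linarith)
    rwa [add_sub_cancel] at this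
  have hkt : ∀ t, a ≤ t → t ≤ a + h → cos (z t).eta < 0 := by
    intro t h0 h1
    have := hk (t - a) (by linarith) (by linarith)
    rwa [add_sub_cancel] at this
  have dxi : ∀ t, 0 ≤ t → t ≤ a + h → HasDerivAt (fun s => (z s).xi) (z t).p t := by
    intro t h0 h1
    have h2 := (hz t).1
    rwa [FN4_cl (hbdall t h0 h1).2.1] at h2
  have deta : ∀ t, 0 ≤ t → t ≤ a + h → HasDerivAt (fun s => (z s).eta) (z t).q t := by
    intro t h0 h1
    have h2 := (hz t).2.1
    rwa [FN4_cl (hbdall t h0 h1).2.2] at h2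
  have hsol : ∀ T, T ≤ a + h → IsSol z T := by
    intro T hT t ht
    have hb := hbdall t ht.1 (ht.2.trans hT)
    obtain ⟨-, -, h3, h4⟩ := hz t
    rw [FN4_cl hb.1, FN4_cl hb.2.2] at h3
    rw [FN4_cl hb.1, FN4_cl hb.2.1] at h4
    exact ⟨dxi t ht.1 (ht.2.trans hT), deta t ht.1 (ht.2.trans hT), h3, h4⟩
  -- the location of eta
  have hIa : Inside (z a) := hins a ha le_rfl
  have heta0 : π / 2 < (z a).eta := by
    by_contra hc
    rw [not_lt] at hc
    have h1 := hkt a le_rfl (by linarith)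
    have h2 : 0 ≤ cos (z a).eta := cos_nonneg_of_neg_pi_div_two_le_of_le
      (by linarith [hIa.2.1]) hc
    linarith
  have hcos32 : cos (3 * π / 2) = 0 := by
    rw [show 3 * π / 2 = π / 2 + π by ring, cos_add_pi, cos_pi_div_two, neg_zero]
  have heta1 : ∀ t, a ≤ t → t ≤ a + h → π / 2 < (z t).eta ∧ (z t).eta < 3 * π / 2 := by
    intro t h0 h1
    constructor
    · by_contra hc
      rw [not_lt] at hc
      have hivt := intermediate_value_Icc' h0 (ceta.continuousOn (s := Icc a t))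
      obtain ⟨s, hs1, hs2⟩ := hivt ⟨hc, heta0.le⟩
      have h3 := hkt s hs1.1 (hs1.2.trans h1)
      simp only at hs2
      rw [hs2, cos_pi_div_two] at h3
      exact lt_irrefl _ h3
    · by_contra hc
      rw [not_lt] at hc
      have hivt := intermediate_value_Icc h0 (ceta.continuousOn (s := Icc a t))
      have h4 : (z a).eta ≤ 3 * π / 2 := by linarith [hIa.2.2]
      obtain ⟨s, hs1, hs2⟩ := hivt ⟨h4, hc⟩
      have h3 := hkt s hs1.1 (hs1.2.trans h1)
      simp only at hs2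
      rw [hs2, hcos32] at h3
      exact lt_irrefl _ h3
  have hclose : ∀ t, a ≤ t → t ≤ a + h → |(z t).eta - π| < 1 / 2 := by
    intro t h0 h1
    obtain ⟨h2, h3⟩ := heta1 t h0 h1
    apply FN4_phi
    · rw [abs_lt]
      constructor <;> linarith
    · rw [sin_sub_pi, abs_neg]
      exact hgt t h0 h1
  have hclose' : ∀ t, a ≤ t → t ≤ a + h → |(z t).xi| < 1 / 2 := fun t h0 h1 =>
    FN4_xi (hst t h0 h1)
  -- the difference
  set D : ℝ → ℝ := fun t => (z t).eta - (z t).xi with hD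
  have cD : Continuous D := ceta.sub cxi
  have dD : ∀ t, 0 ≤ t → t ≤ a + h → HasDerivAt D ((z t).q - (z t).p) t := fun t h0 h1 =>
    (deta t h0 h1).sub (dxi t h0 h1)
  have hDlow : ∀ s t, a ≤ s → s ≤ t → t ≤ a + h → (μ1 + μ2) * (t - s) ≤ D t - D s := by
    intro s t h0 h1 h2
    have hc := Convex.mul_sub_le_image_sub_of_le_deriv (convex_Icc a (a + h)) (f := D)
      cD.continuousOn (fun x hx => by
        rw [interior_Icc] at hx
        exact (dD x (by linarith [hx.1]) hx.2.le).differentiableAt.differentiableWithinAt)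
      (C := μ1 + μ2) (fun x hx => by
        rw [interior_Icc] at hx
        rw [(dD x (by linarith [hx.1]) hx.2.le).deriv]
        have := hpt x hx.1.le hx.2.le
        have := hqt x hx.1.le hx.2.le
        linarith)
    exact hc s ⟨h0, h1.trans h2⟩ t ⟨h0.trans h1, h2⟩ h1
  have hxilow : ∀ s t, a ≤ s → s ≤ t → t ≤ a + h → -P * (t - s) ≤ (z t).xi - (z s).xi := by
    intro s t h0 h1 h2
    have hc := Convex.mul_sub_le_image_sub_of_le_deriv (convex_Icc a (a + h))
      (f := fun s => (z s).xi)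
      cxi.continuousOn (fun x hx => by
        rw [interior_Icc] at hx
        exact (dxi x (by linarith [hx.1]) hx.2.le).differentiableAt.differentiableWithinAt)
      (C := -P) (fun x hx => by
        rw [interior_Icc] at hx
        rw [(dxi x (by linarith [hx.1]) hx.2.le).deriv]
        exact (abs_le.1 (hPt x hx.1.le hx.2.le)).1)
    exact hc s ⟨h0, h1.trans h2⟩ t ⟨h0.trans h1, h2⟩ h1
  have hxiup : ∀ s t, a ≤ s → s ≤ t → t ≤ a + h → (z t).xi ≤ (z s).xi := by
    intro s t h0 h1 h2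
    have hc := Convex.mul_sub_le_image_sub_of_le_deriv (convex_Icc a (a + h))
      (f := fun s => -(z s).xi)
      cxi.neg.continuousOn (fun x hx => by
        rw [interior_Icc] at hx
        exact (dxi x (by linarith [hx.1]) hx.2.le).neg.differentiableAt.differentiableWithinAt)
      (C := 0) (fun x hx => by
        rw [interior_Icc] at hx
        have h3 : HasDerivAt (fun s => -(z s).xi) (-(z x).p) x :=
          (dxi x (by linarith [hx.1]) hx.2.le).neg
        rw [h3.deriv]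
        have := hpt x hx.1.le hx.2.le
        linarith)
    have h3 : 0 * (t - s) ≤ -(z t).xi - -(z s).xi :=
      hc s ⟨h0, h1.trans h2⟩ t ⟨h0.trans h1, h2⟩ h1
    linarith
  -- the end point
  have hae : a ≤ a + h := by linarith
  set X : ℝ := (z (a + h)).xi with hX
  set Φ : ℝ := π - (z (a + h)).eta with hΦ
  have hΦ1 : |Φ| ≤ 1 / 2 := by
    rw [hΦ, abs_sub_comm]
    exact (hclose (a + h) hae le_rfl).le
  have hsΦ : sin Φ = sin (z (a + h)).eta := by rw [hΦ, sin_pi_sub]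
  have hX3 := FN4_sinh X
  have hΦ3 := FN4_sin3 hΦ1
  rw [hsΦ] at hΦ3
  have hA3 : |sinh X| ^ 3 ≤ A ^ 3 := pow_le_pow_left₀ (abs_nonneg _) eA 3
  have hB3 : |sin (z (a + h)).eta| ^ 3 ≤ B ^ 3 := pow_le_pow_left₀ (abs_nonneg _) eB 3
  have hup : X + Φ ≤ Sh + Gh + Cu := by
    have h1 := (abs_le.1 hX3).1
    have h2 := (abs_le.1 hΦ3).2
    linarith
  have hlow : Sl + Gl - Cu ≤ X + Φ := by
    have h1 := (abs_le.1 hX3).2
    have h2 := (abs_le.1 hΦ3).1
    linarith
  have hDe : D (a + h) - π = -(X + Φ) := by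
    rw [hD, hX, hΦ]
    ring
  have hDe1 : π < D (a + h) := by linarith
  have hDa : D a < π := by
    rw [hD]
    show (z a).eta - (z a).xi < π
    linarith [hIa.1, hIa.2.2]
  -- the crossing
  obtain ⟨T, hT1, hT2⟩ := intermediate_value_Icc hae (cD.continuousOn (s := Icc a (a + h)))
    ⟨hDa.le, hDe1.le⟩
  have haT : a < T := by
    rcases eq_or_lt_of_le hT1.1 with h1 | h1
    · rw [← h1] at hT2
      linarith
    · exact h1
  have hμ : 0 < μ1 + μ2 := by linarith
  refine ⟨(z T).xi, ⟨a, T, z, ha, haT, rfl, hsol T hT1.2, hins, ?_, ?_, rfl, ?_⟩, ?_, ?_⟩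
  · intro t h0 h1
    have h2 := h1.trans hT1.2
    exact ⟨by linarith [hpt t h0 h2], by linarith [hqt t h0 h2], hclose' t h0 h2,
      hclose t h0 h2⟩
  · intro t h0 h1
    rcases le_total t a with h2 | h2
    · rcases eq_or_lt_of_le h0 with h3 | h3
      · rw [← h3]
        exact hz0
      · have := hins t h3 h2
        linarith [this.1, this.2.2]
    · have h3 := hDlow t T h2 h1.le hT1.2
      have h4 : 0 < (μ1 + μ2) * (T - t) := mul_pos hμ (by linarith)
      have h5 : D t < π := by linarith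
      exact h5
  · have h3 : (z T).eta - (z T).xi = π := hT2
    linarith
  · intro hSl
    have h3 : 0 < sinh X := hSl.trans_le e1
    have h4 : 0 < X := sinh_pos_iff.1 h3
    have h5 := hxiup T (a + h) haT.le hT1.2 le_rfl
    linarith
  · intro dt hdt hneg
    have h3 := hDlow T (a + h) haT.le hT1.2 le_rfl
    rw [hT2] at h3
    have h4 : (a + h - T) ≤ (-Sl - Gl + Cu) / (μ1 + μ2) := by
      rw [le_div_iff₀ hμ]
      linarith
    have h5 : a + h - T ≤ dt := h4.trans hdt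
    have h6 : 0 ≤ a + h - T := by linarith [hT1.2]
    have hP0 : 0 ≤ P := (abs_nonneg _).trans (hPt a le_rfl hae)
    have h7 := hxilow T (a + h) haT.le hT1.2 le_rfl
    have h8 : P * (a + h - T) ≤ P * dt := mul_le_mul_of_nonneg_left h5 hP0
    have h9 : (z T).xi ≤ X + dt * P := by
      have h10 : -P * (a + h - T) ≤ X - (z T).xi := h7
      linarith
    have h10 : 0 ≤ dt * P := mul_nonneg (h6.trans h5) hP0
    have h11 : sinh X < 0 := by linarith
    -- X is at most 0.9 sinh X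
    have h12 : |sinh X| = -sinh X := abs_of_neg h11
    have h13 : |sinh X| ≤ 1 / 2 := hst (a + h) hae le_rfl
    have h14 : |sinh X| ^ 3 ≤ |sinh X| * (1 / 4) := by
      have h15 : |sinh X| ^ 2 ≤ 1 / 4 := by
        have := mul_le_mul h13 h13 (abs_nonneg _) (by norm_num)
        rw [← sq] at this
        linarith
      calc |sinh X| ^ 3 = |sinh X| * |sinh X| ^ 2 := by ring
        _ ≤ |sinh X| * (1 / 4) := mul_le_mul_of_nonneg_left h15 (abs_nonneg _)
    have h15 := (abs_le.1 hX3).1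
    rw [h12] at h14
    rw [h12] at h15
    have h16 : X ≤ 9 / 10 * sinh X := by linarith
    linarith

lemma FN4_divle {n m : ℕ} (hm : 0 < m) : (n : ℝ) / (m : ℝ) ≤ ((n / m + 1 : ℕ) : ℝ) := by
  have h1 : n < m * (n / m + 1) := Nat.lt_mul_div_succ n hm
  have h2 : (0 : ℝ) < m := by exact_mod_cast hm
  rw [div_le_iff₀ h2]
  have h3 : (n : ℝ) < (m : ℝ) * ((n / m + 1 : ℕ) : ℝ) := by exact_mod_cast h1
  linarith

lemma FN4_n60 : ((n60 : ℕ) : ℝ) = w60 := by
  unfold n60 w60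
  rw [show Nat.pow 2 60 = 2 ^ 60 from rfl]
  norm_num

lemma FN4_n120 : ((n120 : ℕ) : ℝ) = w60 ^ 2 := by
  unfold n120 w60
  rw [show Nat.pow 2 120 = 2 ^ 120 from rfl]
  push_cast
  norm_num

/-- FN4 collision -/
theorem finish4_pr {kap : ℤ} {S0 : Sta} {o : Out} {S : Sta} {k : Fnl → Bool} (h0 : StaMsk S0)
    (h1 : StaMsk S) (ho : 0 < o.hlo) (hl : inLast 4 o = true)
    (h : finish ctx0 false 4 kap S0 o S k = true) :
    ∃ F : Fnl, k F = true ∧ ∀ u v : ℝ, |u| ≤ 1 → |v| ≤ 1 → ∀ (z : ℝ → St) (a h : ℝ),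
      ClSol z → 0 < a → 0 < h → (z 0).eta - (z 0).xi < π → Good 4 (kap / w60) z a →
      StepOK o S u v h z a → ∃ σ : ℝ, LastArc (z 0) σ ∧ (0 < F.sl → 0 < σ) ∧
        (F.sh < 0 → σ < 0) := by
  unfold K.finish at h
  obtain ⟨tc, h, -, -, -⟩ := uvTM_spec ctx0_ok h1.c h
  obtain ⟨ts, h, -, -, hts⟩ := uvTM_spec ctx0_ok h1.s h
  obtain ⟨tk, h, -, -, -⟩ := uvTM_spec ctx0_ok h1.k h
  obtain ⟨tg, h, -, -, htg⟩ := uvTM_spec ctx0_ok h1.g h
  obtain ⟨tp, h, -, -, -⟩ := uvTM_spec ctx0_ok h1.p h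
  obtain ⟨tq, h, -, -, -⟩ := uvTM_spec ctx0_ok h1.q h
  obtain ⟨tk0, h, -, -, -⟩ := uvTM_spec ctx0_ok h0.k h
  simp only [fNat_eq, fInt_eq] at h
  generalize hcub : (((ts.nr + Out.dH o) * (ts.nr + Out.dH o) * (ts.nr + Out.dH o) +
    2 * ((tg.nr + Out.dT o) * (tg.nr + Out.dT o) * (tg.nr + Out.dT o))) / (6 * n120) + 1) = cub
    at h
  generalize hsl : lo (cd S.s) ts.nr = sl at h
  generalize hsh : hi (cd S.s) ts.nr = sh at h
  generalize hgl : lo (cd S.g) tg.nr = gl at h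
  generalize hgh : hi (cd S.g) tg.nr = gh at h
  generalize hdH : Out.dH o = dH at h
  generalize hdT : Out.dT o = dT at h
  rw [hdH, hdT] at hcub
  cases hc : (decide (sh + gh + (dH : ℤ) + (dT : ℤ) + (cub : ℤ) < 0) &&
    (decide (0 < -(o.phi + (o.E : ℤ))) && decide (0 < o.qlo - (o.E : ℤ)))) with
  | false => rw [hc] at h; exact absurd h (by simp)
  | true =>
    rw [hc, cond_true] at h
    rw [Bool.and_eq_true, Bool.and_eq_true, decide_eq_true_eq, decide_eq_true_eq,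
      decide_eq_true_eq] at hc
    obtain ⟨hc1, hc2, hc3⟩ := hc
    refine ⟨_, h, ?_⟩
    clear h
    intro u v hu hv z a hh hz ha hh0 hz0 hgood hstep
    have hw : (0 : ℝ) < w60 := by unfold w60; positivity
    have hw60 : w60 = 2 ^ 60 := rfl
    -- the conditions of inLast
    have hl' : (pNeg o && (qPos o && (Nat.ble (o.sn + Out.dH o) (Nat.pow 2 59) &&
      (Nat.ble (o.gn + Out.dT o) (7 * Nat.pow 2 56) && decide (o.khi + (Out.dT o : ℤ) < 0))))) =
        true := hl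
    rw [Bool.and_eq_true, Bool.and_eq_true, Bool.and_eq_true, Bool.and_eq_true,
      decide_eq_true_eq, Nat.ble_eq, Nat.ble_eq, hdH, hdT] at hl'
    obtain ⟨-, -, l3, l4, l5⟩ := hl'
    have l3r : ((o.sn : ℝ) + (dH : ℝ)) ≤ 2 ^ 59 := by
      have h2 : ((o.sn + dH : ℕ) : ℝ) ≤ ((Nat.pow 2 59 : ℕ) : ℝ) := Nat.cast_le.2 l3
      rw [show Nat.pow 2 59 = 2 ^ 59 from rfl] at h2
      push_cast at h2
      linarith
    have l4r : ((o.gn : ℝ) + (dT : ℝ)) ≤ 7 * 2 ^ 56 := by
      have h2 : ((o.gn + dT : ℕ) : ℝ) ≤ ((7 * Nat.pow 2 56 : ℕ) : ℝ) := Nat.cast_le.2 l4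
      rw [show Nat.pow 2 56 = 2 ^ 56 from rfl] at h2
      push_cast at h2
      linarith
    have l5r : (o.khi : ℝ) + (dT : ℝ) < 0 := by exact_mod_cast l5
    -- the bounds at the end point
    have hse := hstep.se
    have hge := hstep.ge
    rw [hdH, ← val_dpoly] at hse
    rw [hdT, ← val_dpoly] at hge
    have hs1 := lo_le_val (dpoly S.s) hts.nr hu hv le_rfl zero_le_one
    have hg1 := lo_le_val (dpoly S.g) htg.nr hu hv le_rfl zero_le_one
    rw [dpoly_coeff0, hsl, hsh] at hs1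
    rw [dpoly_coeff0, hgl, hgh] at hg1
    have hs2 : |val (dpoly S.s) u v 0| ≤ (ts.nr : ℝ) :=
      (abs_val_le (dpoly S.s) hu hv le_rfl zero_le_one).trans (by exact_mod_cast hts.nr)
    have hg2 : |val (dpoly S.g) u v 0| ≤ (tg.nr : ℝ) :=
      (abs_val_le (dpoly S.g) hu hv le_rfl zero_le_one).trans (by exact_mod_cast htg.nr)
    have hmul : ∀ x : ℝ, w60 * |x| = |w60 * x| := fun x => by rw [abs_mul, abs_of_pos hw]
    have hA : w60 * |sinh (z (a + hh)).xi| ≤ (ts.nr : ℝ) + (dH : ℝ) := by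
      rw [hmul]
      have h2 := abs_add_le (w60 * sinh (z (a + hh)).xi - val (dpoly S.s) u v 0)
        (val (dpoly S.s) u v 0)
      rw [sub_add_cancel] at h2
      linarith
    have hB : w60 * |sin (z (a + hh)).eta| ≤ (tg.nr : ℝ) + (dT : ℝ) := by
      rw [hmul]
      have h2 := abs_add_le (w60 * sin (z (a + hh)).eta - val (dpoly S.g) u v 0)
        (val (dpoly S.g) u v 0)
      rw [sub_add_cancel] at h2
      linarith
    obtain ⟨hse1, hse2⟩ := abs_le.1 hse
    obtain ⟨hge1, hge2⟩ := abs_le.1 hge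
    have hm1 : (0 : ℝ) < ((-(o.phi + (o.E : ℤ)) : ℤ) : ℝ) := by exact_mod_cast hc2
    have hm2 : (0 : ℝ) < ((o.qlo - (o.E : ℤ) : ℤ) : ℝ) := by exact_mod_cast hc3
    have hcubr : (((ts.nr : ℝ) + dH) ^ 3 + 2 * ((tg.nr : ℝ) + dT) ^ 3) / (6 * w60 ^ 2) ≤
        (cub : ℝ) := by
      have h2 := FN4_divle (n := (ts.nr + dH) * (ts.nr + dH) * (ts.nr + dH) +
        2 * ((tg.nr + dT) * (tg.nr + dT) * (tg.nr + dT))) (m := 6 * n120)
        (by
          show 0 < 6 * 2 ^ 120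
          norm_num)
      rw [hcub] at h2
      push_cast at h2
      rw [FN4_n120] at h2
      refine le_trans (le_of_eq ?_) h2
      ring
    obtain ⟨σ, hσ1, hσ2, hσ3⟩ := FN4_real (z := z) (a := a) (h := hh) hz ha hh0 hz0 hgood.ins
      hgood.bd (μ1 := ((-(o.phi + (o.E : ℤ)) : ℤ) : ℝ) / w60)
      (μ2 := ((o.qlo - (o.E : ℤ) : ℤ) : ℝ) / w60) (P := ((o.pn : ℝ) + (o.E : ℝ)) / w60)
      (div_pos hm1 hw) (div_pos hm2 hw) (fun τ h2 h3 => (hstep.out τ h2 h3).bd)
      (fun τ h2 h3 => by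
        have h4 := (hstep.out τ h2 h3).phi
        rw [← neg_div, le_div_iff₀ hw]
        push_cast
        linarith)
      (fun τ h2 h3 => by
        have h4 := (hstep.out τ h2 h3).qlo
        rw [div_le_iff₀ hw]
        push_cast
        linarith)
      (fun τ h2 h3 => by
        have h4 := (hstep.out τ h2 h3).pab
        rw [le_div_iff₀ hw]
        linarith)
      (fun τ h2 h3 => by
        have h4 := (hstep.out τ h2 h3).sab
        rw [hdH, hw60] at h4
        have h5 : (2 : ℝ) ^ 60 * |sinh (z (a + τ)).xi| ≤ 2 ^ 59 := h4.trans l3r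
        norm_num at h5
        linarith)
      (fun τ h2 h3 => by
        have h4 := (hstep.out τ h2 h3).gab
        rw [hdT, hw60] at h4
        have h5 : (2 : ℝ) ^ 60 * |sin (z (a + τ)).eta| ≤ 7 * 2 ^ 56 := h4.trans l4r
        norm_num at h5
        linarith)
      (fun τ h2 h3 => by
        have h4 := (hstep.out τ h2 h3).khi
        rw [hdT] at h4
        have h5 : w60 * cos (z (a + τ)).eta < 0 := h4.trans_lt l5r
        by_contra hcc
        rw [not_lt] at hcc
        have := mul_nonneg hw.le hcc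
        linarith)
      (Sl := ((sl : ℝ) - dH) / w60) (Sh := ((sh : ℝ) + dH) / w60)
      (Gl := ((gl : ℝ) - dT) / w60) (Gh := ((gh : ℝ) + dT) / w60)
      (A := ((ts.nr : ℝ) + dH) / w60) (B := ((tg.nr : ℝ) + dT) / w60) (Cu := (cub : ℝ) / w60)
      (by rw [div_le_iff₀ hw]; linarith) (by rw [le_div_iff₀ hw]; linarith)
      (by rw [div_le_iff₀ hw]; linarith) (by rw [le_div_iff₀ hw]; linarith)
      (by rw [le_div_iff₀ hw]; linarith) (by rw [le_div_iff₀ hw]; linarith)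
      (by
        rw [le_div_iff₀ hw]
        refine le_trans (le_of_eq ?_) hcubr
        field_simp)
      (by
        rw [← add_div, ← add_div]
        apply div_neg_of_neg_of_pos _ hw
        have h2 : ((sh + gh + (dH : ℤ) + (dT : ℤ) + (cub : ℤ) : ℤ) : ℝ) < 0 := by
          exact_mod_cast hc1
        push_cast at h2
        linarith)
    have hM : (0 : ℤ) < -(o.phi + (o.E : ℤ)) + (o.qlo - (o.E : ℤ)) := add_pos hc2 hc3
    have hM1 : 0 < (-(o.phi + (o.E : ℤ)) + (o.qlo - (o.E : ℤ))).toNat := by omega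
    have h4 := FN4_divle (n := (-sl - gl + (dH : ℤ) + (dT : ℤ) + (cub : ℤ)).toNat * n60) hM1
    refine ⟨σ, hσ1, fun h2 => hσ2 ?_, fun h2 => hσ3
      ((((-sl - gl + (dH : ℤ) + (dT : ℤ) + (cub : ℤ)).toNat * n60 /
        (-(o.phi + (o.E : ℤ)) + (o.qlo - (o.E : ℤ))).toNat + 1 : ℕ) : ℝ) / w60) ?_ ?_⟩
    · apply div_pos _ hw
      have h3 : (0 : ℝ) < ((sl - (dH : ℤ) : ℤ) : ℝ) := by exact_mod_cast h2
      push_cast at h3
      exact h3
    · -- the time bound
      have hMr : (0 : ℝ) < ((-(o.phi + (o.E : ℤ)) + (o.qlo - (o.E : ℤ)) : ℤ) : ℝ) := by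
        exact_mod_cast hM
      have hMc : (((-(o.phi + (o.E : ℤ)) + (o.qlo - (o.E : ℤ))).toNat : ℕ) : ℝ) =
          ((-(o.phi + (o.E : ℤ)) + (o.qlo - (o.E : ℤ)) : ℤ) : ℝ) := by
        have h5 : (((-(o.phi + (o.E : ℤ)) + (o.qlo - (o.E : ℤ))).toNat : ℕ) : ℤ) =
          -(o.phi + (o.E : ℤ)) + (o.qlo - (o.E : ℤ)) := Int.toNat_of_nonneg hM.le
        rw [← Int.cast_natCast, h5]
      have hN : ((-sl - gl + (dH : ℤ) + (dT : ℤ) + (cub : ℤ) : ℤ) : ℝ) ≤
          (((-sl - gl + (dH : ℤ) + (dT : ℤ) + (cub : ℤ)).toNat : ℕ) : ℝ) := by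
        rw [← Int.cast_natCast]
        exact Int.cast_le.2 (Int.self_le_toNat _)
      have h5 : (-(((sl : ℝ) - dH) / w60) - ((gl : ℝ) - dT) / w60 + (cub : ℝ) / w60) /
          (((-(o.phi + (o.E : ℤ)) : ℤ) : ℝ) / w60 + ((o.qlo - (o.E : ℤ) : ℤ) : ℝ) / w60) =
          ((-sl - gl + (dH : ℤ) + (dT : ℤ) + (cub : ℤ) : ℤ) : ℝ) /
            ((-(o.phi + (o.E : ℤ)) + (o.qlo - (o.E : ℤ)) : ℤ) : ℝ) := by
        rw [← add_div, ← neg_div, ← sub_div, ← add_div, div_div_div_cancel_right₀ hw.ne']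
        push_cast
        have h6 : -((sl : ℝ) - dH) - ((gl : ℝ) - dT) + (cub : ℝ) = -sl - gl + dH + dT + cub := by
          ring
        rw [h6]
      rw [h5]
      rw [hMc, Nat.cast_mul, FN4_n60] at h4
      rw [le_div_iff₀ hw]
      refine le_trans ?_ h4
      rw [div_mul_eq_mul_div]
      exact div_le_div_of_nonneg_right (mul_le_mul_of_nonneg_right hN hw.le) hMr.le
    · generalize (-sl - gl + (dH : ℤ) + (dT : ℤ) + (cub : ℤ)).toNat * n60 /
        (-(o.phi + (o.E : ℤ)) + (o.qlo - (o.E : ℤ))).toNat + 1 = dtn at h2 ⊢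
      have h3 : 9 * (sh + (dH : ℤ)) + 10 * ((dtn : ℤ) * ((o.pn : ℤ) + (o.E : ℤ)) /
          (n60 : ℤ) + 1) < 0 := h2
      have h5 : ((dtn : ℤ) * ((o.pn : ℤ) + (o.E : ℤ)) / (n60 : ℤ) + 1) =
          ((dtn * (o.pn + o.E) / n60 + 1 : ℕ) : ℤ) := by push_cast; rfl
      rw [h5] at h3
      have h6 : 9 * ((sh : ℝ) + dH) + 10 * ((dtn * (o.pn + o.E) / n60 + 1 : ℕ) : ℝ) < 0 := by
        have h7 : ((9 * (sh + (dH : ℤ)) + 10 * ((dtn * (o.pn + o.E) / n60 + 1 : ℕ) : ℤ) : ℤ) : ℝ)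
          < 0 := by exact_mod_cast h3
        rw [Int.cast_add, Int.cast_mul, Int.cast_mul, Int.cast_natCast, Int.cast_add,
          Int.cast_natCast, Int.cast_ofNat, Int.cast_ofNat] at h7
        exact h7
      have h8 := FN4_divle (n := dtn * (o.pn + o.E)) (m := n60) (by
        show 0 < 2 ^ 60
        norm_num)
      rw [FN4_n60] at h8
      push_cast at h8 h6
      have h9 : 9 * (((sh : ℝ) + dH) / w60) + 10 * ((dtn : ℝ) / w60 * (((o.pn : ℝ) + o.E) / w60))
          = (9 * ((sh : ℝ) + dH) + 10 * ((dtn : ℝ) * ((o.pn : ℝ) + o.E) / w60)) / w60 := by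
        field_simp
      rw [h9]
      apply div_neg_of_neg_of_pos _ hw
      linarith

end Pool.Agent.Ecl
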