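import Pool.Agent.Lib_helper51.Ecl.SVDefs

set_option autoImplicit false

namespace Pool.Agent.Ecl

open Real Polynomial K Set

theorem INF_cl {x : ℝ} (h : |x| ≤ 2 ^ 20) : cl x = x := by
  have := abs_le.1 h
  unfold cl
  rw [min_eq_right this.2, max_eq_right this.1]

theorem INF_w : (0 : ℝ) < w60 := by unfold w60; positivity

/-- mean value -/
theorem INF_mv {f f' : ℝ → ℝ} (hf : ∀ t, HasDerivAt f (f' t) t) {t : ℝ} (ht : 0 < t) :
    ∃ c, 0 < c ∧ c < t ∧ f t - f 0 = f' c * t := by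
  obtain ⟨c, hc, hc'⟩ := exists_hasDerivAt_eq_slope f f' ht
    (fun x _ => (hf x).continuousAt.continuousWithinAt) (fun x _ => hf x)
  refine ⟨c, hc.1, hc.2, ?_⟩
  rw [sub_zero] at hc'
  rw [hc']
  field_simp

/-- **INF** -/
theorem first_good_pr {src : ℕ} {κ X Y : ℝ} {o : Out} {S' : Sta} {tgt : ℕ} {kap : ℤ}
    (h1 : inFirst src o = true) (h2 : noSec tgt kap o = true) {u v h : ℝ} (hh : 0 < h)
    (hh' : w60 * h ≤ (o.hn : ℝ)) {z : ℝ → St} (hz : ClSol z) (h0 : OnSec src κ X Y (z 0))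
    (hs : StepOK o S' u v h z 0) : Good tgt (kap / w60) z h := by
  have hw := INF_w
  have hout : ∀ τ : ℝ, 0 ≤ τ → τ ≤ h → OutOK o S' u v h τ (z τ) := fun τ h3 h4 => by
    have := hs.out τ h3 h4
    rwa [zero_add] at this
  have dxi := fun t => (hz t).1
  have deta := fun t => (hz t).2.1
  have hclp : ∀ t, 0 ≤ t → t ≤ h → cl (z t).p = (z t).p := fun t h3 h4 =>
    INF_cl (hout t h3 h4).bd.2.1
  have hclq : ∀ t, 0 ≤ t → t ≤ h → cl (z t).q = (z t).q := fun t h3 h4 =>
    INF_cl (hout t h3 h4).bd.2.2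
  have hxi : xiPos o = true → ∀ t, 0 < t → t ≤ h → 0 < (z t).xi := by
    intro hx t h3 h4
    have hx1 : ((Out.dH o : ℤ) : ℝ) < (o.slo : ℝ) := by
      have := of_decide_eq_true hx
      exact_mod_cast this
    have h5 := (hout t h3.le h4).slo
    have h6 : 0 < w60 * sinh (z t).xi := by
      push_cast at hx1
      linarith
    exact sinh_pos_iff.1 ((mul_pos_iff_of_pos_left hw).1 h6)
  have hpp : pPos o = true → ∀ t, 0 ≤ t → t ≤ h → 0 < (z t).p := by
    intro hx t h3 h4
    have hx1 : ((o.E : ℤ) : ℝ) < (o.plo : ℝ) := by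
      have := of_decide_eq_true hx
      exact_mod_cast this
    have h5 := (hout t h3 h4).plo
    have h6 : 0 < w60 * (z t).p := by
      push_cast at hx1
      linarith
    exact (mul_pos_iff_of_pos_left hw).1 h6
  have hqp : qPos o = true → ∀ t, 0 ≤ t → t ≤ h → 0 < (z t).q := by
    intro hx t h3 h4
    have hx1 : ((o.E : ℤ) : ℝ) < (o.qlo : ℝ) := by
      have := of_decide_eq_true hx
      exact_mod_cast this
    have h5 := (hout t h3 h4).qlo
    have h6 : 0 < w60 * (z t).q := by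
      push_cast at hx1
      linarith
    exact (mul_pos_iff_of_pos_left hw).1 h6
  have hqn : qNeg o = true → ∀ t, 0 ≤ t → t ≤ h → (z t).q < 0 := by
    intro hx t h3 h4
    have hx1 : (o.qhi : ℝ) + ((o.E : ℤ) : ℝ) < 0 := by
      have := of_decide_eq_true hx
      exact_mod_cast this
    have h5 := (hout t h3 h4).qhi
    have h6 : w60 * (z t).q < 0 := by
      push_cast at hx1
      linarith
    by_contra hc
    have := mul_nonneg hw.le (not_lt.1 hc)
    linarith
  have hsn : snPos o = true → ∀ t, 0 ≤ t → t ≤ h → 0 < sin (z t).eta := by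
    intro hx t h3 h4
    have hx1 : ((Out.dT o : ℤ) : ℝ) < (o.glo : ℝ) := by
      have := of_decide_eq_true hx
      exact_mod_cast this
    have h5 := (hout t h3 h4).glo
    have h6 : 0 < w60 * sin (z t).eta := by
      push_cast at hx1
      linarith
    exact (mul_pos_iff_of_pos_left hw).1 h6
  have hxi0 : pPos o = true → (z 0).xi = 0 → ∀ t, 0 < t → t ≤ h → 0 < (z t).xi := by
    intro hx h3 t h4 h5
    obtain ⟨c, hc1, hc2, hc3⟩ := INF_mv dxi h4
    simp only [h3, sub_zero] at hc3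
    rw [hc3, hclp c hc1.le (hc2.le.trans h5)]
    exact mul_pos (hpp hx c hc1.le (hc2.le.trans h5)) h4
  have heta : snPos o = true → 0 < (z 0).eta → (z 0).eta < π → ∀ t, 0 < t → t ≤ h →
      0 < (z t).eta ∧ (z t).eta < π := by
    intro hx h3 h4 t h5 h6
    have hcont : ContinuousOn (fun s => (z s).eta) (Icc 0 t) := fun s _ =>
      (deta s).continuousAt.continuousWithinAt
    constructor
    · by_contra hc
      rw [not_lt] at hc
      obtain ⟨s, hs1, hs2⟩ := intermediate_value_Icc' h5.le hcont ⟨hc, h3.le⟩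
      have := hsn hx s hs1.1 (hs1.2.trans h6)
      simp only at hs2
      rw [hs2, sin_zero] at this
      exact lt_irrefl _ this
    · by_contra hc
      rw [not_lt] at hc
      obtain ⟨s, hs1, hs2⟩ := intermediate_value_Icc h5.le hcont ⟨h4.le, hc⟩
      have := hsn hx s hs1.1 (hs1.2.trans h6)
      simp only at hs2
      rw [hs2, sin_pi] at this
      exact lt_irrefl _ this
  have hmv : qMov o = true → ∀ t, 0 < t → t ≤ h → |(z t).eta - (z 0).eta| ≤ 3 / 2 := by
    intro hx t h3 h4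
    obtain ⟨c, hc1, hc2, hc3⟩ := INF_mv deta h3
    have hc4 := hc2.le.trans h4
    rw [hc3, hclq c hc1.le hc4, abs_mul, abs_of_pos h3]
    have h5 := (hout c hc1.le hc4).qab
    have h6 : (o.hn : ℝ) * ((o.qn : ℝ) + (o.E : ℝ)) ≤ 3 * 2 ^ 119 := by
      have h7 : o.hn * (o.qn + o.E) ≤ 3 * Nat.pow 2 119 := Nat.le_of_ble_eq_true hx
      have h8 : ((o.hn * (o.qn + o.E) : ℕ) : ℝ) ≤ ((3 * Nat.pow 2 119 : ℕ) : ℝ) :=
        Nat.cast_le.2 h7
      have h9 : ((3 * Nat.pow 2 119 : ℕ) : ℝ) = 3 * 2 ^ 119 := by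
        push_cast
        norm_num [Nat.pow_eq]
      rw [h9] at h8
      push_cast at h8
      exact h8
    have h7 : (w60 * |(z c).q|) * (w60 * t) ≤ ((o.qn : ℝ) + (o.E : ℝ)) * (o.hn : ℝ) := by
      refine mul_le_mul h5 ?_ (by positivity) (by positivity)
      exact (mul_le_mul_of_nonneg_left h4 hw.le).trans hh'
    have h8 : w60 ^ 2 * (|(z c).q| * t) ≤ 3 * 2 ^ 119 := by
      calc w60 ^ 2 * (|(z c).q| * t) = (w60 * |(z c).q|) * (w60 * t) := by ring
        _ ≤ _ := h7
        _ = (o.hn : ℝ) * ((o.qn : ℝ) + (o.E : ℝ)) := by ring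
        _ ≤ _ := h6
    have h9 : w60 ^ 2 = 2 ^ 120 := by
      unfold w60
      norm_num
    rw [h9] at h8
    norm_num at h8 ⊢
    linarith
  have hpi := pi_gt_three
  refine ⟨?_, ?_, fun t h3 h4 => (hout t h3 h4).bd⟩
  · intro t h3 h4
    obtain ⟨_, h0⟩ := h0
    rcases src with _ | _ | _ | _ | n
    · have h5 : (pPos o && snPos o) = true := h1
      rw [Bool.and_eq_true] at h5
      obtain ⟨a1, a2, a3, -, -, -⟩ := h0
      exact ⟨hxi0 h5.1 a1 t h3 h4, heta h5.2 a2 a3 t h3 h4⟩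
    · have h5 : (xiPos o && (qNeg o && qMov o)) = true := h1
      rw [Bool.and_eq_true, Bool.and_eq_true] at h5
      obtain ⟨a1, a2, -, -, -⟩ := h0
      have h6 := hmv h5.2.2 t h3 h4
      obtain ⟨c, hc1, hc2, hc3⟩ := INF_mv deta h3
      rw [hclq c hc1.le (hc2.le.trans h4)] at hc3
      have h7 := hqn h5.2.1 c hc1.le (hc2.le.trans h4)
      have h8 : (z c).q * t < 0 := mul_neg_of_neg_of_pos h7 h3
      have h9 := (abs_le.1 h6).1
      exact ⟨hxi h5.1 t h3 h4, by linarith, by linarith⟩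
    · have h5 : (xiPos o && (qPos o && qMov o)) = true := h1
      rw [Bool.and_eq_true, Bool.and_eq_true] at h5
      obtain ⟨a1, a2, -, -, -⟩ := h0
      have h6 := hmv h5.2.2 t h3 h4
      obtain ⟨c, hc1, hc2, hc3⟩ := INF_mv deta h3
      rw [hclq c hc1.le (hc2.le.trans h4)] at hc3
      have h7 := hqp h5.2.1 c hc1.le (hc2.le.trans h4)
      have h8 : 0 < (z c).q * t := mul_pos h7 h3
      have h9 := (abs_le.1 h6).2
      exact ⟨hxi h5.1 t h3 h4, by linarith, by linarith⟩
    · have h5 : (xiPos o && snPos o) = true := h1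
      rw [Bool.and_eq_true] at h5
      obtain ⟨-, a2, a3, -, -, -⟩ := h0
      exact ⟨hxi h5.1 t h3 h4, heta h5.2 a2 a3 t h3 h4⟩
    · have h5 : (pPos o && (qPos o && qMov o)) = true := h1
      rw [Bool.and_eq_true, Bool.and_eq_true] at h5
      obtain ⟨a1, a2, -, -, -⟩ := h0
      have h6 := hmv h5.2.2 t h3 h4
      obtain ⟨c, hc1, hc2, hc3⟩ := INF_mv deta h3
      rw [hclq c hc1.le (hc2.le.trans h4)] at hc3
      have h7 := hqp h5.2.1 c hc1.le (hc2.le.trans h4)
      have h8 : 0 < (z c).q * t := mul_pos h7 h3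
      have h9 := (abs_le.1 h6).2
      exact ⟨hxi0 h5.1 a1 t h3 h4, by linarith, by linarith⟩
  · intro t h3 h4 ht ⟨hk, hq⟩
    subst ht
    have h5 : (decide (kap + (Out.dT o : Int) < o.klo) ||
      (decide (o.khi + (Out.dT o : Int) < kap) || qPos o)) = true := h2
    rw [Bool.or_eq_true, Bool.or_eq_true, decide_eq_true_eq, decide_eq_true_eq] at h5
    have hO := hout t h3 h4
    have hk' : w60 * cos (z t).eta = kap := by
      rw [hk]
      field_simp
    rcases h5 with h5 | h5 | h5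
    · have h6 : (kap : ℝ) + ((Out.dT o : ℤ) : ℝ) < (o.klo : ℝ) := by exact_mod_cast h5
      push_cast at h6
      have := hO.klo
      linarith
    · have h6 : (o.khi : ℝ) + ((Out.dT o : ℤ) : ℝ) < (kap : ℝ) := by exact_mod_cast h5
      push_cast at h6
      have := hO.khi
      linarith
    · have := hqp h5 t h3 h4
      linarith

end Pool.Agent.Ecl
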