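import Pool.Agent.Lib_helper51.Ecl.SVDefs
import Pool.Agent.Lib_helper51.EclS.AFFA
import Pool.Agent.Lib_helper51.EclS.CTXBA
import Pool.Agent.Lib_helper51.EclS.CTXCA
import Pool.Agent.Lib_helper51.EclS.ENEA
import Pool.Agent.Lib_helper51.EclS.MULA
import Pool.Agent.Lib_helper51.EclS.REEA
import Pool.Agent.Lib_helper51.EclS.UVTA
import Pool.Agent.Lib_helper51.EclS.VALAA
import Pool.Agent.Lib_helper51.EclS.VALBA

set_option autoImplicit false

namespace Pool.Agent.Ecl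

open Real Polynomial K Set

theorem INI_w60_pos : (0 : ℝ) < w60 := by
  unfold w60; positivity

theorem INI_cond {b x : Bool} (h : cond b x false = true) : b = true ∧ x = true := by
  cases b <;> simp_all

/-- square root lemma -/
theorem INI_sqrt {n Y U e : ℝ} (hn : 0 < n) (h1 : |Y ^ 2 + n ^ 2 - U| ≤ n ^ 2 / 2)
    (h2 : |Y ^ 2 + n ^ 2 - U| ≤ e * n) :
    0 < sqrt (U - Y ^ 2) ∧ Y ^ 2 + sqrt (U - Y ^ 2) ^ 2 = U ∧ |n - sqrt (U - Y ^ 2)| ≤ e := by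
  have hpos : 0 < U - Y ^ 2 := by
    have := (abs_le.1 h1).2
    nlinarith [sq_nonneg n, mul_pos hn hn]
  have hr : 0 < sqrt (U - Y ^ 2) := sqrt_pos.2 hpos
  have hs : sqrt (U - Y ^ 2) ^ 2 = U - Y ^ 2 := sq_sqrt hpos.le
  refine ⟨hr, by rw [hs]; ring, ?_⟩
  have hprod : |n - sqrt (U - Y ^ 2)| * (n + sqrt (U - Y ^ 2)) ≤ e * n := by
    have e1 : |n - sqrt (U - Y ^ 2)| * (n + sqrt (U - Y ^ 2)) =
        |(n - sqrt (U - Y ^ 2)) * (n + sqrt (U - Y ^ 2))| := by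
      rw [abs_mul, abs_of_pos (by linarith : 0 < n + sqrt (U - Y ^ 2))]
    have e2 : (n - sqrt (U - Y ^ 2)) * (n + sqrt (U - Y ^ 2)) = Y ^ 2 + n ^ 2 - U := by
      ring_nf
      rw [hs]; ring
    rw [e1, e2]; exact h2
  have h3 : |n - sqrt (U - Y ^ 2)| * n ≤ e * n := by
    refine le_trans ?_ hprod
    exact mul_le_mul_of_nonneg_left (by linarith) (abs_nonneg _)
  exact le_of_mul_le_mul_right h3 hn

theorem INI_aff0 : affY ctx0 0 0 0 = ctx0.O := by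
  unfold affY
  simp only [fInt_eq, imul_eq, iadd_eq]
  generalize ctx0.O = O
  generalize Nat.pow 2 2720 = a
  generalize Nat.pow 2 160 = b
  simp

theorem INI_nul : Msk ctx0.O ∧ ∀ u v : ℝ, pv ctx0.O u v = 0 := by
  have h := affY_spec (x0 := 0) (x1 := 0) (x2 := 0) (by decide) (by decide) (by decide)
  rw [INI_aff0] at h
  refine ⟨h.1, fun u v => ?_⟩
  rw [h.2 u v]; simp

theorem INI_i60 : ((i60 : ℤ) : ℝ) = w60 := by
  unfold i60 n60 w60
  norm_num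

theorem INI_i60' : (i60 : ℤ) = 2 ^ 60 := by
  unfold i60 n60
  simp

theorem INI_one : Msk (affY ctx0 i60 0 0) ∧ ∀ u v : ℝ, pv (affY ctx0 i60 0 0) u v = 1 := by
  have h := affY_spec (x0 := i60) (x1 := 0) (x2 := 0) (by decide) (by decide) (by decide)
  refine ⟨h.1, fun u v => ?_⟩
  rw [h.2 u v, INI_i60]
  simp [INI_w60_pos.ne']

theorem INI_mone : Msk (affY ctx0 (-i60) 0 0) ∧
    ∀ u v : ℝ, pv (affY ctx0 (-i60) 0 0) u v = -1 := by
  have h := affY_spec (x0 := -i60) (x1 := 0) (x2 := 0) (by decide) (by decide) (by decide)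
  refine ⟨h.1, fun u v => ?_⟩
  rw [h.2 u v]
  push_cast
  rw [INI_i60]
  simp [INI_w60_pos.ne', neg_div]

theorem INI_w60_eval : (w60 : ℝ) = ((2 ^ 60 : ℤ) : ℝ) := by
  unfold w60; norm_num

/-- the relation polynomial: difference of two squares plus a constant -/
theorem INI_rel {XX AA : TM} {qX qA : ℤ[X]} {a x : ℝ} {u v : ℝ}
    (hX : |val qX u v 0 - w60 * (x * x)| ≤ XX.e) (hA : |val qA u v 0 - w60 * (a * a)| ≤ AA.e) :
    |w60 * (a ^ 2 - (1 - x ^ 2)) - val (qA + qX - C (2 ^ 60)) u v 0| ≤ ((AA.e + XX.e : ℕ) : ℝ) ∧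
    |w60 * (a ^ 2 - (x ^ 2 - 1)) - val (qA - qX + C (2 ^ 60)) u v 0| ≤
      ((AA.e + XX.e : ℕ) : ℝ) := by
  have h1 := abs_le.1 hX
  have h2 := abs_le.1 hA
  rw [val_sub, val_add, val_add, val_sub, val_C, ← INI_w60_eval]
  push_cast
  constructor
  · rw [abs_le]; constructor <;> nlinarith [h1.1, h1.2, h2.1, h2.2]
  · rw [abs_le]; constructor <;> nlinarith [h1.1, h1.2, h2.1, h2.2]

theorem INI_coeff {XX AA : ℤ} {qX qA : ℤ[X]} (hX : Rep 0 (2 ^ 68) XX qX)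
    (hA : Rep 0 (2 ^ 68) AA qA) :
    (qA + qX - C (2 ^ 60)).eval (2 ^ 160) = AA + XX - i60 ∧
    (∀ n, |(qA + qX - C (2 ^ 60)).coeff n| < 2 ^ 158) ∧
    (qA - qX + C (2 ^ 60)).eval (2 ^ 160) = AA - XX + i60 ∧
    (∀ n, |(qA - qX + C (2 ^ 60)).coeff n| < 2 ^ 158) := by
  have hc : ∀ n, |(C (2 ^ 60) : ℤ[X]).coeff n| ≤ 2 ^ 60 := by
    intro n
    rw [coeff_C]
    split_ifs
    · simp
    · simp
  refine ⟨?_, ?_, ?_, ?_⟩
  · rw [eval_sub, eval_add, hX.ev, hA.ev, eval_C, INI_i60']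
  · intro n
    have h1 := abs_le.1 (hX.bd n)
    have h2 := abs_le.1 (hA.bd n)
    have h3 := abs_le.1 (hc n)
    rw [coeff_sub, coeff_add, abs_lt]
    constructor <;> linarith [h1.1, h1.2, h2.1, h2.2, h3.1, h3.2]
  · rw [eval_add, eval_sub, hX.ev, hA.ev, eval_C, INI_i60']
  · intro n
    have h1 := abs_le.1 (hX.bd n)
    have h2 := abs_le.1 (hA.bd n)
    have h3 := abs_le.1 (hc n)
    rw [coeff_add, coeff_sub, abs_lt]
    constructor <;> linarith [h1.1, h1.2, h2.1, h2.2, h3.1, h3.2]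

theorem INI_xi {X : ℝ} (hX : 0 < X) (hD : 0 < X ^ 2 - 1) :
    ∃ ξ : ℝ, 0 < ξ ∧ cosh ξ = X ∧ sinh ξ = sqrt (X ^ 2 - 1) := by
  refine ⟨arsinh (sqrt (X ^ 2 - 1)), ?_, ?_, sinh_arsinh _⟩
  · rw [arsinh_pos_iff]; exact sqrt_pos.2 hD
  · rw [cosh_arsinh, sq_sqrt hD.le]
    rw [show 1 + (X ^ 2 - 1) = X ^ 2 by ring]
    exact sqrt_sq hX.le

theorem INI_eta {X : ℝ} (hD : 0 < 1 - X ^ 2) :
    ∃ η : ℝ, 0 < η ∧ η < π ∧ cos η = X ∧ sin η = sqrt (1 - X ^ 2) := by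
  have h1 : -1 < X := by nlinarith
  have h2 : X < 1 := by nlinarith
  refine ⟨arccos X, arccos_pos.2 h2, ?_, cos_arccos h1.le h2.le, sin_arccos X⟩
  refine lt_of_le_of_ne (arccos_le_pi X) ?_
  intro h
  rw [arccos_eq_pi] at h
  linarith

/-- the state is near -/
theorem INI_near {c s k g p q eh et E : ℝ} {x : St}
    (hc : c = cosh x.xi) (hs : |s - sinh x.xi| ≤ eh) (hk : k = cos x.eta)
    (hg : |g - sin x.eta| ≤ et) (hE : (x.p = p ∧ |q - x.q| ≤ E) ∨ (x.q = q ∧ |p - x.p| ≤ E)) :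
    Near c s k g p q eh et E ((16 : ℕ) / 16) x := by
  refine ⟨x.xi, x.eta, ?_, ?_, ?_, ?_⟩
  · rw [← cosh_add_sinh, hc]
    rw [show cosh x.xi + s - (cosh x.xi + sinh x.xi) = s - sinh x.xi by ring]
    exact hs
  · rw [← cosh_sub_sinh, hc]
    rw [show cosh x.xi - s - (cosh x.xi - sinh x.xi) = -(s - sinh x.xi) by ring, abs_neg]
    exact hs
  · rw [hk]
    have : (g - sin x.eta) ^ 2 ≤ et ^ 2 := sq_le_sq' (by linarith [(abs_le.1 hg).1])
      (abs_le.1 hg).2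
    linarith
  · rcases hE with ⟨h1, h2⟩ | ⟨h1, h2⟩
    · have : (q - x.q) ^ 2 ≤ E ^ 2 := sq_le_sq' (by linarith [(abs_le.1 h2).1])
        (abs_le.1 h2).2
      rw [h1]
      nlinarith [this]
    · have : (p - x.p) ^ 2 ≤ E ^ 2 := sq_le_sq' (by linarith [(abs_le.1 h2).1])
        (abs_le.1 h2).2
      rw [h1]
      nlinarith [this]

theorem INI_kg {kap gam : ℤ} (hg : 0 < gam)
    (hr : ((Int.natAbs (kap * kap + gam * gam - i60 * i60) : ℕ) : ℤ) * 2 ≤ gam * gam) :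
    0 < 1 - ((kap : ℝ) / w60) ^ 2 ∧ |(gam : ℝ) / w60 - sqrt (1 - ((kap : ℝ) / w60) ^ 2)| ≤
      ((Int.natAbs (kap * kap + gam * gam - i60 * i60) / Int.toNat gam + 1 : ℕ) : ℝ) / w60 := by
  have hw := INI_w60_pos
  set r : ℕ := Int.natAbs (kap * kap + gam * gam - i60 * i60) with hr0
  have hrr : (r : ℝ) = |(kap : ℝ) * kap + gam * gam - w60 * w60| := by
    rw [hr0, ← INI_i60, Nat.cast_natAbs]
    push_cast
    rfl
  have hr' : (r : ℝ) * 2 ≤ gam * gam := by exact_mod_cast hr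
  have hgp : (0 : ℝ) < gam := by exact_mod_cast hg
  have hb := INI_sqrt (n := (gam : ℝ) / w60) (Y := (kap : ℝ) / w60) (U := 1)
    (e := (r : ℝ) / gam / w60) (by positivity) (by
      have e1 : ((kap : ℝ) / w60) ^ 2 + (gam / w60) ^ 2 - 1 =
          ((kap : ℝ) * kap + gam * gam - w60 * w60) / (w60 * w60) := by
        field_simp
      rw [e1, abs_div, ← hrr, abs_of_pos (mul_pos hw hw), div_le_iff₀ (mul_pos hw hw)]
      have e2 : ((gam : ℝ) / w60) ^ 2 / 2 * (w60 * w60) = gam * gam / 2 := by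
        field_simp
      rw [e2]; linarith) (by
      have e1 : ((kap : ℝ) / w60) ^ 2 + (gam / w60) ^ 2 - 1 =
          ((kap : ℝ) * kap + gam * gam - w60 * w60) / (w60 * w60) := by
        field_simp
      rw [e1, abs_div, ← hrr, abs_of_pos (mul_pos hw hw)]
      apply le_of_eq
      field_simp)
  obtain ⟨h1, -, h3⟩ := hb
  refine ⟨sqrt_pos.1 h1, h3.trans ?_⟩
  gcongr
  -- r / gam ≤ r / toNat gam + 1
  have ht : ((Int.toNat gam : ℕ) : ℝ) = gam := by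
    have : ((Int.toNat gam : ℕ) : ℤ) = gam := Int.toNat_of_nonneg hg.le
    exact_mod_cast this
  have htp : 0 < Int.toNat gam := by omega
  rw [← ht, div_le_iff₀ (by exact_mod_cast htp)]
  have := Nat.lt_div_mul_add (a := r) htp
  have h4 : r ≤ (r / Int.toNat gam + 1) * Int.toNat gam := by
    rw [add_mul, one_mul]; exact this.le
  exact_mod_cast h4

theorem init_sound_pr {src : ℕ} {kap gam x0 x1 x2 y0 y1 y2 : ℤ} {A N : List (List ℕ)}
    {k : Sta → Bool} (h : K.init ctx0 false src kap gam x0 x1 x2 y0 y1 y2 A N k = true) :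
    ∃ S : Sta, k S = true ∧ StaMsk S ∧ ∀ u v : ℝ, |u| ≤ 1 → |v| ≤ 1 → ∃ x : St,
      OnSec src (kap / w60) ((x0 + u * x1 + v * x2) / w60) ((y0 + u * y1 + v * y2) / w60) x ∧
      StaOK S u v x := by
  have hw := INI_w60_pos
  unfold K.init at h
  simp only [fNat_eq] at h
  obtain ⟨hc, h⟩ := INI_cond h
  simp only [Bool.and_eq_true] at hc
  obtain ⟨sx0, sx1, sx2, sy0, sy1, sy2, skap, sgam, hAm, hNm⟩ := hc
  have hAm : Msk (packRR A) := Nat.eq_of_beq_eq_true hAm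
  have hNm : Msk (packRR N) := Nat.eq_of_beq_eq_true hNm
  obtain ⟨hXm, hXv⟩ := affY_spec sx0 sx1 sx2
  obtain ⟨hYm, hYv⟩ := affY_spec sy0 sy1 sy2
  obtain ⟨h1m, h1v⟩ := INI_one
  obtain ⟨hm1m, hm1v⟩ := INI_mone
  obtain ⟨h0m, h0v⟩ := INI_nul
  obtain ⟨tX, h, eX, rX, tmX⟩ := uvTM_spec ctx0_ok hXm h
  obtain ⟨tA, h, eA, rA, tmA⟩ := uvTM_spec ctx0_ok hAm h
  obtain ⟨XX, qX, h, rXX, tmXX⟩ := mulTM_spec ctx0_ok (by norm_num) h tmX tmX
  obtain ⟨AA, qA, h, rAA, tmAA⟩ := mulTM_spec ctx0_ok (by norm_num) h tmA tmA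
  obtain ⟨hc, h⟩ := INI_cond h
  simp only [Bool.or_eq_true, decide_eq_true_eq] at hc
  obtain ⟨ev1, bd1, ev2, bd2⟩ := INI_coeff rXX rAA
  -- positivity of X
  have hXpos : src ≠ 0 → ∀ u v : ℝ, |u| ≤ 1 → |v| ≤ 1 →
      0 < pv (affY ctx0 x0 x1 x2) u v := by
    intro hs u v hu hv
    rcases hc with hc | hc
    · exact absurd (Nat.eq_of_beq_eq_true hc) hs
    · have h1 := lo_le_val (dpoly (affY ctx0 x0 x1 x2)) tmX.nr hu hv le_rfl zero_le_one
      rw [dpoly_coeff0] at h1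
      have h2 : (0 : ℝ) < (lo (cd (affY ctx0 x0 x1 x2)) tX.nr : ℝ) := by exact_mod_cast hc
      unfold pv
      exact div_pos (lt_of_lt_of_le h2 h1.1) hw
  have hrel : ∀ u v : ℝ, |u| ≤ 1 → |v| ≤ 1 → _ := fun u v hu hv =>
    INI_rel (XX := XX) (AA := AA) (qX := qX) (qA := qA) (u := u) (v := v)
      (tmXX.er u v 0 hu hv le_rfl zero_le_one) (tmAA.er u v 0 hu hv le_rfl zero_le_one)
  obtain _ | _ | _ | _ | n := src
  · simp only [iadd_eq, isub_eq] at h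
    obtain ⟨r, h, hr⟩ := relErr_spec h ev1 bd1 tmA
    obtain ⟨E, h, hM, hE⟩ := energy_spec h hNm
    refine ⟨_, h, hM, fun u v hu hv => ?_⟩
    obtain ⟨a1, a2, a3⟩ := hr u v hu hv (1 - pv (affY ctx0 x0 x1 x2) u v ^ 2)
      (hrel u v hu hv).1
    obtain ⟨η, b1, b2, b3, b4⟩ := INI_eta a2
    obtain ⟨c1, c2, c3⟩ := hE u v hu hv 0 η (by rw [h1v, cosh_zero])
      (by rw [h0v, sinh_zero]; simp) b3.symm (by rw [b4]; exact a3)
    rw [add_comm] at c2 c3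
    obtain ⟨d1, d2, d3⟩ := INI_sqrt c1 c2 c3
    refine ⟨⟨0, η, sqrt (U2 0 η - pv (affY ctx0 y0 y1 y2) u v ^ 2),
      pv (affY ctx0 y0 y1 y2) u v⟩, ⟨?_, ?_⟩, ?_⟩
    · simp only; linarith
    · refine ⟨rfl, b1, b2, ?_, ?_, d1⟩
      · simp only; rw [b3, hXv]
      · simp only; rw [hYv]
    · unfold StaOK
      refine INI_near ?_ ?_ b3.symm ?_ (Or.inr ⟨rfl, d3⟩)
      · simp only; rw [h1v, cosh_zero]
      · simp only; rw [h0v, sinh_zero]; simp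
      · simp only; rw [b4]; exact a3
  · simp only [iadd_eq, isub_eq] at h
    obtain ⟨r, h, hr⟩ := relErr_spec h ev2 bd2 tmA
    obtain ⟨E, h, hM, hE⟩ := energy_spec h hNm
    refine ⟨_, h, hM, fun u v hu hv => ?_⟩
    obtain ⟨a1, a2, a3⟩ := hr u v hu hv (pv (affY ctx0 x0 x1 x2) u v ^ 2 - 1)
      (hrel u v hu hv).2
    obtain ⟨ξ, b1, b2, b3⟩ := INI_xi (hXpos (by norm_num) u v hu hv) a2
    obtain ⟨c1, c2, c3⟩ := hE u v hu hv ξ π b2.symm (by rw [b3]; exact a3)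
      (by rw [hm1v, cos_pi]) (by rw [h0v, sin_pi]; simp)
    have hneg := neg_spec hNm hM.q u v
    rw [hneg, neg_sq] at c2 c3
    obtain ⟨d1, d2, d3⟩ := INI_sqrt c1 c2 c3
    refine ⟨⟨ξ, π, pv (affY ctx0 y0 y1 y2) u v,
      -sqrt (U2 ξ π - pv (affY ctx0 y0 y1 y2) u v ^ 2)⟩, ⟨?_, ?_⟩, ?_⟩
    · simp only; rw [neg_sq]; linarith
    · refine ⟨rfl, b1, ?_, ?_, ?_⟩
      · simp only; rw [b2, hXv]
      · simp only; rw [hYv]
      · simp only; linarith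
    · unfold StaOK
      refine INI_near b2.symm ?_ ?_ ?_ (Or.inl ⟨rfl, ?_⟩)
      · simp only; rw [b3]; exact a3
      · simp only; rw [hm1v, cos_pi]
      · simp only; rw [h0v, sin_pi]; simp
      · simp only
        rw [hneg, show -pv (packRR N) u v - -sqrt (U2 ξ π - pv (affY ctx0 y0 y1 y2) u v ^ 2) =
          -(pv (packRR N) u v - sqrt (U2 ξ π - pv (affY ctx0 y0 y1 y2) u v ^ 2)) by ring, abs_neg]
        exact d3
  · simp only [iadd_eq, isub_eq] at h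
    obtain ⟨r, h, hr⟩ := relErr_spec h ev2 bd2 tmA
    obtain ⟨E, h, hM, hE⟩ := energy_spec h hNm
    refine ⟨_, h, hM, fun u v hu hv => ?_⟩
    obtain ⟨a1, a2, a3⟩ := hr u v hu hv (pv (affY ctx0 x0 x1 x2) u v ^ 2 - 1)
      (hrel u v hu hv).2
    obtain ⟨ξ, b1, b2, b3⟩ := INI_xi (hXpos (by norm_num) u v hu hv) a2
    obtain ⟨c1, c2, c3⟩ := hE u v hu hv ξ 0 b2.symm (by rw [b3]; exact a3)
      (by rw [h1v, cos_zero]) (by rw [h0v, sin_zero]; simp)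
    obtain ⟨d1, d2, d3⟩ := INI_sqrt c1 c2 c3
    refine ⟨⟨ξ, 0, pv (affY ctx0 y0 y1 y2) u v,
      sqrt (U2 ξ 0 - pv (affY ctx0 y0 y1 y2) u v ^ 2)⟩, ⟨?_, ?_⟩, ?_⟩
    · simp only; linarith
    · refine ⟨rfl, b1, ?_, ?_, d1⟩
      · simp only; rw [b2, hXv]
      · simp only; rw [hYv]
    · unfold StaOK
      refine INI_near b2.symm ?_ ?_ ?_ (Or.inl ⟨rfl, d3⟩)
      · simp only; rw [b3]; exact a3
      · simp only; rw [h1v, cos_zero]
      · simp only; rw [h0v, sin_zero]; simp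
  · simp only [iadd_eq, isub_eq] at h
    obtain ⟨r, h, hr⟩ := relErr_spec h ev2 bd2 tmA
    obtain ⟨hkg, h⟩ := INI_cond h
    simp only [Bool.and_eq_true, decide_eq_true_eq] at hkg
    obtain ⟨E, h, hM, hE⟩ := energy_spec h hNm
    obtain ⟨e1, e2⟩ := INI_kg hkg.1 hkg.2
    obtain ⟨hkm, hkv⟩ := affY_spec (x0 := kap) (x1 := 0) (x2 := 0) skap (by decide) (by decide)
    obtain ⟨hgm, hgv⟩ := affY_spec (x0 := gam) (x1 := 0) (x2 := 0) sgam (by decide) (by decide)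
    refine ⟨_, h, hM, fun u v hu hv => ?_⟩
    obtain ⟨a1, a2, a3⟩ := hr u v hu hv (pv (affY ctx0 x0 x1 x2) u v ^ 2 - 1)
      (hrel u v hu hv).2
    obtain ⟨ξ, b1, b2, b3⟩ := INI_xi (hXpos (by norm_num) u v hu hv) a2
    obtain ⟨η, g1, g2, g3, g4⟩ := INI_eta e1
    have hkv' : pv (affY ctx0 kap 0 0) u v = kap / w60 := by rw [hkv u v]; simp
    have hgv' : pv (affY ctx0 gam 0 0) u v = gam / w60 := by rw [hgv u v]; simp
    obtain ⟨c1, c2, c3⟩ := hE u v hu hv ξ η b2.symm (by rw [b3]; exact a3)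
      (by rw [hkv', g3]) (by rw [hgv', g4]; exact e2)
    have hneg := neg_spec hNm hM.q u v
    rw [hneg, neg_sq] at c2 c3
    obtain ⟨d1, d2, d3⟩ := INI_sqrt c1 c2 c3
    refine ⟨⟨ξ, η, pv (affY ctx0 y0 y1 y2) u v,
      -sqrt (U2 ξ η - pv (affY ctx0 y0 y1 y2) u v ^ 2)⟩, ⟨?_, ?_⟩, ?_⟩
    · simp only; rw [neg_sq]; linarith
    · refine ⟨g3, g1, g2, b1, ?_, ?_, ?_⟩
      · simp only; rw [b2, hXv]
      · simp only; rw [hYv]
      · simp only; linarith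
    · unfold StaOK
      refine INI_near b2.symm ?_ ?_ ?_ (Or.inl ⟨rfl, ?_⟩)
      · simp only; rw [b3]; exact a3
      · simp only; rw [hkv', g3]
      · simp only; rw [hgv', g4]; exact e2
      · simp only
        rw [hneg, show -pv (packRR N) u v - -sqrt (U2 ξ η - pv (affY ctx0 y0 y1 y2) u v ^ 2) =
          -(pv (packRR N) u v - sqrt (U2 ξ η - pv (affY ctx0 y0 y1 y2) u v ^ 2)) by ring, abs_neg]
        exact d3
  · obtain ⟨E, h, hM, hE⟩ := energy_spec h hNm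
    refine ⟨_, h, hM, fun u v hu hv => ?_⟩
    obtain ⟨c1, c2, c3⟩ := hE u v hu hv 0 0 (by rw [h1v, cosh_zero])
      (by rw [h0v, sinh_zero]; simp) (by rw [h1v, cos_zero]) (by rw [h0v, sin_zero]; simp)
    obtain ⟨d1, d2, d3⟩ := INI_sqrt c1 c2 c3
    refine ⟨⟨0, 0, pv (affY ctx0 x0 x1 x2) u v,
      sqrt (U2 0 0 - pv (affY ctx0 x0 x1 x2) u v ^ 2)⟩, ⟨?_, ?_⟩, ?_⟩
    · simp only; linarith
    · refine ⟨rfl, rfl, ?_, ?_, d1⟩
      · simp only; rw [hXv]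
      · exact hXpos (by omega) u v hu hv
    · unfold StaOK
      refine INI_near ?_ ?_ ?_ ?_ (Or.inl ⟨rfl, d3⟩)
      · simp only; rw [h1v, cosh_zero]
      · simp only; rw [h0v, sinh_zero]; simp
      · simp only; rw [h1v, cos_zero]
      · simp only; rw [h0v, sin_zero]; simp

end Pool.Agent.Ecl
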