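import Pool.Agent.Lib_helper51.Ecl.SVDefs

set_option autoImplicit false

namespace Pool.Agent.Ecl

open Real Polynomial K Set

theorem INS_w60 : 0 < w60 := by unfold w60; positivity

theorem INS_xi {o : Out} {S' : Sta} {u v h τ : ℝ} {x : St} (h1 : xiPos o = true)
    (hs : OutOK o S' u v h τ x) : 0 < x.xi := by
  have h2 : ((Out.dH o : ℕ) : ℤ) < o.slo := by
    unfold xiPos at h1
    exact of_decide_eq_true h1
  have h3 : ((Out.dH o : ℕ) : ℝ) < (o.slo : ℝ) := by exact_mod_cast h2
  have h4 := hs.slo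
  have h5 : 0 < w60 * sinh x.xi := by linarith
  have h6 : 0 < sinh x.xi := by
    rcases pos_and_pos_or_neg_and_neg_of_mul_pos h5 with h | h
    · exact h.2
    · exact absurd h.1 (not_lt.2 INS_w60.le)
  exact Real.sinh_pos_iff.1 h6

theorem INS_sn {o : Out} {S' : Sta} {u v h τ : ℝ} {x : St} (h1 : snPos o = true)
    (hs : OutOK o S' u v h τ x) : 0 < sin x.eta := by
  have h2 : ((Out.dT o : ℕ) : ℤ) < o.glo := by
    unfold snPos at h1
    exact of_decide_eq_true h1
  have h3 : ((Out.dT o : ℕ) : ℝ) < (o.glo : ℝ) := by exact_mod_cast h2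
  have h4 := hs.glo
  have h5 : 0 < w60 * sin x.eta := by linarith
  rcases pos_and_pos_or_neg_and_neg_of_mul_pos h5 with h | h
  · exact h.2
  · exact absurd h.1 (not_lt.2 INS_w60.le)

theorem INS_nos {tgt : ℕ} {kap : ℤ} {o : Out} {S' : Sta} {u v h τ : ℝ} {x : St}
    (h2 : noSec tgt kap o = true) (hs : OutOK o S' u v h τ x) :
    NoSec tgt (kap / w60) x := by
  intro ht hx
  subst ht
  obtain ⟨hx1, hx2⟩ := hx
  have hw := INS_w60
  have h3 : w60 * cos x.eta = kap := by
    rw [hx1]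
    field_simp
  unfold noSec at h2
  simp only [Bool.or_eq_true, decide_eq_true_eq] at h2
  rcases h2 with h2 | h2 | h2
  · have h4 : (kap : ℝ) + (Out.dT o : ℝ) < (o.klo : ℝ) := by exact_mod_cast h2
    have := hs.klo
    linarith
  · have h4 : (o.khi : ℝ) + (Out.dT o : ℝ) < (kap : ℝ) := by exact_mod_cast h2
    have := hs.khi
    linarith
  · unfold qPos at h2
    have h3 : ((o.E : ℕ) : ℤ) < o.qlo := of_decide_eq_true h2
    have h4 : (o.E : ℝ) < (o.qlo : ℝ) := by exact_mod_cast h3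
    have h5 := hs.qlo
    have h6 : 0 < w60 * x.q := by linarith
    have h7 : w60 * x.q ≤ 0 := mul_nonpos_of_nonneg_of_nonpos hw.le hx2
    linarith

/-- a continuous function with positive sine stays in `(0, π)` -/
theorem INS_strip {f : ℝ → ℝ} (hf : Continuous f) {a b : ℝ} (h0 : 0 < f a) (hπ : f a < π)
    (hs : ∀ t, a ≤ t → t ≤ b → 0 < sin (f t)) : ∀ t, a ≤ t → t ≤ b → 0 < f t ∧ f t < π := by
  intro t hat htb
  constructor
  · by_contra hn
    obtain ⟨s, hs1, hs2⟩ := intermediate_value_Icc' hat hf.continuousOn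
      (⟨not_lt.1 hn, h0.le⟩ : (0 : ℝ) ∈ Icc (f t) (f a))
    have := hs s hs1.1 (hs1.2.trans htb)
    rw [hs2, Real.sin_zero] at this
    exact lt_irrefl _ this
  · by_contra hn
    obtain ⟨s, hs1, hs2⟩ := intermediate_value_Icc hat hf.continuousOn
      (⟨hπ.le, not_lt.1 hn⟩ : π ∈ Icc (f a) (f t))
    have := hs s hs1.1 (hs1.2.trans htb)
    rw [hs2, Real.sin_pi] at this
    exact lt_irrefl _ this

theorem INS_cont {z : ℝ → St} (hz : ClSol z) : Continuous fun t => (z t).eta :=
  continuous_iff_continuousAt.2 fun t => (hz t).2.1.continuousAt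

theorem mid_good_pr {S : Sta} {o : Out} {S' : Sta} {tgt : ℕ} {kap : ℤ}
    (h1 : inMid o = true) (h2 : noSec tgt kap o = true) {u v h a : ℝ} (hh : 0 < h)
    {z : ℝ → St} (hz : ClSol z) (ha : 0 < a) (hs : StepOK o S' u v h z a)
    (hg : Good tgt (kap / w60) z a) : Good tgt (kap / w60) z (a + h) := by
  unfold inMid at h1
  rw [Bool.and_eq_true] at h1
  obtain ⟨hxi, hsn⟩ := h1
  have key : ∀ t, a ≤ t → t ≤ a + h → OutOK o S' u v h (t - a) (z t) := by
    intro t h3 h4
    have := hs.out (t - a) (by linarith) (by linarith)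
    rwa [add_sub_cancel] at this
  have hin := hg.ins a ha le_rfl
  have hstrip := INS_strip (INS_cont hz) hin.2.1 hin.2.2
    (fun t h3 h4 => INS_sn hsn (key t h3 h4))
  refine ⟨fun t h3 h4 => ?_, fun t h3 h4 => ?_, fun t h3 h4 => ?_⟩
  · rcases le_total t a with h5 | h5
    · exact hg.ins t h3 h5
    · exact ⟨INS_xi hxi (key t h5 h4), (hstrip t h5 h4).1, (hstrip t h5 h4).2⟩
  · rcases le_total t a with h5 | h5
    · exact hg.nos t h3 h5
    · exact INS_nos h2 (key t h5 h4)
  · rcases le_total t a with h5 | h5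
    · exact hg.bd t h3 h5
    · exact (key t h5 h4).bd

end Pool.Agent.Ecl
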