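import Pool.Agent.Lib_helper51.Ecl.SVDefs
import Pool.Agent.Lib_helper51.EclS.DIGA
import Pool.Agent.Lib_helper51.EclS.VALBA

/-!
# L1S: the norm computed by the checker
-/

set_option autoImplicit false

namespace Pool.Agent.Ecl

open Real Polynomial K Set

lemma L1S_lnorm (f : ℤ[X]) (h : ∀ n, 0 ≤ f.coeff n) : lnorm f = f.eval 1 := by
  unfold lnorm
  rw [eval_eq_sum, Polynomial.sum_def, Polynomial.sum_def]
  refine Finset.sum_congr rfl fun n _ => ?_
  rw [one_pow, mul_one, abs_of_nonneg (h n)]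

lemma L1S_gen {SG LO : ℕ} (hsg : Nat.land SG LO ≠ SG)
    (lo : ∀ z : ℕ, Nat.land z LO = z → ∃ f : ℤ[X], f.eval (2 ^ 160) = (z : ℤ) ∧
      (∀ n, 0 ≤ f.coeff n ∧ f.coeff n < 2 ^ 146) ∧ f.eval 1 = ((z % (2 ^ 160 - 1) : ℕ) : ℤ))
    {R : ℤ} {k : ℕ → Bool} (h : l1g SG LO false R k = true) :
    ∃ r : ℕ, k r = true ∧ ∀ f : ℤ[X], f.eval (2 ^ 160) = R →
      (∀ n, |f.coeff n| < 2 ^ 158) → lnorm f ≤ r := by
  unfold l1g at h
  simp only [sh_eq, fNat_eq] at h
  set x : ℕ := Int.toNat (Int.add R (Int.ofNat SG)) with hx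
  set P : ℕ := posD SG x with hP
  set M : ℕ := negD SG x P with hM
  cases hchk : l1chk SG LO x P M with
  | false =>
    rw [hchk] at h
    exact absurd h (by simp)
  | true =>
    rw [hchk] at h
    have hk : k (l1sum P M) = true := h
    unfold l1chk at hchk
    rw [Bool.and_eq_true, Bool.and_eq_true] at hchk
    obtain ⟨h1, h2, h3⟩ := hchk
    have h1' : x + M = P + SG := Nat.eq_of_beq_eq_true h1
    have h2' : Nat.land P LO = P := Nat.eq_of_beq_eq_true h2
    have h3' : Nat.land M LO = M := Nat.eq_of_beq_eq_true h3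
    refine ⟨l1sum P M, hk, ?_⟩
    intro f hf hfb
    -- the sign
    have hR : 0 ≤ R + (SG : ℤ) := by
      by_contra hneg
      have hx0 : x = 0 := by
        rw [hx]
        exact Int.toNat_of_nonpos (le_of_lt (not_le.1 hneg))
      have hP0 : P = 0 := by
        rw [hP, hx0]
        unfold posD
        exact Nat.zero_and _
      rw [hx0, hP0, zero_add, zero_add] at h1'
      rw [h1'] at h3'
      exact hsg h3'
    have hxR : (x : ℤ) = R + SG := by
      rw [hx]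
      exact Int.toNat_of_nonneg hR
    have hRPM : R = (P : ℤ) - M := by
      have h4 : ((x + M : ℕ) : ℤ) = ((P + SG : ℕ) : ℤ) := by rw [h1']
      push_cast at h4
      linarith
    obtain ⟨p, p1, p2, p3⟩ := lo P h2'
    obtain ⟨m, m1, m2, m3⟩ := lo M h3'
    have hfe : f = p - m := by
      apply poly_unique
      · rw [eval_sub, p1, m1, hf, hRPM]
      · exact hfb
      · intro n
        rw [coeff_sub, abs_lt]
        obtain ⟨c1, c2⟩ := p2 n
        obtain ⟨c3, c4⟩ := m2 n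
        constructor <;> linarith [c1, c2, c3, c4]
    rw [hfe]
    refine (lnorm_sub_le p m).trans ?_
    rw [L1S_lnorm p (fun n => (p2 n).1), L1S_lnorm m (fun n => (m2 n).1), p3, m3]
    exact le_refl ((l1sum P M : ℕ) : ℤ)

/-- **L1S** -/
theorem l1_spec_pr {T : ℕ} {Cx : Ctx} (hC : CtxOK T Cx) {R : ℤ} {k : ℕ → Bool}
    (h : l1 Cx false R k = true) : ∃ r : ℕ, k r = true ∧ ∀ f : ℤ[X], f.eval (2 ^ 160) = R →
      (∀ n, |f.coeff n| < 2 ^ 158) → lnorm f ≤ r :=
  L1S_gen hC.sg hC.lo h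

/-- **L1S** -/
theorem l1h_spec_pr {T : ℕ} {Cx : Ctx} (hC : CtxOK T Cx) {R : ℤ} {k : ℕ → Bool}
    (h : l1h Cx false R k = true) : ∃ r : ℕ, k r = true ∧ ∀ f : ℤ[X], f.eval (2 ^ 160) = R →
      (∀ n, |f.coeff n| < 2 ^ 158) → lnorm f ≤ r :=
  L1S_gen hC.sh hC.lh h

end Pool.Agent.Ecl
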