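import Pool.Agent.Lib_helper51.Ecl.SVDefs
import Pool.Agent.Lib_helper51.EclS.CTXBA
import Pool.Agent.Lib_helper51.EclS.CTXCA
import Pool.Agent.Lib_helper51.EclS.L1SA
import Pool.Agent.Lib_helper51.EclS.VALAA
import Pool.Agent.Lib_helper51.EclS.VALBA
import Pool.Agent.Lib_helper51.EclS.VALCA

/-!
# Block LNK of the soundness proof of the kernel checker (MP_efcf7c_an)
-/

set_option autoImplicit false

namespace Pool.Agent.Ecl

open Real Polynomial K Set

theorem LNK_w0 : (0 : ℝ) < w60 := by unfold w60; positivity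

theorem load_spec_pr {D : StaD} {k : Sta → Bool} (h : load ctx0 false D k = true) :
    k (staOf D) = true ∧ StaMsk (staOf D) := by
  unfold load at h
  simp only [fNat_eq] at h
  rw [Bool.cond_eq_ite] at h
  split_ifs at h with hc
  simp only [Bool.and_eq_true] at hc
  obtain ⟨h1, h2, h3, h4, h5, h6, h7⟩ := hc
  refine ⟨h, ?_⟩
  exact ⟨Nat.eq_of_beq_eq_true h1, Nat.eq_of_beq_eq_true h2, Nat.eq_of_beq_eq_true h3,
    Nat.eq_of_beq_eq_true h4, Nat.eq_of_beq_eq_true h5, Nat.eq_of_beq_eq_true h6,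
    Nat.le_of_ble_eq_true h7⟩

theorem LNK_dist {x y : ℕ} (hx : Msk x) (hy : Msk y) {k : ℕ → Bool}
    (h : K.dist ctx0 false x y k = true) : ∃ r : ℕ, k r = true ∧ ∀ u v : ℝ, |u| ≤ 1 → |v| ≤ 1 →
      |pv x u v - pv y u v| ≤ r / w60 := by
  unfold K.dist at h
  obtain ⟨r, hr, hf⟩ := l1_spec ctx0_ok h
  refine ⟨r, hr, fun u v hu hv => ?_⟩
  have hR := (dpoly_rep hx).sub' (dpoly_rep hy)
  have hn : lnorm (dpoly x - dpoly y) ≤ r := by
    apply hf
    · rw [hR.ev]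
      show (x : ℤ) - (ctx0.O : ℤ) - ((y : ℤ) - (ctx0.O : ℤ)) = (x : ℤ) - (y : ℤ)
      ring
    · intro n
      exact lt_of_le_of_lt (hR.bd n) (by norm_num)
  have hv2 : |val (dpoly x - dpoly y) u v 0| ≤ (r : ℝ) := by
    refine le_trans (abs_val_le _ hu hv le_rfl zero_le_one) ?_
    exact_mod_cast hn
  have he : pv x u v - pv y u v = val (dpoly x - dpoly y) u v 0 / w60 := by
    unfold pv
    rw [val_sub]
    ring
  rw [he, abs_div, abs_of_pos LNK_w0]
  exact div_le_div_of_nonneg_right hv2 LNK_w0.le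

theorem LNK_tri {A P Q E a b α β : ℝ} (hA : 0 ≤ A) (hE : 0 ≤ E) (h : A + P ^ 2 + Q ^ 2 ≤ E ^ 2)
    (ha : |a| ≤ α) (hb : |b| ≤ β) : A + (P + a) ^ 2 + (Q + b) ^ 2 ≤ (E + α + β) ^ 2 := by
  have hα : 0 ≤ α := le_trans (abs_nonneg _) ha
  have hβ : 0 ≤ β := le_trans (abs_nonneg _) hb
  have hP : |P| ≤ E := by
    apply abs_le_of_sq_le_sq _ hE
    have := sq_nonneg Q
    linarith
  have hQ : |Q| ≤ E := by
    apply abs_le_of_sq_le_sq _ hE
    have := sq_nonneg P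
    linarith
  have h1 : P * a ≤ E * α := by
    calc P * a ≤ |P * a| := le_abs_self _
      _ = |P| * |a| := abs_mul _ _
      _ ≤ E * α := mul_le_mul hP ha (abs_nonneg _) hE
  have h2 : Q * b ≤ E * β := by
    calc Q * b ≤ |Q * b| := le_abs_self _
      _ = |Q| * |b| := abs_mul _ _
      _ ≤ E * β := mul_le_mul hQ hb (abs_nonneg _) hE
  have h3 : a ^ 2 ≤ α ^ 2 := by
    rw [← sq_abs]; exact pow_le_pow_left₀ (abs_nonneg _) ha 2
  have h4 : b ^ 2 ≤ β ^ 2 := by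
    rw [← sq_abs]; exact pow_le_pow_left₀ (abs_nonneg _) hb 2
  have h5 : 0 ≤ α * β := mul_nonneg hα hβ
  nlinarith

theorem link_sound_pr {S D : Sta} (hS : StaMsk S) (hD : StaMsk D) (h : link ctx0 S D = true)
    {u v : ℝ} (hu : |u| ≤ 1) (hv : |v| ≤ 1) {x : St} (hx : StaOK S u v x) : StaOK D u v x := by
  unfold link at h
  obtain ⟨dc, h, hdc⟩ := LNK_dist hS.c hD.c h
  obtain ⟨ds, h, hds⟩ := LNK_dist hS.s hD.s h
  obtain ⟨dk, h, hdk⟩ := LNK_dist hS.k hD.k h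
  obtain ⟨dg, h, hdg⟩ := LNK_dist hS.g hD.g h
  obtain ⟨dp, h, hdp⟩ := LNK_dist hS.p hD.p h
  obtain ⟨dq, h, hdq⟩ := LNK_dist hS.q hD.q h
  replace hdc := hdc u v hu hv
  replace hds := hds u v hu hv
  replace hdk := hdk u v hu hv
  replace hdg := hdg u v hu hv
  replace hdp := hdp u v hu hv
  replace hdq := hdq u v hu hv
  simp only [Bool.and_eq_true] at h
  obtain ⟨hl, h1, h2, h3⟩ := h
  replace hl := Nat.eq_of_beq_eq_true hl
  have h1' : ((S.eh : ℝ) + dc + ds) / w60 ≤ D.eh / w60 := by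
    apply div_le_div_of_nonneg_right _ LNK_w0.le
    exact_mod_cast Nat.le_of_ble_eq_true h1
  have h2' : ((S.et : ℝ) + dk + dg) / w60 ≤ D.et / w60 := by
    apply div_le_div_of_nonneg_right _ LNK_w0.le
    exact_mod_cast Nat.le_of_ble_eq_true h2
  have h3' : ((S.E : ℝ) + dp + dq) / w60 ≤ D.E / w60 := by
    apply div_le_div_of_nonneg_right _ LNK_w0.le
    exact_mod_cast Nat.le_of_ble_eq_true h3
  rw [add_div, add_div] at h1' h2' h3'
  obtain ⟨ξ, η, e1, e2, e3, e4⟩ := hx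
  refine ⟨ξ, η, ?_, ?_, ?_, ?_⟩
  · have a1 := abs_le.mp e1
    have a2 := abs_le.mp hdc
    have a3 := abs_le.mp hds
    rw [abs_le]
    constructor <;> linarith [a1.1, a1.2, a2.1, a2.2, a3.1, a3.2]
  · have a1 := abs_le.mp e2
    have a2 := abs_le.mp hdc
    have a3 := abs_le.mp hds
    rw [abs_le]
    constructor <;> linarith [a1.1, a1.2, a2.1, a2.2, a3.1, a3.2]
  · have hE0 : (0 : ℝ) ≤ S.et / w60 := div_nonneg (Nat.cast_nonneg _) LNK_w0.le
    have e3' : (0 : ℝ) + (pv S.k u v - cos η) ^ 2 + (pv S.g u v - sin η) ^ 2 ≤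
        ((S.et : ℝ) / w60) ^ 2 := by linarith
    have ha : |pv D.k u v - pv S.k u v| ≤ (dk : ℝ) / w60 := by rw [abs_sub_comm]; exact hdk
    have hb : |pv D.g u v - pv S.g u v| ≤ (dg : ℝ) / w60 := by rw [abs_sub_comm]; exact hdg
    have := LNK_tri le_rfl hE0 e3' ha hb
    have hle : ((S.et : ℝ) / w60 + dk / w60 + dg / w60) ^ 2 ≤ ((D.et : ℝ) / w60) ^ 2 := by
      apply pow_le_pow_left₀ _ h2'
      have := LNK_w0
      positivity
    have k1 : pv S.k u v - cos η + (pv D.k u v - pv S.k u v) = pv D.k u v - cos η := by ring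
    have k2 : pv S.g u v - sin η + (pv D.g u v - pv S.g u v) = pv D.g u v - sin η := by ring
    rw [k1, k2] at this
    linarith
  · have hE0 : (0 : ℝ) ≤ S.E / w60 := div_nonneg (Nat.cast_nonneg _) LNK_w0.le
    rw [hl] at e4
    have hA : (0 : ℝ) ≤ ((D.lam : ℝ) / 16) ^ 2 * ((x.xi - ξ) ^ 2 + (x.eta - η) ^ 2) := by
      positivity
    have ha : |pv S.p u v - pv D.p u v| ≤ (dp : ℝ) / w60 := hdp
    have hb : |pv S.q u v - pv D.q u v| ≤ (dq : ℝ) / w60 := hdq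
    have := LNK_tri hA hE0 e4 ha hb
    have hle : ((S.E : ℝ) / w60 + dp / w60 + dq / w60) ^ 2 ≤ ((D.E : ℝ) / w60) ^ 2 := by
      apply pow_le_pow_left₀ _ h3'
      have := LNK_w0
      positivity
    have k1 : x.p - pv S.p u v + (pv S.p u v - pv D.p u v) = x.p - pv D.p u v := by ring
    have k2 : x.q - pv S.q u v + (pv S.q u v - pv D.q u v) = x.q - pv D.q u v := by ring
    rw [k1, k2] at this
    linarith

end Pool.Agent.Ecl
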