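import Pool.Agent.Lib_helper51.Ecl.SVDefs
import Pool.Agent.Lib_helper51.EclS.CTXCA
import Pool.Agent.Lib_helper51.EclS.DIGA
import Pool.Agent.Lib_helper51.EclS.UVTA
import Pool.Agent.Lib_helper51.EclS.VALAA

set_option autoImplicit false

namespace Pool.Agent.Ecl

open Real Polynomial K Set

theorem LSTA_O : ctx16.O = ctx0.O := rfl

theorem LSTA_M : ctx16.M = ctx0.M := rfl

theorem LSTA_msk (r : ℕ) : Msk (ym ctx16 r) := msk_land _

theorem LSTA_val_zero (u v t : ℝ) : val 0 u v t = 0 := by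
  unfold val
  exact Polynomial.sum_zero_index _

theorem LSTA_val_X (k : ℕ) (u v t : ℝ) : val (X ^ (289 * k)) u v t = t ^ k := by
  unfold val
  rw [X_pow_eq_monomial, Polynomial.sum_monomial_index _ _ (by simp)]
  unfold mon
  have h1 : 289 * k / 17 % 17 = 0 := by
    have : 289 * k / 17 = 17 * k := by omega
    omega
  have h2 : 289 * k % 17 = 0 := by omega
  have h3 : 289 * k / 289 = k := by omega
  rw [h1, h2, h3]
  simp

theorem LSTA_val_shift {y : ℕ} (hy : Msk y) (k : ℕ) (u v t : ℝ) :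
    val (dpoly y * X ^ (289 * k)) u v t = w60 * pv y u v * t ^ k := by
  rw [val_mul (T := 0) (T' := k) (dpoly_rep hy).sup ?_, val_dpoly, LSTA_val_X]
  intro n hn
  rw [coeff_X_pow] at hn
  have hn' : n = 289 * k := by
    by_contra h
    rw [if_neg h] at hn
    exact hn rfl
  subst hn'
  unfold vld
  omega

/-- sum of the polynomials -/
noncomputable def LSTA_sum (l : List ℕ) : ℤ[X] := (l.map fun r => dpoly (ym ctx16 r)).sum

theorem LSTA_one (l : List ℕ) (u v : ℝ) :
    val (lpoly l) u v 1 = val (LSTA_sum l) u v 0 := by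
  unfold LSTA_sum
  induction l with
  | nil => rfl
  | cons r l ih =>
    rw [List.map_cons, List.sum_cons, lpoly, val_add, val_add, ih, LSTA_val_shift (LSTA_msk r),
      val_dpoly, one_pow]
    ring

theorem LSTA_coeff (l : List ℕ) (n : ℕ) :
    |(LSTA_sum l).coeff n| ≤ l.length * 2 ^ 68 := by
  unfold LSTA_sum
  induction l with
  | nil => simp
  | cons r l ih =>
    rw [List.map_cons, List.sum_cons, coeff_add, List.length_cons]
    have h1 := (dpoly_rep (LSTA_msk r)).bd n
    have h2 := abs_add_le ((dpoly (ym ctx16 r)).coeff n)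
      ((l.map fun r => dpoly (ym ctx16 r)).sum.coeff n)
    push_cast
    linarith

theorem LSTA_sumY_aux (l : List ℕ) : ∀ acc : ℕ,
    (List.rec (motive := fun _ => ℕ → ℕ) (fun acc => acc)
    (fun r _ ih acc => fNat (Nat.add acc (ym ctx16 r)) ih) l acc : ℕ) =
      acc + (l.map (ym ctx16)).sum := by
  induction l with
  | nil => intro acc; simp
  | cons r l ih =>
    intro acc
    rw [List.map_cons, List.sum_cons]
    show fNat (Nat.add acc (ym ctx16 r)) _ = _
    rw [fNat_eq, ih]
    show acc + ym ctx16 r + _ = _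
    omega

theorem LSTA_sumY (l : List ℕ) : sumY ctx16 l = (l.map (ym ctx16)).sum := by
  have := LSTA_sumY_aux l 0
  rw [Nat.zero_add] at this
  exact this

theorem LSTA_eval (l : List ℕ) : (LSTA_sum l).eval (2 ^ 160) =
    ((l.map (ym ctx16)).sum : ℕ) - (l.length : ℤ) * (ctx0.O : ℤ) := by
  unfold LSTA_sum
  induction l with
  | nil =>
    show eval (2 ^ 160) (0 : ℤ[X]) = ((0 : ℕ) : ℤ) - ((0 : ℕ) : ℤ) * (ctx0.O : ℤ)
    rw [eval_zero, Nat.cast_zero, zero_mul, sub_zero]
  | cons r l ih =>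
    rw [List.map_cons, List.sum_cons, eval_add, ih, (dpoly_rep (LSTA_msk r)).ev, List.map_cons,
      List.sum_cons, List.length_cons]
    push_cast
    ring

/-- **LSTA** -/
theorem endY_spec_pr {l : List ℕ} {y0 : ℕ} {k : ℕ → Bool} (h : endY ctx16 false l y0 k = true) :
    ∃ y1, k y1 = true ∧ l.length = 17 ∧ ym ctx16 (lastY l) = y0 ∧ Msk y1 ∧
      ∀ u v : ℝ, lv l u v 1 = pv y1 u v := by
  unfold endY at h
  simp only [fNat_eq] at h
  rw [Bool.cond_eq_ite] at h
  split_ifs at h with hc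
  rw [Bool.and_eq_true, Bool.and_eq_true, Bool.and_eq_true] at hc
  obtain ⟨h1, h2, h3, h4⟩ := hc
  have h1 := Nat.eq_of_beq_eq_true h1
  have h2 := Nat.eq_of_beq_eq_true h2
  have h3 := Nat.eq_of_beq_eq_true h3
  have h4 := Nat.eq_of_beq_eq_true h4
  generalize Nat.sub (sumY ctx16 l) (Nat.mul 16 ctx16.O) = y1 at h h3 h4
  have hm : Msk y1 := h3
  refine ⟨y1, h, h1, h2, hm, fun u v => ?_⟩
  have h5 : (y1 : ℤ) + 16 * (ctx0.O : ℤ) = ((l.map (ym ctx16)).sum : ℕ) := by
    rw [Nat.add_eq, Nat.mul_eq, LSTA_O] at h4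
    rw [← LSTA_sumY, ← h4]
    generalize ctx0.O = o
    push_cast
    ring
  have h6 : LSTA_sum l = dpoly y1 := by
    refine poly_unique ?_ (fun n => ?_) fun n => ?_
    · rw [LSTA_eval, (dpoly_rep hm).ev, h1, ← h5]
      generalize ctx0.O = o
      push_cast
      ring
    · have := LSTA_coeff l n
      rw [h1] at this
      refine this.trans_lt ?_
      norm_num
    · refine ((dpoly_rep hm).bd n).trans_lt ?_
      norm_num
  unfold lv
  rw [LSTA_one, h6]
  rfl

theorem LSTA_last (l : List ℕ) : ∀ r : ℕ, lastY (r :: l) =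
    (List.rec (motive := fun _ => ℕ → ℕ) (fun x => x) (fun h _ ih _ => ih h) l r : ℕ) :=
  fun _ => rfl

theorem LSTA_last_cons (r r' : ℕ) (l : List ℕ) : lastY (r :: r' :: l) = lastY (r' :: l) := rfl

theorem LSTA_lv0 (l : List ℕ) : ∀ r : ℕ, ∀ u v : ℝ,
    val (lpoly (r :: l)) u v 0 = w60 * pv (ym ctx16 (lastY (r :: l))) u v := by
  induction l with
  | nil =>
    intro r u v
    rw [lpoly, lpoly, val_add, LSTA_val_zero, LSTA_val_shift (LSTA_msk r)]
    simp [lastY]
  | cons r' l ih =>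
    intro r u v
    rw [lpoly, val_add, ih r' u v, LSTA_val_shift (LSTA_msk r), LSTA_last_cons, List.length_cons,
      zero_pow (Nat.succ_ne_zero _)]
    ring

theorem LSTA_c0 (l : List ℕ) : ∀ r : ℕ,
    (lpoly (r :: l)).coeff 0 = cd (ym ctx16 (lastY (r :: l))) := by
  induction l with
  | nil =>
    intro r
    rw [lpoly, lpoly, zero_add, List.length_nil, Nat.mul_zero, pow_zero, mul_one, dpoly_coeff0]
    rfl
  | cons r' l ih =>
    intro r
    rw [lpoly, coeff_add, ih r', LSTA_last_cons, List.length_cons, coeff_mul_X_pow', if_neg,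
      add_zero]
    omega

/-- **LSTA** -/
theorem lv_zero_pr {l : List ℕ} (h : l.length = 17) (u v : ℝ) :
    lv l u v 0 = pv (ym ctx16 (lastY l)) u v := by
  cases l with
  | nil => simp at h
  | cons r l =>
    unfold lv
    rw [LSTA_lv0, mul_div_cancel_left₀]
    unfold w60
    positivity

/-- **LSTA** -/
theorem lpoly_coeff0_pr {l : List ℕ} (h : l.length = 17) :
    (lpoly l).coeff 0 = cd (ym ctx16 (lastY l)) := by
  cases l with
  | nil => simp at h
  | cons r l => exact LSTA_c0 l r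

end Pool.Agent.Ecl
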