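import Pool.Agent.Lib_helper51.Ecl.SVDefs
import Pool.Agent.Lib_helper51.EclS.CTXBA
import Pool.Agent.Lib_helper51.EclS.CTXCA
import Pool.Agent.Lib_helper51.EclS.L1SA
import Pool.Agent.Lib_helper51.EclS.UVTA
import Pool.Agent.Lib_helper51.EclS.VALCA
import Pool.Agent.Lib_helper51.EclS.DIG

/-!
# Block LSTB: the Taylor model of a list of residues
-/

set_option autoImplicit false
set_option exponentiation.threshold 300000

namespace Pool.Agent.Ecl

open Real Polynomial K Set

/-- the recursive function of `packY` -/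
def LSTB_P (C : Ctx) (l : List ℕ) : ℕ → ℕ :=
  List.rec (motive := fun _ => ℕ → ℕ) (fun acc => acc)
    (fun r _ ih acc => fNat (Nat.add (Nat.shiftLeft acc C.SB) (ym C r)) ih) l

theorem LSTB_P_cons (Cx : Ctx) (r : ℕ) (l : List ℕ) (acc : ℕ) :
    LSTB_P Cx (r :: l) acc = LSTB_P Cx l (acc * 2 ^ Cx.SB + ym Cx r) := by
  change fNat _ _ = _
  rw [fNat_eq]
  change LSTB_P Cx l (Nat.shiftLeft acc Cx.SB + ym Cx r) = _
  congr 2
  exact Nat.shiftLeft_eq _ _

theorem LSTB_P_acc (Cx : Ctx) (l : List ℕ) (acc : ℕ) :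
    LSTB_P Cx l acc = acc * (2 ^ Cx.SB) ^ l.length + LSTB_P Cx l 0 := by
  induction l generalizing acc with
  | nil =>
    change acc = acc * (2 ^ Cx.SB) ^ 0 + 0
    rw [pow_zero]; omega
  | cons r l ih =>
    rw [LSTB_P_cons, LSTB_P_cons, ih, ih (0 * _ + _), List.length_cons, pow_succ]
    ring

theorem LSTB_rep_succ (x s m : ℕ) (hs : 1 ≤ s) :
    rep x s (m + 1) = rep x s m + x * (2 ^ s) ^ m := by
  rw [DIG_rep x s _ hs, DIG_rep x s _ hs, Finset.sum_range_succ, mul_add]

theorem LSTB_pow (a b n : ℕ) : ((2 : ℤ) ^ a) ^ (b * n) = (((2 ^ (a * b)) ^ n : ℕ) : ℤ) := by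
  push_cast
  rw [← pow_mul, ← pow_mul, mul_assoc]

theorem LSTB_alg (W : ℕ) (y o p r : ℕ) : (p : ℤ) - (r : ℤ) + ((y : ℤ) - (o : ℤ)) * (W : ℤ) =
    ((y * W + p : ℕ) : ℤ) - ((r + o * W : ℕ) : ℤ) := by
  push_cast
  ring

theorem LSTB_ev (l : List ℕ) : (lpoly l).eval (2 ^ 160) =
    ((LSTB_P ctx16 l 0 : ℕ) : ℤ) - ((rep ctx0.O (160 * 289) l.length : ℕ) : ℤ) := by
  induction l with
  | nil =>
    rw [show rep ctx0.O (160 * 289) ([] : List ℕ).length = 0 from DIG_rep_zero _ _]
    change eval (2 ^ 160) (0 : ℤ[X]) = ((0 : ℕ) : ℤ) - ((0 : ℕ) : ℤ)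
    simp
  | cons r l ih =>
    have h1 := (dpoly_rep (msk_land (Nat.sub r ctx16.NO))).ev
    have h2 : Nat.land (Nat.sub r ctx16.NO) ctx0.M = ym ctx16 r := rfl
    have h4 : LSTB_P ctx16 (r :: l) 0 =
        ym ctx16 r * (2 ^ (160 * 289)) ^ l.length + LSTB_P ctx16 l 0 := by
      rw [LSTB_P_cons, LSTB_P_acc ctx16 l (0 * 2 ^ ctx16.SB + ym ctx16 r), Nat.zero_mul,
        Nat.zero_add]
      rfl
    rw [h2] at h1
    rw [lpoly, eval_add, eval_mul, eval_pow, eval_X, ih, h1, List.length_cons,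
      LSTB_rep_succ _ _ _ (by norm_num), h4, LSTB_pow 160 289]
    exact LSTB_alg _ _ _ _ _

theorem LSTB_coeff (l : List ℕ) : (∀ n, (lpoly l).coeff n ≠ 0 →
    n / 289 < l.length ∧ (n / 17) % 17 + n % 17 ≤ 8) ∧ ∀ n, |(lpoly l).coeff n| ≤ 2 ^ 68 := by
  induction l with
  | nil =>
    constructor
    · intro n hn
      rw [lpoly, coeff_zero] at hn
      exact absurd rfl hn
    · intro n
      rw [lpoly, coeff_zero]
      norm_num
  | cons r l ih =>
    obtain ⟨ih1, ih2⟩ := ih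
    have h1 := dpoly_rep (msk_land (Nat.sub r ctx16.NO))
    have h2 : Nat.land (Nat.sub r ctx16.NO) ctx0.M = ym ctx16 r := rfl
    rw [h2] at h1
    have hc : ∀ n, (lpoly (r :: l)).coeff n = (lpoly l).coeff n +
        if 289 * l.length ≤ n then (dpoly (ym ctx16 r)).coeff (n - 289 * l.length) else 0 := by
      intro n
      rw [lpoly, coeff_add, coeff_mul_X_pow']
    constructor
    · intro n hn
      rw [hc] at hn
      rw [List.length_cons]
      by_cases h : 289 * l.length ≤ n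
      · rw [if_pos h] at hn
        have h0 : (lpoly l).coeff n = 0 := by
          by_contra h3
          have := (ih1 n h3).1
          omega
        rw [h0, zero_add] at hn
        obtain ⟨h4, h5⟩ := h1.sup _ hn
        constructor
        · omega
        · have h6 : (n - 289 * l.length) / 17 % 17 = n / 17 % 17 := by omega
          have h7 : (n - 289 * l.length) % 17 = n % 17 := by omega
          rw [h6, h7] at h5
          exact h5
      · rw [if_neg h, add_zero] at hn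
        obtain ⟨h4, h5⟩ := ih1 n hn
        exact ⟨by omega, h5⟩
    · intro n
      rw [hc]
      by_cases h : 289 * l.length ≤ n
      · have h0 : (lpoly l).coeff n = 0 := by
          by_contra h3
          have := (ih1 n h3).1
          omega
        rw [if_pos h, h0, zero_add]
        exact h1.bd _
      · rw [if_neg h, add_zero]
        exact ih2 n

theorem LSTB_ctx : ctx16.OB = rep ctx0.O (160 * 289) 17 := by
  unfold ctx16 ctx0
  with_reducible rfl

/-- **LSTB** -/
theorem mkTM_spec_pr {l : List ℕ} (hl : l.length = 17) {k : TM → Bool}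
    (h : mkTM ctx16 false l k = true) : ∃ A : TM, k A = true ∧ A.e = 0 ∧
      Rep 16 (2 ^ 68) A.N (lpoly l) ∧ TMP 16 A (lpoly l) (lv l) := by
  unfold mkTM at h
  rw [fNat_eq, isub_eq] at h
  obtain ⟨r, h1, h2⟩ := l1h_spec ctx16_ok h
  have hP : packY ctx16 l = LSTB_P ctx16 l 0 := rfl
  have hev : (lpoly l).eval (2 ^ 160) = Int.ofNat (packY ctx16 l) - Int.ofNat ctx16.OB := by
    rw [LSTB_ev, hl, hP, LSTB_ctx, Int.ofNat_eq_natCast, Int.ofNat_eq_natCast]
  have hR : Rep 16 (2 ^ 68) (Int.ofNat (packY ctx16 l) - Int.ofNat ctx16.OB) (lpoly l) := by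
    refine ⟨hev, ?_, (LSTB_coeff l).2⟩
    intro n hn
    obtain ⟨h3, h4⟩ := (LSTB_coeff l).1 n hn
    rw [hl] at h3
    exact ⟨by omega, h4⟩
  refine ⟨⟨Int.ofNat (packY ctx16 l) - Int.ofNat ctx16.OB, 0, r⟩, h1, rfl, hR, ?_⟩
  refine ⟨hR.mono' (le_refl _) (by norm_num), ?_, ?_⟩
  · apply h2 _ hev
    intro n
    exact lt_of_le_of_lt (hR.bd n) (by norm_num)
  · intro u v t _ _ _ _
    unfold lv
    rw [mul_div_cancel₀]
    · simp
    · unfold w60; positivity

end Pool.Agent.Ecl
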