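import Pool.Agent.Lib_helper51.Ecl.SVDefs
import Pool.Agent.Lib_helper51.EclS.CTXCA
import Pool.Agent.Lib_helper51.EclS.UVTA
import Pool.Agent.Lib_helper51.EclS.VALAA

set_option autoImplicit false

namespace Pool.Agent.Ecl

open Real Polynomial K Set

/-- the recursion of `packD` -/
noncomputable def LSTC_pd (C : Ctx) (l : List ℕ) : ℕ → ℕ → ℕ :=
  List.rec (motive := fun _ => ℕ → ℕ → ℕ) (fun _ acc => acc)
    (fun r _ ih i acc => Nat.rec (motive := fun _ => ℕ) acc
      (fun i' _ => fNat (Nat.add (Nat.shiftLeft acc C.SB) (Nat.mul (Nat.succ i') (ym C r)))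
        (fun a => ih i' a)) i) l

theorem LSTC_packD (C : Ctx) (l : List ℕ) (T : ℕ) : packD C l T = LSTC_pd C l T 0 := rfl

theorem LSTC_pd_zero (C : Ctx) (r : ℕ) (l : List ℕ) (acc : ℕ) :
    LSTC_pd C (r :: l) 0 acc = acc := rfl

theorem LSTC_pd_succ (C : Ctx) (r : ℕ) (l : List ℕ) (i acc : ℕ) :
    LSTC_pd C (r :: l) (i + 1) acc = LSTC_pd C l i (acc * 2 ^ C.SB + (i + 1) * ym C r) := by
  have h : LSTC_pd C (r :: l) (i + 1) acc = fNat
    (Nat.add (Nat.shiftLeft acc C.SB) (Nat.mul (Nat.succ i) (ym C r)))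
        (fun a => LSTC_pd C l i a) := rfl
  rw [h, fNat_eq]
  have h2 : Nat.add (Nat.shiftLeft acc C.SB) (Nat.mul (Nat.succ i) (ym C r)) =
    acc <<< C.SB + (i + 1) * ym C r := rfl
  rw [h2, Nat.shiftLeft_eq]

theorem LSTC_msk (r : ℕ) : Msk (ym ctx16 r) := msk_land _

theorem LSTC_eval (r : ℕ) : (dpoly (ym ctx16 r)).eval (2 ^ 160) =
    ((ym ctx16 r : ℕ) : ℤ) - (ctx0.O : ℤ) := (dpoly_rep (LSTC_msk r)).ev

theorem LSTC_offD (O SB n : ℕ) : offD O SB (n + 1) = offD O SB n + (n + 1) * (O * 2 ^ (SB * n)) :=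
  rfl

theorem LSTC_pack (l : List ℕ) : ∀ (i acc : ℕ), l.length = i + 1 →
    ((LSTC_pd ctx16 l i acc : ℕ) : ℤ) - (offD ctx0.O ctx16.SB i : ℕ) =
      acc * (2 ^ ctx16.SB) ^ i + (dlpoly l).eval (2 ^ 160) := by
  induction l with
  | nil => intro i acc h; simp at h
  | cons r l ih =>
    intro i acc h
    cases i with
    | zero =>
      rw [LSTC_pd_zero]
      have hl : l = [] := by
        rw [List.length_cons] at h
        exact List.length_eq_zero_iff.mp (by omega)
      subst hl
      simp [offD, dlpoly]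
    | succ i =>
      have hl : l.length = i + 1 := by
        rw [List.length_cons] at h
        omega
      have h1 := ih i (acc * 2 ^ ctx16.SB + (i + 1) * ym ctx16 r) hl
      rw [LSTC_pd_succ]
      rw [dlpoly, eval_add, eval_mul, eval_mul, eval_C, eval_pow, eval_X, LSTC_eval, hl,
        Nat.add_sub_cancel, LSTC_offD]
      have h2 : ((2 : ℤ) ^ 160) ^ (289 * i) = ((2 : ℤ) ^ ctx16.SB) ^ i := by
        rw [pow_mul, ← pow_mul 2 160 289]
        rfl
      rw [h2]
      have h3 : ((2 : ℤ) ^ ctx16.SB) ^ i = (2 : ℤ) ^ (ctx16.SB * i) := (pow_mul _ _ _).symm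
      rw [h3] at h1 ⊢
      rw [pow_succ, ← pow_mul]
      push_cast at h1 ⊢
      linear_combination h1

theorem LSTC_OD : ctx16.OD = offD ctx0.O ctx16.SB 16 := by
  unfold ctx16 ctx0
  dsimp only

theorem LSTC_vld {n m : ℕ} (h : vld 0 n) : (289 * m + n) / 289 = m ∧
    ((289 * m + n) / 17) % 17 + (289 * m + n) % 17 ≤ 8 := by
  unfold vld at h
  omega

theorem LSTC_coeff (l : List ℕ) : ∀ n, ((dlpoly l).coeff n ≠ 0 → n / 289 + 2 ≤ l.length ∧
    (n / 17) % 17 + n % 17 ≤ 8) ∧ |(dlpoly l).coeff n| ≤ l.length * 2 ^ 68 := by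
  induction l with
  | nil => intro n; simp [dlpoly]
  | cons r l ih =>
    intro n
    obtain ⟨ih1, ih2⟩ := ih n
    have hR := dpoly_rep (LSTC_msk r)
    rw [dlpoly, coeff_add, coeff_C_mul, coeff_mul_X_pow']
    by_cases hc : 289 * (l.length - 1) ≤ n
    · rw [if_pos hc]
      by_cases hz : (dpoly (ym ctx16 r)).coeff (n - 289 * (l.length - 1)) = 0
      · rw [hz, mul_zero, add_zero]
        refine ⟨fun h => ?_, ?_⟩
        · obtain ⟨h1, h2⟩ := ih1 h
          refine ⟨?_, h2⟩
          rw [List.length_cons]; omega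
        · refine ih2.trans ?_
          rw [List.length_cons]
          push_cast
          linarith
      · have hv := LSTC_vld (m := l.length - 1) (hR.sup _ hz)
        rw [Nat.add_sub_cancel' hc] at hv
        by_cases hl : l.length = 0
        · rw [hl]
          simp only [Nat.cast_zero, zero_mul, add_zero]
          refine ⟨fun h => ?_, ?_⟩
          · obtain ⟨h1, h2⟩ := ih1 h
            omega
          · refine ih2.trans ?_
            rw [List.length_cons]
            push_cast
            linarith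
        · have h0 : (dlpoly l).coeff n = 0 := by
            by_contra h
            have := (ih1 h).1
            omega
          rw [h0, zero_add]
          refine ⟨fun _ => ⟨?_, hv.2⟩, ?_⟩
          · rw [List.length_cons]; omega
          · rw [abs_mul, Nat.abs_cast, List.length_cons]
            calc (l.length : ℤ) * |(dpoly (ym ctx16 r)).coeff (n - 289 * (l.length - 1))|
                ≤ (l.length : ℤ) * 2 ^ 68 := by
                  apply mul_le_mul_of_nonneg_left (hR.bd _) (by positivity)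
              _ ≤ ((l.length + 1 : ℕ) : ℤ) * 2 ^ 68 := by push_cast; linarith
    · rw [if_neg hc, mul_zero, add_zero]
      refine ⟨fun h => ?_, ?_⟩
      · obtain ⟨h1, h2⟩ := ih1 h
        refine ⟨?_, h2⟩
        rw [List.length_cons]; omega
      · refine ih2.trans ?_
        rw [List.length_cons]
        push_cast
        linarith

theorem dTM_spec_pr {l : List ℕ} (hl : l.length = 17) {k : ℤ → Bool}
    (h : dTM ctx16 l k = true) : ∃ N : ℤ, k N = true ∧ Rep 16 (2 ^ 73) N (dlpoly l) := by
  unfold dTM at h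
  simp only [fNat_eq, isub_eq] at h
  refine ⟨_, h, ?_, ?_, ?_⟩
  · have h1 := LSTC_pack l 16 0 hl
    rw [Nat.cast_zero, zero_mul, zero_add, ← LSTC_packD, ← LSTC_OD] at h1
    rw [← h1]
    rfl
  · intro n hn
    obtain ⟨h1, h2⟩ := (LSTC_coeff l n).1 hn
    rw [hl] at h1
    exact ⟨by omega, h2⟩
  · intro n
    refine (LSTC_coeff l n).2.trans ?_
    rw [hl]
    norm_num

theorem LSTC_val_mul (r m : ℕ) (u v t : ℝ) :
    val (dpoly (ym ctx16 r) * X ^ (289 * m)) u v t = w60 * pv (ym ctx16 r) u v * t ^ m := by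
  have hR := dpoly_rep (LSTC_msk r)
  rw [val_mul hR.sup (T' := m), val_dpoly]
  · congr 1
    rw [val, ← monomial_one_right_eq_X_pow, sum_monomial_index]
    · rw [mon]
      have h1 : (289 * m / 17) % 17 = 0 := by omega
      have h2 : 289 * m % 17 = 0 := by omega
      have h3 : 289 * m / 289 = m := by omega
      rw [h1, h2, h3]
      simp
    · simp
  · intro n hn
    rw [coeff_X_pow] at hn
    have : n = 289 * m := by
      by_contra h
      simp [h] at hn
    subst this
    unfold vld
    omega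

theorem LSTC_deriv (l : List ℕ) (u v t : ℝ) :
    HasDerivAt (fun t => val (lpoly l) u v t) (val (dlpoly l) u v t) t := by
  induction l with
  | nil =>
    have h0 : ∀ t, val (lpoly []) u v t = 0 := by intro t; simp [lpoly, val]
    have h1 : val (dlpoly []) u v t = 0 := by simp [dlpoly, val]
    simp only [h0, h1]
    exact hasDerivAt_const t (0 : ℝ)
  | cons r l ih =>
    have h0 : ∀ t, val (lpoly (r :: l)) u v t =
        val (lpoly l) u v t + w60 * pv (ym ctx16 r) u v * t ^ l.length := by
      intro t; rw [lpoly, val_add, LSTC_val_mul]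
    have h1 : val (dlpoly (r :: l)) u v t =
        val (dlpoly l) u v t + w60 * pv (ym ctx16 r) u v * (l.length * t ^ (l.length - 1)) := by
      rw [dlpoly, val_add, val_C_mul, LSTC_val_mul]
      push_cast
      ring
    simp only [h0, h1]
    exact ih.add ((hasDerivAt_pow l.length t).const_mul _)

theorem lv_deriv_pr (l : List ℕ) (u v t : ℝ) :
    HasDerivAt (fun t => lv l u v t) (dlv l u v t) t := by
  unfold lv dlv
  exact (LSTC_deriv l u v t).div_const _

end Pool.Agent.Ecl
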