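import Pool.Agent.Lib_helper51.Ecl.SVDefs
import Pool.Agent.Lib_helper51.EclS.L1SA
import Pool.Agent.Lib_helper51.EclS.UVTA
import Pool.Agent.Lib_helper51.EclS.VALAA
import Pool.Agent.Lib_helper51.EclS.VALBA
import Pool.Agent.Lib_helper51.EclS.VALCA

/-!
# MUL: product of Taylor models
-/

set_option autoImplicit false

namespace Pool.Agent.Ecl

open Real Polynomial K Set

/-- the error bound of the product -/
def MUL_e (A B : TM) (r : ℕ) : ℕ :=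
  (r + (A.nr * B.e + (B.nr * A.e + A.e * B.e))) / 2 ^ 60 + 1

/-- the norm bound of the product -/
def MUL_nr (A B : TM) (r : ℕ) : ℕ := A.nr * B.nr / 2 ^ 60 + 1 + MUL_e A B r

lemma MUL_lnorm (A B : TM) (r : ℕ) (x : ℤ) (h : 2 ^ 60 * x ≤ (A.nr : ℤ) * B.nr + r) :
    x ≤ (MUL_nr A B r : ℤ) := by
  have h1 : (A.nr * B.nr : ℕ) < 2 ^ 60 * (A.nr * B.nr / 2 ^ 60 + 1) :=
    Nat.lt_mul_div_succ _ (by positivity)
  have h2 : r + (A.nr * B.e + (B.nr * A.e + A.e * B.e)) <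
      2 ^ 60 * ((r + (A.nr * B.e + (B.nr * A.e + A.e * B.e))) / 2 ^ 60 + 1) :=
    Nat.lt_mul_div_succ _ (by positivity)
  have h3 : r ≤ r + (A.nr * B.e + (B.nr * A.e + A.e * B.e)) := Nat.le_add_right _ _
  have h4 : A.nr * B.nr + r < 2 ^ 60 * MUL_nr A B r := by
    have h5 : 2 ^ 60 * MUL_nr A B r = 2 ^ 60 * (A.nr * B.nr / 2 ^ 60 + 1) +
        2 ^ 60 * ((r + (A.nr * B.e + (B.nr * A.e + A.e * B.e))) / 2 ^ 60 + 1) := by
      unfold MUL_nr MUL_e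
      ring
    rw [h5]
    omega
  have h5 : ((A.nr : ℤ) * B.nr + r) < 2 ^ 60 * (MUL_nr A B r : ℤ) := by exact_mod_cast h4
  have h6 : (2 : ℤ) ^ 60 * x < 2 ^ 60 * (MUL_nr A B r : ℤ) := lt_of_le_of_lt h h5
  exact (lt_of_mul_lt_mul_left h6 (by positivity)).le

lemma MUL_err (A B : TM) (r : ℕ) (vf vg vq vr F G : ℝ) (hf : |vf| ≤ A.nr) (hg : |vg| ≤ B.nr)
    (ha : |vf - w60 * F| ≤ A.e) (hb : |vg - w60 * G| ≤ B.e) (hr : |vr| ≤ r)
    (hv : vf * vg = w60 * vq + vr) : |vq - w60 * (F * G)| ≤ (MUL_e A B r : ℝ) := by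
  have hw : (0 : ℝ) < w60 := by unfold w60; positivity
  have e1 : w60 * (vq - w60 * (F * G)) = -vr + (vf - w60 * F) * vg + (vg - w60 * G) * vf -
      (vf - w60 * F) * (vg - w60 * G) := by
    linear_combination hv * (-1 : ℝ)
  have h1 : |w60 * (vq - w60 * (F * G))| ≤ r + A.e * B.nr + B.e * A.nr + A.e * B.e := by
    rw [e1]
    have a1 : |(vf - w60 * F) * vg| ≤ A.e * B.nr := by
      rw [abs_mul]
      exact mul_le_mul ha hg (abs_nonneg _) (Nat.cast_nonneg _)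
    have a2 : |(vg - w60 * G) * vf| ≤ B.e * A.nr := by
      rw [abs_mul]
      exact mul_le_mul hb hf (abs_nonneg _) (Nat.cast_nonneg _)
    have a3 : |(vf - w60 * F) * (vg - w60 * G)| ≤ A.e * B.e := by
      rw [abs_mul]
      exact mul_le_mul ha hb (abs_nonneg _) (Nat.cast_nonneg _)
    have b1 := abs_le.1 hr
    have b2 := abs_le.1 a1
    have b3 := abs_le.1 a2
    have b4 := abs_le.1 a3
    rw [abs_le]
    constructor <;> linarith [b1.1, b1.2, b2.1, b2.2, b3.1, b3.2, b4.1, b4.2]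
  rw [abs_mul, abs_of_pos hw] at h1
  have h2 : r + (A.nr * B.e + (B.nr * A.e + A.e * B.e)) <
      2 ^ 60 * ((r + (A.nr * B.e + (B.nr * A.e + A.e * B.e))) / 2 ^ 60 + 1) :=
    Nat.lt_mul_div_succ _ (by positivity)
  have h3 : ((r + (A.nr * B.e + (B.nr * A.e + A.e * B.e)) : ℕ) : ℝ) ≤ w60 * (MUL_e A B r : ℝ) := by
    have h4 : r + (A.nr * B.e + (B.nr * A.e + A.e * B.e)) ≤ 2 ^ 60 * MUL_e A B r := h2.le
    have h5 : ((r + (A.nr * B.e + (B.nr * A.e + A.e * B.e)) : ℕ) : ℝ) ≤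
        ((2 ^ 60 * MUL_e A B r : ℕ) : ℝ) := by exact_mod_cast h4
    have h6 : ((2 ^ 60 * MUL_e A B r : ℕ) : ℝ) = w60 * (MUL_e A B r : ℝ) := by
      unfold w60
      rw [Nat.cast_mul, Nat.cast_pow, Nat.cast_ofNat]
    rw [← h6]
    exact h5
  have h7 : w60 * |vq - w60 * (F * G)| ≤ w60 * (MUL_e A B r : ℝ) := by
    refine h1.trans (le_trans (le_of_eq ?_) h3)
    push_cast
    ring
  exact le_of_mul_le_mul_left h7 hw

lemma MUL_e_eq (A B : TM) (r : ℕ) :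
    ((r.add ((A.nr.mul B.e).add ((B.nr.mul A.e).add (A.e.mul B.e)))).shiftRight 60).succ =
      MUL_e A B r := by
  unfold MUL_e
  rw [← Nat.shiftRight_eq_div_pow]
  rfl

lemma MUL_nr_eq (A B : TM) (r : ℕ) :
    ((A.nr.mul B.nr).div n60).succ.add
      ((r.add ((A.nr.mul B.e).add ((B.nr.mul A.e).add (A.e.mul B.e)))).shiftRight 60).succ =
      MUL_nr A B r := by
  rw [MUL_e_eq]
  rfl

/-- **MUL** -/
theorem mulTM_spec_pr {T : ℕ} {Cx : Ctx} (hC : CtxOK T Cx) (hT : T ≤ 16) {A B : TM} {k : TM → Bool}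
    (h : mulTM Cx false A B k = true) {f g : ℤ[X]} {F G : ℝ → ℝ → ℝ → ℝ} (hA : TMP T A f F)
    (hB : TMP T B g G) : ∃ (Q : TM) (q : ℤ[X]), k Q = true ∧ Rep T (2 ^ 68) Q.N q ∧
      TMP T Q q (fun u v t => F u v t * G u v t) := by
  unfold mulTM at h
  simp only [sh_eq, isub_eq, fNat_eq, MUL_e_eq] at h
  obtain ⟨q, hq⟩ := hC.mB
    (Nat.shiftRight (Int.toNat (Int.add (Int.mul A.N B.N) (Int.ofNat Cx.AB))) 60)
  obtain ⟨r, hr, hl⟩ := l1_spec hC h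
  -- the residual
  have hfv : ∀ n, f.coeff n ≠ 0 → vld 16 n := fun n hn => vld_mono hT (hA.rep.sup n hn)
  have hlr : lnorm (f * g - C (2 ^ 60) * q) ≤ r := by
    apply hl
    · rw [eval_sub, eval_mul, eval_mul, eval_C, hA.rep.ev, hB.rep.ev, hq.ev]
      show _ = A.N * B.N - ((_ : ℤ) * ((n60 : ℕ) : ℤ))
      have : ((n60 : ℕ) : ℤ) = 2 ^ 60 := by
        unfold n60
        norm_cast
      rw [this, mul_comm ((2 : ℤ) ^ 60)]
      rfl
    · intro n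
      rw [coeff_sub, coeff_C_mul]
      have h1 := coeff_mul_le hfv hA.rep.bd hB.rep.bd n
      have h2 := hq.bd n
      have h3 : |(2 : ℤ) ^ 60 * q.coeff n| ≤ 2 ^ 60 * 2 ^ 68 := by
        rw [abs_mul, abs_of_pos (by positivity : (0 : ℤ) < 2 ^ 60)]
        exact mul_le_mul_of_nonneg_left h2 (by positivity)
      calc |(f * g).coeff n - 2 ^ 60 * q.coeff n| ≤
          |(f * g).coeff n| + |2 ^ 60 * q.coeff n| := abs_sub _ _
        _ ≤ 765 * 2 ^ 70 * 2 ^ 70 + 2 ^ 60 * 2 ^ 68 := add_le_add h1 h3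
        _ < 2 ^ 158 := by norm_num
  refine ⟨_, q, hr, hq, ?_, ?_, ?_⟩
  · exact Rep.mono' hq le_rfl (by norm_num)
  · show lnorm q ≤ ((MUL_nr A B r : ℕ) : ℤ)
    apply MUL_lnorm
    have h1 : lnorm (C (2 ^ 60) * q) = 2 ^ 60 * lnorm q := by
      rw [lnorm_C_mul, abs_of_pos (by positivity : (0 : ℤ) < 2 ^ 60)]
    have h2 : C (2 ^ 60) * q = f * g - (f * g - C (2 ^ 60) * q) := by ring
    have h3 := lnorm_sub_le (f * g) (f * g - C (2 ^ 60) * q)
    rw [← h2, h1] at h3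
    have h4 := lnorm_mul_le f g
    have h5 : lnorm f * lnorm g ≤ (A.nr : ℤ) * B.nr :=
      mul_le_mul hA.nr hB.nr (lnorm_nonneg _) (Int.natCast_nonneg _)
    linarith
  · intro u v t hu hv ht ht1
    show |val q u v t - w60 * (F u v t * G u v t)| ≤ ((MUL_e A B r : ℕ) : ℝ)
    have hf1 := abs_val_le f hu hv ht ht1
    have hg1 := abs_val_le g hu hv ht ht1
    have hr1 := abs_val_le (f * g - C (2 ^ 60) * q) hu hv ht ht1
    have hA1 : (lnorm f : ℝ) ≤ (A.nr : ℝ) := by exact_mod_cast hA.nr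
    have hB1 : (lnorm g : ℝ) ≤ (B.nr : ℝ) := by exact_mod_cast hB.nr
    have hl1 : (lnorm (f * g - C (2 ^ 60) * q) : ℝ) ≤ (r : ℝ) := by exact_mod_cast hlr
    refine MUL_err A B r _ _ _ (val (f * g - C (2 ^ 60) * q) u v t) _ _ (hf1.trans hA1)
      (hg1.trans hB1) (hA.er u v t hu hv ht ht1) (hB.er u v t hu hv ht ht1) (hr1.trans hl1) ?_
    rw [← val_mul hA.rep.sup hB.rep.sup, val_sub, val_C_mul]
    unfold w60
    push_cast
    ring

end Pool.Agent.Ecl
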