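import Pool.Agent.Lib_helper51.Ecl.SVDefs

set_option autoImplicit false

namespace Pool.Agent.Ecl

open Real Polynomial K Set

theorem NUMA_div (a b : ℕ) (hb : 0 < b) : (a : ℝ) / b ≤ ((a / b : ℕ) : ℝ) + 1 := by
  have h1 : a < (a / b + 1) * b := by
    have := Nat.lt_div_mul_add hb (a := a)
    rw [add_mul, one_mul]
    exact this
  have hb' : (0 : ℝ) < b := by exact_mod_cast hb
  rw [div_le_iff₀ hb']
  have : (a : ℝ) < ((a / b : ℕ) + 1) * b := by exact_mod_cast h1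
  exact this.le

theorem NUMA_n60 : ((n60 : ℕ) : ℝ) = w60 := by
  unfold n60 w60
  norm_num

theorem NUMA_n120 : ((n120 : ℕ) : ℝ) = w60 ^ 2 := by
  unfold n120 w60
  norm_num

theorem NUMA_n60pos : 0 < n60 := by unfold n60; norm_num

theorem NUMA_n120pos : 0 < n120 := by unfold n120; norm_num

theorem NUMA_wpos : 0 < w60 := by unfold w60; norm_num

/-- **NUMA** -/
theorem num_A_pr {S : Sta} {lam : ℕ} {V : SV} (hc : SVcond S lam V) :
    (V.h.nr / w60 * (V.p.nr / w60) : ℝ) ≤ V.x / w60 ∧ (V.x / w60 : ℝ) ≤ 1 ∧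
    ((S.eh / w60 + (V.rc + V.sP.e + V.rs + V.cP.e) / w60) *
      (1 + V.x / w60 + (V.x / w60) ^ 2) : ℝ) ≤ V.eh S / w60 ∧
    (S.et / w60 + (V.rk + V.gQ.e + V.rg + V.kQ.e) / w60 : ℝ) ≤ V.et S / w60 ∧
    (V.eh S / w60 + V.et S / w60 : ℝ) ≤ 1 / 1024 ∧
    ((V.c.nr / w60 + V.eh S / w60) * (17 / 16) : ℝ) ≤ V.Cb S ∧
    (V.p.nr / w60 + 1 : ℝ) ≤ V.Pb ∧ (V.q.nr / w60 + 1 : ℝ) ≤ V.Qb := by
  have hW := NUMA_wpos
  have hW0 : w60 ≠ 0 := hW.ne'
  refine ⟨?_, ?_, ?_, ?_, ?_, ?_, ?_, ?_⟩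
  · have h1 := NUMA_div (V.h.nr * V.p.nr) n60 NUMA_n60pos
    rw [NUMA_n60] at h1
    have e : ((V.x : ℕ) : ℝ) = ((V.h.nr * V.p.nr / n60 : ℕ) : ℝ) + 1 := by
      unfold SV.x
      push_cast
      rfl
    rw [e]
    have e2 : (V.h.nr / w60 * (V.p.nr / w60) : ℝ) = (((V.h.nr * V.p.nr : ℕ) : ℝ) / w60) / w60 := by
      push_cast
      field_simp
    rw [e2]
    gcongr
  · rw [div_le_one hW, ← NUMA_n60]
    exact_mod_cast hc.x
  · have h1 := NUMA_div ((S.eh + V.rc + V.sP.e + V.rs + V.cP.e) *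
      (n120 + V.x * n60 + V.x * V.x)) n120 NUMA_n120pos
    rw [NUMA_n120] at h1
    have e : ((V.eh S : ℕ) : ℝ) = (((S.eh + V.rc + V.sP.e + V.rs + V.cP.e) *
      (n120 + V.x * n60 + V.x * V.x) / n120 : ℕ) : ℝ) + 1 := by
      unfold SV.eh
      push_cast
      rfl
    rw [e]
    have e2 : ((S.eh / w60 + (V.rc + V.sP.e + V.rs + V.cP.e) / w60) *
        (1 + V.x / w60 + (V.x / w60) ^ 2) : ℝ) =
        ((((S.eh + V.rc + V.sP.e + V.rs + V.cP.e) *
      (n120 + V.x * n60 + V.x * V.x) : ℕ) : ℝ) / w60 ^ 2) / w60 := by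
      push_cast
      rw [NUMA_n60, NUMA_n120]
      field_simp
      ring
    rw [e2]
    gcongr
  · have e : ((V.et S : ℕ) : ℝ) = S.et + V.rk + V.gQ.e + V.rg + V.kQ.e + 1 := by
      unfold SV.et
      push_cast
      rfl
    rw [e, ← add_div]
    apply div_le_div_of_nonneg_right _ hW.le
    linarith
  · have h1 : (((V.er S : ℕ)) : ℝ) ≤ 2 ^ 50 := by exact_mod_cast hc.er
    have e : ((V.er S : ℕ) : ℝ) = V.eh S + V.et S := by
      unfold SV.er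
      push_cast
      rfl
    rw [e] at h1
    rw [← add_div, div_le_iff₀ hW]
    refine h1.trans ?_
    unfold w60
    norm_num
  · have h1 := NUMA_div ((V.c.nr + V.eh S) * 17) (2 ^ 64) (by positivity)
    have e : ((V.Cb S : ℕ) : ℝ) = (((V.c.nr + V.eh S) * 17 / 2 ^ 64 : ℕ) : ℝ) + 1 := by
      unfold SV.Cb
      push_cast
      rfl
    rw [e]
    refine le_trans (le_of_eq ?_) h1
    push_cast
    unfold w60
    ring
  · have h1 := NUMA_div (V.p.nr) n60 NUMA_n60pos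
    rw [NUMA_n60] at h1
    have e : ((V.Pb : ℕ) : ℝ) = ((V.p.nr / n60 : ℕ) : ℝ) + 2 := by
      unfold SV.Pb
      push_cast
      rfl
    rw [e]
    linarith
  · have h1 := NUMA_div (V.q.nr) n60 NUMA_n60pos
    rw [NUMA_n60] at h1
    have e : ((V.Qb : ℕ) : ℝ) = ((V.q.nr / n60 : ℕ) : ℝ) + 2 := by
      unfold SV.Qb
      push_cast
      rfl
    rw [e]
    linarith

end Pool.Agent.Ecl
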