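import Pool.Agent.Lib_helper51.Ecl.SVDefs

set_option autoImplicit false

namespace Pool.Agent.Ecl

open Real Polynomial K Set

theorem NUMB_div (a b : ℕ) (hb : 0 < b) : (a : ℝ) / b ≤ ((a / b : ℕ) : ℝ) + 1 := by
  have h1 : a < (a / b + 1) * b := by
    have := Nat.lt_div_mul_add hb (a := a)
    rw [add_mul, one_mul]
    exact this
  have hb' : (0 : ℝ) < b := by exact_mod_cast hb
  rw [div_le_iff₀ hb']
  have : (a : ℝ) < ((a / b : ℕ) + 1) * b := by exact_mod_cast h1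
  exact this.le

theorem NUMB_n60 : ((n60 : ℕ) : ℝ) = w60 := by
  unfold n60 w60
  norm_num

theorem NUMB_n60pos : 0 < n60 := by unfold n60; norm_num

theorem NUMB_wpos : 0 < w60 := by unfold w60; norm_num

/-- **NUMB** -/
theorem num_B_pr {S : Sta} {lam : ℕ} {V : SV} (hc : SVcond S lam V) :
    ((V.rp + w60 * (40 * V.JQ.e) + V.h.nr * (10 * V.CSCC.e + 61 * V.CS.e)) / (80 * w60 ^ 2) +
      (V.rq + w60 * (40 * V.JP.e) + V.h.nr * (10 * V.KGKK.e + 61 * V.KG.e)) / (80 * w60 ^ 2) +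
      V.h.nr / w60 * (V.eh S / w60 + V.et S / w60) * ((V.Cb S + 1) * (V.Pb + V.Qb) +
        V.Cb S ^ 3 + 2 * V.Cb S + 3) : ℝ) < V.rho S / w60 := by
  have hW := NUMB_wpos
  have hW0 : w60 ≠ 0 := hW.ne'
  set A : ℕ := V.rp + n60 * (40 * V.JQ.e) + V.h.nr * (10 * V.CSCC.e + 61 * V.CS.e) with hA
  set B : ℕ := V.rq + n60 * (40 * V.JP.e) + V.h.nr * (10 * V.KGKK.e + 61 * V.KG.e) with hB
  set C : ℕ := V.h.nr * V.er S * ((V.Cb S + 1) * (V.Pb + V.Qb) + V.Cb S * V.Cb S * V.Cb S +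
    2 * V.Cb S + 3) with hC
  have e : V.rho S = A / (80 * n60) + B / (80 * n60) + C / n60 + 4 := rfl
  have h80 : 0 < 80 * n60 := Nat.mul_pos (by norm_num) NUMB_n60pos
  have hA1 := NUMB_div A (80 * n60) h80
  have hB1 := NUMB_div B (80 * n60) h80
  have hC1 := NUMB_div C n60 NUMB_n60pos
  have e80 : (((80 * n60 : ℕ)) : ℝ) = 80 * w60 := by
    rw [Nat.cast_mul, NUMB_n60]
    norm_num
  rw [e80] at hA1 hB1
  rw [NUMB_n60] at hC1
  have eA : ((A : ℕ) : ℝ) = V.rp + w60 * (40 * V.JQ.e) + V.h.nr * (10 * V.CSCC.e + 61 * V.CS.e) := by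
    rw [hA]
    push_cast
    rw [NUMB_n60]
  have eB : ((B : ℕ) : ℝ) = V.rq + w60 * (40 * V.JP.e) + V.h.nr * (10 * V.KGKK.e + 61 * V.KG.e) := by
    rw [hB]
    push_cast
    rw [NUMB_n60]
  have eer : ((V.er S : ℕ) : ℝ) = V.eh S + V.et S := by
    unfold SV.er
    push_cast
    rfl
  have eC : ((C : ℕ) : ℝ) = V.h.nr * (V.eh S + V.et S) * ((V.Cb S + 1) * (V.Pb + V.Qb) +
        V.Cb S ^ 3 + 2 * V.Cb S + 3) := by
    rw [hC]
    push_cast
    rw [eer]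
    ring
  clear_value A B C
  rw [e, ← eA, ← eB]
  have e1 : (A : ℝ) / (80 * w60 ^ 2) = (A / (80 * w60)) / w60 := by field_simp
  have e2 : (B : ℝ) / (80 * w60 ^ 2) = (B / (80 * w60)) / w60 := by field_simp
  have e3 : (V.h.nr / w60 * (V.eh S / w60 + V.et S / w60) * ((V.Cb S + 1) * (V.Pb + V.Qb) +
        V.Cb S ^ 3 + 2 * V.Cb S + 3) : ℝ) = (C / w60) / w60 := by
    rw [eC]
    field_simp
  rw [e1, e2, e3, ← add_div, ← add_div, div_lt_div_iff_of_pos_right hW]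
  rw [Nat.cast_add, Nat.cast_add, Nat.cast_add]
  have h4 : ((4 : ℕ) : ℝ) = 4 := by norm_num
  rw [h4]
  linarith

end Pool.Agent.Ecl
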