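import Pool.Agent.Lib_helper51.Ecl.SVDefs

set_option autoImplicit false

namespace Pool.Agent.Ecl

open Real Polynomial K Set

lemma NUMC_n60 : ((n60 : ℕ) : ℝ) = w60 := by
  have : n60 = 2 ^ 60 := rfl
  rw [this]
  unfold w60
  norm_num

lemma NUMC_n120 : ((n120 : ℕ) : ℝ) = w60 ^ 2 := by
  have : n120 = 2 ^ 120 := rfl
  rw [this]
  unfold w60
  norm_num

lemma NUMC_w60 : (0 : ℝ) < w60 := by
  unfold w60
  positivity

lemma NUMC_div (a b : ℕ) (hb : 0 < b) : (a : ℝ) / b ≤ ((a / b : ℕ) : ℝ) + 1 := by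
  have hb' : (0 : ℝ) < b := by exact_mod_cast hb
  rw [div_le_iff₀ hb']
  have h1 : a < b * (a / b + 1) := by
    have := Nat.div_add_mod a b
    have h2 := Nat.mod_lt a hb
    calc a = b * (a / b) + a % b := this.symm
      _ < b * (a / b) + b := by omega
      _ = b * (a / b + 1) := by ring
  have h3 : (a : ℝ) < b * ((a / b : ℕ) + 1) := by exact_mod_cast h1
  linarith

/-- **NUMC** -/
theorem num_C_pr {S : Sta} {lam : ℕ} {V : SV} (hc : SVcond S lam V) {m1 m2 : ℝ}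
    (h1 : 80 * w60 ^ 2 * m1 ≤ max ((V.n11 : ℝ) + 80 * V.q.nr * V.CS.e +
      V.CC.e * (80 * V.CC.nr + 40 * V.CC.e + 152 * w60)) ((V.n22 : ℝ) + 80 * V.p.nr * V.KG.e +
      V.KK.e * (80 * V.KK.nr + 40 * V.KK.e + 152 * w60)))
    (h2 : w60 ^ 2 * m2 ≤ max ((V.n12 : ℝ) + V.q.nr * V.KG.e) ((V.n21 : ℝ) + V.p.nr * V.CS.e)) :
    (V.h.nr / w60 * (m1 + m2) / (2 * (lam / 16)) +
      V.h.nr / w60 * (V.Cb S ^ 2 * (V.Pb + V.Qb + 2) + V.Cb S ^ 4) * (V.Bm S lam / w60) /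
        (lam / 16) ^ 2 +
      V.h.nr / w60 * (V.eh S / w60 + V.et S / w60) * (2 * V.Cb S ^ 3 + 4 * V.Cb S + 1 +
        (V.Pb + V.Qb) * (2 * V.Cb S + 1)) / (lam / 16) : ℝ) ≤ V.mu S lam / w60 := by
  have hw := NUMC_w60
  have hlam : (0 : ℝ) < lam := by exact_mod_cast hc.lam1
  have hn60 : 0 < n60 := Nat.pow_pos (n := 60) (by norm_num : 0 < 2)
  have hn120 : 0 < n120 := Nat.pow_pos (n := 120) (by norm_num : 0 < 2)
  have hM : 80 * w60 ^ 2 * (m1 + m2) ≤ (V.M80 : ℝ) := by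
    have e1 : (V.M80 : ℝ) = max ((V.n11 : ℝ) + 80 * V.q.nr * V.CS.e +
      V.CC.e * (80 * V.CC.nr + 40 * V.CC.e + 152 * w60)) ((V.n22 : ℝ) + 80 * V.p.nr * V.KG.e +
      V.KK.e * (80 * V.KK.nr + 40 * V.KK.e + 152 * w60)) +
      80 * max ((V.n12 : ℝ) + V.q.nr * V.KG.e) ((V.n21 : ℝ) + V.p.nr * V.CS.e) := by
      have e2 : V.M80 = max (V.n11 + 80 * V.q.nr * V.CS.e +
          V.CC.e * (80 * V.CC.nr + 40 * V.CC.e + 152 * n60))
        (V.n22 + 80 * V.p.nr * V.KG.e + V.KK.e * (80 * V.KK.nr + 40 * V.KK.e + 152 * n60)) +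
        80 * max (V.n12 + V.q.nr * V.KG.e) (V.n21 + V.p.nr * V.CS.e) := rfl
      rw [e2]
      push_cast
      rw [NUMC_n60]
    rw [e1]
    linarith
  have t1 : (V.h.nr / w60 * (m1 + m2) / (2 * (lam / 16)) : ℝ) ≤
      (((V.h.nr * V.M80 / (10 * lam * n120) : ℕ) : ℝ) + 1) / w60 := by
    have hb : 0 < 10 * lam * n120 := by
      have := hc.lam1
      positivity
    refine le_trans ?_ (div_le_div_of_nonneg_right (NUMC_div (V.h.nr * V.M80) (10 * lam * n120) hb)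
      hw.le)
    push_cast
    rw [NUMC_n120]
    have h3 : (V.h.nr / w60 * (m1 + m2) / (2 * (lam / 16)) : ℝ) =
        V.h.nr * (80 * w60 ^ 2 * (m1 + m2)) / (10 * lam * w60 ^ 2) / w60 := by
      field_simp
      ring
    rw [h3]
    apply div_le_div_of_nonneg_right _ hw.le
    apply div_le_div_of_nonneg_right _ (by positivity)
    exact mul_le_mul_of_nonneg_left hM (by positivity)
  have t2 : (V.h.nr / w60 * (V.Cb S ^ 2 * (V.Pb + V.Qb + 2) + V.Cb S ^ 4) * (V.Bm S lam / w60) /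
        (lam / 16) ^ 2 : ℝ) ≤
      (((V.h.nr * (V.Cb S * V.Cb S * (V.Pb + V.Qb + 2) + V.Cb S * V.Cb S * V.Cb S * V.Cb S) *
      V.Bm S lam * 256 / (lam * lam * n60) : ℕ) : ℝ) + 1) / w60 := by
    have hb : 0 < lam * lam * n60 := by
      have := hc.lam1
      positivity
    refine le_trans (le_of_eq ?_) (div_le_div_of_nonneg_right (NUMC_div
      (V.h.nr * (V.Cb S * V.Cb S * (V.Pb + V.Qb + 2) + V.Cb S * V.Cb S * V.Cb S * V.Cb S) *
      V.Bm S lam * 256) (lam * lam * n60) hb) hw.le)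
    push_cast
    rw [NUMC_n60]
    field_simp
    ring
  have t3 : (V.h.nr / w60 * (V.eh S / w60 + V.et S / w60) * (2 * V.Cb S ^ 3 + 4 * V.Cb S + 1 +
        (V.Pb + V.Qb) * (2 * V.Cb S + 1)) / (lam / 16) : ℝ) ≤
      (((V.h.nr * V.er S * (2 * V.Cb S * V.Cb S * V.Cb S + 4 * V.Cb S + 1 +
      (V.Pb + V.Qb) * (2 * V.Cb S + 1)) * 16 / (lam * n60) : ℕ) : ℝ) + 1) / w60 := by
    have hb : 0 < lam * n60 := by
      have := hc.lam1
      positivity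
    refine le_trans (le_of_eq ?_) (div_le_div_of_nonneg_right (NUMC_div
      (V.h.nr * V.er S * (2 * V.Cb S * V.Cb S * V.Cb S + 4 * V.Cb S + 1 +
      (V.Pb + V.Qb) * (2 * V.Cb S + 1)) * 16) (lam * n60) hb) hw.le)
    have her : (V.er S : ℝ) = V.eh S + V.et S := by
      unfold SV.er
      push_cast
      rfl
    push_cast
    rw [NUMC_n60, her]
    field_simp
  have hmu : (V.mu S lam : ℝ) = ((V.h.nr * V.M80 / (10 * lam * n120) : ℕ) : ℝ) +
      ((V.h.nr * (V.Cb S * V.Cb S * (V.Pb + V.Qb + 2) + V.Cb S * V.Cb S * V.Cb S * V.Cb S) *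
      V.Bm S lam * 256 / (lam * lam * n60) : ℕ) : ℝ) +
      ((V.h.nr * V.er S * (2 * V.Cb S * V.Cb S * V.Cb S + 4 * V.Cb S + 1 +
      (V.Pb + V.Qb) * (2 * V.Cb S + 1)) * 16 / (lam * n60) : ℕ) : ℝ) + 3 := by
    have : V.mu S lam = (V.h.nr * V.M80 / (10 * lam * n120)) +
      (V.h.nr * (V.Cb S * V.Cb S * (V.Pb + V.Qb + 2) + V.Cb S * V.Cb S * V.Cb S * V.Cb S) *
      V.Bm S lam * 256 / (lam * lam * n60)) +
      (V.h.nr * V.er S * (2 * V.Cb S * V.Cb S * V.Cb S + 4 * V.Cb S + 1 +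
      (V.Pb + V.Qb) * (2 * V.Cb S + 1)) * 16 / (lam * n60)) + 3 := rfl
    rw [this]
    push_cast
    rfl
  refine (add_le_add (add_le_add t1 t2) t3).trans (le_of_eq ?_)
  rw [hmu]
  ring

end Pool.Agent.Ecl
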