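import Pool.Agent.Lib_helper51.Ecl.SVDefs

set_option autoImplicit false

namespace Pool.Agent.Ecl

open Real Polynomial K Set

theorem NUMD_div (a b : ℕ) (hb : 0 < b) : (a : ℝ) / b ≤ ((a / b : ℕ) : ℝ) + 1 := by
  have h1 : a < (a / b + 1) * b := by
    have := Nat.lt_div_mul_add hb (a := a)
    rw [add_mul, one_mul]
    exact this
  have hb' : (0 : ℝ) < b := by exact_mod_cast hb
  rw [div_le_iff₀ hb']
  have : (a : ℝ) < ((a / b : ℕ) + 1) * b := by exact_mod_cast h1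
  exact this.le

theorem NUMD_n60 : ((n60 : ℕ) : ℝ) = w60 := by
  unfold n60 w60
  norm_num

theorem NUMD_n60pos : 0 < n60 := by unfold n60; norm_num

theorem NUMD_wpos : 0 < w60 := by unfold w60; norm_num

theorem NUMD_exp {z : ℝ} (h0 : 0 ≤ z) (h1 : z ≤ 1) : exp z ≤ 1 + z + z ^ 2 := by
  have := Real.abs_exp_sub_one_sub_id_le (x := z) (by rw [abs_of_nonneg h0]; exact h1)
  have := (abs_le.mp this).2
  linarith

/-- **NUMD** -/
theorem num_D_pr {S : Sta} {lam : ℕ} {V : SV} (hc : SVcond S lam V) :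
    ((E0of S lam / w60 + V.rho S / w60) * exp (V.mu S lam / w60) : ℝ) ≤ V.E1 S lam / w60 ∧
    (V.E1 S lam / w60 : ℝ) ≤ V.Bm S lam / w60 ∧ (V.Bm S lam / w60 : ℝ) ≤ 1 ∧
    (32 * (V.Bm S lam / w60) : ℝ) ≤ lam / 16 ∧
    (V.E1 S lam / w60 / (lam / 16) : ℝ) ≤ V.dX S lam / w60 := by
  have hW := NUMD_wpos
  have hW0 : w60 ≠ 0 := hW.ne'
  have hlam : (0 : ℝ) < lam := by exact_mod_cast hc.lam1
  refine ⟨?_, ?_, ?_, ?_, ?_⟩
  · set Y : ℝ := ((V.y S lam : ℕ) : ℝ) with hY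
    have hY0 : 0 ≤ Y := Nat.cast_nonneg _
    have hmu : (V.mu S lam : ℝ) / 4 ≤ Y := by
      have h1 := NUMD_div (V.mu S lam) 4 (by norm_num)
      have e : Y = ((V.mu S lam / 4 : ℕ) : ℝ) + 1 := by
        rw [hY]
        unfold SV.y
        push_cast
        rfl
      rw [e]
      exact_mod_cast h1
    have hY1 : Y / w60 ≤ 1 := by
      rw [div_le_one hW]
      have h1 : Y ≤ 2 ^ 58 := by
        rw [hY]
        exact_mod_cast hc.y
      refine h1.trans ?_
      unfold w60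
      norm_num
    have hF : w60 * exp (Y / w60) ≤ (V.F S lam : ℝ) := by
      have h1 := NUMD_div (V.y S lam * V.y S lam) n60 NUMD_n60pos
      rw [NUMD_n60] at h1
      have e : ((V.F S lam : ℕ) : ℝ) = w60 + Y + (((V.y S lam * V.y S lam / n60 : ℕ) : ℝ) + 1) := by
        have e1 : V.F S lam = n60 + V.y S lam + V.y S lam * V.y S lam / n60 + 1 := rfl
        rw [e1, Nat.cast_add, Nat.cast_add, Nat.cast_add, NUMD_n60]
        push_cast
        ring
      rw [e]
      have h2 := NUMD_exp (div_nonneg hY0 hW.le) hY1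
      have h3 : w60 * exp (Y / w60) ≤ w60 * (1 + Y / w60 + (Y / w60) ^ 2) :=
        mul_le_mul_of_nonneg_left h2 hW.le
      have h4 : w60 * (1 + Y / w60 + (Y / w60) ^ 2) = w60 + Y + Y * Y / w60 := by
        field_simp
      have h5 : (((V.y S lam * V.y S lam : ℕ)) : ℝ) / w60 = Y * Y / w60 := by
        push_cast
        rfl
      rw [h5] at h1
      linarith
    have hE : (E0of S lam + V.rho S : ℝ) * (V.F S lam : ℝ) ^ 4 / 2 ^ 240 ≤ (V.E1 S lam : ℝ) := by
      have h1 := NUMD_div ((E0of S lam + V.rho S) * (V.F S lam * V.F S lam * V.F S lam *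
        V.F S lam)) (2 ^ 240) (by positivity)
      have e : ((V.E1 S lam : ℕ) : ℝ) = (((E0of S lam + V.rho S) *
          (V.F S lam * V.F S lam * V.F S lam * V.F S lam) / 2 ^ 240 : ℕ) : ℝ) + 1 := by
        have e1 : V.E1 S lam = (E0of S lam + V.rho S) *
          (V.F S lam * V.F S lam * V.F S lam * V.F S lam) / 2 ^ 240 + 1 := rfl
        rw [e1, Nat.cast_add, Nat.cast_one]
      rw [e]
      refine le_trans (le_of_eq ?_) h1
      push_cast
      ring
    have h4 : exp (V.mu S lam / w60 : ℝ) ≤ exp (Y / w60) ^ 4 := by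
      rw [← Real.exp_nat_mul]
      apply Real.exp_le_exp.mpr
      push_cast
      rw [div_le_iff₀ hW]
      have : 4 * (Y / w60) * w60 = 4 * Y := by field_simp
      rw [this]
      linarith
    have h5 : (w60 * exp (Y / w60)) ^ 4 ≤ (V.F S lam : ℝ) ^ 4 :=
      pow_le_pow_left₀ (by positivity) hF 4
    have h6 : w60 ^ 4 = 2 ^ 240 := by
      unfold w60
      norm_num
    rw [← add_div, div_mul_eq_mul_div]
    apply div_le_div_of_nonneg_right _ hW.le
    have h7 : (E0of S lam + V.rho S : ℝ) * exp (V.mu S lam / w60 : ℝ) ≤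
        (E0of S lam + V.rho S : ℝ) * exp (Y / w60) ^ 4 :=
      mul_le_mul_of_nonneg_left h4 (by positivity)
    have h8 : (E0of S lam + V.rho S : ℝ) * exp (Y / w60) ^ 4 ≤
        (E0of S lam + V.rho S : ℝ) * (V.F S lam : ℝ) ^ 4 / 2 ^ 240 := by
      rw [le_div_iff₀ (by positivity), mul_assoc]
      apply mul_le_mul_of_nonneg_left _ (by positivity)
      rw [mul_pow, h6] at h5
      linarith
    linarith
  · gcongr
    exact_mod_cast hc.E1
  · rw [div_le_one hW, ← NUMD_n60]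
    exact_mod_cast hc.B2
  · have h1 : (V.Bm S lam : ℝ) * 16 ≤ lam * 2 ^ 55 := by exact_mod_cast hc.B1
    rw [← mul_div_assoc, div_le_iff₀ hW]
    unfold w60
    linarith
  · have h1 := NUMD_div (V.E1 S lam * 16) lam hc.lam1
    have e : ((V.dX S lam : ℕ) : ℝ) = ((V.E1 S lam * 16 / lam : ℕ) : ℝ) + 1 := by
      have e1 : V.dX S lam = V.E1 S lam * 16 / lam + 1 := rfl
      rw [e1, Nat.cast_add, Nat.cast_one]
    rw [e]
    have e2 : (V.E1 S lam / w60 / (lam / 16) : ℝ) = (((V.E1 S lam * 16 : ℕ) : ℝ) / lam) / w60 := by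
      push_cast
      field_simp
    rw [e2]
    gcongr

/-- **NUMD** -/
theorem near_lam_pr {S : Sta} {lam : ℕ} (hlam : 1 ≤ lam) (hS : 1 ≤ S.lam)
    {c s k g p q eh et : ℝ} {x : St}
    (h : Near c s k g p q eh et (S.E / w60) (S.lam / 16) x) :
    Near c s k g p q eh et (E0of S lam / w60) (lam / 16) x := by
  have hW := NUMD_wpos
  obtain ⟨ξ, η, h1, h2, h3, h4⟩ := h
  refine ⟨ξ, η, h1, h2, h3, ?_⟩
  have hl : (0 : ℝ) < lam := by exact_mod_cast hlam
  have hs : (0 : ℝ) < S.lam := by exact_mod_cast hS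
  have hA : 0 ≤ (x.xi - ξ) ^ 2 + (x.eta - η) ^ 2 := by positivity
  have hB : 0 ≤ (x.p - p) ^ 2 + (x.q - q) ^ 2 := by positivity
  rcases Nat.lt_or_ge S.lam lam with hlt | hle
  · have e : E0of S lam = S.E * lam / S.lam + 1 := by
      unfold E0of
      have : Nat.ble lam S.lam = false := by
        rw [Bool.eq_false_iff]
        intro hb
        exact absurd (Nat.le_of_ble_eq_true hb) (not_le.mpr hlt)
      rw [this]
      rfl
    have h5 := NUMD_div (S.E * lam) S.lam hS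
    have h6 : ((E0of S lam : ℕ) : ℝ) = ((S.E * lam / S.lam : ℕ) : ℝ) + 1 := by
      rw [e, Nat.cast_add, Nat.cast_one]
    rw [← h6] at h5
    have h7 : (S.E : ℝ) / w60 * (lam / S.lam) ≤ (E0of S lam : ℝ) / w60 := by
      have e2 : (S.E : ℝ) / w60 * (lam / S.lam) = (((S.E * lam : ℕ) : ℝ) / S.lam) / w60 := by
        push_cast
        field_simp
      rw [e2]
      gcongr
    have h8 : 1 ≤ ((lam : ℝ) / S.lam) ^ 2 := by
      have : 1 ≤ (lam : ℝ) / S.lam := by
        rw [le_div_iff₀ hs, one_mul]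
        exact_mod_cast hlt.le
      nlinarith
    have h9 : ((S.E : ℝ) / w60 * (lam / S.lam)) ^ 2 ≤ ((E0of S lam : ℝ) / w60) ^ 2 :=
      pow_le_pow_left₀ (by positivity) h7 2
    have h10 : ((lam : ℝ) / S.lam) ^ 2 * (((S.lam : ℝ) / 16) ^ 2 * ((x.xi - ξ) ^ 2 +
        (x.eta - η) ^ 2) + (x.p - p) ^ 2 + (x.q - q) ^ 2) ≤
        ((lam : ℝ) / S.lam) ^ 2 * ((S.E : ℝ) / w60) ^ 2 :=
      mul_le_mul_of_nonneg_left h4 (by positivity)
    have h11 : ((lam : ℝ) / S.lam) ^ 2 * ((S.lam : ℝ) / 16) ^ 2 = ((lam : ℝ) / 16) ^ 2 := by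
      field_simp
    have h12 : (x.p - p) ^ 2 + (x.q - q) ^ 2 ≤
        ((lam : ℝ) / S.lam) ^ 2 * ((x.p - p) ^ 2 + (x.q - q) ^ 2) :=
      le_mul_of_one_le_left hB h8
    calc ((lam : ℝ) / 16) ^ 2 * ((x.xi - ξ) ^ 2 + (x.eta - η) ^ 2) + (x.p - p) ^ 2 +
          (x.q - q) ^ 2
        ≤ ((lam : ℝ) / S.lam) ^ 2 * (((S.lam : ℝ) / 16) ^ 2 * ((x.xi - ξ) ^ 2 +
          (x.eta - η) ^ 2) + (x.p - p) ^ 2 + (x.q - q) ^ 2) := by
          rw [← h11]
          linarith
      _ ≤ ((lam : ℝ) / S.lam) ^ 2 * ((S.E : ℝ) / w60) ^ 2 := h10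
      _ = ((S.E : ℝ) / w60 * (lam / S.lam)) ^ 2 := by ring
      _ ≤ _ := h9
  · have e : E0of S lam = S.E := by
      unfold E0of
      have : Nat.ble lam S.lam = true := Nat.ble_eq_true_of_le hle
      rw [this]
      rfl
    rw [e]
    have h5 : ((lam : ℝ) / 16) ^ 2 ≤ ((S.lam : ℝ) / 16) ^ 2 := by
      apply pow_le_pow_left₀ (by positivity)
      have : (lam : ℝ) ≤ S.lam := by exact_mod_cast hle
      linarith
    have h6 := mul_le_mul_of_nonneg_right h5 hA
    linarith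

end Pool.Agent.Ecl
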