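import Pool.Agent.Lib_helper51.Ecl.SVDefs

/-! # Block ODE: global solutions of the cut off system -/

set_option autoImplicit false

namespace Pool.Agent.Ecl

open Set Filter Topology Real
open scoped NNReal

section ode
variable {E : Type*} [NormedAddCommGroup E] [NormedSpace ℝ E] [CompleteSpace E]

theorem ODE_local {G : E → E} {L M : ℝ≥0} (hL : LipschitzWith L G)
    (hM : ∀ x, ‖G x‖ ≤ M) {T : ℝ} (hT : 0 < T) (x : E) :
    ∃ γ : ℝ → E, γ 0 = x ∧ ∀ t ∈ Ioo (-T) T, HasDerivAt γ (G (γ t)) t := by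
  have hmem : (0 : ℝ) ∈ Icc (-T) T := ⟨by linarith, by linarith⟩
  let a : ℝ≥0 := M * ⟨T, hT.le⟩
  have hpl : IsPicardLindelof (fun _ => G) (tmin := -T) (tmax := T)
      ⟨0, hmem⟩ x a 0 M L := by
    refine IsPicardLindelof.of_time_independent (fun y _ => hM y) hL.lipschitzOnWith ?_
    simp only [a, NNReal.coe_zero, sub_zero, zero_sub, neg_neg,
      max_self]
    exact le_rfl
  obtain ⟨γ, h0, h⟩ := hpl.exists_eq_forall_mem_Icc_hasDerivWithinAt₀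
  refine ⟨γ, h0, fun t ht => ?_⟩
  exact (h t ⟨ht.1.le, ht.2.le⟩).hasDerivAt (Icc_mem_nhds ht.1 ht.2)

theorem ODE_global {G : E → E} {L M : ℝ≥0} (hL : LipschitzWith L G)
    (hM : ∀ x, ‖G x‖ ≤ M) (x : E) :
    ∃ γ : ℝ → E, γ 0 = x ∧ ∀ t, HasDerivAt γ (G (γ t)) t := by
  have hn : ∀ n : ℕ, (0 : ℝ) < n + 1 := fun n => by positivity
  choose γ h0 h using fun n : ℕ => ODE_local hL hM (hn n) x
  have huniq : ∀ m n : ℕ, m ≤ n → EqOn (γ m) (γ n) (Ioo (-(m + 1 : ℝ)) (m + 1)) := by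
    intro m n hmn
    have hmn' : (m : ℝ) ≤ n := by exact_mod_cast hmn
    refine ODE_solution_unique_of_mem_Ioo (v := fun _ => G) (s := fun _ => univ) (K := L)
      (t₀ := 0) (fun t _ => hL.lipschitzOnWith) ⟨by linarith [hn m], hn m⟩
      (fun t ht => ⟨h m t ht, trivial⟩)
      (fun t ht => ⟨h n t ⟨by linarith [ht.1], by linarith [ht.2]⟩, trivial⟩) ?_
    rw [h0, h0]
  have hce : ∀ t : ℝ, t ∈ Ioo (-((⌈|t|⌉₊ : ℝ) + 1)) ((⌈|t|⌉₊ : ℝ) + 1) := by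
    intro t
    have h1 := Nat.le_ceil |t|
    constructor
    · linarith [neg_abs_le t]
    · linarith [le_abs_self t]
  refine ⟨fun t => γ ⌈|t|⌉₊ t, ?_, fun t => ?_⟩
  · simp only [abs_zero, Nat.ceil_zero]
    exact h0 0
  · have hev : (fun s => γ ⌈|s|⌉₊ s) =ᶠ[𝓝 t] γ ⌈|t|⌉₊ := by
      filter_upwards [Ioo_mem_nhds (hce t).1 (hce t).2] with s hs
      rcases le_total ⌈|s|⌉₊ ⌈|t|⌉₊ with h1 | h1
      · exact huniq _ _ h1 (hce s)
      · exact (huniq _ _ h1 hs).symm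
    exact (h _ t (hce t)).congr_of_eventuallyEq hev

end ode

theorem ODE_cl_lip : LipschitzWith 1 cl := by
  unfold cl
  exact (LipschitzWith.id.const_min _).const_max _

theorem ODE_cl_abs (x : ℝ) : |cl x| ≤ 2 ^ 20 := by
  unfold cl
  rw [abs_le]
  refine ⟨le_max_left _ _, max_le ?_ (min_le_left _ _)⟩
  norm_num

/-- the field in five variables -/
noncomputable def ODEH (y : ℝ × ℝ × ℝ × ℝ × ℝ) : ℝ × ℝ × ℝ × ℝ :=
  (y.2.2.2.1, y.2.2.2.2,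
    2 * ((cosh y.1 ^ 2 - y.2.1 ^ 2) / 4) * y.2.2.2.2 +
      (sinh y.1 * cosh y.1 * (2 * cosh y.1 ^ 2 - 1) / 16 + sinh y.1 / 2
        - CJ / 4 * (sinh y.1 * cosh y.1)),
    -(2 * ((cosh y.1 ^ 2 - y.2.1 ^ 2) / 4) * y.2.2.2.1) +
      (y.2.2.1 * y.2.1 * (2 * y.2.1 ^ 2 - 1) / 16 - CJ / 4 * (y.2.2.1 * y.2.1)))

theorem ODEH_contDiff : ContDiff ℝ 1 ODEH := by
  unfold ODEH
  have h1 : ContDiff ℝ 1 (fun y : ℝ × ℝ × ℝ × ℝ × ℝ => cosh y.1) :=
    Real.contDiff_cosh.comp contDiff_fst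
  have h2 : ContDiff ℝ 1 (fun y : ℝ × ℝ × ℝ × ℝ × ℝ => sinh y.1) :=
    Real.contDiff_sinh.comp contDiff_fst
  fun_prop

/-- the inner map -/
noncomputable def ODEI (x : ℝ × ℝ × ℝ × ℝ) : ℝ × ℝ × ℝ × ℝ × ℝ :=
  (cl x.1, cos x.2.1, sin x.2.1, cl x.2.2.1, cl x.2.2.2)

theorem ODEI_lip : LipschitzWith 1 ODEI := by
  have hcl : ∀ x y : ℝ, dist (cl x) (cl y) ≤ dist x y := fun x y => by
    simpa using ODE_cl_lip.dist_le_mul x y
  have hc : ∀ x y : ℝ, dist (cos x) (cos y) ≤ dist x y := fun x y => by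
    rw [Real.dist_eq, Real.dist_eq]
    exact Real.abs_cos_sub_cos_le _ _
  have hs : ∀ x y : ℝ, dist (sin x) (sin y) ≤ dist x y := fun x y => by
    rw [Real.dist_eq, Real.dist_eq]
    exact Real.abs_sin_sub_sin_le _ _
  refine LipschitzWith.of_dist_le_mul fun x y => ?_
  rw [NNReal.coe_one, one_mul]
  have h1 : dist x.1 y.1 ≤ dist x y := le_max_left _ _
  have h2 : dist x.2 y.2 ≤ dist x y := le_max_right _ _
  have h21 : dist x.2.1 y.2.1 ≤ dist x.2 y.2 := le_max_left _ _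
  have h22 : dist x.2.2 y.2.2 ≤ dist x.2 y.2 := le_max_right _ _
  have h221 : dist x.2.2.1 y.2.2.1 ≤ dist x.2.2 y.2.2 := le_max_left _ _
  have h222 : dist x.2.2.2 y.2.2.2 ≤ dist x.2.2 y.2.2 := le_max_right _ _
  refine max_le ((hcl _ _).trans h1) (max_le ((hc _ _).trans (h21.trans h2)) (max_le
    ((hs _ _).trans (h21.trans h2)) (max_le ((hcl _ _).trans (h221.trans (h22.trans h2)))
    ((hcl _ _).trans (h222.trans (h22.trans h2))))))

theorem ODEI_mem (x : ℝ × ℝ × ℝ × ℝ) : ODEI x ∈ Metric.closedBall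
    (0 : ℝ × ℝ × ℝ × ℝ × ℝ) (2 ^ 20) := by
  have h1 : ∀ y : ℝ, |cos y| ≤ 2 ^ 20 := fun y => (abs_cos_le_one y).trans (by norm_num)
  have h2 : ∀ y : ℝ, |sin y| ≤ 2 ^ 20 := fun y => (abs_sin_le_one y).trans (by norm_num)
  rw [mem_closedBall_zero_iff]
  unfold ODEI
  simp only [Prod.norm_def, Real.norm_eq_abs]
  exact max_le (ODE_cl_abs _) (max_le (h1 _) (max_le (h2 _) (max_le (ODE_cl_abs _)
    (ODE_cl_abs _))))

theorem exists_sol_pr (x : St) : ∃ z : ℝ → St, z 0 = x ∧ ClSol z := by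
  have hK : IsCompact (Metric.closedBall (0 : ℝ × ℝ × ℝ × ℝ × ℝ) (2 ^ 20)) :=
    isCompact_closedBall _ _
  obtain ⟨L, hL⟩ := ODEH_contDiff.contDiffOn.exists_lipschitzOnWith one_ne_zero
    (convex_closedBall (0 : ℝ × ℝ × ℝ × ℝ × ℝ) (2 ^ 20)) hK
  obtain ⟨M, hM⟩ := hK.exists_bound_of_continuousOn ODEH_contDiff.continuous.continuousOn
  have hLG : LipschitzWith (L * 1) (ODEH ∘ ODEI) := by
    rw [← lipschitzOnWith_univ]
    exact hL.comp (lipschitzOnWith_univ.2 ODEI_lip) fun y _ => ODEI_mem y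
  have hMG : ∀ y, ‖(ODEH ∘ ODEI) y‖ ≤ (M.toNNReal : ℝ≥0) := fun y =>
    (hM _ (ODEI_mem y)).trans (Real.le_coe_toNNReal M)
  obtain ⟨γ, h0, h⟩ := ODE_global hLG hMG (x.xi, x.eta, x.p, x.q)
  refine ⟨fun t => ⟨(γ t).1, (γ t).2.1, (γ t).2.2.1, (γ t).2.2.2⟩, ?_, fun t => ?_⟩
  · simp only [h0]
  · have h1 := h t
    have h2 := h1.fst
    have h3 := h1.snd
    have h4 := h3.fst
    have h5 := h3.snd
    have h6 := h5.fst
    have h7 := h5.snd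
    exact ⟨h2, h4, h6, h7⟩

end Pool.Agent.Ecl
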