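import Pool.Agent.Lib_helper51.Ecl.SVDefs
import Pool.Agent.Lib_helper51.EclS.CTXCA
import Pool.Agent.Lib_helper51.EclS.LSTCA
import Pool.Agent.Lib_helper51.EclS.NUMAA
import Pool.Agent.Lib_helper51.EclS.NUMDA
import Pool.Agent.Lib_helper51.EclS.VALBA

set_option autoImplicit false

namespace Pool.Agent.Ecl

open Real Polynomial K Set

theorem OUT_w60_pos : (0 : ℝ) < w60 := by
  unfold w60; positivity

theorem OUT_lv_eq (L : List ℕ) (u v t : ℝ) : w60 * lv L u v t = val (lpoly L) u v t := by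
  unfold lv
  field_simp [OUT_w60_pos.ne']

theorem OUT_dlv_eq (L : List ℕ) (u v t : ℝ) : w60 * dlv L u v t = val (dlpoly L) u v t := by
  unfold dlv
  field_simp [OUT_w60_pos.ne']

theorem OUT_lok {L : List ℕ} {y0 y1 : ℕ} {A : TM} (h : LOK L y0 y1 A) {u v t : ℝ}
    (hu : |u| ≤ 1) (hv : |v| ≤ 1) (ht : 0 ≤ t) (ht1 : t ≤ 1) :
    (lo (cd y0) A.nr : ℝ) ≤ w60 * lv L u v t ∧ w60 * lv L u v t ≤ (hi (cd y0) A.nr : ℝ) ∧
      w60 * |lv L u v t| ≤ (A.nr : ℝ) := by
  have h1 := lo_le_val (lpoly L) h.tm.nr hu hv ht ht1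
  have h2 := abs_val_le (lpoly L) hu hv ht ht1
  rw [h.c0, ← OUT_lv_eq] at h1
  rw [← OUT_lv_eq, abs_mul, abs_of_pos OUT_w60_pos] at h2
  refine ⟨h1.1, h1.2, h2.trans ?_⟩
  exact_mod_cast h.tm.nr

theorem OUT_end {L : List ℕ} {y0 y1 : ℕ} {A : TM} (h : LOK L y0 y1 A) {nd : ℕ}
    (hd : lnorm (dlpoly L) ≤ (nd : ℤ)) {u v t : ℝ}
    (hu : |u| ≤ 1) (hv : |v| ≤ 1) (ht : 0 ≤ t) (ht1 : t ≤ 1) :
    |w60 * lv L u v t - w60 * pv y1 u v| ≤ (1 - t) * (nd : ℝ) := by
  rw [← h.v1 u v]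
  have hb : ∀ s ∈ Icc (0 : ℝ) 1, ‖w60 * dlv L u v s‖ ≤ (nd : ℝ) := by
    intro s hs
    rw [Real.norm_eq_abs, OUT_dlv_eq]
    refine (abs_val_le (dlpoly L) hu hv hs.1 hs.2).trans ?_
    exact_mod_cast hd
  have hD : ∀ s ∈ Icc (0 : ℝ) 1,
      HasDerivWithinAt (fun s => w60 * lv L u v s) (w60 * dlv L u v s) (Icc 0 1) s := by
    intro s _
    exact ((lv_deriv L u v s).const_mul w60).hasDerivWithinAt
  have := (convex_Icc (0 : ℝ) 1).norm_image_sub_le_of_norm_hasDerivWithin_le hD hb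
    (x := 1) (y := t) ⟨zero_le_one, le_rfl⟩ ⟨ht, ht1⟩
  simp only [Real.norm_eq_abs] at this
  rw [abs_sub_comm t 1, abs_of_nonneg (by linarith : (0:ℝ) ≤ 1 - t)] at this
  linarith [this]

theorem OUT_exp : exp (1 / 32 : ℝ) ≤ 17 / 16 := by
  have h := Real.exp_bound_div_one_sub_of_interval (x := (1 / 32 : ℝ)) (by norm_num) (by norm_num)
  refine h.trans ?_
  norm_num

theorem OUT_cosh {a b : ℝ} (h : |a - b| ≤ 1 / 32) : cosh a ≤ 17 / 16 * cosh b := by
  have h1 : exp a ≤ 17 / 16 * exp b := by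
    have : exp a = exp (a - b) * exp b := by rw [← exp_add]; ring_nf
    rw [this]
    refine mul_le_mul_of_nonneg_right ?_ (exp_pos b).le
    exact (exp_le_exp.2 ((le_abs_self _).trans h)).trans OUT_exp
  have h2 : exp (-a) ≤ 17 / 16 * exp (-b) := by
    have : exp (-a) = exp (-(a - b)) * exp (-b) := by rw [← exp_add]; ring_nf
    rw [this]
    refine mul_le_mul_of_nonneg_right ?_ (exp_pos _).le
    exact (exp_le_exp.2 ((neg_le_abs _).trans h)).trans OUT_exp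
  rw [cosh_eq, cosh_eq]
  linarith

theorem OUT_abs_sinh_le (a : ℝ) : |sinh a| ≤ cosh a := by
  rw [abs_le]
  constructor
  · have := cosh_add_sinh a
    have h2 := exp_pos a
    linarith
  · have := cosh_sub_sinh a
    have h2 := exp_pos (-a)
    linarith

theorem OUT_abs_le_cosh (a : ℝ) : |a| ≤ cosh a := by
  have h : |a| ≤ |sinh a| := by
    rcases le_total 0 a with h | h
    · rw [abs_of_nonneg h, abs_of_nonneg (sinh_nonneg_iff.2 h)]
      exact self_le_sinh_iff.2 h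
    · rw [abs_of_nonpos h, abs_of_nonpos (sinh_nonpos_iff.2 h)]
      have := sinh_le_self_iff.2 h
      linarith
  exact h.trans (OUT_abs_sinh_le a)

/-- mean value for sinh and cosh -/
theorem OUT_mv {a b C : ℝ} (h : |a - b| ≤ 1 / 32) (hC : cosh b * (17 / 16) ≤ C) :
    |sinh a - sinh b| ≤ C * |a - b| ∧ |cosh a - cosh b| ≤ C * |a - b| := by
  have hb : ∀ s ∈ Set.uIcc b a, cosh s ≤ C := by
    intro s hs
    have h1 : |s - b| ≤ |a - b| := by
      have := Set.abs_sub_left_of_mem_uIcc hs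
      exact this
    have h2 := OUT_cosh (h1.trans h)
    linarith
  constructor
  · have := (convex_uIcc b a).norm_image_sub_le_of_norm_hasDerivWithin_le
      (f := sinh) (f' := cosh) (C := C)
      (fun s _ => (hasDerivAt_sinh s).hasDerivWithinAt)
      (fun s hs => by rw [Real.norm_eq_abs, abs_of_pos (cosh_pos s)]; exact hb s hs)
      (x := b) (y := a) Set.left_mem_uIcc Set.right_mem_uIcc
    simpa [Real.norm_eq_abs] using this
  · have := (convex_uIcc b a).norm_image_sub_le_of_norm_hasDerivWithin_le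
      (f := cosh) (f' := sinh) (C := C)
      (fun s _ => (hasDerivAt_cosh s).hasDerivWithinAt)
      (fun s hs => by rw [Real.norm_eq_abs]; exact (OUT_abs_sinh_le s).trans (hb s hs))
      (x := b) (y := a) Set.left_mem_uIcc Set.right_mem_uIcc
    simpa [Real.norm_eq_abs] using this

theorem OUT_abs_cos_sub (a b : ℝ) : |cos a - cos b| ≤ |a - b| := by
  have := (convex_univ (𝕜 := ℝ) (E := ℝ)).norm_image_sub_le_of_norm_hasDerivWithin_le
      (f := cos) (f' := fun x => -sin x) (C := 1)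
      (fun s _ => (hasDerivAt_cos s).hasDerivWithinAt)
      (fun s hs => by rw [Real.norm_eq_abs, abs_neg]; exact abs_sin_le_one s)
      (x := b) (y := a) (Set.mem_univ _) (Set.mem_univ _)
  simpa [Real.norm_eq_abs] using this

theorem OUT_abs_sin_sub (a b : ℝ) : |sin a - sin b| ≤ |a - b| := by
  have := (convex_univ (𝕜 := ℝ) (E := ℝ)).norm_image_sub_le_of_norm_hasDerivWithin_le
      (f := sin) (f' := cos) (C := 1)
      (fun s _ => (hasDerivAt_sin s).hasDerivWithinAt)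
      (fun s hs => by rw [Real.norm_eq_abs]; exact abs_cos_le_one s)
      (x := b) (y := a) (Set.mem_univ _) (Set.mem_univ _)
  simpa [Real.norm_eq_abs] using this

theorem OUT_abs_of_sq {a b E : ℝ} (hE : 0 ≤ E) (h : a ^ 2 + b ^ 2 ≤ E ^ 2) :
    |a| ≤ E ∧ |b| ≤ E := by
  constructor
  · exact abs_le_of_sq_le_sq (by nlinarith [sq_nonneg b]) hE
  · exact abs_le_of_sq_le_sq (by nlinarith [sq_nonneg a]) hE

/-- what follows from `Near` -/
theorem OUT_near {c s k g p q eh et E lam dX C : ℝ} {x : St} (het : 0 ≤ et) (hE : 0 ≤ E)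
    (hlam : 0 < lam) (hdX : E / lam ≤ dX) (h32 : 32 * E ≤ lam)
    (hC : (|c| + eh) * (17 / 16) ≤ C)
    (hx : Near c s k g p q eh et E lam x) :
    |x.xi| ≤ C + 1 ∧ |sinh x.xi - s| ≤ eh + C * dX ∧ |cosh x.xi - c| ≤ eh + C * dX ∧
      |sin x.eta - g| ≤ et + dX ∧ |cos x.eta - k| ≤ et + dX ∧ |x.p - p| ≤ E ∧ |x.q - q| ≤ E := by
  obtain ⟨ξ, η, h1, h2, h3, h4⟩ := hx
  have hk := OUT_abs_of_sq het h3
  have h1' := abs_le.1 h1
  have h2' := abs_le.1 h2
  have hc : |cosh ξ - c| ≤ eh := by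
    rw [cosh_eq, abs_le]; constructor <;> linarith [h1'.1, h1'.2, h2'.1, h2'.2]
  have hs : |sinh ξ - s| ≤ eh := by
    rw [sinh_eq, abs_le]; constructor <;> linarith [h1'.1, h1'.2, h2'.1, h2'.2]
  have hp : |x.p - p| ≤ E := by
    refine abs_le_of_sq_le_sq ?_ hE
    nlinarith [sq_nonneg (x.q - q), mul_nonneg (sq_nonneg lam)
      (add_nonneg (sq_nonneg (x.xi - ξ)) (sq_nonneg (x.eta - η)))]
  have hq : |x.q - q| ≤ E := by
    refine abs_le_of_sq_le_sq ?_ hE
    nlinarith [sq_nonneg (x.p - p), mul_nonneg (sq_nonneg lam)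
      (add_nonneg (sq_nonneg (x.xi - ξ)) (sq_nonneg (x.eta - η)))]
  have hxi : |x.xi - ξ| ≤ E / lam := by
    rw [le_div_iff₀ hlam]
    have : |lam * (x.xi - ξ)| ≤ E := by
      refine abs_le_of_sq_le_sq ?_ hE
      nlinarith [sq_nonneg (x.p - p), sq_nonneg (x.q - q), mul_nonneg (sq_nonneg lam)
        (sq_nonneg (x.eta - η))]
    rw [abs_mul, abs_of_pos hlam] at this
    linarith
  have heta : |x.eta - η| ≤ E / lam := by
    rw [le_div_iff₀ hlam]
    have : |lam * (x.eta - η)| ≤ E := by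
      refine abs_le_of_sq_le_sq ?_ hE
      nlinarith [sq_nonneg (x.p - p), sq_nonneg (x.q - q), mul_nonneg (sq_nonneg lam)
        (sq_nonneg (x.xi - ξ))]
    rw [abs_mul, abs_of_pos hlam] at this
    linarith
  have hsmall : |x.xi - ξ| ≤ 1 / 32 := by
    refine hxi.trans ?_
    rw [div_le_iff₀ hlam]; linarith
  have hcosh : cosh ξ * (17 / 16) ≤ C := by
    have : cosh ξ ≤ |c| + eh := by
      have := (abs_le.1 hc).2
      have := le_abs_self c
      linarith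
    linarith
  have hCpos : 0 ≤ C := by
    have := cosh_pos ξ
    linarith
  obtain ⟨m1, m2⟩ := OUT_mv hsmall hcosh
  have hdx : C * |x.xi - ξ| ≤ C * dX := mul_le_mul_of_nonneg_left (hxi.trans hdX) hCpos
  refine ⟨?_, ?_, ?_, ?_, ?_, hp, hq⟩
  · have e1 : |x.xi| ≤ |x.xi - ξ| + |ξ| := by
      have := abs_add_le (x.xi - ξ) ξ
      simpa using this
    have e2 := OUT_abs_le_cosh ξ
    have e3 := cosh_pos ξ
    linarith
  · have := abs_sub_le (sinh x.xi) (sinh ξ) s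
    linarith
  · have := abs_sub_le (cosh x.xi) (cosh ξ) c
    linarith
  · have e1 := abs_sub_le (sin x.eta) (sin η) g
    have e2 := OUT_abs_sin_sub x.eta η
    have e3 := hk.2
    rw [abs_sub_comm] at e3
    linarith
  · have e1 := abs_sub_le (cos x.eta) (cos η) k
    have e2 := OUT_abs_cos_sub x.eta η
    have e3 := hk.1
    rw [abs_sub_comm] at e3
    linarith

theorem OUT_scale {a b e : ℝ} (h : |a - b| ≤ e / w60) : |w60 * a - w60 * b| ≤ e := by
  rw [← mul_sub, abs_mul, abs_of_pos OUT_w60_pos]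
  rw [le_div_iff₀ OUT_w60_pos] at h
  linarith

theorem OUT_ab {a b n e : ℝ} (h : |w60 * a - w60 * b| ≤ e) (hb : w60 * |b| ≤ n) :
    w60 * |a| ≤ n + e := by
  have h1 : w60 * |a| = |w60 * a| := by rw [abs_mul, abs_of_pos OUT_w60_pos]
  have h2 : w60 * |b| = |w60 * b| := by rw [abs_mul, abs_of_pos OUT_w60_pos]
  have h3 : |w60 * a| ≤ |w60 * a - w60 * b| + |w60 * b| := by
    have := abs_add_le (w60 * a - w60 * b) (w60 * b)
    simpa using this
  rw [h1]
  linarith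

theorem out_ok_pr {S : Sta} {lam : ℕ} {V : SV} (hS : StaMsk S) (R : SVraw S lam V) {u v t : ℝ}
    (hu : |u| ≤ 1) (hv : |v| ≤ 1) (ht : 0 ≤ t) (ht1 : t ≤ 1) {x : St}
    (hx : Near (V.cF u v t) (V.sF u v t) (V.kF u v t) (V.gF u v t) (V.pF u v t) (V.qF u v t)
      (V.eh S / w60) (V.et S / w60) (V.E1 S lam / w60) (lam / 16) x) :
    OutOK (V.out S lam) (V.sta S lam) u v (V.H u v) (V.H u v * t) x ∧
    |w60 * sinh x.xi - w60 * V.sF u v t| ≤ (Out.dH (V.out S lam) : ℝ) ∧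
    |w60 * sin x.eta - w60 * V.gF u v t| ≤ (Out.dT (V.out S lam) : ℝ) := by
  have hw := OUT_w60_pos
  have hc := R.cond
  obtain ⟨-, -, -, -, -, a6, a7, a8⟩ := num_A hc
  obtain ⟨-, d2, d3, d4, d5⟩ := num_D hc
  have hlam : (0 : ℝ) < (lam : ℝ) / 16 := by
    have : (1 : ℝ) ≤ lam := by exact_mod_cast hc.lam1
    positivity
  obtain ⟨lc1, lc2, lc3⟩ := OUT_lok R.c hu hv ht ht1
  obtain ⟨ls1, ls2, ls3⟩ := OUT_lok R.s hu hv ht ht1
  obtain ⟨lk1, lk2, lk3⟩ := OUT_lok R.k hu hv ht ht1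
  obtain ⟨lg1, lg2, lg3⟩ := OUT_lok R.g hu hv ht ht1
  obtain ⟨lp1, lp2, lp3⟩ := OUT_lok R.p hu hv ht ht1
  obtain ⟨lq1, lq2, lq3⟩ := OUT_lok R.q hu hv ht ht1
  have ec := OUT_end R.c R.ndc hu hv ht ht1
  have ek := OUT_end R.k R.ndk hu hv ht ht1
  have ep := OUT_end R.p R.ndp hu hv ht ht1
  have eq := OUT_end R.q R.ndq hu hv ht ht1
  have hcn : |V.cF u v t| ≤ V.c.nr / w60 := by
    rw [le_div_iff₀ hw]; unfold SV.cF; linarith
  have hpn : |V.pF u v t| ≤ V.p.nr / w60 := by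
    rw [le_div_iff₀ hw]; unfold SV.pF; linarith
  have hqn : |V.qF u v t| ≤ V.q.nr / w60 := by
    rw [le_div_iff₀ hw]; unfold SV.qF; linarith
  have hCC : (|V.cF u v t| + V.eh S / w60) * (17 / 16) ≤ (V.Cb S : ℝ) := by
    refine le_trans ?_ a6
    gcongr
  have hE0 : (0 : ℝ) ≤ V.E1 S lam / w60 := by positivity
  obtain ⟨n1, n2, n3, n4, n5, n6, n7⟩ := OUT_near (by positivity) hE0 hlam d5
    (by linarith) hCC hx
  -- H > 0
  have hH : 0 < V.H u v := by
    have h1 := lo_le_val (dpoly V.yH) R.h.nr hu hv le_rfl zero_le_one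
    rw [dpoly_coeff0] at h1
    have h2 : (0 : ℝ) < (lo (cd V.yH) V.h.nr : ℝ) := by exact_mod_cast hc.h
    unfold SV.H pv
    exact div_pos (lt_of_lt_of_le h2 h1.1) hw
  have hdH : (Out.dH (V.out S lam) : ℝ) = V.eh S + V.Cb S * V.dX S lam := by
    simp [Out.dH, SV.out]
  have hdT : (Out.dT (V.out S lam) : ℝ) = V.et S + V.dX S lam := by
    simp [Out.dT, SV.out]
  have s2 : |w60 * sinh x.xi - w60 * V.sF u v t| ≤ (Out.dH (V.out S lam) : ℝ) := by
    rw [hdH]; apply OUT_scale; refine n2.trans (le_of_eq ?_); ring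
  have s3 : |w60 * cosh x.xi - w60 * V.cF u v t| ≤ (Out.dH (V.out S lam) : ℝ) := by
    rw [hdH]; apply OUT_scale; refine n3.trans (le_of_eq ?_); ring
  have s4 : |w60 * sin x.eta - w60 * V.gF u v t| ≤ (Out.dT (V.out S lam) : ℝ) := by
    rw [hdT]; apply OUT_scale; refine n4.trans (le_of_eq ?_); ring
  have s5 : |w60 * cos x.eta - w60 * V.kF u v t| ≤ (Out.dT (V.out S lam) : ℝ) := by
    rw [hdT]; apply OUT_scale; refine n5.trans (le_of_eq ?_); ring
  have s6 : |w60 * x.p - w60 * V.pF u v t| ≤ ((V.out S lam).E : ℝ) := OUT_scale n6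
  have s7 : |w60 * x.q - w60 * V.qF u v t| ≤ ((V.out S lam).E : ℝ) := OUT_scale n7
  have hth : 1 - V.H u v * t / V.H u v = 1 - t := by
    rw [mul_div_cancel_left₀ _ hH.ne']
  refine ⟨⟨⟨?_, ?_, ?_⟩, ?_, ?_, ?_, ?_, ?_, ?_, ?_, ?_, ?_, ?_, ?_, ?_, ?_, ?_, ?_, ?_⟩, s2, s4⟩
  · have : (V.Cb S : ℝ) ≤ 2 ^ 18 := by exact_mod_cast hc.Cb
    refine n1.trans ?_
    have e : ((2:ℝ)^18 + 1) ≤ 2^20 := by norm_num
    linarith
  · have h1 : (V.Pb : ℝ) ≤ 2 ^ 18 := by exact_mod_cast hc.Pb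
    have h2 : |x.p| ≤ |x.p - V.pF u v t| + |V.pF u v t| := by
      have := abs_add_le (x.p - V.pF u v t) (V.pF u v t)
      simpa using this
    have e : ((2:ℝ)^18 + 1) ≤ 2^20 := by norm_num
    linarith
  · have h1 : (V.Qb : ℝ) ≤ 2 ^ 18 := by exact_mod_cast hc.Qb
    have h2 : |x.q| ≤ |x.q - V.qF u v t| + |V.qF u v t| := by
      have := abs_add_le (x.q - V.qF u v t) (V.qF u v t)
      simpa using this
    have e : ((2:ℝ)^18 + 1) ≤ 2^20 := by norm_num
    linarith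
  · have := (abs_le.1 s2).1
    have e : ((V.out S lam).slo : ℝ) = (lo (cd S.s) V.s.nr : ℝ) := rfl
    rw [e]
    unfold SV.sF at this
    linarith
  · exact OUT_ab s2 ls3
  · have := (abs_le.1 s4).1
    have e : ((V.out S lam).glo : ℝ) = (lo (cd S.g) V.g.nr : ℝ) := rfl
    rw [e]
    unfold SV.gF at this
    linarith
  · exact OUT_ab s4 lg3
  · have := (abs_le.1 s5).1
    have e : ((V.out S lam).klo : ℝ) = (lo (cd S.k) V.k.nr : ℝ) := rfl
    rw [e]
    unfold SV.kF at this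
    linarith
  · have := (abs_le.1 s5).2
    have e : ((V.out S lam).khi : ℝ) = (hi (cd S.k) V.k.nr : ℝ) := rfl
    rw [e]
    unfold SV.kF at this
    linarith
  · have := (abs_le.1 s6).1
    have e : ((V.out S lam).plo : ℝ) = (lo (cd S.p) V.p.nr : ℝ) := rfl
    rw [e]
    unfold SV.pF at this
    linarith
  · have := (abs_le.1 s6).2
    have e : ((V.out S lam).phi : ℝ) = (hi (cd S.p) V.p.nr : ℝ) := rfl
    rw [e]
    unfold SV.pF at this
    linarith
  · exact OUT_ab s6 lp3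
  · have := (abs_le.1 s7).1
    have e : ((V.out S lam).qlo : ℝ) = (lo (cd S.q) V.q.nr : ℝ) := rfl
    rw [e]
    unfold SV.qF at this
    linarith
  · have := (abs_le.1 s7).2
    have e : ((V.out S lam).qhi : ℝ) = (hi (cd S.q) V.q.nr : ℝ) := rfl
    rw [e]
    unfold SV.qF at this
    linarith
  · exact OUT_ab s7 lq3
  · rw [hth]
    have := abs_sub_le (w60 * cosh x.xi) (w60 * V.cF u v t) (w60 * pv (V.sta S lam).c u v)
    have e2 : |w60 * V.cF u v t - w60 * pv (V.sta S lam).c u v| ≤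
      (1 - t) * ((V.out S lam).dc : ℝ) := ec
    linarith
  · rw [hth]
    have := abs_sub_le (w60 * cos x.eta) (w60 * V.kF u v t) (w60 * pv (V.sta S lam).k u v)
    have e2 : |w60 * V.kF u v t - w60 * pv (V.sta S lam).k u v| ≤
      (1 - t) * ((V.out S lam).dk : ℝ) := ek
    linarith
  · rw [hth]
    have := abs_sub_le (w60 * x.p) (w60 * V.pF u v t) (w60 * pv (V.sta S lam).p u v)
    have e2 : |w60 * V.pF u v t - w60 * pv (V.sta S lam).p u v| ≤
      (1 - t) * ((V.out S lam).dp : ℝ) := ep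
    linarith
  · rw [hth]
    have := abs_sub_le (w60 * x.q) (w60 * V.qF u v t) (w60 * pv (V.sta S lam).q u v)
    have e2 : |w60 * V.qF u v t - w60 * pv (V.sta S lam).q u v| ≤
      (1 - t) * ((V.out S lam).dq : ℝ) := eq
    linarith

end Pool.Agent.Ecl
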