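import Pool.Agent.Lib_helper51.Ecl.SVDefs
import Pool.Agent.Lib_helper51.EclS.CTXCA
import Pool.Agent.Lib_helper51.EclS.LSTCA
import Pool.Agent.Lib_helper51.EclS.NUMAA
import Pool.Agent.Lib_helper51.EclS.NUMBA
import Pool.Agent.Lib_helper51.EclS.NUMCA
import Pool.Agent.Lib_helper51.EclS.NUMDA
import Pool.Agent.Lib_helper51.EclS.RESAA
import Pool.Agent.Lib_helper51.EclS.RESBA
import Pool.Agent.Lib_helper51.EclS.RESCA
import Pool.Agent.Lib_helper51.EclS.VALBA

/-!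
# RAW: the hypotheses of the real step lemma
-/

set_option autoImplicit false

namespace Pool.Agent.Ecl

open Real Polynomial K Set

lemma RAW_w60 : (0 : ℝ) < w60 := by unfold w60; positivity

lemma RAW_lv {l : List ℕ} {A : TM} {F : ℝ → ℝ → ℝ → ℝ} (h : TMP 16 A (lpoly l) F) {u v t : ℝ}
    (hu : |u| ≤ 1) (hv : |v| ≤ 1) (ht : 0 ≤ t) (ht1 : t ≤ 1) : |lv l u v t| ≤ A.nr / w60 := by
  have h1 := abs_val_le (lpoly l) hu hv ht ht1
  have h2 : (lnorm (lpoly l) : ℝ) ≤ (A.nr : ℝ) := by exact_mod_cast h.nr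
  unfold lv
  rw [abs_div, abs_of_pos RAW_w60]
  exact div_le_div_of_nonneg_right (h1.trans h2) RAW_w60.le

lemma RAW_H {S : Sta} {lam : ℕ} {V : SV} (R : SVraw S lam V) {u v : ℝ}
    (hu : |u| ≤ 1) (hv : |v| ≤ 1) : 0 < V.H u v ∧ V.H u v ≤ V.h.nr / w60 := by
  have h1 := lo_le_val (dpoly V.yH) R.h.nr hu hv le_rfl zero_le_one
  rw [dpoly_coeff0] at h1
  have h2 : (0 : ℝ) < (lo (cd V.yH) V.h.nr : ℝ) := by exact_mod_cast R.cond.h
  have h3 := abs_val_le (dpoly V.yH) hu hv le_rfl zero_le_one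
  have h4 : (lnorm (dpoly V.yH) : ℝ) ≤ (V.h.nr : ℝ) := by exact_mod_cast R.h.nr
  unfold SV.H pv
  constructor
  · exact div_pos (h2.trans_le h1.1) RAW_w60
  · exact div_le_div_of_nonneg_right ((le_abs_self _).trans (h3.trans h4)) RAW_w60.le

lemma RAW_div {a b c : ℝ} (hc : 0 < c) (h : c * a ≤ b) : a ≤ b / c := by
  rw [le_div_iff₀ hc]
  linarith

lemma RAW_pos {w : ℝ} (hw : 0 < w) (a b c d e : ℕ) :
    (0 : ℝ) ≤ (a + w * (40 * b) + c * (10 * d + 61 * e)) / (80 * w ^ 2) := by positivity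

/-- **RAW** -/
theorem real_of_raw_pr {S : Sta} {lam : ℕ} {V : SV} (hS : StaMsk S) (R : SVraw S lam V) {u v : ℝ}
    (hu : |u| ≤ 1) (hv : |v| ≤ 1) :
    RealStep (V.H u v) (lam / 16) (S.eh / w60) (S.et / w60) (E0of S lam / w60)
      (V.eh S / w60) (V.et S / w60) (V.E1 S lam / w60) (V.Cb S) V.Pb V.Qb
      (V.cF u v) (V.sF u v) (V.kF u v) (V.gF u v) (V.pF u v) (V.qF u v)
      (dlv V.Lc u v) (dlv V.Ls u v) (dlv V.Lk u v) (dlv V.Lg u v) (dlv V.Lp u v)
      (dlv V.Lq u v) := by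
  have hw := RAW_w60
  obtain ⟨H0, H1⟩ := RAW_H R hu hv
  obtain ⟨a1, a2, a3, a4, a5, a6, a7, a8⟩ := num_A R.cond
  have hB := num_B R.cond
  obtain ⟨d1, d2, d3, d4, -⟩ := num_D R.cond
  have hlam : (0 : ℝ) < lam / 16 := by
    have : (1 : ℝ) ≤ lam := by exact_mod_cast R.cond.lam1
    linarith
  have hpt : ∀ t ∈ Icc (0 : ℝ) 1, |V.pF u v t| ≤ V.p.nr / w60 :=
    fun t ht => RAW_lv R.p.tm hu hv ht.1 ht.2
  have hqt : ∀ t ∈ Icc (0 : ℝ) 1, |V.qF u v t| ≤ V.q.nr / w60 :=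
    fun t ht => RAW_lv R.q.tm hu hv ht.1 ht.2
  have hct : ∀ t ∈ Icc (0 : ℝ) 1, |V.cF u v t| ≤ V.c.nr / w60 :=
    fun t ht => RAW_lv R.c.tm hu hv ht.1 ht.2
  have h80 : (0 : ℝ) < 80 * w60 ^ 2 := by positivity
  have h60 : (0 : ℝ) < w60 ^ 2 := by positivity
  have hres : ∀ t ∈ Icc (0 : ℝ) 1, _ := fun t ht => res_csk R hu hv ht.1 ht.2
  have hresp : ∀ t ∈ Icc (0 : ℝ) 1, _ := fun t ht => res_p R hu hv ht.1 ht.2
  have hresS : ∀ t ∈ Icc (0 : ℝ) 1, _ := fun t ht => res_S R hu hv ht.1 ht.2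
  refine ⟨H0, hlam, fun t => lv_deriv _ _ _ _, fun t => lv_deriv _ _ _ _,
    fun t => lv_deriv _ _ _ _, fun t => lv_deriv _ _ _ _, fun t => lv_deriv _ _ _ _,
    fun t => lv_deriv _ _ _ _, by positivity, by positivity, by positivity, ?_, ?_, a5, ?_, ?_,
    ?_, ?_, ?_, ?_, ?_⟩
  · refine ⟨V.x / w60, (V.rc + V.sP.e + V.rs + V.cP.e) / w60, by positivity, by positivity, a2,
      ?_, ?_, a3⟩
    · intro t ht
      rw [abs_mul, abs_of_pos H0]
      exact (mul_le_mul H1 (hpt t ht) (abs_nonneg _) (by positivity)).trans a1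
    · intro t ht
      obtain ⟨r1, r2, -, -⟩ := hres t ht
      apply RAW_div hw
      rw [mul_add]
      linarith
  · refine ⟨(V.rk + V.gQ.e + V.rg + V.kQ.e) / w60, by positivity, ?_, a4⟩
    intro t ht
    obtain ⟨-, -, r3, r4⟩ := hres t ht
    apply RAW_div hw
    rw [mul_add]
    linarith
  · intro t ht
    refine le_trans ?_ a6
    have := hct t ht
    apply mul_le_mul_of_nonneg_right _ (by norm_num)
    linarith
  · intro t ht
    have := hpt t ht
    linarith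
  · intro t ht
    have := hqt t ht
    linarith
  · exact_mod_cast R.cond.Cb
  · exact_mod_cast R.cond.Pb
  · exact_mod_cast R.cond.Qb
  · set M1 : ℝ := max ((V.n11 : ℝ) + 80 * V.q.nr * V.CS.e +
      V.CC.e * (80 * V.CC.nr + 40 * V.CC.e + 152 * w60)) ((V.n22 : ℝ) + 80 * V.p.nr * V.KG.e +
      V.KK.e * (80 * V.KK.nr + 40 * V.KK.e + 152 * w60)) with hM1
    set M2 : ℝ := max ((V.n12 : ℝ) + V.q.nr * V.KG.e) ((V.n21 : ℝ) + V.p.nr * V.CS.e) with hM2
    have hM1n : 0 ≤ M1 := le_max_of_le_left (by positivity)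
    have hM2n : 0 ≤ M2 := le_max_of_le_left (by positivity)
    have hc := num_C (S := S) (lam := lam) (V := V) R.cond (m1 := M1 / (80 * w60 ^ 2))
      (m2 := M2 / w60 ^ 2) (by rw [mul_div_cancel₀ _ h80.ne']) (by rw [mul_div_cancel₀ _ h60.ne'])
    refine ⟨V.rho S / w60, _, M1 / (80 * w60 ^ 2), M2 / w60 ^ 2, V.mu S lam / w60,
      V.Bm S lam / w60, ?_, hB, ?_, ?_, ?_, ?_, ?_, ?_, d1, d2, d3, d4⟩
    · have b1 : (0 : ℝ) ≤ (V.rp + w60 * (40 * V.JQ.e) + V.h.nr * (10 * V.CSCC.e + 61 * V.CS.e)) /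
          (80 * w60 ^ 2) := RAW_pos hw _ _ _ _ _
      have b2 : (0 : ℝ) ≤ (V.rq + w60 * (40 * V.JP.e) + V.h.nr * (10 * V.KGKK.e + 61 * V.KG.e)) /
          (80 * w60 ^ 2) := RAW_pos hw _ _ _ _ _
      have b3 : (0 : ℝ) ≤ V.h.nr / w60 * (V.eh S / w60 + V.et S / w60) := by positivity
      have b4 : (0 : ℝ) ≤ (V.Cb S + 1) * (V.Pb + V.Qb) + V.Cb S ^ 3 + 2 * V.Cb S + 3 := by
        positivity
      exact add_nonneg (add_nonneg b1 b2) (mul_nonneg b3 b4)
    · intro t ht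
      obtain ⟨r1, r2⟩ := hresp t ht
      refine add_le_add (add_le_add ?_ ?_) ?_
      · exact RAW_div h80 r1
      · exact RAW_div h80 r2
      · apply mul_le_mul_of_nonneg_right _ (by positivity)
        exact mul_le_mul_of_nonneg_right H1 (by positivity)
    · intro t ht
      obtain ⟨r1, -, -, -⟩ := hresS t ht
      exact RAW_div h80 (r1.trans (le_max_left _ _))
    · intro t ht
      obtain ⟨-, r2, -, -⟩ := hresS t ht
      exact RAW_div h80 (r2.trans (le_max_right _ _))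
    · intro t ht
      obtain ⟨-, -, r3, -⟩ := hresS t ht
      exact RAW_div h60 (r3.trans (le_max_left _ _))
    · intro t ht
      obtain ⟨-, -, -, r4⟩ := hresS t ht
      exact RAW_div h60 (r4.trans (le_max_right _ _))
    · refine le_trans ?_ hc
      refine add_le_add (add_le_add ?_ ?_) ?_
      · apply div_le_div_of_nonneg_right _ (by positivity)
        exact mul_le_mul_of_nonneg_right H1 (by positivity)
      · apply div_le_div_of_nonneg_right _ (by positivity)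
        apply mul_le_mul_of_nonneg_right _ (by positivity)
        exact mul_le_mul_of_nonneg_right H1 (by positivity)
      · apply div_le_div_of_nonneg_right _ (by positivity)
        apply mul_le_mul_of_nonneg_right _ (by positivity)
        exact mul_le_mul_of_nonneg_right H1 (by positivity)

end Pool.Agent.Ecl
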