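import Pool.Agent.Lib_helper51.Ecl.SVDefs
import Pool.Agent.Lib_helper51.EclS.CTXBA
import Pool.Agent.Lib_helper51.EclS.CTXCA
import Pool.Agent.Lib_helper51.EclS.L1SA
import Pool.Agent.Lib_helper51.EclS.UVTA
import Pool.Agent.Lib_helper51.EclS.VALBA

set_option autoImplicit false

namespace Pool.Agent.Ecl

open Real Polynomial K Set

theorem REE_w60_pos : (0 : ℝ) < w60 := by
  unfold w60; positivity

theorem REE_cond {b x : Bool} (h : cond b x false = true) : b = true ∧ x = true := by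
  cases b <;> simp_all

theorem REE_n60 : ((n60 : ℕ) : ℝ) = w60 := by
  unfold n60 w60
  norm_num

theorem REE_i60 : ((i60 : ℤ) : ℝ) = w60 := by
  unfold i60 n60 w60
  norm_num

theorem REE_sqrt {n U e : ℝ} (hn : 0 < n) (h1 : |n ^ 2 - U| ≤ n ^ 2 / 2)
    (h2 : |n ^ 2 - U| ≤ e * n) : 0 < U ∧ |n - sqrt U| ≤ e := by
  have hpos : 0 < U := by
    have := (abs_le.1 h1).2
    nlinarith [sq_nonneg n, mul_pos hn hn]
  have hr : 0 < sqrt U := sqrt_pos.2 hpos
  have hs : sqrt U ^ 2 = U := sq_sqrt hpos.le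
  refine ⟨hpos, ?_⟩
  have hprod : |n - sqrt U| * (n + sqrt U) ≤ e * n := by
    have e1 : |n - sqrt U| * (n + sqrt U) = |(n - sqrt U) * (n + sqrt U)| := by
      rw [abs_mul, abs_of_pos (by linarith : 0 < n + sqrt U)]
    have e2 : (n - sqrt U) * (n + sqrt U) = n ^ 2 - U := by
      ring_nf
      rw [hs]
    rw [e1, e2]; exact h2
  have h3 : |n - sqrt U| * n ≤ e * n := by
    refine le_trans ?_ hprod
    exact mul_le_mul_of_nonneg_left (by linarith) (abs_nonneg _)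
  exact le_of_mul_le_mul_right h3 hn

theorem relErr_spec_pr {A : TM} {aY e : ℕ} {R : ℤ} {k : ℕ → Bool}
    (h : relErr ctx0 false A aY R e k = true) {f : ℤ[X]} (hf : f.eval (2 ^ 160) = R)
    (hf' : ∀ n, |f.coeff n| < 2 ^ 158) (hA : TMP 0 A (dpoly aY) (fun u v _ => pv aY u v)) :
    ∃ r : ℕ, k r = true ∧ ∀ u v : ℝ, |u| ≤ 1 → |v| ≤ 1 → ∀ D : ℝ,
      |w60 * (pv aY u v ^ 2 - D) - val f u v 0| ≤ e → 0 < pv aY u v ∧ 0 < D ∧
      |pv aY u v - sqrt D| ≤ r / w60 := by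
  have hw := REE_w60_pos
  unfold relErr at h
  obtain ⟨r0, h, hr0⟩ := l1_spec ctx0_ok h
  simp only [fNat_eq, fInt_eq] at h
  obtain ⟨hc, h⟩ := REE_cond h
  simp only [Bool.and_eq_true, decide_eq_true_eq] at hc
  obtain ⟨hal, hal2⟩ := hc
  refine ⟨_, h, fun u v hu hv D hD => ?_⟩
  set al : ℤ := lo (cd aY) A.nr with hal0
  have h1 := (lo_le_val (dpoly aY) hA.nr hu hv le_rfl zero_le_one).1
  rw [dpoly_coeff0, val_dpoly, ← hal0] at h1
  have hal' : (0 : ℝ) < (al : ℝ) := by exact_mod_cast hal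
  have hP : 0 < pv aY u v := by
    by_contra hcon
    push Not at hcon
    have := mul_nonpos_of_nonneg_of_nonpos hw.le hcon
    linarith
  have h2 := abs_val_le f hu hv le_rfl zero_le_one
  have h3 : (lnorm f : ℝ) ≤ r0 := by exact_mod_cast hr0 f hf hf'
  -- total error
  have h4 : w60 * |pv aY u v ^ 2 - D| ≤ ((r0 + e : ℕ) : ℝ) := by
    have e1 : w60 * |pv aY u v ^ 2 - D| = |w60 * (pv aY u v ^ 2 - D)| := by
      rw [abs_mul, abs_of_pos hw]
    have e2 := abs_add_le (w60 * (pv aY u v ^ 2 - D) - val f u v 0) (val f u v 0)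
    rw [sub_add_cancel] at e2
    rw [e1]; push_cast; linarith
  have hal2' : 2 * w60 * ((r0 + e : ℕ) : ℝ) ≤ (al : ℝ) * al := by
    rw [← REE_i60]; exact_mod_cast hal2
  have hsq : (al : ℝ) * al ≤ (w60 * pv aY u v) * (w60 * pv aY u v) :=
    mul_le_mul h1 h1 hal'.le (by positivity)
  have hfst : |pv aY u v ^ 2 - D| ≤ pv aY u v ^ 2 / 2 := by
    have e1 : (2 * w60 ^ 2) * |pv aY u v ^ 2 - D| ≤ (2 * w60 ^ 2) * (pv aY u v ^ 2 / 2) := by
      have : 2 * w60 * (w60 * |pv aY u v ^ 2 - D|) ≤ 2 * w60 * ((r0 + e : ℕ) : ℝ) :=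
        mul_le_mul_of_nonneg_left h4 (by positivity)
      nlinarith [this]
    exact le_of_mul_le_mul_left e1 (by positivity)
  have hal3 : ((Int.toNat al : ℕ) : ℝ) = al := by
    have : ((Int.toNat al : ℕ) : ℤ) = al := Int.toNat_of_nonneg hal.le
    exact_mod_cast this
  have htp : 0 < Int.toNat al := by omega
  have h5 : ((r0 + e : ℕ) : ℝ) * w60 ≤
      (((r0 + e) * n60 / Int.toNat al + 1 : ℕ) : ℝ) * al := by
    rw [← hal3, ← REE_n60]
    have := Nat.lt_div_mul_add (a := (r0 + e) * n60) htp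
    have h6 : (r0 + e) * n60 ≤ ((r0 + e) * n60 / Int.toNat al + 1) * Int.toNat al := by
      rw [add_mul ((r0 + e) * n60 / Int.toNat al), one_mul]; exact this.le
    exact_mod_cast h6
  refine ⟨hP, ?_⟩
  refine REE_sqrt hP hfst ?_
  -- w60 * |..| ≤ R' ≤ r * al / w60 ≤ r * pv
  have h7 : w60 * |pv aY u v ^ 2 - D| * w60 ≤
      (((r0 + e) * n60 / Int.toNat al + 1 : ℕ) : ℝ) * (w60 * pv aY u v) := by
    calc w60 * |pv aY u v ^ 2 - D| * w60 ≤ ((r0 + e : ℕ) : ℝ) * w60 :=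
          mul_le_mul_of_nonneg_right h4 hw.le
      _ ≤ _ := h5
      _ ≤ _ := mul_le_mul_of_nonneg_left h1 (by positivity)
  rw [div_mul_eq_mul_div, le_div_iff₀ hw]
  have h8 : w60 * (|pv aY u v ^ 2 - D| * w60) ≤
      w60 * ((((r0 + e) * n60 / Int.toNat al + 1 : ℕ) : ℝ) * pv aY u v) := by
    linarith
  exact le_of_mul_le_mul_left h8 hw

end Pool.Agent.Ecl
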