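import Pool.Agent.Lib_helper51.Ecl.SVDefs

set_option autoImplicit false

namespace Pool.Agent.Ecl

open Real Polynomial K Set

theorem REL_lip {x : ℝ} {p ξ : ℝ → ℝ} (dξ : ∀ t, HasDerivAt ξ (p t) t)
    (hx : ∀ t ∈ Icc (0 : ℝ) 1, |p t| ≤ x) {s t : ℝ} (hs : s ∈ Icc (0 : ℝ) 1)
    (ht : t ∈ Icc (0 : ℝ) 1) : |ξ t - ξ s| ≤ x := by
  have h := (convex_Icc (0 : ℝ) 1).norm_image_sub_le_of_norm_hasDerivWithin_le
    (f := ξ) (f' := p) (C := x) (fun y hy => (dξ y).hasDerivWithinAt)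
    (fun y hy => by rw [Real.norm_eq_abs]; exact hx y hy) hs ht
  rw [Real.norm_eq_abs, Real.norm_eq_abs] at h
  have hx0 : 0 ≤ x := (abs_nonneg _).trans (hx 0 (by simp))
  have h1 : |t - s| ≤ 1 := by
    rw [abs_le]
    constructor <;> linarith [hs.1, hs.2, ht.1, ht.2]
  nlinarith

theorem REL_aux {x r e0 : ℝ} {a a' p ξ : ℝ → ℝ} (da : ∀ t, HasDerivAt a (a' t) t)
    (dξ : ∀ t, HasDerivAt ξ (p t) t) (hx0 : 0 ≤ x) (hx1 : x ≤ 1) (hr0 : 0 ≤ r) (he0 : 0 ≤ e0)
    (hx : ∀ t ∈ Icc (0 : ℝ) 1, |p t| ≤ x)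
    (hr : ∀ t ∈ Icc (0 : ℝ) 1, |a' t - p t * a t| ≤ r) (h0 : |a 0 - exp (ξ 0)| ≤ e0) :
    ∀ t ∈ Icc (0 : ℝ) 1, |a t - exp (ξ t)| ≤ (e0 + r) * (1 + x + x ^ 2) := by
  intro t ht
  have hexp : exp x ≤ 1 + x + x ^ 2 := by
    have := abs_exp_sub_one_sub_id_le (x := x) (by rw [abs_of_nonneg hx0]; exact hx1)
    have := (abs_le.1 this).2
    linarith
  have hv : ∀ y, HasDerivAt (fun y => a y * exp (ξ t - ξ y) - exp (ξ t))
      ((a' y - p y * a y) * exp (ξ t - ξ y)) y := fun y => by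
    have h1 : HasDerivAt (fun y => exp (ξ t - ξ y)) (exp (ξ t - ξ y) * (-(p y))) y := by
      have := ((dξ y).const_sub (ξ t)).exp
      exact this
    have h2 := ((da y).mul h1).sub_const (exp (ξ t))
    refine h2.congr_deriv ?_
    ring
  have hb : ∀ y ∈ Icc (0 : ℝ) 1, ‖(a' y - p y * a y) * exp (ξ t - ξ y)‖ ≤ r * exp x := by
    intro y hy
    rw [Real.norm_eq_abs, abs_mul, abs_of_pos (exp_pos _)]
    refine mul_le_mul (hr y hy) ?_ (exp_pos _).le hr0
    rw [exp_le_exp]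
    exact (le_abs_self _).trans (REL_lip dξ hx hy ht)
  have h0m : (0 : ℝ) ∈ Icc (0 : ℝ) 1 := by simp
  have h := (convex_Icc (0 : ℝ) 1).norm_image_sub_le_of_norm_hasDerivWithin_le
    (f := fun y => a y * exp (ξ t - ξ y) - exp (ξ t)) (C := r * exp x)
    (fun y hy => (hv y).hasDerivWithinAt) hb h0m ht
  rw [Real.norm_eq_abs, Real.norm_eq_abs] at h
  simp only [sub_self, exp_zero, mul_one, sub_zero] at h
  have h1 : |t| ≤ 1 := by rw [abs_of_nonneg ht.1]; exact ht.2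
  have h2 : |a 0 * exp (ξ t - ξ 0) - exp (ξ t)| ≤ e0 * exp x := by
    have e : a 0 * exp (ξ t - ξ 0) - exp (ξ t) = (a 0 - exp (ξ 0)) * exp (ξ t - ξ 0) := by
      rw [sub_mul, ← exp_add]
      congr 2
      ring
    rw [e, abs_mul, abs_of_pos (exp_pos _)]
    refine mul_le_mul h0 ?_ (exp_pos _).le he0
    rw [exp_le_exp]
    exact (le_abs_self _).trans (REL_lip dξ hx h0m ht)
  have h3 : r * exp x * |t| ≤ r * exp x := by
    have : 0 ≤ r * exp x := mul_nonneg hr0 (exp_pos _).le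
    nlinarith
  have h4 : |a t - exp (ξ t)| ≤ |(a t - exp (ξ t)) - (a 0 * exp (ξ t - ξ 0) - exp (ξ t))| +
      |a 0 * exp (ξ t - ξ 0) - exp (ξ t)| := by
    have := abs_add_le ((a t - exp (ξ t)) - (a 0 * exp (ξ t - ξ 0) - exp (ξ t)))
      (a 0 * exp (ξ t - ξ 0) - exp (ξ t))
    simpa using this
  have h5 : |a t - exp (ξ t)| ≤ (e0 + r) * exp x := by nlinarith
  refine h5.trans ?_
  exact mul_le_mul_of_nonneg_left hexp (by linarith)

/-- **REL** -/
theorem rel_flow_pr {h x rh rt eh0 et0 eh et : ℝ} {c s k g p q c' s' k' g' : ℝ → ℝ}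
    (dc : ∀ t, HasDerivAt c (c' t) t) (ds : ∀ t, HasDerivAt s (s' t) t)
    (dk : ∀ t, HasDerivAt k (k' t) t) (dg : ∀ t, HasDerivAt g (g' t) t)
    (hp : Continuous p) (hq : Continuous q) (hrh : 0 ≤ rh) (hrt : 0 ≤ rt) (hx0 : 0 ≤ x)
    (hx1 : x ≤ 1) (heh0 : 0 ≤ eh0) (het0 : 0 ≤ et0)
    (hx : ∀ t ∈ Icc (0 : ℝ) 1, |h * p t| ≤ x)
    (hr : ∀ t ∈ Icc (0 : ℝ) 1, |c' t - s t * (h * p t)| + |s' t - c t * (h * p t)| ≤ rh)
    (hr' : ∀ t ∈ Icc (0 : ℝ) 1, |k' t + g t * (h * q t)| + |g' t - k t * (h * q t)| ≤ rt)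
    (he : (eh0 + rh) * (1 + x + x ^ 2) ≤ eh) (he' : et0 + rt ≤ et) {ξ0 η0 : ℝ}
    (h1 : |c 0 + s 0 - exp ξ0| ≤ eh0) (h2 : |c 0 - s 0 - exp (-ξ0)| ≤ eh0)
    (h3 : (k 0 - cos η0) ^ 2 + (g 0 - sin η0) ^ 2 ≤ et0 ^ 2) :
    ∃ ξ η : ℝ → ℝ, ξ 0 = ξ0 ∧ η 0 = η0 ∧ (∀ t, HasDerivAt ξ (h * p t) t) ∧
      (∀ t, HasDerivAt η (h * q t) t) ∧ ∀ t ∈ Icc (0 : ℝ) 1,
        |c t + s t - exp (ξ t)| ≤ eh ∧ |c t - s t - exp (-ξ t)| ≤ eh ∧
        (k t - cos (η t)) ^ 2 + (g t - sin (η t)) ^ 2 ≤ et ^ 2 := by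
  have hint : ∀ (f : ℝ → ℝ) (f0 : ℝ), Continuous f →
      ∀ t, HasDerivAt (fun t => f0 + ∫ y in (0 : ℝ)..t, f y) (f t) t := by
    intro f f0 hf t
    have := intervalIntegral.integral_hasDerivAt_right (hf.intervalIntegrable 0 t)
      (hf.stronglyMeasurableAtFilter _ _) hf.continuousAt
    simpa using this.const_add f0
  have cp : Continuous (fun t => h * p t) := continuous_const.mul hp
  have cq : Continuous (fun t => h * q t) := continuous_const.mul hq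
  refine ⟨fun t => ξ0 + ∫ y in (0 : ℝ)..t, h * p y, fun t => η0 + ∫ y in (0 : ℝ)..t, h * q y,
    by simp, by simp, hint _ _ cp, hint _ _ cq, ?_⟩
  have dξ := hint _ ξ0 cp
  have dη := hint _ η0 cq
  have hξ0 : (fun t => ξ0 + ∫ y in (0 : ℝ)..t, h * p y) 0 = ξ0 := by simp
  have hη0 : (fun t => η0 + ∫ y in (0 : ℝ)..t, h * q y) 0 = η0 := by simp
  set ξ : ℝ → ℝ := fun t => ξ0 + ∫ y in (0 : ℝ)..t, h * p y with hξ
  set η : ℝ → ℝ := fun t => η0 + ∫ y in (0 : ℝ)..t, h * q y with hη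
  intro t ht
  refine ⟨?_, ?_, ?_⟩
  · refine (REL_aux (a := fun t => c t + s t) (a' := fun t => c' t + s' t)
      (p := fun t => h * p t) (ξ := ξ) (fun t => (dc t).add (ds t)) dξ hx0 hx1 hrh heh0 hx
      (fun t ht => ?_) ?_ t ht).trans he
    · have := hr t ht
      have e : c' t + s' t - h * p t * (c t + s t) =
        (c' t - s t * (h * p t)) + (s' t - c t * (h * p t)) := by ring
      simp only [e]
      exact (abs_add_le _ _).trans this
    · rw [hξ0]; exact h1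
  · refine (REL_aux (a := fun t => c t - s t) (a' := fun t => c' t - s' t)
      (p := fun t => -(h * p t)) (ξ := fun t => -ξ t) (fun t => (dc t).sub (ds t))
      (fun t => (dξ t).neg) hx0 hx1 hrh heh0 (fun t ht => by simpa using hx t ht)
      (fun t ht => ?_) ?_ t ht).trans he
    · have := hr t ht
      have e : c' t - s' t - -(h * p t) * (c t - s t) =
        (c' t - s t * (h * p t)) - (s' t - c t * (h * p t)) := by ring
      simp only [e]
      exact (abs_sub _ _).trans this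
    · simp only [hξ0]; exact h2
  · have dA : ∀ y, HasDerivAt (fun y => k y * cos (η y) + g y * sin (η y))
        ((k' y + g y * (h * q y)) * cos (η y) + (g' y - k y * (h * q y)) * sin (η y)) y :=
      fun y => by
      have := ((dk y).mul (dη y).cos).add ((dg y).mul (dη y).sin)
      refine this.congr_deriv ?_
      ring
    have dB : ∀ y, HasDerivAt (fun y => g y * cos (η y) - k y * sin (η y))
        ((g' y - k y * (h * q y)) * cos (η y) - (k' y + g y * (h * q y)) * sin (η y)) y :=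
      fun y => by
      have := ((dg y).mul (dη y).cos).sub ((dk y).mul (dη y).sin)
      refine this.congr_deriv ?_
      ring
    have dz : ∀ y, HasDerivAt (fun y => ((k y * cos (η y) + g y * sin (η y) : ℝ) : ℂ) - 1 +
        ((g y * cos (η y) - k y * sin (η y) : ℝ) : ℂ) * Complex.I)
        ((((k' y + g y * (h * q y)) * cos (η y) + (g' y - k y * (h * q y)) * sin (η y) : ℝ) : ℂ) +
        (((g' y - k y * (h * q y)) * cos (η y) - (k' y + g y * (h * q y)) * sin (η y) : ℝ) : ℂ) *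
          Complex.I) y := fun y =>
      ((dA y).ofReal_comp.sub_const 1).add ((dB y).ofReal_comp.mul_const Complex.I)
    have hnorm : ∀ a b : ℝ, ‖(a : ℂ) + (b : ℂ) * Complex.I‖ ^ 2 = a ^ 2 + b ^ 2 := by
      intro a b
      rw [Complex.sq_norm, Complex.normSq_add_mul_I]
    have hb : ∀ y ∈ Icc (0 : ℝ) 1,
        ‖(((k' y + g y * (h * q y)) * cos (η y) + (g' y - k y * (h * q y)) * sin (η y) : ℝ) : ℂ) +
        (((g' y - k y * (h * q y)) * cos (η y) - (k' y + g y * (h * q y)) * sin (η y) : ℝ) : ℂ) *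
          Complex.I‖ ≤ rt := by
      intro y hy
      refine le_trans ?_ (hr' y hy)
      refine abs_le_of_sq_le_sq' ?_ (by positivity) |>.2
      rw [hnorm]
      set u := k' y + g y * (h * q y)
      set v := g' y - k y * (h * q y)
      have e : (u * cos (η y) + v * sin (η y)) ^ 2 + (v * cos (η y) - u * sin (η y)) ^ 2 =
        (u ^ 2 + v ^ 2) * (sin (η y) ^ 2 + cos (η y) ^ 2) := by ring
      rw [e, sin_sq_add_cos_sq, mul_one]
      have h4 := sq_abs u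
      have h5 := sq_abs v
      nlinarith [mul_nonneg (abs_nonneg u) (abs_nonneg v)]
    have h0m : (0 : ℝ) ∈ Icc (0 : ℝ) 1 := by simp
    have hh := (convex_Icc (0 : ℝ) 1).norm_image_sub_le_of_norm_hasDerivWithin_le
      (C := rt) (fun y hy => (dz y).hasDerivWithinAt) hb h0m ht
    rw [sub_zero, Real.norm_eq_abs, abs_of_nonneg ht.1] at hh
    have key : ∀ y, ‖((k y * cos (η y) + g y * sin (η y) : ℝ) : ℂ) - 1 +
        ((g y * cos (η y) - k y * sin (η y) : ℝ) : ℂ) * Complex.I‖ ^ 2 =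
        (k y - cos (η y)) ^ 2 + (g y - sin (η y)) ^ 2 := by
      intro y
      have e : ((k y * cos (η y) + g y * sin (η y) : ℝ) : ℂ) - 1 +
        ((g y * cos (η y) - k y * sin (η y) : ℝ) : ℂ) * Complex.I =
        ((k y * cos (η y) + g y * sin (η y) - 1 : ℝ) : ℂ) +
        ((g y * cos (η y) - k y * sin (η y) : ℝ) : ℂ) * Complex.I := by
        push_cast
        ring
      rw [e, hnorm]
      have := sin_sq_add_cos_sq (η y)
      linear_combination (k y ^ 2 + g y ^ 2 - 1) * this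
    have hz0 : ‖((k 0 * cos (η 0) + g 0 * sin (η 0) : ℝ) : ℂ) - 1 +
        ((g 0 * cos (η 0) - k 0 * sin (η 0) : ℝ) : ℂ) * Complex.I‖ ≤ et0 := by
      refine (abs_le_of_sq_le_sq' ?_ het0).2
      rw [key, hη0]
      exact h3
    rw [← key t]
    refine pow_le_pow_left₀ (norm_nonneg _) ?_ 2
    have h6 := norm_le_norm_add_norm_sub' (((k t * cos (η t) + g t * sin (η t) : ℝ) : ℂ) - 1 +
        ((g t * cos (η t) - k t * sin (η t) : ℝ) : ℂ) * Complex.I)
      (((k 0 * cos (η 0) + g 0 * sin (η 0) : ℝ) : ℂ) - 1 +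
        ((g 0 * cos (η 0) - k 0 * sin (η 0) : ℝ) : ℂ) * Complex.I)
    have h7 : rt * t ≤ rt := by nlinarith [ht.2]
    linarith

end Pool.Agent.Ecl
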