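import Pool.Agent.Lib_helper51.Ecl.SVDefs
import Pool.Agent.Lib_helper51.EclS.VALAA
import Pool.Agent.Lib_helper51.EclS.VALBA

set_option autoImplicit false

namespace Pool.Agent.Ecl

open Real Polynomial K Set

lemma RESA_w60 : (0 : ℝ) < w60 := by
  unfold w60
  positivity

lemma RESA_sub {T : ℕ} {D f : ℤ[X]} {A : TM} {F : ℝ → ℝ → ℝ → ℝ} {r : ℕ} (h : TMP T A f F)
    (hr : lnorm (D - f) ≤ r) {u v t : ℝ} (hu : |u| ≤ 1) (hv : |v| ≤ 1) (ht : 0 ≤ t)
    (ht1 : t ≤ 1) : w60 * |val D u v t / w60 - F u v t| ≤ r + A.e := by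
  have hw := RESA_w60
  have h1 : w60 * |val D u v t / w60 - F u v t| = |val D u v t - w60 * F u v t| := by
    rw [← abs_of_pos hw, ← abs_mul, abs_of_pos hw]
    congr 1
    field_simp
  have h2 : |val D u v t - val f u v t| ≤ r := by
    rw [← val_sub]
    refine (abs_val_le (D - f) hu hv ht ht1).trans ?_
    exact_mod_cast hr
  have h3 := h.er u v t hu hv ht ht1
  rw [h1]
  calc |val D u v t - w60 * F u v t|
      = |(val D u v t - val f u v t) + (val f u v t - w60 * F u v t)| := by congr 1; ring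
    _ ≤ |val D u v t - val f u v t| + |val f u v t - w60 * F u v t| := abs_add_le _ _
    _ ≤ r + A.e := add_le_add h2 h3

lemma RESA_add {T : ℕ} {D f : ℤ[X]} {A : TM} {F : ℝ → ℝ → ℝ → ℝ} {r : ℕ} (h : TMP T A f F)
    (hr : lnorm (D + f) ≤ r) {u v t : ℝ} (hu : |u| ≤ 1) (hv : |v| ≤ 1) (ht : 0 ≤ t)
    (ht1 : t ≤ 1) : w60 * |val D u v t / w60 + F u v t| ≤ r + A.e := by
  have hw := RESA_w60
  have h1 : w60 * |val D u v t / w60 + F u v t| = |val D u v t + w60 * F u v t| := by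
    rw [← abs_of_pos hw, ← abs_mul, abs_of_pos hw]
    congr 1
    field_simp
  have h2 : |val D u v t + val f u v t| ≤ r := by
    rw [← val_add]
    refine (abs_val_le (D + f) hu hv ht ht1).trans ?_
    exact_mod_cast hr
  have h3 := h.er u v t hu hv ht ht1
  rw [h1]
  calc |val D u v t + w60 * F u v t|
      = |(val D u v t + val f u v t) - (val f u v t - w60 * F u v t)| := by congr 1; ring
    _ ≤ |val D u v t + val f u v t| + |val f u v t - w60 * F u v t| := abs_sub _ _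
    _ ≤ r + A.e := add_le_add h2 h3

/-- **RESA** -/
theorem res_csk_pr {S : Sta} {lam : ℕ} {V : SV} (R : SVraw S lam V) {u v t : ℝ} (hu : |u| ≤ 1)
    (hv : |v| ≤ 1) (ht : 0 ≤ t) (ht1 : t ≤ 1) :
    w60 * |dlv V.Lc u v t - V.sF u v t * (V.H u v * V.pF u v t)| ≤ V.rc + V.sP.e ∧
    w60 * |dlv V.Ls u v t - V.cF u v t * (V.H u v * V.pF u v t)| ≤ V.rs + V.cP.e ∧
    w60 * |dlv V.Lk u v t + V.gF u v t * (V.H u v * V.qF u v t)| ≤ V.rk + V.gQ.e ∧
    w60 * |dlv V.Lg u v t - V.kF u v t * (V.H u v * V.qF u v t)| ≤ V.rg + V.kQ.e :=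
  ⟨RESA_sub R.sP R.rc hu hv ht ht1, RESA_sub R.cP R.rs hu hv ht ht1,
    RESA_add R.gQ R.rk hu hv ht ht1, RESA_sub R.kQ R.rg hu hv ht ht1⟩

end Pool.Agent.Ecl
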