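import Pool.Agent.Lib_helper51.Ecl.SVDefs
import Pool.Agent.Lib_helper51.EclS.VALAA
import Pool.Agent.Lib_helper51.EclS.VALBA

/-!
# Block RESB of the soundness proof of the kernel checker (MP_efcf7c_an)
-/

set_option autoImplicit false

namespace Pool.Agent.Ecl

open Real Polynomial K Set

theorem RESB_w : ((80 * 2 ^ 60 : ℤ) : ℝ) = 80 * w60 ∧ ((40 * 2 ^ 60 : ℤ) : ℝ) = 40 * w60 := by
  unfold w60
  constructor <;> push_cast <;> ring

theorem RESB_w0 : (0 : ℝ) < w60 := by unfold w60; positivity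

theorem RESB_sup3 {f g h : ℤ[X]} (hf : ∀ n, f.coeff n ≠ 0 → vld 16 n)
    (hg : ∀ n, g.coeff n ≠ 0 → vld 16 n) (hh : ∀ n, h.coeff n ≠ 0 → vld 16 n) (a b c : ℤ) :
    ∀ n, (C a * f - C b * g + C c * h).coeff n ≠ 0 → vld 16 n := by
  intro n hn
  by_contra hv
  apply hn
  have e1 : f.coeff n = 0 := by
    by_contra h; exact hv (hf n h)
  have e2 : g.coeff n = 0 := by
    by_contra h; exact hv (hg n h)
  have e3 : h.coeff n = 0 := by
    by_contra h; exact hv (hh n h)
  rw [coeff_add, coeff_sub, coeff_C_mul, coeff_C_mul, coeff_C_mul, e1, e2, e3]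
  simp

theorem RESB_sup2 {f g : ℤ[X]} (hf : ∀ n, f.coeff n ≠ 0 → vld 16 n)
    (hg : ∀ n, g.coeff n ≠ 0 → vld 16 n) (a b : ℤ) :
    ∀ n, (C a * f - C b * g).coeff n ≠ 0 → vld 16 n := by
  intro n hn
  by_contra hv
  apply hn
  have e1 : f.coeff n = 0 := by
    by_contra h; exact hv (hf n h)
  have e2 : g.coeff n = 0 := by
    by_contra h; exact hv (hg n h)
  rw [coeff_sub, coeff_C_mul, coeff_C_mul, e1, e2]
  simp

theorem RESB_core {w H N n r j e1 e2 A B D G J X Y J0 X0 Y0 Z : ℝ} (hw : 0 < w)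
    (hG : |G| ≤ r) (hGe : G = 80 * w * D - 40 * w * J - (w * H) * (10 * X - 61 * Y + Z))
    (hJ : |J - w * J0| ≤ j) (hX : |X - w * X0| ≤ e1) (hY : |Y - w * Y0| ≤ e2)
    (hH : |w * H| ≤ n) (hA : A = D / w) (hB : 80 * w * (H * B) = 40 * w * (w * J0) / w +
      H * (10 * (w * X0) - 61 * (w * Y0) + Z)) (hN : N = n) :
    80 * w ^ 2 * |A - H * B| ≤ r + w * (40 * j) + N * (10 * e1 + 61 * e2) := by
  have hD : D = w * A := by rw [hA]; field_simp
  have k1 : 80 * w ^ 2 * (A - H * B) = G + 40 * w * (J - w * J0) +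
      (w * H) * (10 * (X - w * X0) - 61 * (Y - w * Y0)) := by
    rw [hGe, hD]
    have hB' : 80 * w * (H * B) = 40 * (w * J0) + H * (10 * (w * X0) - 61 * (w * Y0) + Z) := by
      rw [hB]; field_simp
    have : 80 * w ^ 2 * (A - H * B) = 80 * w ^ 2 * A - w * (80 * w * (H * B)) := by ring
    rw [this, hB']
    ring
  have k2 : 80 * w ^ 2 * |A - H * B| = |80 * w ^ 2 * (A - H * B)| := by
    rw [abs_mul, abs_of_pos (by positivity : (0 : ℝ) < 80 * w ^ 2)]
  rw [k2, k1, hN]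
  have hn : 0 ≤ n := le_trans (abs_nonneg _) hH
  calc |G + 40 * w * (J - w * J0) + (w * H) * (10 * (X - w * X0) - 61 * (Y - w * Y0))|
      ≤ |G| + |40 * w * (J - w * J0)| + |(w * H) * (10 * (X - w * X0) - 61 * (Y - w * Y0))| :=
        abs_add_three _ _ _
    _ ≤ r + w * (40 * j) + n * (10 * e1 + 61 * e2) := by
        have t1 : |40 * w * (J - w * J0)| ≤ w * (40 * j) := by
          rw [abs_mul, abs_of_pos (by positivity : (0 : ℝ) < 40 * w)]
          have := mul_le_mul_of_nonneg_left hJ (by positivity : (0 : ℝ) ≤ 40 * w)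
          linarith
        have t2 : |(w * H) * (10 * (X - w * X0) - 61 * (Y - w * Y0))| ≤
            n * (10 * e1 + 61 * e2) := by
          rw [abs_mul]
          apply mul_le_mul hH _ (abs_nonneg _) hn
          have s1 := abs_le.mp hX
          have s2 := abs_le.mp hY
          rw [abs_le]
          constructor <;> linarith [s1.1, s1.2, s2.1, s2.2]
        linarith

theorem res_p_pr {S : Sta} {lam : ℕ} {V : SV} (R : SVraw S lam V) {u v t : ℝ} (hu : |u| ≤ 1)
    (hv : |v| ≤ 1) (ht : 0 ≤ t) (ht1 : t ≤ 1) :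
    80 * w60 ^ 2 * |dlv V.Lp u v t - V.H u v * Fph (V.cF u v t) (V.sF u v t) (V.kF u v t)
      (V.qF u v t)| ≤ V.rp + w60 * (40 * V.JQ.e) + V.h.nr * (10 * V.CSCC.e + 61 * V.CS.e) ∧
    80 * w60 ^ 2 * |dlv V.Lq u v t - V.H u v * Fqh (V.cF u v t) (V.kF u v t) (V.gF u v t)
      (V.pF u v t)| ≤ V.rq + w60 * (40 * V.JP.e) + V.h.nr * (10 * V.KGKK.e + 61 * V.KG.e) := by
  have hw := RESB_w0
  have hH : val (dpoly V.yH) u v t = w60 * V.H u v := by
    have := R.h.er u v t hu hv ht ht1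
    rw [R.h0] at this
    simp only [Nat.cast_zero] at this
    have h2 := abs_nonpos_iff.mp this
    linarith
  have hHn : |w60 * V.H u v| ≤ (V.h.nr : ℝ) := by
    rw [← hH]
    refine le_trans (abs_val_le _ hu hv ht ht1) ?_
    exact_mod_cast R.h.nr
  have hs : val (lpoly V.Ls) u v t = w60 * V.sF u v t := by
    unfold SV.sF lv
    field_simp
  have hvH : ∀ n, (dpoly V.yH).coeff n ≠ 0 → vld 0 n := R.h.rep.sup
  constructor
  · have hb : |val (C (80 * 2 ^ 60) * dlpoly V.Lp - C (40 * 2 ^ 60) * V.fJQ -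
        dpoly V.yH * (C 10 * V.fCSCC - C 61 * V.fCS + C 40 * lpoly V.Ls)) u v t| ≤ (V.rp : ℝ) := by
      refine le_trans (abs_val_le _ hu hv ht ht1) ?_
      exact_mod_cast R.rp
    have hsup := RESB_sup3 R.CSCC.rep.sup R.CS.rep.sup R.s.rep.sup 10 61 40
    have hval : val (C (80 * 2 ^ 60) * dlpoly V.Lp - C (40 * 2 ^ 60) * V.fJQ -
        dpoly V.yH * (C 10 * V.fCSCC - C 61 * V.fCS + C 40 * lpoly V.Ls)) u v t =
        80 * w60 * val (dlpoly V.Lp) u v t - 40 * w60 * val V.fJQ u v t -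
        (w60 * V.H u v) * (10 * val V.fCSCC u v t - 61 * val V.fCS u v t +
          40 * (w60 * V.sF u v t)) := by
      rw [val_sub, val_sub, val_C_mul, val_C_mul, val_mul hvH hsup, val_add, val_sub, val_C_mul,
        val_C_mul, val_C_mul, hH, hs, RESB_w.1, RESB_w.2]
      push_cast
      ring
    refine RESB_core (J := val V.fJQ u v t)
      (J0 := (V.cF u v t * V.cF u v t - V.kF u v t * V.kF u v t) * (V.H u v * V.qF u v t))
      (X0 := V.cF u v t * V.sF u v t * (V.cF u v t * V.cF u v t))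
      (Y0 := V.cF u v t * V.sF u v t) (Z := 40 * (w60 * V.sF u v t)) hw hb hval
      (R.JQ.er u v t hu hv ht ht1)
      (R.CSCC.er u v t hu hv ht ht1) (R.CS.er u v t hu hv ht ht1) hHn (by rfl) ?_ rfl
    unfold Fph
    field_simp
    ring
  · have hb : |val (C (80 * 2 ^ 60) * dlpoly V.Lq + C (40 * 2 ^ 60) * V.fJP -
        dpoly V.yH * (C 10 * V.fKGKK - C 61 * V.fKG)) u v t| ≤ (V.rq : ℝ) := by
      refine le_trans (abs_val_le _ hu hv ht ht1) ?_
      exact_mod_cast R.rq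
    have hsup := RESB_sup2 R.KGKK.rep.sup R.KG.rep.sup 10 61
    have hval : val (C (80 * 2 ^ 60) * dlpoly V.Lq + C (40 * 2 ^ 60) * V.fJP -
        dpoly V.yH * (C 10 * V.fKGKK - C 61 * V.fKG)) u v t =
        80 * w60 * val (dlpoly V.Lq) u v t - 40 * w60 * (-val V.fJP u v t) -
        (w60 * V.H u v) * (10 * val V.fKGKK u v t - 61 * val V.fKG u v t + 0) := by
      rw [val_sub, val_add, val_C_mul, val_C_mul, val_mul hvH hsup, val_sub, val_C_mul,
        val_C_mul, hH, RESB_w.1, RESB_w.2]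
      push_cast
      ring
    have hJ : |(-val V.fJP u v t) -
        w60 * (-((V.cF u v t * V.cF u v t - V.kF u v t * V.kF u v t) *
          (V.H u v * V.pF u v t)))| ≤ (V.JP.e : ℝ) := by
      have h := R.JP.er u v t hu hv ht ht1
      rw [← abs_neg] at h
      refine le_trans (le_of_eq ?_) h
      congr 1
      ring
    refine RESB_core (J := -val V.fJP u v t)
      (J0 := -((V.cF u v t * V.cF u v t - V.kF u v t * V.kF u v t) * (V.H u v * V.pF u v t)))
      (X0 := V.kF u v t * V.gF u v t * (V.kF u v t * V.kF u v t))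
      (Y0 := V.kF u v t * V.gF u v t) (Z := 0) hw hb hval hJ
      (R.KGKK.er u v t hu hv ht ht1) (R.KG.er u v t hu hv ht ht1) hHn (by rfl) ?_ rfl
    unfold Fqh
    field_simp
    ring

end Pool.Agent.Ecl
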