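import Pool.Agent.Lib_helper51.Ecl.SVDefs
import Pool.Agent.Lib_helper51.EclS.VALAA
import Pool.Agent.Lib_helper51.EclS.VALBA

set_option autoImplicit false

namespace Pool.Agent.Ecl

open Real Polynomial K Set

theorem RESC_core {w X Y Z W Q L n e nr eZ nq : ℝ} (hw : 0 ≤ w)
    (h : |X * (40 * X - 152 * w) + 80 * (Q * Z) + L| ≤ n) (hX : |X| ≤ nr) (hXY : |X - Y| ≤ e)
    (hQ : |Q| ≤ nq) (hZ : |Z - W| ≤ eZ) :
    |Y * (40 * Y - 152 * w) + 80 * (Q * W) + L| ≤ n + 80 * nq * eZ +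
      e * (80 * nr + 40 * e + 152 * w) := by
  have he : 0 ≤ e := le_trans (abs_nonneg _) hXY
  have hnq : 0 ≤ nq := le_trans (abs_nonneg _) hQ
  have h1 : |(X - Y) * (80 * X - 40 * (X - Y) - 152 * w)| ≤ e * (80 * nr + 40 * e + 152 * w) := by
    rw [abs_mul]
    apply mul_le_mul hXY _ (abs_nonneg _) he
    calc |80 * X - 40 * (X - Y) - 152 * w| ≤ |80 * X - 40 * (X - Y)| + |152 * w| := abs_sub _ _
      _ ≤ |80 * X| + |40 * (X - Y)| + |152 * w| := by gcongr; exact abs_sub _ _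
      _ = 80 * |X| + 40 * |X - Y| + 152 * w := by
        rw [abs_mul, abs_mul, abs_mul, abs_of_nonneg hw]
        norm_num
      _ ≤ _ := by gcongr
  have h2 : |80 * (Q * (Z - W))| ≤ 80 * nq * eZ := by
    rw [abs_mul, abs_mul, abs_of_nonneg (by norm_num : (0 : ℝ) ≤ 80), mul_assoc]
    gcongr
  have e1 : Y * (40 * Y - 152 * w) + 80 * (Q * W) + L =
      (X * (40 * X - 152 * w) + 80 * (Q * Z) + L) - 80 * (Q * (Z - W)) -
        (X - Y) * (80 * X - 40 * (X - Y) - 152 * w) := by ring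
  rw [e1]
  calc _ ≤ |(X * (40 * X - 152 * w) + 80 * (Q * Z) + L) - 80 * (Q * (Z - W))| +
        |(X - Y) * (80 * X - 40 * (X - Y) - 152 * w)| := abs_sub _ _
    _ ≤ |X * (40 * X - 152 * w) + 80 * (Q * Z) + L| + |80 * (Q * (Z - W))| +
        |(X - Y) * (80 * X - 40 * (X - Y) - 152 * w)| := by gcongr; exact abs_sub _ _
    _ ≤ _ := by gcongr

theorem RESC_core2 {Z W Q n eZ nq : ℝ} (h : |Q * Z| ≤ n) (hQ : |Q| ≤ nq) (hZ : |Z - W| ≤ eZ) :
    |Q * W| ≤ n + nq * eZ := by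
  have hnq : 0 ≤ nq := le_trans (abs_nonneg _) hQ
  have e1 : Q * W = Q * Z - Q * (Z - W) := by ring
  rw [e1]
  calc _ ≤ |Q * Z| + |Q * (Z - W)| := abs_sub _ _
    _ ≤ n + nq * eZ := by
      rw [abs_mul Q (Z - W)]
      gcongr

theorem RESC_w : w60 = (2 : ℝ) ^ 60 := rfl

theorem RESC_wpos : 0 < w60 := by rw [RESC_w]; positivity

theorem RESC_sup1 {T : ℕ} {f : ℤ[X]} (hf : ∀ n, f.coeff n ≠ 0 → vld T n) (a b : ℤ) :
    ∀ n, (C a * f - C b).coeff n ≠ 0 → vld T n := by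
  intro n hn
  by_cases h0 : n = 0
  · subst h0
    simp [vld]
  · apply hf
    intro hc
    apply hn
    rw [coeff_sub, coeff_C_mul, hc, coeff_C, if_neg h0]
    ring

theorem RESC_val_lv (l : List ℕ) (u v t : ℝ) : val (lpoly l) u v t = w60 * lv l u v t := by
  unfold lv
  field_simp [RESC_wpos.ne']

theorem res_S_pr {S : Sta} {lam : ℕ} {V : SV} (R : SVraw S lam V) {u v t : ℝ} (hu : |u| ≤ 1)
    (hv : |v| ≤ 1) (ht : 0 ≤ t) (ht1 : t ≤ 1) :
    80 * w60 ^ 2 * |((lam : ℝ) / 16) ^ 2 + S11h (V.cF u v t) (V.sF u v t) (V.qF u v t)| ≤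
      V.n11 + 80 * V.q.nr * V.CS.e + V.CC.e * (80 * V.CC.nr + 40 * V.CC.e + 152 * w60) ∧
    80 * w60 ^ 2 * |((lam : ℝ) / 16) ^ 2 + S22h (V.kF u v t) (V.gF u v t) (V.pF u v t)| ≤
      V.n22 + 80 * V.p.nr * V.KG.e + V.KK.e * (80 * V.KK.nr + 40 * V.KK.e + 152 * w60) ∧
    w60 ^ 2 * |V.qF u v t * (V.kF u v t * V.gF u v t)| ≤ V.n12 + V.q.nr * V.KG.e ∧
    w60 ^ 2 * |V.pF u v t * (V.cF u v t * V.sF u v t)| ≤ V.n21 + V.p.nr * V.CS.e := by
  have hw := RESC_wpos
  have hw2 : (0 : ℝ) < w60 ^ 2 := by positivity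
  have habs : ∀ (f : ℤ[X]) (m : ℕ), lnorm f ≤ (m : ℤ) → |val f u v t| ≤ (m : ℝ) := by
    intro f m hm
    refine (abs_val_le f hu hv ht ht1).trans ?_
    exact_mod_cast hm
  have supq := R.q.tm.rep.sup
  have supp := R.p.tm.rep.sup
  have supc := R.c.tm.rep.sup
  have supCS := R.CS.rep.sup
  have supKG := R.KG.rep.sup
  have supCC := R.CC.rep.sup
  have supKK := R.KK.rep.sup
  have cCC := R.CC.er u v t hu hv ht ht1
  have cKK := R.KK.er u v t hu hv ht ht1
  have cCS := R.CS.er u v t hu hv ht ht1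
  have cKG := R.KG.er u v t hu hv ht ht1
  have nq := habs _ _ R.q.tm.nr
  have np := habs _ _ R.p.tm.nr
  have nCC := habs _ _ R.CC.nr
  have nKK := habs _ _ R.KK.nr
  have b11 := habs _ _ R.n11
  have b22 := habs _ _ R.n22
  have b12 := habs _ _ R.n12
  have b21 := habs _ _ R.n21
  rw [val_mul supq supKG, RESC_val_lv] at b12
  rw [val_mul supp supCS, RESC_val_lv] at b21
  rw [val_add, val_add, val_add, val_mul supCC (RESC_sup1 supCC _ _), val_sub, val_C_mul, val_C,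
    val_C_mul, val_mul supq supCS, val_C_mul, val_C, RESC_val_lv, RESC_val_lv] at b11
  rw [val_add, val_sub, val_mul supKK (RESC_sup1 supKK _ _), val_sub, val_C_mul, val_C,
    val_C_mul, val_mul supp supKG, val_C, RESC_val_lv] at b22
  rw [RESC_val_lv] at nq np
  simp only [SV.cF, SV.sF, SV.kF, SV.gF, SV.pF, SV.qF] at *
  set c := lv V.Lc u v t with hc
  set s := lv V.Ls u v t with hs
  set k := lv V.Lk u v t with hk
  set g := lv V.Lg u v t with hg
  set p := lv V.Lp u v t with hp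
  set q := lv V.Lq u v t with hq
  set X := val V.fCC u v t with hX
  set X' := val V.fKK u v t with hX'
  set Z := val V.fCS u v t with hZ
  set Z' := val V.fKG u v t with hZ'
  refine ⟨?_, ?_, ?_, ?_⟩
  · have key := RESC_core (w := w60) (X := X) (Y := w60 * (c * c)) (Z := Z) (W := w60 * (c * s))
      (Q := w60 * q) (L := 40 * w60 * (w60 * c) + (61 * w60 ^ 2 + 80 * (lam * lam) * 2 ^ 112))
      (n := V.n11) (e := V.CC.e) (nr := V.CC.nr) (eZ := V.CS.e) (nq := V.q.nr) hw.le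
      (by
        refine le_trans (le_of_eq ?_) b11
        congr 1
        rw [RESC_w]
        push_cast
        ring) nCC cCC nq cCS
    refine le_trans (le_of_eq ?_) key
    rw [show (80 : ℝ) * w60 ^ 2 = |80 * w60 ^ 2| from (abs_of_pos (by positivity)).symm, ← abs_mul]
    congr 1
    unfold S11h
    rw [RESC_w]
    ring
  · have key := RESC_core (w := w60) (X := X') (Y := w60 * (k * k)) (Z := Z') (W := w60 * (k * g))
      (Q := -(w60 * p)) (L := (61 * w60 ^ 2 + 80 * (lam * lam) * 2 ^ 112))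
      (n := V.n22) (e := V.KK.e) (nr := V.KK.nr) (eZ := V.KG.e) (nq := V.p.nr) hw.le
      (by
        refine le_trans (le_of_eq ?_) b22
        congr 1
        rw [RESC_w]
        push_cast
        ring) nKK cKK (by rw [abs_neg]; exact np) cKG
    refine le_trans (le_of_eq ?_) key
    rw [show (80 : ℝ) * w60 ^ 2 = |80 * w60 ^ 2| from (abs_of_pos (by positivity)).symm, ← abs_mul]
    congr 1
    unfold S22h
    rw [RESC_w]
    ring
  · have key := RESC_core2 (Z := Z') (W := w60 * (k * g)) (Q := w60 * q) b12 nq cKG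
    refine le_trans (le_of_eq ?_) key
    rw [show w60 ^ 2 = |w60 ^ 2| from (abs_of_pos (by positivity)).symm, ← abs_mul]
    congr 1
    ring
  · have key := RESC_core2 (Z := Z) (W := w60 * (c * s)) (Q := w60 * p) b21 np cCS
    refine le_trans (le_of_eq ?_) key
    rw [show w60 ^ 2 = |w60 ^ 2| from (abs_of_pos (by positivity)).symm, ← abs_mul]
    congr 1
    ring

end Pool.Agent.Ecl
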