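import Pool.Agent.Lib_helper51.Ecl.SVDefs
import Pool.Agent.Lib_helper51.EclS.INSA
import Pool.Agent.Lib_helper51.EclS.STPA

set_option autoImplicit false

namespace Pool.Agent.Ecl

open Real Polynomial K Set

/-- **RUN** -/
theorem run_sound_pr {tgt : ℕ} {kap : ℤ} {th : ℕ} {l : List (ℕ × ℕ)} {S : Sta} (hS : StaMsk S)
    {k : Sta → Bool} (h : run ctx16 ctx0 false tgt kap th l S k = true) :
    ∃ S' : Sta, k S' = true ∧ StaMsk S' ∧ ∀ u v : ℝ, |u| ≤ 1 → |v| ≤ 1 →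
      ∀ (z : ℝ → St) (τ : ℝ), ClSol z → 0 < τ → Good tgt (kap / w60) z τ → StaOK S u v (z τ) →
      ∃ τ', 0 < τ' ∧ Good tgt (kap / w60) z τ' ∧ StaOK S' u v (z τ') := by
  induction l generalizing S with
  | nil => exact ⟨S, h, hS, fun u v hu hv z τ hz hτ hg hs => ⟨τ, hτ, hg, hs⟩⟩
  | cons a l ih =>
    have h' : step ctx16 ctx0 false S th a.1 a.2 (fun o S' =>
        cond (inMid o && noSec tgt kap o)
          (run ctx16 ctx0 false tgt kap th l S' k) false) = true := h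
    obtain ⟨o, S', h2, hS', hsem⟩ := step_sound hS h'
    rw [Bool.cond_eq_ite] at h2
    split_ifs at h2 with hc
    rw [Bool.and_eq_true] at hc
    obtain ⟨S'', hk, hm, hrec⟩ := ih hS' h2
    refine ⟨S'', hk, hm, fun u v hu hv z τ hz hτ hg hs => ?_⟩
    obtain ⟨hlo, hst⟩ := hsem
    obtain ⟨h, hh, hh1, hh2, hstep⟩ := hst u v hu hv
    have ok := hstep z τ hz hs
    exact hrec u v hu hv z (τ + h) hz (by linarith) (mid_good (S := S) hc.1 hc.2 hh hz hτ ok hg) ok.fin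

end Pool.Agent.Ecl
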