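import Pool.Agent.Lib_helper51.Ecl.SVDefs
import Pool.Agent.Lib_helper51.EclS.INFA
import Pool.Agent.Lib_helper51.EclS.INIA
import Pool.Agent.Lib_helper51.EclS.LNKA
import Pool.Agent.Lib_helper51.EclS.ODEA
import Pool.Agent.Lib_helper51.EclS.RUNA
import Pool.Agent.Lib_helper51.EclS.STPA

set_option autoImplicit false

namespace Pool.Agent.Ecl

open Real Polynomial K Set

theorem SGA_nX (n : K.Node) (b : Box) (u v : ℝ) :
    (((16777216 * n.a + 8192 * (n.Ua * b.uc + n.Va * b.vc) : ℤ) : ℝ) +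
      u * ((8192 * n.Ua * b.uh : ℤ) : ℝ) + v * ((8192 * n.Va * b.vh : ℤ) : ℝ)) / w60 =
      nX n (bu b u) (bv b v) := by
  unfold nX bu bv w36 w60
  push_cast
  have e : (2 : ℝ) ^ 60 = 2 ^ 36 * 16777216 := by norm_num
  rw [e]
  field_simp
  ring

theorem SGA_nY (n : K.Node) (b : Box) (u v : ℝ) :
    (((16777216 * n.b + 8192 * (n.Ub * b.uc + n.Vb * b.vc) : ℤ) : ℝ) +
      u * ((8192 * n.Ub * b.uh : ℤ) : ℝ) + v * ((8192 * n.Vb * b.vh : ℤ) : ℝ)) / w60 =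
      nY n (bu b u) (bv b v) := by
  unfold nY bu bv w36 w60
  push_cast
  have e : (2 : ℝ) ^ 60 = 2 ^ 36 * 16777216 := by norm_num
  rw [e]
  field_simp
  ring

/-- **SGA** -/
theorem checkA_sound_pr {n : K.Node} {b : Box} {A N th : List (List ℕ)} {f : ℕ × ℕ}
    {l : List (ℕ × ℕ)} {D : StaD} (h : checkA n b A N th f l D = true) : SegA n b D := by
  unfold checkA at h
  rw [mkCtx_eq] at h
  rw [fNat_eq] at h
  obtain ⟨S, h, hS, hini⟩ := init_sound h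
  obtain ⟨o, S', h, hS', hsem⟩ := step_sound hS h
  rw [Bool.cond_eq_ite] at h
  split_ifs at h with hc
  rw [Bool.and_eq_true] at hc
  obtain ⟨S2, h, hS2, hrun⟩ := run_sound hS' h
  obtain ⟨h, hD⟩ := load_spec h
  intro u v hu hv
  obtain ⟨x, hx, hxS⟩ := hini u v hu hv
  obtain ⟨z, hz0, hz⟩ := exists_sol x
  obtain ⟨t, ht0, ht1, ht2, hstep⟩ := hsem.2 u v hu hv
  have ok := hstep z 0 hz (by rw [hz0]; exact hxS)
  rw [SGA_nX, SGA_nY] at hx
  have hg : Good n.tgt (n.kap' / w60) z t :=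
    first_good hc.1 hc.2 ht0 ht2 hz (by rw [hz0]; exact hx) ok
  have hfin := ok.fin
  rw [zero_add] at hfin
  obtain ⟨τ, hτ, hgτ, hsτ⟩ := hrun u v hu hv z t hz ht0 hg hfin
  exact ⟨z, τ, hz, hτ, by rw [hz0]; exact hx, hgτ, link_sound hS2 hD h hu hv hsτ⟩

end Pool.Agent.Ecl
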