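import Pool.Agent.Lib_helper51.Ecl.SVDefs
import Pool.Agent.Lib_helper51.EclS.LNKA
import Pool.Agent.Lib_helper51.EclS.RUNA

/-! # Block SGM: middle segments -/

set_option autoImplicit false

namespace Pool.Agent.Ecl

open Set Filter Topology Real K

theorem checkM_sound_pr {n : K.Node} {th : List (List ℕ)} {D : StaD} {l : List (ℕ × ℕ)}
    {D' : StaD} (h : checkM n th D l D' = true) : SegM n D D' := by
  unfold checkM at h
  rw [mkCtx_eq, fNat_eq] at h
  obtain ⟨h1, hD⟩ := load_spec h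
  obtain ⟨S', h2, hS', hrun⟩ := run_sound hD h1
  obtain ⟨h3, hD'⟩ := load_spec h2
  intro u v hu hv z τ hz hτ hg hs
  obtain ⟨τ', hτ', hg', hs'⟩ := hrun u v hu hv z τ hz hτ hg hs
  exact ⟨τ', hτ', hg', link_sound hS' hD' h3 hu hv hs'⟩

end Pool.Agent.Ecl
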