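import Pool.Agent.Lib_helper51.Ecl.SVDefs
import Pool.Agent.Lib_helper51.EclS.COVA
import Pool.Agent.Lib_helper51.EclS.FN0A
import Pool.Agent.Lib_helper51.EclS.FN1A
import Pool.Agent.Lib_helper51.EclS.FN2A
import Pool.Agent.Lib_helper51.EclS.FN3A
import Pool.Agent.Lib_helper51.EclS.FN4A
import Pool.Agent.Lib_helper51.EclS.LNKA
import Pool.Agent.Lib_helper51.EclS.RUNA
import Pool.Agent.Lib_helper51.EclS.STPA

/-!
# Block SGZ of the soundness proof of the kernel checker (MP_efcf7c_an)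
-/

set_option autoImplicit false

namespace Pool.Agent.Ecl

open Real Polynomial K Set

theorem SGZ_coverAll {C : Ctx} {mode : ℕ} {F : Fnl} {l : List K.Tgt}
    (h : coverAll C mode F l = true) : ∀ t ∈ l, cover C mode F t = true := by
  induction l with
  | nil => intro t ht; simp at ht
  | cons a l ih =>
    have h' : (cover C mode F a && coverAll C mode F l) = true := h
    rw [Bool.and_eq_true] at h'
    intro t ht
    rcases List.mem_cons.mp ht with rfl | ht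
    · exact h'.1
    · exact ih h'.2 t ht

theorem SGZ_cl {x : ℝ} (h : |x| ≤ 2 ^ 20) : cl x = x := by
  unfold cl
  have h' := abs_le.mp h
  rw [min_eq_right h'.2, max_eq_right h'.1]

theorem SGZ_sol {z : ℝ → St} (hz : ClSol z) {T : ℝ} (hb : ∀ t, 0 ≤ t → t ≤ T → Bd (z t)) :
    IsSol z T := by
  intro t ht
  obtain ⟨b1, b2, b3⟩ := hb t ht.1 ht.2
  have h := hz t
  rw [SGZ_cl b1, SGZ_cl b2, SGZ_cl b3] at h
  exact h

theorem SGZ_sec {src : ℕ} {κ X Y : ℝ} {x : St} (h : OnSec src κ X Y x) : x.eta - x.xi < π := by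
  have hpi := Real.pi_pos
  obtain ⟨_, h⟩ := h
  match src, h with
  | 0, h => obtain ⟨h1, h2, h3, _⟩ := h; rw [h1]; linarith
  | 1, h => obtain ⟨h1, h2, _⟩ := h; rw [h1]; linarith
  | 2, h => obtain ⟨h1, h2, _⟩ := h; rw [h1]; linarith
  | 3, h => obtain ⟨_, h2, h3, h4, _⟩ := h; linarith
  | n + 4, h => obtain ⟨h1, h2, _⟩ := h; rw [h1, h2]; linarith

theorem SGZ_fin {n : K.Node} {mode : ℕ} {S0 S : Sta} {o : Out} (hstep : StepSem S0 o S)
    {F : Fnl} (hF : FinSem n.tgt n.kap' S0 o S F) (hk : coverAll ctx0 mode F n.succ = true)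
    (hn : n.tgt ≠ 4) {u v : ℝ} (hu : |u| ≤ 1) (hv : |v| ≤ 1) {z : ℝ → St} {τ : ℝ} (hz : ClSol z)
    (hτ : 0 < τ) (hg : Good n.tgt (n.kap' / w60) z τ) (hs : StaOK S0 u v (z τ)) :
    EndOK n mode (z 0) := by
  refine ⟨fun _ => ?_, fun h => absurd h hn⟩
  obtain ⟨_, hst⟩ := hstep
  obtain ⟨h, hh0, hh1, hh2, hso⟩ := hst u v hu hv
  obtain ⟨fX, fY, rX, rY, cX, cY, hfin⟩ := hF
  obtain ⟨y, hA, hO⟩ := hfin u v hu hv z τ h hz hτ hh0 hh1 hh2 hg hs (hso z τ hz hs)
  obtain ⟨T, hT, hin, hno, hb, hy, hhit⟩ := hA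
  refine ⟨y, ⟨T, z, hT, rfl, SGZ_sol hz hb, hin, hno, hy, hhit⟩, ?_⟩
  intro t ht
  exact (cover_spec (SGZ_coverAll hk t ht) rX rY cX cY).2 u v hu hv _ _ hO.x hO.y

theorem checkZ_sound_pr {n : K.Node} {b : Box} {th : List (List ℕ)} {D : StaD}
    {l : List (ℕ × ℕ)} {f : ℕ × ℕ} (h : checkZ n b th D l f = true) (hn : n.tgt ≤ 4) :
    SegZ n b D := by
  unfold checkZ at h
  rw [mkCtx_eq] at h
  simp only [fNat_eq] at h
  obtain ⟨h, mD⟩ := load_spec h
  obtain ⟨S1, h, m1, hrun⟩ := run_sound mD h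
  obtain ⟨o, S2, h, m2, hstep⟩ := step_sound m1 h
  rw [Bool.cond_eq_ite] at h
  split_ifs at h with hl
  intro u v hu hv z τ hz hτ hsec hg hs
  obtain ⟨τ', hτ', hg', hs'⟩ := hrun u v hu hv z τ hz hτ hg hs
  have hlo : 0 < o.hlo := hstep.1
  obtain htgt | htgt : n.tgt = 4 ∨ n.tgt ≠ 4 := em _
  · rw [htgt] at h hl hg'
    obtain ⟨F, hk, hfin⟩ := finish4 m1 m2 hlo hl h
    obtain ⟨hh, hh0, hh1, hh2, hso⟩ := hstep.2 u v hu hv
    obtain ⟨σ, hσ, hp, hm⟩ := hfin u v hu hv z τ' hh hz hτ' hh0 (SGZ_sec hsec) hg'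
      (hso z τ' hz hs')
    have h44 : Nat.beq 4 4 = true := rfl
    refine ⟨fun h => absurd htgt h, fun _ => ⟨σ, hσ, ?_, ?_⟩⟩
    · intro hm1
      simp only [h44, cond_true, hm1] at hk
      cases hfl : n.flip
      · simp only [hfl, cond_false, decide_eq_true_eq] at hk
        simpa using hm hk
      · simp only [hfl, cond_true, decide_eq_true_eq] at hk
        simpa using hp hk
    · intro hm2
      obtain ⟨m, hm3⟩ : ∃ m, b.mode = m + 2 := ⟨b.mode - 2, by omega⟩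
      simp only [h44, cond_true, hm3] at hk
      cases hfl : n.flip
      · simp only [hfl, cond_false, decide_eq_true_eq] at hk
        simpa using hp hk
      · simp only [hfl, cond_true, decide_eq_true_eq] at hk
        simpa using hm hk
  · have hcase : n.tgt = 0 ∨ n.tgt = 1 ∨ n.tgt = 2 ∨ n.tgt = 3 := by omega
    have hbeq : Nat.beq n.tgt 4 = false := by
      rcases hcase with h | h | h | h <;> rw [h] <;> rfl
    have hFex : ∃ F : Fnl, coverAll ctx0 b.mode F n.succ = true ∧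
        FinSem n.tgt n.kap' S1 o S2 F := by
      rcases hcase with h0 | h0 | h0 | h0
      · rw [h0] at h hl
        obtain ⟨F, hk, hF⟩ := finish0 m1 m2 hlo hl h
        exact ⟨F, hk, by rw [h0]; exact hF⟩
      · rw [h0] at h hl
        obtain ⟨F, hk, hF⟩ := finish1 m1 m2 hlo hl h
        exact ⟨F, hk, by rw [h0]; exact hF⟩
      · rw [h0] at h hl
        obtain ⟨F, hk, hF⟩ := finish2 m1 m2 hlo hl h
        exact ⟨F, hk, by rw [h0]; exact hF⟩
      · rw [h0] at h hl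
        obtain ⟨F, hk, hF⟩ := finish3 m1 m2 hlo hl h
        exact ⟨F, hk, by rw [h0]; exact hF⟩
    obtain ⟨F, hk, hF⟩ := hFex
    exact SGZ_fin hstep hF hk htgt hu hv hz hτ' hg' hs'

end Pool.Agent.Ecl
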