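import Pool.Agent.Lib_helper51.Ecl.SVDefs
import Pool.Agent.Lib_helper51.EclS.CMPA
import Pool.Agent.Lib_helper51.EclS.CTXCA
import Pool.Agent.Lib_helper51.EclS.NUMDA
import Pool.Agent.Lib_helper51.EclS.OUTA
import Pool.Agent.Lib_helper51.EclS.RAWA
import Pool.Agent.Lib_helper51.EclS.STXA
import Pool.Agent.Lib_helper51.EclS.VALBA

/-! # Block STP: soundness of one step -/

set_option autoImplicit false

namespace Pool.Agent.Ecl

open Set Filter Topology Real K

theorem STP_msk {S : Sta} {lam : ℕ} {V : SV} (R : SVraw S lam V) : StaMsk (V.sta S lam) where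
  c := R.c.m1
  s := R.s.m1
  k := R.k.m1
  g := R.g.m1
  p := R.p.m1
  q := R.q.m1
  lam := R.cond.lam1

theorem STP_near0 {S : Sta} (hS : StaMsk S) {lam : ℕ} {V : SV} (R : SVraw S lam V) {u v : ℝ}
    {x : St} (h : StaOK S u v x) :
    Near (V.cF u v 0) (V.sF u v 0) (V.kF u v 0) (V.gF u v 0) (V.pF u v 0) (V.qF u v 0)
      (S.eh / w60) (S.et / w60) (E0of S lam / w60) (lam / 16) x := by
  have h1 := near_lam R.cond.lam1 hS.lam h
  unfold SV.cF SV.sF SV.kF SV.gF SV.pF SV.qF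
  rw [R.c.v0, R.s.v0, R.k.v0, R.g.v0, R.p.v0, R.q.v0]
  exact h1

theorem STP_near1 {S : Sta} {lam : ℕ} {V : SV} (R : SVraw S lam V) {u v : ℝ}
    {x : St} (h : Near (V.cF u v 1) (V.sF u v 1) (V.kF u v 1) (V.gF u v 1) (V.pF u v 1)
      (V.qF u v 1) (V.eh S / w60) (V.et S / w60) (V.E1 S lam / w60) (lam / 16) x) :
    StaOK (V.sta S lam) u v x := by
  unfold SV.cF SV.sF SV.kF SV.gF SV.pF SV.qF at h
  rw [R.c.v1, R.s.v1, R.k.v1, R.g.v1, R.p.v1, R.q.v1] at h
  exact h

theorem step_sound_pr {S : Sta} (hS : StaMsk S) {th m lam : ℕ} {k : Out → Sta → Bool}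
    (h : step ctx16 ctx0 false S th m lam k = true) :
    ∃ (o : Out) (S' : Sta), k o S' = true ∧ StaMsk S' ∧ StepSem S o S' := by
  obtain ⟨V, R, hk⟩ := step_extract hS h
  have hw : (0 : ℝ) < w60 := by
    unfold w60
    positivity
  refine ⟨V.out S lam, V.sta S lam, hk, STP_msk R, R.cond.h, ?_⟩
  intro u v hu hv
  have hRS := real_of_raw hS R hu hv
  have hH := hRS.h0
  have hval : w60 * V.H u v = Pool.Agent.Ecl.val (dpoly V.yH) u v 0 := by
    unfold SV.H pv
    field_simp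
  refine ⟨V.H u v, hH, ?_, ?_, ?_⟩
  · rw [hval]
    have h1 := (lo_le_val (dpoly V.yH) R.h.nr hu hv le_rfl zero_le_one).1
    rw [dpoly_coeff0] at h1
    exact h1
  · rw [hval]
    have h1 := abs_val_le (dpoly V.yH) hu hv le_rfl zero_le_one
    have h2 : ((lnorm (dpoly V.yH) : ℤ) : ℝ) ≤ (V.h.nr : ℝ) := by exact_mod_cast R.h.nr
    exact (le_abs_self _).trans (h1.trans h2)
  · intro z a hz h0
    have hst := real_step hRS hz (STP_near0 hS R h0)
    have h1 := hst 1 ⟨zero_le_one, le_rfl⟩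
    rw [mul_one] at h1
    have ho1 := out_ok hS R hu hv zero_le_one le_rfl h1
    refine ⟨?_, STP_near1 R h1, ?_, ?_⟩
    · intro τ hτ hτh
      have hτ0 : 0 ≤ τ / V.H u v := div_nonneg hτ hH.le
      have hτ1 : τ / V.H u v ≤ 1 := (div_le_one hH).2 hτh
      have h2 := hst (τ / V.H u v) ⟨hτ0, hτ1⟩
      have h3 : V.H u v * (τ / V.H u v) = τ := by field_simp
      rw [h3] at h2
      have h4 := (out_ok hS R hu hv hτ0 hτ1 h2).1
      rwa [h3] at h4
    · have h2 := ho1.2.1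
      unfold SV.sF at h2
      rw [R.s.v1] at h2
      exact h2
    · have h2 := ho1.2.2
      unfold SV.gF at h2
      rw [R.g.v1] at h2
      exact h2

end Pool.Agent.Ecl
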