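import Pool.Agent.Lib_helper51.Ecl.SVDefs
import Pool.Agent.Lib_helper51.EclS.CTXBA
import Pool.Agent.Lib_helper51.EclS.CTXCA
import Pool.Agent.Lib_helper51.EclS.L1SA
import Pool.Agent.Lib_helper51.EclS.LSTAA
import Pool.Agent.Lib_helper51.EclS.LSTBA
import Pool.Agent.Lib_helper51.EclS.LSTCA
import Pool.Agent.Lib_helper51.EclS.MULA
import Pool.Agent.Lib_helper51.EclS.UVTA
import Pool.Agent.Lib_helper51.EclS.VALAA
import Pool.Agent.Lib_helper51.EclS.VALBA
import Pool.Agent.Lib_helper51.EclS.VALCA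

/-!
# Block STX: unwrapping one step of the checker
-/

set_option autoImplicit false
set_option exponentiation.threshold 300000
set_option linter.unusedVariables false

namespace Pool.Agent.Ecl

open Real Polynomial K Set

theorem STX_gstep (C : Ctx) (HT n : ℕ) (S : G) (k : G → Bool) :
    ∃ S' : G, gstep C HT n S k = k S' := by
  unfold gstep
  simp only [fNat_eq, fList_eq]
  exact ⟨_, rfl⟩

theorem STX_gen_aux (C : Ctx) (HT : ℕ) (k : G → Bool) (T : ℕ) : ∀ (n : ℕ) (S : G),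
    (Nat.rec (motive := fun _ => Nat → G → Bool) (fun _ S => k S)
      (fun _ ih n S => gstep C HT n S (fun S' => fNat (Nat.succ n) fun n' => ih n' S')) T n S : Bool)
      = true → ∃ L, k L = true := by
  induction T with
  | zero =>
      intro n S h
      exact ⟨S, h⟩
  | succ T ih =>
      intro n S h
      obtain ⟨S', hS'⟩ := STX_gstep C HT n S (fun S' => fNat (Nat.succ n) fun n' =>
        (Nat.rec (motive := fun _ => Nat → G → Bool) (fun _ S => k S)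
          (fun _ ih n S => gstep C HT n S (fun S' => fNat (Nat.succ n) fun n' => ih n' S'))
          T n' S' : Bool))
      have h3 : fNat (Nat.succ n) (fun n' =>
        (Nat.rec (motive := fun _ => Nat → G → Bool) (fun _ S => k S)
          (fun _ ih n S => gstep C HT n S (fun S' => fNat (Nat.succ n) fun n' => ih n' S'))
          T n' S' : Bool)) = true := hS'.symm.trans h
      rw [fNat_eq] at h3
      exact ih _ _ h3

theorem STX_gen {C : Ctx} {HT T : ℕ} {S : G} {k : G → Bool} (h : gen C HT T S k = true) :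
    ∃ L, k L = true := STX_gen_aux C HT k T 0 S h

theorem STX_fNat {n : ℕ} {k : ℕ → Bool} (h : fNat n k = true) : k n = true := by
  rwa [fNat_eq] at h

theorem STX_isub {a b : ℤ} {k : ℤ → Bool} (h : isub a b k = true) : k (a - b) = true := by
  rwa [isub_eq] at h

theorem STX_iadd {a b : ℤ} {k : ℤ → Bool} (h : iadd a b k = true) : k (a + b) = true := by
  rwa [iadd_eq] at h

theorem STX_imul {a b : ℤ} {k : ℤ → Bool} (h : imul a b k = true) : k (a * b) = true := by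
  rwa [imul_eq] at h

/-- the numeric part of a step -/
theorem STX_fin (S : Sta) (lam : ℕ) (V : SV) (k : Out → Sta → Bool)
    (h : (fNat (V.h.nr * V.p.nr / n60 + 1) fun x =>
  fNat ((S.eh + V.rc + V.sP.e + V.rs + V.cP.e) * (n120 + x * n60 + x * x) / n120 + 1) fun eh =>
  fNat (S.et + V.rk + V.gQ.e + V.rg + V.kQ.e + 1) fun et =>
  fNat (eh + et) fun er =>
  fNat ((V.c.nr + eh) * 17 / Nat.pow 2 64 + 1) fun Cb =>
  fNat (V.p.nr / n60 + 2) fun Pb => fNat (V.q.nr / n60 + 2) fun Qb =>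
  fNat ((V.rp + n60 * (40 * V.JQ.e) + V.h.nr * (10 * V.CSCC.e + 61 * V.CS.e)) / (80 * n60) +
    ((V.rq + n60 * (40 * V.JP.e) + V.h.nr * (10 * V.KGKK.e + 61 * V.KG.e)) / (80 * n60)) +
    V.h.nr * er * ((Cb + 1) * (Pb + Qb) + Cb * Cb * Cb + 2 * Cb + 3) / n60 + 4) fun rho =>
  fNat (cond (Nat.ble lam S.lam) S.E (S.E * lam / S.lam + 1)) fun E0 =>
  fNat (8 * (E0 + rho)) fun Bm =>
  fNat (Nat.max (V.n11 + 80 * V.q.nr * V.CS.e + V.CC.e * (80 * V.CC.nr + 40 * V.CC.e + 152 * n60))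
      (V.n22 + 80 * V.p.nr * V.KG.e + V.KK.e * (80 * V.KK.nr + 40 * V.KK.e + 152 * n60)) +
    80 * Nat.max (V.n12 + V.q.nr * V.KG.e) (V.n21 + V.p.nr * V.CS.e)) fun M80 =>
  fNat (V.h.nr * M80 / (10 * lam * n120) +
    V.h.nr * (Cb * Cb * (Pb + Qb + 2) + Cb * Cb * Cb * Cb) * Bm * 256 / (lam * lam * n60) +
    V.h.nr * er * (2 * Cb * Cb * Cb + 4 * Cb + 1 + (Pb + Qb) * (2 * Cb + 1)) * 16
      / (lam * n60) + 3) fun mu =>
  fNat (mu / 4 + 1) fun y =>
  fNat (n60 + y + y * y / n60 + 1) fun F =>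
  fNat ((E0 + rho) * (F * F * F * F) / Nat.pow 2 240 + 1) fun E1 =>
  fNat (E1 * 16 / lam + 1) fun dX =>
  cond (Nat.ble 1 lam && (Nat.ble x (n60) && (Nat.ble y (Nat.pow 2 58) && (Nat.ble E1 Bm &&
    (Nat.ble (Bm * 16) (lam * Nat.pow 2 55) && (Nat.ble Bm (n60) && (Nat.ble er (Nat.pow 2 50) &&
    (Nat.ble Cb (Nat.pow 2 18) && (Nat.ble Pb (Nat.pow 2 18) && (Nat.ble Qb (Nat.pow 2 18) &&
    (Nat.ble lam (Nat.pow 2 18) && decide (0 < lo (cd V.yH) V.h.nr))))))))))))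
    (k ⟨lo (cd S.s) V.s.nr, lo (cd S.g) V.g.nr, lo (cd S.k) V.k.nr, hi (cd S.k) V.k.nr,
        lo (cd S.p) V.p.nr, hi (cd S.p) V.p.nr, lo (cd S.q) V.q.nr, hi (cd S.q) V.q.nr,
        E1, eh, et, dX, V.s.nr, V.g.nr, V.p.nr, V.q.nr, V.h.nr, Cb, lo (cd V.yH) V.h.nr,
        V.ndc, V.ndk, V.ndp, V.ndq⟩
      ⟨V.c1, V.s1, V.k1, V.g1, V.p1, V.q1, E1, eh, et, lam⟩) false) = true) :
    SVcond S lam V ∧ k (V.out S lam) (V.sta S lam) = true := by
  change fNat V.x _ = true at h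
  replace h := STX_fNat h
  change fNat (V.eh S) _ = true at h
  replace h := STX_fNat h
  change fNat (V.et S) _ = true at h
  replace h := STX_fNat h
  change fNat (V.er S) _ = true at h
  replace h := STX_fNat h
  change fNat (V.Cb S) _ = true at h
  replace h := STX_fNat h
  change fNat V.Pb _ = true at h
  replace h := STX_fNat h
  change fNat V.Qb _ = true at h
  replace h := STX_fNat h
  change fNat (V.rho S) _ = true at h
  replace h := STX_fNat h
  change fNat (E0of S lam) _ = true at h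
  replace h := STX_fNat h
  change fNat (V.Bm S lam) _ = true at h
  replace h := STX_fNat h
  change fNat V.M80 _ = true at h
  replace h := STX_fNat h
  change fNat (V.mu S lam) _ = true at h
  replace h := STX_fNat h
  change fNat (V.y S lam) _ = true at h
  replace h := STX_fNat h
  change fNat (V.F S lam) _ = true at h
  replace h := STX_fNat h
  change fNat (V.E1 S lam) _ = true at h
  replace h := STX_fNat h
  change fNat (V.dX S lam) _ = true at h
  replace h := STX_fNat h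
  change cond _ (k (V.out S lam) (V.sta S lam)) false = true at h
  have h2 : ∀ b c : Bool, cond b c false = true → b = true ∧ c = true := by
    intro b c hb
    cases b
    · simp at hb
    · exact ⟨rfl, hb⟩
  obtain ⟨hc, hk⟩ := h2 _ _ h
  refine ⟨?_, hk⟩
  simp only [Bool.and_eq_true, Nat.ble_eq, decide_eq_true_eq] at hc
  obtain ⟨c1, c2, c3, c4, c5, c6, c7, c8, c9, c10, c11, c12⟩ := hc
  exact ⟨c1, c2, c3, c4, c5, c6, c7, c8, c9, c10, c11, c12⟩

theorem STX_lok {L : List ℕ} {y0 y1 : ℕ} {A : TM} (hl : L.length = 17)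
    (hy : ym ctx16 (lastY L) = y0) (hm : Msk y1) (h1 : ∀ u v : ℝ, lv L u v 1 = pv y1 u v)
    (he : A.e = 0) (hr : Rep 16 (2 ^ 68) A.N (lpoly L)) (ht : TMP 16 A (lpoly L) (lv L)) :
    LOK L y0 y1 A where
  tm := ht
  rep := hr
  e0 := he
  v0 := fun u v => by rw [lv_zero hl, hy]
  v1 := h1
  m1 := hm
  c0 := by rw [lpoly_coeff0 hl, hy]

/-- difference of two Taylor models -/
theorem STX_sub {A B : TM} {f g : ℤ[X]} {F G : ℝ → ℝ → ℝ → ℝ} (hA : TMP 16 A f F)
    (hB : TMP 16 B g G) (rA : Rep 16 (2 ^ 68) A.N f) (rB : Rep 16 (2 ^ 68) B.N g) :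
    TMP 16 ⟨A.N - B.N, Nat.add A.e B.e, Nat.add A.nr B.nr⟩ (f - g)
      (fun u v t => F u v t - G u v t) where
  rep := (rA.sub' rB).mono' le_rfl (by norm_num)
  nr := by
    have h1 := lnorm_sub_le f g
    have h2 := hA.nr
    have h3 := hB.nr
    show lnorm (f - g) ≤ ((Nat.add A.nr B.nr : ℕ) : ℤ)
    have : ((Nat.add A.nr B.nr : ℕ) : ℤ) = (A.nr : ℤ) + B.nr := by
      show ((A.nr + B.nr : ℕ) : ℤ) = _
      push_cast
      rfl
    rw [this]
    linarith
  er := by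
    intro u v t hu hv ht ht1
    have h1 := hA.er u v t hu hv ht ht1
    have h2 := hB.er u v t hu hv ht ht1
    show |val (f - g) u v t - w60 * (F u v t - G u v t)| ≤ ((Nat.add A.e B.e : ℕ) : ℝ)
    have h3 : ((Nat.add A.e B.e : ℕ) : ℝ) = (A.e : ℝ) + B.e := by
      show ((A.e + B.e : ℕ) : ℝ) = _
      push_cast
      rfl
    rw [h3, val_sub]
    have h4 : val f u v t - val g u v t - w60 * (F u v t - G u v t) =
        (val f u v t - w60 * F u v t) - (val g u v t - w60 * G u v t) := by ring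
    rw [h4]
    exact (abs_sub _ _).trans (add_le_add h1 h2)

theorem STX_ltC (a : ℤ) {f : ℤ[X]} {b : ℤ} (hf : ∀ n, |f.coeff n| ≤ b) (n : ℕ) :
    |(C a * f).coeff n| ≤ |a| * b := by
  rw [coeff_C_mul, abs_mul]
  exact mul_le_mul_of_nonneg_left (hf n) (abs_nonneg a)

theorem STX_add {f g : ℤ[X]} {a b : ℤ} (hf : ∀ n, |f.coeff n| ≤ a) (hg : ∀ n, |g.coeff n| ≤ b)
    (n : ℕ) : |(f + g).coeff n| ≤ a + b := by
  rw [coeff_add]
  exact (abs_add_le _ _).trans (add_le_add (hf n) (hg n))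

theorem STX_subc {f g : ℤ[X]} {a b : ℤ} (hf : ∀ n, |f.coeff n| ≤ a)
    (hg : ∀ n, |g.coeff n| ≤ b) (n : ℕ) : |(f - g).coeff n| ≤ a + b := by
  rw [coeff_sub]
  exact (abs_sub _ _).trans (add_le_add (hf n) (hg n))

theorem STX_C (a : ℤ) (n : ℕ) : |(C a : ℤ[X]).coeff n| ≤ |a| := by
  rw [coeff_C]
  split_ifs
  · exact le_rfl
  · rw [abs_zero]
    exact abs_nonneg a

theorem STX_mono {f : ℤ[X]} {a b : ℤ} (hf : ∀ n, |f.coeff n| ≤ a) (hab : a ≤ b) (n : ℕ) :
    |f.coeff n| ≤ b := (hf n).trans hab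

theorem STX_n80 : Int.ofNat (Nat.mul 80 n60) = 80 * 2 ^ 60 := by decide +kernel

theorem STX_n40 : Int.ofNat (Nat.mul 40 n60) = 40 * 2 ^ 60 := by decide +kernel

theorem STX_n152 : Int.ofNat (Nat.mul 152 n60) = 152 * 2 ^ 60 := by decide +kernel

theorem STX_cst (lam : ℕ) :
    Int.ofNat (Nat.add (Nat.mul 61 n120) (Nat.mul (Nat.mul 80 (Nat.mul lam lam)) (Nat.pow 2 112))) =
      61 * 2 ^ 120 + 80 * ((lam : ℤ) * lam) * 2 ^ 112 := by
  show ((61 * n120 + 80 * (lam * lam) * 2 ^ 112 : ℕ) : ℤ) = _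
  have h1 : (n120 : ℤ) = 2 ^ 120 := by decide +kernel
  rw [Nat.cast_add, Nat.cast_mul, Nat.cast_mul, Nat.cast_mul, Nat.cast_mul, h1, Nat.cast_pow]
  norm_num

theorem STX_cst_le {lam : ℕ} (h : lam ≤ 2 ^ 18) :
    |(61 * 2 ^ 120 + 80 * ((lam : ℤ) * lam) * 2 ^ 112 : ℤ)| ≤ 2 ^ 155 := by
  have h1 : (lam : ℤ) ≤ 2 ^ 18 := by exact_mod_cast h
  have h0 : (0 : ℤ) ≤ lam := Int.natCast_nonneg lam
  have h2 : (lam : ℤ) * lam ≤ 2 ^ 18 * 2 ^ 18 := mul_le_mul h1 h1 h0 (by norm_num)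
  have h3 : (0 : ℤ) ≤ (lam : ℤ) * lam := mul_nonneg h0 h0
  rw [abs_of_nonneg (add_nonneg (by norm_num) (mul_nonneg (mul_nonneg (by norm_num) h3)
    (by norm_num)))]
  have h4 : 80 * ((lam : ℤ) * lam) * 2 ^ 112 ≤ 80 * (2 ^ 18 * 2 ^ 18) * 2 ^ 112 :=
    mul_le_mul_of_nonneg_right (mul_le_mul_of_nonneg_left h2 (by norm_num)) (by norm_num)
  have h5 : (61 : ℤ) * 2 ^ 120 + 80 * (2 ^ 18 * 2 ^ 18) * 2 ^ 112 ≤ 2 ^ 155 := by norm_num
  linarith

/-- **STX** -/
theorem step_extract_pr {S : Sta} (hS : StaMsk S) {th m lam : ℕ} {k : Out → Sta → Bool}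
    (h : step ctx16 ctx0 false S th m lam k = true) :
    ∃ V : SV, SVraw S lam V ∧ k (V.out S lam) (V.sta S lam) = true := by
  unfold step at h
  replace h := STX_fNat h
  replace h := STX_fNat h
  obtain ⟨L, h⟩ := STX_gen h
  have hyH : Msk (rt ctx16.A10 ctx16.M 10 (Nat.mul m (res ctx16 th))) := by
    unfold rt
    rw [ctx16_ok.m]
    exact msk_land _
  generalize rt ctx16.A10 ctx16.M 10 (Nat.mul m (res ctx16 th)) = yH at h hyH
  obtain ⟨c1, h, lc, ac, mc, vc⟩ := endY_spec h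
  obtain ⟨s1, h, ls, as', ms, vs⟩ := endY_spec h
  obtain ⟨k1, h, lk, ak, mk, vk⟩ := endY_spec h
  obtain ⟨g1, h, lg, ag, mg, vg⟩ := endY_spec h
  obtain ⟨p1, h, lp, ap, mp, vp⟩ := endY_spec h
  obtain ⟨q1, h, lq, aq, mq, vq⟩ := endY_spec h
  obtain ⟨Tc, h, ec, rc, tc⟩ := mkTM_spec lc h
  obtain ⟨Ts, h, es, rs, ts⟩ := mkTM_spec ls h
  obtain ⟨Tk, h, ek, rk, tk⟩ := mkTM_spec lk h
  obtain ⟨Tg, h, eg, rg, tg⟩ := mkTM_spec lg h
  obtain ⟨Tp, h, ep, rp, tp⟩ := mkTM_spec lp h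
  obtain ⟨Tq, h, eq, rq, tq⟩ := mkTM_spec lq h
  obtain ⟨Th, h, eh, rh, tH⟩ := uvTM_spec ctx0_ok hyH h
  have tH' := tH.mono' (Nat.zero_le 16)
  have rh' : Rep 16 (2 ^ 68) Th.N (dpoly yH) := rh.mono' (Nat.zero_le 16) le_rfl
  obtain ⟨CC, fCC, h, rCC, tCC⟩ := mulTM_spec ctx16_ok le_rfl h tc tc
  obtain ⟨KK, fKK, h, rKK, tKK⟩ := mulTM_spec ctx16_ok le_rfl h tk tk
  obtain ⟨CS, fCS, h, rCS, tCS⟩ := mulTM_spec ctx16_ok le_rfl h tc ts
  obtain ⟨KG, fKG, h, rKG, tKG⟩ := mulTM_spec ctx16_ok le_rfl h tk tg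
  obtain ⟨CSCC, fCSCC, h, rCSCC, tCSCC⟩ := mulTM_spec ctx16_ok le_rfl h tCS tCC
  obtain ⟨KGKK, fKGKK, h, rKGKK, tKGKK⟩ := mulTM_spec ctx16_ok le_rfl h tKG tKK
  obtain ⟨P, fP, h, rP, tP⟩ := mulTM_spec ctx16_ok le_rfl h tH' tp
  obtain ⟨Q, fQ, h, rQ, tQ⟩ := mulTM_spec ctx16_ok le_rfl h tH' tq
  obtain ⟨sP, fsP, h, rsP, tsP⟩ := mulTM_spec ctx16_ok le_rfl h ts tP
  obtain ⟨cP, fcP, h, rcP, tcP⟩ := mulTM_spec ctx16_ok le_rfl h tc tP
  obtain ⟨gQ, fgQ, h, rgQ, tgQ⟩ := mulTM_spec ctx16_ok le_rfl h tg tQ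
  obtain ⟨kQ, fkQ, h, rkQ, tkQ⟩ := mulTM_spec ctx16_ok le_rfl h tk tQ
  replace h := STX_isub h
  replace h := STX_fNat h
  replace h := STX_fNat h
  have tJ := STX_sub tCC tKK rCC rKK
  obtain ⟨JQ, fJQ, h, rJQ, tJQ⟩ := mulTM_spec ctx16_ok le_rfl h tJ tQ
  obtain ⟨JP, fJP, h, rJP, tJP⟩ := mulTM_spec ctx16_ok le_rfl h tJ tP
  replace h := STX_imul h
  replace h := STX_imul h
  replace h := STX_imul h
  replace h := STX_isub h
  replace h := STX_iadd h
  replace h := STX_imul h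
  replace h := STX_imul h
  replace h := STX_isub h
  obtain ⟨dc, h, rdc⟩ := dTM_spec lc h
  obtain ⟨ds, h, rds⟩ := dTM_spec ls h
  obtain ⟨dk, h, rdk⟩ := dTM_spec lk h
  obtain ⟨dg, h, rdg⟩ := dTM_spec lg h
  obtain ⟨dp, h, rdp⟩ := dTM_spec lp h
  obtain ⟨dq, h, rdq⟩ := dTM_spec lq h
  obtain ⟨ndc, h, hndc⟩ := l1h_spec ctx16_ok h
  obtain ⟨ndk, h, hndk⟩ := l1h_spec ctx16_ok h
  obtain ⟨ndp, h, hndp⟩ := l1h_spec ctx16_ok h
  obtain ⟨ndq, h, hndq⟩ := l1h_spec ctx16_ok h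
  replace h := STX_isub h
  obtain ⟨resc, h, hresc⟩ := l1h_spec ctx16_ok h
  replace h := STX_isub h
  obtain ⟨ress, h, hress⟩ := l1h_spec ctx16_ok h
  replace h := STX_iadd h
  obtain ⟨resk, h, hresk⟩ := l1h_spec ctx16_ok h
  replace h := STX_isub h
  obtain ⟨resg, h, hresg⟩ := l1h_spec ctx16_ok h
  replace h := STX_imul h
  replace h := STX_imul h
  replace h := STX_imul h
  replace h := STX_isub h
  replace h := STX_isub h
  obtain ⟨resp, h, hresp⟩ := l1h_spec ctx16_ok h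
  replace h := STX_imul h
  replace h := STX_imul h
  replace h := STX_imul h
  replace h := STX_iadd h
  replace h := STX_isub h
  obtain ⟨resq, h, hresq⟩ := l1h_spec ctx16_ok h
  replace h := STX_fNat h
  replace h := STX_imul h
  replace h := STX_isub h
  replace h := STX_imul h
  replace h := STX_imul h
  replace h := STX_imul h
  replace h := STX_imul h
  replace h := STX_iadd h
  replace h := STX_iadd h
  replace h := STX_iadd h
  obtain ⟨n11, h, hn11⟩ := l1_spec ctx16_ok h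
  replace h := STX_imul h
  replace h := STX_isub h
  replace h := STX_imul h
  replace h := STX_imul h
  replace h := STX_imul h
  replace h := STX_isub h
  replace h := STX_iadd h
  obtain ⟨n22, h, hn22⟩ := l1_spec ctx16_ok h
  replace h := STX_imul h
  obtain ⟨n12, h, hn12⟩ := l1_spec ctx16_ok h
  replace h := STX_imul h
  obtain ⟨n21, h, hn21⟩ := l1_spec ctx16_ok h
  obtain ⟨hcond, hk⟩ := STX_fin S lam ⟨yH, L.c, L.s, L.k, L.g, L.p, L.q, c1, s1, k1, g1, p1, q1,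
    Tc, Ts, Tk, Tg, Tp, Tq, Th, CC, KK, CS, KG, CSCC, KGKK, P, Q, sP, cP, gQ, kQ, JQ, JP,
    ndc, ndk, ndp, ndq, resc, ress, resk, resg, resp, resq, n11, n22, n12, n21,
    fCC, fKK, fCS, fKG, fCSCC, fKGKK, fP, fQ, fsP, fcP, fgQ, fkQ, fJQ, fJP⟩ k h
  have hlam := STX_cst_le hcond.lam2
  have e2 : ∀ a : ℤ, ∀ x : ℤ, (C a : ℤ[X]).eval x = a := fun a x => eval_C
  refine ⟨_, ?_, hk⟩
  exact
    { mH := hyH
      c := STX_lok lc ac mc vc ec rc tc
      s := STX_lok ls as' ms vs es rs ts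
      k := STX_lok lk ak mk vk ek rk tk
      g := STX_lok lg ag mg vg eg rg tg
      p := STX_lok lp ap mp vp ep rp tp
      q := STX_lok lq aq mq vq eq rq tq
      h := tH
      h0 := eh
      CC := tCC
      KK := tKK
      CS := tCS
      KG := tKG
      CSCC := tCSCC
      KGKK := tKGKK
      P := tP
      Q := tQ
      sP := tsP
      cP := tcP
      gQ := tgQ
      kQ := tkQ
      JQ := tJQ
      JP := tJP
      ndc := hndc _ rdc.ev fun n => lt_of_le_of_lt (rdc.bd n) (by norm_num)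
      ndk := hndk _ rdk.ev fun n => lt_of_le_of_lt (rdk.bd n) (by norm_num)
      ndp := hndp _ rdp.ev fun n => lt_of_le_of_lt (rdp.bd n) (by norm_num)
      ndq := hndq _ rdq.ev fun n => lt_of_le_of_lt (rdq.bd n) (by norm_num)
      rc := hresc _ (by rw [eval_sub, rdc.ev, rsP.ev]) fun n =>
        lt_of_le_of_lt (STX_subc rdc.bd rsP.bd n) (by norm_num)
      rs := hress _ (by rw [eval_sub, rds.ev, rcP.ev]) fun n =>
        lt_of_le_of_lt (STX_subc rds.bd rcP.bd n) (by norm_num)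
      rk := hresk _ (by rw [eval_add, rdk.ev, rgQ.ev]) fun n =>
        lt_of_le_of_lt (STX_add rdk.bd rgQ.bd n) (by norm_num)
      rg := hresg _ (by rw [eval_sub, rdg.ev, rkQ.ev]) fun n =>
        lt_of_le_of_lt (STX_subc rdg.bd rkQ.bd n) (by norm_num)
      rp := hresp _ (by
          rw [STX_n80, STX_n40]
          simp only [eval_sub, eval_add, eval_mul, e2]
          rw [rdp.ev, rJQ.ev, rh.ev, rCSCC.ev, rCS.ev, rs.ev]) fun n =>
        lt_of_le_of_lt (STX_subc (STX_subc (STX_ltC _ rdp.bd) (STX_ltC _ rJQ.bd))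
          (coeff_mul_le rh'.sup rh'.bd (STX_add (STX_subc (STX_ltC _ rCSCC.bd)
            (STX_ltC _ rCS.bd)) (STX_ltC _ rs.bd))) n) (by norm_num)
      rq := hresq _ (by
          rw [STX_n80, STX_n40]
          simp only [eval_sub, eval_add, eval_mul, e2]
          rw [rdq.ev, rJP.ev, rh.ev, rKGKK.ev, rKG.ev]) fun n =>
        lt_of_le_of_lt (STX_subc (STX_add (STX_ltC _ rdq.bd) (STX_ltC _ rJP.bd))
          (coeff_mul_le rh'.sup rh'.bd (STX_subc (STX_ltC _ rKGKK.bd)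
            (STX_ltC _ rKG.bd))) n) (by norm_num)
      n11 := hn11 _ (by
          rw [STX_n152, STX_n40, STX_cst]
          simp only [eval_sub, eval_add, eval_mul, e2]
          rw [rCC.ev, rq.ev, rCS.ev, rc.ev]) fun n =>
        lt_of_le_of_lt (STX_add (STX_add (STX_add (coeff_mul_le rCC.sup rCC.bd
          (STX_subc (STX_ltC _ rCC.bd) (STX_C _))) (STX_ltC _ (coeff_mul_le rq.sup rq.bd rCS.bd)))
          (STX_ltC _ rc.bd)) (STX_mono (STX_C _) hlam) n) (by norm_num)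
      n22 := hn22 _ (by
          rw [STX_n152, STX_cst]
          simp only [eval_sub, eval_add, eval_mul, e2]
          rw [rKK.ev, rp.ev, rKG.ev]) fun n =>
        lt_of_le_of_lt (STX_add (STX_subc (coeff_mul_le rKK.sup rKK.bd
          (STX_subc (STX_ltC _ rKK.bd) (STX_C _))) (STX_ltC _ (coeff_mul_le rp.sup rp.bd rKG.bd)))
          (STX_mono (STX_C _) hlam) n) (by norm_num)
      n12 := hn12 _ (by rw [eval_mul, rq.ev, rKG.ev]) fun n =>
        lt_of_le_of_lt (coeff_mul_le rq.sup rq.bd rKG.bd n) (by norm_num)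
      n21 := hn21 _ (by rw [eval_mul, rp.ev, rCS.ev]) fun n =>
        lt_of_le_of_lt (coeff_mul_le rp.sup rp.bd rCS.bd n) (by norm_num)
      cond := hcond }

end Pool.Agent.Ecl
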