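import Pool.Agent.Lib_helper51.Ecl.SVDefs
import Pool.Agent.Lib_helper51.EclS.CTXCA
import Pool.Agent.Lib_helper51.EclS.L1SA
import Pool.Agent.Lib_helper51.EclS.VALCA

set_option autoImplicit false

namespace Pool.Agent.Ecl

open Real Polynomial K Set

theorem val_dpoly_pr (y : ℕ) (u v t : ℝ) : val (dpoly y) u v t = w60 * pv y u v := by
  have hw : (w60 : ℝ) ≠ 0 := by unfold w60; positivity
  have h : val (dpoly y) u v t = val (dpoly y) u v 0 := by
    unfold val
    rw [Polynomial.sum_def, Polynomial.sum_def]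
    refine Finset.sum_congr rfl fun n hn => ?_
    have hn' : n < 289 := by
      by_contra hcon
      rw [mem_support_iff] at hn
      apply hn
      unfold dpoly
      rw [finset_sum_coeff]
      refine Finset.sum_eq_zero fun m hm => ?_
      rw [coeff_C_mul, coeff_X_pow, if_neg, mul_zero]
      intro e
      subst e
      unfold vset at hm
      rw [Finset.mem_filter, Finset.mem_range] at hm
      exact hcon hm.1
    have h0 : n / 289 = 0 := Nat.div_eq_of_lt hn'
    unfold mon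
    rw [h0]
    simp
  rw [h]
  unfold pv
  field_simp

theorem TMP.mono'_pr {T T' : ℕ} {A : TM} {f : ℤ[X]} {F : ℝ → ℝ → ℝ → ℝ} (h : TMP T A f F)
    (hT : T ≤ T') : TMP T' A f F :=
  ⟨h.rep.mono' hT le_rfl, h.nr, h.er⟩

theorem uvTM_spec_pr {T : ℕ} {Cx : Ctx} (hC : CtxOK T Cx) {y : ℕ} (hy : Msk y) {k : TM → Bool}
    (h : uvTM Cx false y k = true) : ∃ A : TM, k A = true ∧ A.e = 0 ∧
      Rep 0 (2 ^ 68) A.N (dpoly y) ∧ TMP 0 A (dpoly y) (fun u v _ => pv y u v) := by
  unfold uvTM at h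
  rw [isub_eq] at h
  obtain ⟨r, h, hr⟩ := l1h_spec hC h
  have hrep := dpoly_rep hy
  have hN : Int.ofNat y - Int.ofNat Cx.O = (y : ℤ) - (ctx0.O : ℤ) := by rw [hC.o]; rfl
  rw [← hN] at hrep
  refine ⟨_, h, rfl, hrep, ?_, ?_, ?_⟩
  · exact hrep.mono' le_rfl (by norm_num)
  · exact hr _ hrep.ev (fun n => lt_of_le_of_lt (hrep.bd n) (by norm_num))
  · intro u v t _ _ _ _
    rw [val_dpoly_pr]
    simp

end Pool.Agent.Ecl
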