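import Pool.Agent.Lib_helper51.Ecl.SVDefs

/-! EclS : block VALA -/

set_option autoImplicit false
set_option exponentiation.threshold 300000

namespace Pool.Agent.Ecl

open Real Polynomial K

theorem val_add_pr (f g : ℤ[X]) (u v t : ℝ) : val (f + g) u v t = val f u v t + val g u v t := by
  unfold val
  exact Polynomial.sum_add_index _ _ _ (fun i => by simp) (fun i a b => by push_cast; ring)

theorem val_C_mul_pr (a : ℤ) (f : ℤ[X]) (u v t : ℝ) :
    val (C a * f) u v t = (a : ℝ) * val f u v t := by
  unfold val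
  rw [← Polynomial.smul_eq_C_mul, Polynomial.sum_smul_index _ _ _ (fun i => by simp),
    Polynomial.sum_def, Polynomial.sum_def, Finset.mul_sum]
  refine Finset.sum_congr rfl fun n _ => ?_
  push_cast
  ring

theorem val_sub_pr (f g : ℤ[X]) (u v t : ℝ) : val (f - g) u v t = val f u v t - val g u v t := by
  have h1 : f - g = f + C (-1) * g := by
    rw [map_neg, map_one]
    ring
  rw [h1, val_add_pr, val_C_mul_pr]
  push_cast
  ring

theorem VALA_mon0 (u v t : ℝ) : mon u v t 0 = 1 := by
  unfold mon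
  simp

theorem val_C_pr (a : ℤ) (u v t : ℝ) : val (C a) u v t = (a : ℝ) := by
  unfold val
  rw [Polynomial.sum_C_index (by simp), VALA_mon0, mul_one]

theorem VALA_mon_add {T T' n m : ℕ} (hn : vld T n) (hm : vld T' m) (u v t : ℝ) :
    mon u v t (n + m) = mon u v t n * mon u v t m := by
  unfold mon
  obtain ⟨_, h1⟩ := hn
  obtain ⟨_, h2⟩ := hm
  have e1 : (n + m) % 17 = n % 17 + m % 17 := by omega
  have e2 : (n + m) / 17 % 17 = n / 17 % 17 + m / 17 % 17 := by omega
  have e3 : (n + m) / 289 = n / 289 + m / 289 := by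
    have d1 : ∀ x : ℕ, x / 289 = x / 17 / 17 := fun x => by rw [Nat.div_div_eq_div_mul]
    rw [d1, d1, d1]
    omega
  rw [e1, e2, e3, pow_add, pow_add, pow_add]
  ring

/-- `val` as an additive map -/
noncomputable def VALA_hom (u v t : ℝ) : ℤ[X] →+ ℝ where
  toFun f := val f u v t
  map_zero' := by simp [val]
  map_add' f g := val_add_pr f g u v t

theorem VALA_monomial (n : ℕ) (a : ℤ) (u v t : ℝ) :
    val (monomial n a) u v t = (a : ℝ) * mon u v t n := by
  unfold val
  rw [Polynomial.sum_monomial_index _ _ (by simp)]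

theorem val_mul_pr {T T' : ℕ} {f g : ℤ[X]} (hf : ∀ n, f.coeff n ≠ 0 → vld T n)
    (hg : ∀ n, g.coeff n ≠ 0 → vld T' n) (u v t : ℝ) :
    val (f * g) u v t = val f u v t * val g u v t := by
  have h1 : val (f * g) u v t
      = ∑ i ∈ f.support, ∑ j ∈ g.support, ((f.coeff i * g.coeff j : ℤ) : ℝ) * mon u v t (i + j) := by
    have h2 : f * g = ∑ i ∈ f.support, ∑ j ∈ g.support, monomial (i + j) (f.coeff i * g.coeff j) := by
      rw [Polynomial.mul_eq_sum_sum]
      refine Finset.sum_congr rfl fun i _ => ?_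
      rw [Polynomial.sum_def]
    have h3 : val (f * g) u v t = VALA_hom u v t (f * g) := rfl
    rw [h3, h2, map_sum]
    refine Finset.sum_congr rfl fun i _ => ?_
    rw [map_sum]
    refine Finset.sum_congr rfl fun j _ => ?_
    exact VALA_monomial _ _ u v t
  rw [h1]
  unfold val
  rw [Polynomial.sum_def, Polynomial.sum_def, Finset.sum_mul_sum]
  refine Finset.sum_congr rfl fun i hi => Finset.sum_congr rfl fun j hj => ?_
  rw [VALA_mon_add (hf i (Polynomial.mem_support_iff.mp hi)) (hg j (Polynomial.mem_support_iff.mp hj))]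
  push_cast
  ring

end Pool.Agent.Ecl
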