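import Pool.Agent.Lib_helper51.Ecl.SVDefs

/-! EclS : block VALB -/

set_option autoImplicit false
set_option exponentiation.threshold 300000

namespace Pool.Agent.Ecl

open Real Polynomial K

theorem VALB_mon0 (u v t : ℝ) : mon u v t 0 = 1 := by
  unfold mon
  simp

theorem VALB_mon_le (n : ℕ) {u v t : ℝ} (hu : |u| ≤ 1) (hv : |v| ≤ 1) (ht : 0 ≤ t)
    (ht1 : t ≤ 1) : |mon u v t n| ≤ 1 := by
  unfold mon
  rw [abs_mul, abs_mul, abs_pow, abs_pow, abs_pow]
  have h1 := pow_le_one₀ (n := (n / 17) % 17) (abs_nonneg u) hu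
  have h2 := pow_le_one₀ (n := n % 17) (abs_nonneg v) hv
  have h3 := pow_le_one₀ (n := n / 289) (abs_nonneg t) (by rw [abs_of_nonneg ht]; exact ht1)
  have h4 : |u| ^ ((n / 17) % 17) * |v| ^ (n % 17) ≤ 1 * 1 :=
    mul_le_mul h1 h2 (by positivity) zero_le_one
  calc _ ≤ (1 * 1 : ℝ) * 1 := mul_le_mul h4 h3 (by positivity) (by norm_num)
    _ = 1 := by norm_num

theorem VALB_val_range (f : ℤ[X]) (N : ℕ) (h : f.natDegree < N) (u v t : ℝ) :
    val f u v t = ∑ n ∈ Finset.range N, (f.coeff n : ℝ) * mon u v t n := by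
  unfold val
  exact Polynomial.sum_over_range' f (fun n => by simp) N h

theorem VALB_lnorm_range (f : ℤ[X]) (N : ℕ) (h : f.natDegree < N) :
    lnorm f = ∑ n ∈ Finset.range N, |f.coeff n| := by
  unfold lnorm
  exact Polynomial.sum_over_range' f (fun n => by simp) N h

theorem abs_val_le_pr (f : ℤ[X]) {u v t : ℝ} (hu : |u| ≤ 1) (hv : |v| ≤ 1) (ht : 0 ≤ t)
    (ht1 : t ≤ 1) : |val f u v t| ≤ (lnorm f : ℝ) := by
  rw [VALB_val_range f _ (Nat.lt_succ_self _), VALB_lnorm_range f _ (Nat.lt_succ_self _)]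
  push_cast
  refine (Finset.abs_sum_le_sum_abs _ _).trans (Finset.sum_le_sum fun n _ => ?_)
  rw [abs_mul]
  exact mul_le_of_le_one_right (abs_nonneg _) (VALB_mon_le n hu hv ht ht1)

theorem abs_val_sub_le_pr (f : ℤ[X]) {u v t : ℝ} (hu : |u| ≤ 1) (hv : |v| ≤ 1) (ht : 0 ≤ t)
    (ht1 : t ≤ 1) : |val f u v t - (f.coeff 0 : ℝ)| ≤ (lnorm f : ℝ) - |(f.coeff 0 : ℝ)| := by
  rw [VALB_val_range f _ (Nat.lt_succ_self _), VALB_lnorm_range f _ (Nat.lt_succ_self _),
    Finset.sum_range_succ', Finset.sum_range_succ', VALB_mon0]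
  push_cast
  rw [mul_one, add_sub_cancel_right, add_sub_cancel_right]
  refine (Finset.abs_sum_le_sum_abs _ _).trans (Finset.sum_le_sum fun n _ => ?_)
  rw [abs_mul]
  exact mul_le_of_le_one_right (abs_nonneg _) (VALB_mon_le _ hu hv ht ht1)

theorem lo_le_val_pr (f : ℤ[X]) {nr : ℕ} (h : lnorm f ≤ nr) {u v t : ℝ} (hu : |u| ≤ 1)
    (hv : |v| ≤ 1) (ht : 0 ≤ t) (ht1 : t ≤ 1) : (lo (f.coeff 0) nr : ℝ) ≤ val f u v t ∧
    val f u v t ≤ (hi (f.coeff 0) nr : ℝ) := by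
  have h1 := abs_val_sub_le_pr f hu hv ht ht1
  have h2 : (lnorm f : ℝ) ≤ (nr : ℝ) := by exact_mod_cast h
  rw [abs_le] at h1
  unfold lo hi
  have h3 : (((Int.natAbs (f.coeff 0) : ℕ) : ℤ) : ℝ) = |(f.coeff 0 : ℝ)| := by
    rw [Int.natCast_natAbs]
    push_cast
    rfl
  push_cast
  rw [h3.symm] at h1
  push_cast at h1 ⊢
  constructor <;> linarith [h1.1, h1.2]

theorem lnorm_nonneg_pr (f : ℤ[X]) : 0 ≤ lnorm f := by
  rw [VALB_lnorm_range f _ (Nat.lt_succ_self _)]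
  exact Finset.sum_nonneg fun n _ => abs_nonneg _

theorem lnorm_add_le_pr (f g : ℤ[X]) : lnorm (f + g) ≤ lnorm f + lnorm g := by
  set N := max (max f.natDegree g.natDegree) (f + g).natDegree + 1 with hN
  rw [VALB_lnorm_range f N (by omega), VALB_lnorm_range g N (by omega),
    VALB_lnorm_range (f + g) N (by omega), ← Finset.sum_add_distrib]
  refine Finset.sum_le_sum fun n _ => ?_
  rw [Polynomial.coeff_add]
  exact abs_add_le _ _

theorem lnorm_C_mul_pr (a : ℤ) (f : ℤ[X]) : lnorm (C a * f) = |a| * lnorm f := by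
  unfold lnorm
  rw [← Polynomial.smul_eq_C_mul, Polynomial.sum_smul_index _ _ _ (fun i => by simp),
    Polynomial.sum_def, Polynomial.sum_def, Finset.mul_sum]
  refine Finset.sum_congr rfl fun n _ => ?_
  rw [abs_mul]

theorem lnorm_sub_le_pr (f g : ℤ[X]) : lnorm (f - g) ≤ lnorm f + lnorm g := by
  have h1 : f - g = f + C (-1) * g := by
    rw [map_neg, map_one]
    ring
  have h2 := lnorm_add_le_pr f (C (-1) * g)
  rw [lnorm_C_mul_pr] at h2
  rw [h1]
  simpa using h2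

theorem VALB_monomial (n : ℕ) (a : ℤ) : lnorm (monomial n a) = |a| := by
  unfold lnorm
  rw [Polynomial.sum_monomial_index _ _ (by simp)]

theorem VALB_sum {ι : Type*} (s : Finset ι) (F : ι → ℤ[X]) :
    lnorm (∑ i ∈ s, F i) ≤ ∑ i ∈ s, lnorm (F i) :=
  Finset.le_sum_of_subadditive lnorm (by simp [lnorm]) lnorm_add_le_pr s F

theorem lnorm_mul_le_pr (f g : ℤ[X]) : lnorm (f * g) ≤ lnorm f * lnorm g := by
  have h2 : f * g = ∑ i ∈ f.support, ∑ j ∈ g.support, monomial (i + j) (f.coeff i * g.coeff j) := by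
    rw [Polynomial.mul_eq_sum_sum]
    refine Finset.sum_congr rfl fun i _ => ?_
    rw [Polynomial.sum_def]
  rw [h2]
  refine (VALB_sum _ _).trans ?_
  have h3 : lnorm f * lnorm g = ∑ i ∈ f.support, ∑ j ∈ g.support, |f.coeff i| * |g.coeff j| := by
    unfold lnorm
    rw [Polynomial.sum_def, Polynomial.sum_def, Finset.sum_mul_sum]
  rw [h3]
  refine Finset.sum_le_sum fun i _ => (VALB_sum _ _).trans (Finset.sum_le_sum fun j _ => ?_)
  rw [VALB_monomial, abs_mul]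

theorem coeff_le_lnorm_pr (f : ℤ[X]) (n : ℕ) : |f.coeff n| ≤ lnorm f := by
  rw [VALB_lnorm_range f (max f.natDegree n + 1) (by omega)]
  exact Finset.single_le_sum (f := fun n => |f.coeff n|) (fun i _ => abs_nonneg _)
    (Finset.mem_range.mpr (by omega))

end Pool.Agent.Ecl
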