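import Pool.Agent.Lib_helper51.Ecl.SVDefs

/-! EclS : block VALC -/

set_option autoImplicit false
set_option exponentiation.threshold 300000

namespace Pool.Agent.Ecl

open Real Polynomial K

theorem vld_mono_pr {T T' n : ℕ} (h : T ≤ T') (hn : vld T n) : vld T' n :=
  ⟨hn.1.trans h, hn.2⟩

theorem VALC_card : ((Finset.range 4913).filter
    (fun n => (n / 17) % 17 + n % 17 ≤ 8)).card = 765 := by
  decide +kernel

theorem coeff_mul_le_pr {f g : ℤ[X]} {a b : ℤ} (hf : ∀ n, f.coeff n ≠ 0 → vld 16 n)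
    (ha : ∀ n, |f.coeff n| ≤ a) (hb : ∀ n, |g.coeff n| ≤ b) (n : ℕ) :
    |(f * g).coeff n| ≤ 765 * a * b := by
  have ha0 : 0 ≤ a := (abs_nonneg _).trans (ha 0)
  have hb0 : 0 ≤ b := (abs_nonneg _).trans (hb 0)
  rw [Polynomial.coeff_mul, Finset.Nat.sum_antidiagonal_eq_sum_range_succ
    (f := fun i j => f.coeff i * g.coeff j)]
  refine (Finset.abs_sum_le_sum_abs _ _).trans ?_
  set P : ℕ → Prop := fun n => (n / 17) % 17 + n % 17 ≤ 8 with hP
  have h1 : ∀ i ∈ Finset.range n.succ, |f.coeff i * g.coeff (n - i)|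
      ≤ if i ∈ (Finset.range 4913).filter (fun n => (n / 17) % 17 + n % 17 ≤ 8) then a * b else 0 := by
    intro i _
    split_ifs with h
    · rw [abs_mul]
      exact mul_le_mul (ha i) (hb _) (abs_nonneg _) ha0
    · have h2 : f.coeff i = 0 := by
        by_contra h3
        obtain ⟨h4, h5⟩ := hf i h3
        refine h (Finset.mem_filter.mpr ⟨Finset.mem_range.mpr ?_, h5⟩)
        omega
      rw [h2, zero_mul, abs_zero]
  refine (Finset.sum_le_sum h1).trans ?_
  rw [← Finset.sum_filter, Finset.sum_const, nsmul_eq_mul]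
  have h2 : ((Finset.range n.succ).filter
      (fun i => i ∈ (Finset.range 4913).filter (fun n => (n / 17) % 17 + n % 17 ≤ 8))).card ≤ 765 := by
    rw [← VALC_card]
    refine Finset.card_le_card fun i hi => ?_
    exact (Finset.mem_filter.mp hi).2
  have h3 : (((Finset.range n.succ).filter
      (fun i => i ∈ (Finset.range 4913).filter (fun n => (n / 17) % 17 + n % 17 ≤ 8))).card : ℤ)
      ≤ 765 := by exact_mod_cast h2
  rw [mul_assoc]
  exact mul_le_mul_of_nonneg_right h3 (mul_nonneg ha0 hb0)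

theorem Rep.add'_pr {T : ℕ} {b b' N N' : ℤ} {f g : ℤ[X]} (hf : Rep T b N f) (hg : Rep T b' N' g) :
    Rep T (b + b') (N + N') (f + g) := by
  refine ⟨?_, ?_, ?_⟩
  · rw [Polynomial.eval_add, hf.ev, hg.ev]
  · intro n hn
    rw [Polynomial.coeff_add] at hn
    by_cases h : f.coeff n = 0
    · rw [h, zero_add] at hn
      exact hg.sup n hn
    · exact hf.sup n h
  · intro n
    rw [Polynomial.coeff_add]
    exact (abs_add_le _ _).trans (add_le_add (hf.bd n) (hg.bd n))

theorem Rep.sub'_pr {T : ℕ} {b b' N N' : ℤ} {f g : ℤ[X]} (hf : Rep T b N f) (hg : Rep T b' N' g) :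
    Rep T (b + b') (N - N') (f - g) := by
  refine ⟨?_, ?_, ?_⟩
  · rw [Polynomial.eval_sub, hf.ev, hg.ev]
  · intro n hn
    rw [Polynomial.coeff_sub] at hn
    by_cases h : f.coeff n = 0
    · refine hg.sup n fun h2 => hn ?_
      rw [h, h2, sub_zero]
    · exact hf.sup n h
  · intro n
    rw [Polynomial.coeff_sub]
    exact (abs_sub _ _).trans (add_le_add (hf.bd n) (hg.bd n))

theorem Rep.mono'_pr {T T' : ℕ} {b b' N : ℤ} {f : ℤ[X]} (hf : Rep T b N f) (hT : T ≤ T')
    (hb : b ≤ b') : Rep T' b' N f :=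
  ⟨hf.ev, fun n hn => vld_mono_pr hT (hf.sup n hn), fun n => (hf.bd n).trans hb⟩

end Pool.Agent.Ecl
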